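import Pool.Agent.Lib.H37R.Elem

/-!
# Chunk ASSEMBLY (PROOF.md 5): the countable submodel.  Pure model theory, independent of all the rest.

`M` is an (uncountable) structure, `𝔛` a type of oracles; the oracle `x` codes the sets `dset x k p` for
`k : ℕ`, `p : M` with `ok x k p`.

Proof.  Fix (choice) for every `x, k, p` with `ok x k p` and `Stable (dset x k p)` the next oracle
`nxt x k p` and the code `k', p'` of the homogeneous set.  A request is `(t', k, p)`.  For a list `r` of
requests define `xs r : 𝔛` by `xs [] = x0`, `xs (q :: r) = nxt (xs r) k'' p` if the set with code `(k, p)`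
relative to `xs (the last t' elements of r)` is stable (`k''` = its code relative to `xs r`), else
`xs (q :: r) = xs r`.  Let `N ⊆ M` be a countable set closed under `0, 1, +, *`, under Skolem functions for
all formulas `φ : Fm` whose set variables are sets `dset (xs r) k p` with `r`, `p` from `N` (choose a witness
for every formula with parameters), under the choice of the parameters `p'` of the solutions for requests
from `N`, and of the parameters given by `dca`, and containing `κ` and the parameter of the tree.  (Countably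
many finitary functions `List M → M`: `closure_lemma`.)  Tarski-Vaught: `N` is elementary in `M` for all
formulas with such set parameters.  Enumerate the requests from `N`, `r_0, r_1, ...`, such that every request
`(t', k, p)` occurs at an index `≥ t'`; put `X t = xs [r_(t-1), ..., r_0]`, and
`S = {Y ∩ N : Y = dset (X t) k p, ok, p ∈ N}`.  All axioms are transferred by elementarity.
-/

namespace Pool.Agent.Lib.H37R

namespace ASM

open ELEM

def ex (i : ℕ) (φ : Fm) : Fm := .neg (.all i (.neg φ))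
def imp (φ ψ : Fm) : Fm := .neg (.and φ (.neg ψ))
def prT (s t : Tm) : Tm := .add (.mul (.add s t) (.add s t)) s

section
variable {M : Type*} [Zero M] [One M] [Add M] [Mul M] [LT M] (V : ℕ → Set M) (v : ℕ → M)

theorem sat_ex (i : ℕ) (φ : Fm) : (ex i φ).sat V v ↔ ∃ a, φ.sat V (Function.update v i a) := by
  simp [ex, Fm.sat]

theorem sat_imp (φ ψ : Fm) : (imp φ ψ).sat V v ↔ (φ.sat V v → ψ.sat V v) := by
  simp [imp, Fm.sat]

theorem sat_all (i : ℕ) (φ : Fm) :
    (Fm.all i φ).sat V v ↔ ∀ a, φ.sat V (Function.update v i a) := Iff.rfl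

theorem sat_and (φ ψ : Fm) : (Fm.and φ ψ).sat V v ↔ (φ.sat V v ∧ ψ.sat V v) := Iff.rfl

theorem sat_neg (φ : Fm) : (Fm.neg φ).sat V v ↔ ¬ φ.sat V v := Iff.rfl

theorem sat_eq (s t : Tm) : (Fm.eq s t).sat V v ↔ s.ev v = t.ev v := Iff.rfl

theorem sat_lt (s t : Tm) : (Fm.lt s t).sat V v ↔ s.ev v < t.ev v := Iff.rfl

theorem sat_mem (s : Tm) (n : ℕ) : (Fm.mem s n).sat V v ↔ s.ev v ∈ V n := Iff.rfl

omit [LT M] in
theorem ev_prT (s t : Tm) : (prT s t).ev v = pr (s.ev v) (t.ev v) := rfl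
omit [LT M] in
theorem ev_var (i : ℕ) : (Tm.var i).ev v = v i := rfl
omit [LT M] in
theorem ev_add (s t : Tm) : (Tm.add s t).ev v = s.ev v + t.ev v := rfl
omit [LT M] in
theorem ev_mul (s t : Tm) : (Tm.mul s t).ev v = s.ev v * t.ev v := rfl
omit [LT M] in
theorem ev_zero : (Tm.zero).ev v = 0 := rfl
omit [LT M] in
theorem ev_one : (Tm.one).ev v = 1 := rfl

/-- `∀ a, (∃ b, φ a b) → ∃ b, φ (a + 1) b` -/
def stepFm (φ : Fm) (i j : ℕ) : Fm :=
  .all (max (fbd φ) (max (i + 1) (j + 1)))
    (imp (.all i (imp (.eq (.var i) (.var (max (fbd φ) (max (i + 1) (j + 1))))) (ex j φ)))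
      (.all i (imp (.eq (.var i) (.add (.var (max (fbd φ) (max (i + 1) (j + 1)))) .one)) (ex j φ))))

theorem sat_step (φ : Fm) (i j : ℕ) : (stepFm φ i j).sat V v ↔
    ∀ a, (∃ b, φ.sat V (upd v i a j b)) → ∃ b, φ.sat V (upd v i (a + 1) j b) := by
  unfold stepFm
  set m := max (fbd φ) (max (i + 1) (j + 1)) with hm
  have h1 : fbd φ ≤ m := le_max_left _ _
  have h2 : i + 1 ≤ m := le_trans (le_max_left _ _) (le_max_right _ _)
  have hmi : m ≠ i := by omega
  have hfr : ∀ c a b, φ.sat V (Function.update (Function.update (Function.update v m c) i a) j b) ↔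
      φ.sat V (upd v i a j b) := by
    intro c a b
    refine sat_congr φ V V _ _ (fun _ _ => rfl)
      (update_congr (update_congr (fun n hn => ?_) i a) j b)
    exact Function.update_of_ne (by omega) _ _
  simp only [sat_all, sat_imp, sat_ex, sat_eq, ev_var, ev_add, ev_one, hfr, Function.update_self,
    Function.update_of_ne hmi, forall_eq]

/-- `∀ a, (∃ b, φ a b) ↔ ∀ b, ψ a b` -/
def dcaFm (φ ψ : Fm) (i j : ℕ) : Fm :=
  .all i (.and (imp (ex j φ) (.all j ψ)) (imp (.all j ψ) (ex j φ)))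

theorem sat_dca (φ ψ : Fm) (i j : ℕ) : (dcaFm φ ψ i j).sat V v ↔
    ∀ a, (∃ b, φ.sat V (upd v i a j b)) ↔ ∀ b, ψ.sat V (upd v i a j b) := by
  simp only [dcaFm, sat_all, sat_and, sat_imp, sat_ex, upd, iff_iff_implies_and_implies]

def stableFm : Fm :=
  .all 0 (ex 1 (.all 2 (.all 3 (imp (.lt (.var 1) (.var 2)) (imp (.lt (.var 1) (.var 3))
    (imp (.lt (.var 0) (.var 2)) (imp (.lt (.var 0) (.var 3))
      (.and (imp (.mem (prT (.var 0) (.var 2)) 0) (.mem (prT (.var 0) (.var 3)) 0))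
        (imp (.mem (prT (.var 0) (.var 3)) 0) (.mem (prT (.var 0) (.var 2)) 0))))))))))

theorem sat_stable : stableFm.sat V v ↔ Stable (V 0) := by
  simp [stableFm, Stable, sat_all, sat_ex, sat_imp, sat_and, sat_lt, sat_mem, ev_prT, ev_var,
    Function.update_apply, iff_iff_implies_and_implies]

def unbddFm : Fm := .all 0 (ex 1 (.and (.mem (.var 1) 0) (.lt (.var 0) (.var 1))))

theorem sat_unbdd : unbddFm.sat V v ↔ Unbdd (V 0) := by
  simp [unbddFm, Unbdd, sat_all, sat_ex, sat_and, sat_lt, sat_mem, ev_var,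
    Function.update_apply]

/-- `Len x_s x_l` -/
def lenFm (s l : ℕ) : Fm :=
  ex 20 (ex 21 (.eq (.var s) (prT (prT (.var 20) (.var 21)) (.var l))))

theorem sat_len (s l : ℕ) (hs : s < 20) (hl : l < 20) : (lenFm s l).sat V v ↔ Len (v s) (v l) := by
  have h1 : s ≠ 20 := by omega
  have h2 : s ≠ 21 := by omega
  have h3 : l ≠ 20 := by omega
  have h4 : l ≠ 21 := by omega
  simp [lenFm, Len, sat_ex, sat_eq, ev_prT, ev_var, Function.update_apply, h1, h2, h3, h4]

/-- `Ent x_s x_i x_u` -/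
def entFm (s i u : ℕ) : Fm :=
  ex 20 (ex 21 (ex 22 (ex 23 (.and (.eq (.var s) (prT (prT (.var 20) (.var 21)) (.var 22)))
    (.and (.lt (.var i) (.var 22))
      (.and (.eq (.var 20) (.add (.mul (.var 23) (.add (.mul (.var 21) (.add (.var i) .one)) .one))
        (.var u)))
        (.lt (.var u) (.add (.mul (.var 21) (.add (.var i) .one)) .one))))))))

theorem sat_ent (s i u : ℕ) (hs : s < 20) (hi : i < 20) (hu : u < 20) :
    (entFm s i u).sat V v ↔ Ent (v s) (v i) (v u) := by
  have h1 : s ≠ 20 := by omega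
  have h2 : s ≠ 21 := by omega
  have h3 : s ≠ 22 := by omega
  have h4 : s ≠ 23 := by omega
  have k1 : i ≠ 20 := by omega
  have k2 : i ≠ 21 := by omega
  have k3 : i ≠ 22 := by omega
  have k4 : i ≠ 23 := by omega
  have l1 : u ≠ 20 := by omega
  have l2 : u ≠ 21 := by omega
  have l3 : u ≠ 22 := by omega
  have l4 : u ≠ 23 := by omega
  simp [entFm, Ent, sat_ex, sat_eq, sat_and, sat_lt, ev_prT, ev_var, ev_add, ev_mul, ev_one,
    Function.update_apply, h1, h2, h3, h4, k1, k2, k3, k4, l1, l2, l3, l4]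

/-- `IsTree x_0 X_0` -/
def treeFm : Fm :=
  .and (.all 1 (imp (.mem (.var 1) 0) (ex 2 (lenFm 1 2))))
    (.and (.all 1 (imp (.mem (.var 1) 0) (.all 2 (.all 3 (imp (lenFm 1 2) (imp (.lt (.var 3) (.var 2))
      (ex 4 (.and (.lt (.var 4) (.var 0)) (entFm 1 3 4)))))))))
      (.all 1 (imp (.mem (.var 1) 0) (.all 2 (.all 3 (.all 4 (imp (lenFm 1 3) (imp (lenFm 2 4)
        (imp (.neg (.and (.neg (.lt (.var 4) (.var 3))) (.neg (.eq (.var 4) (.var 3)))))
          (imp (.all 5 (imp (.lt (.var 5) (.var 4)) (.all 6 (.and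
            (imp (entFm 2 5 6) (entFm 1 5 6)) (imp (entFm 1 5 6) (entFm 2 5 6))))))
              (.mem (.var 2) 0)))))))))))

theorem sat_tree : treeFm.sat V v ↔ IsTree (v 0) (V 0) := by
  constructor
  · rintro ⟨h1, h2, h3⟩
    refine ⟨?_, ?_, ?_⟩
    · intro s hs
      simp only [sat_all, sat_imp, sat_ex, sat_mem, ev_var] at h1
      obtain ⟨l, hl⟩ := h1 s (by simpa using hs)
      rw [sat_len _ _ _ _ (by norm_num) (by norm_num)] at hl
      exact ⟨l, by simpa [Function.update_apply] using hl⟩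
    · intro s hs l i hl hi
      simp only [sat_all, sat_imp, sat_ex, sat_mem, sat_and, sat_lt, ev_var,
        sat_len _ _ _ _ (show 1 < 20 by norm_num) (show 2 < 20 by norm_num),
        sat_ent _ _ _ _ _ (show 1 < 20 by norm_num) (show 3 < 20 by norm_num)
          (show 4 < 20 by norm_num)] at h2
      simpa [Function.update_apply] using h2 s (by simpa using hs) l i
        (by simpa [Function.update_apply] using hl) (by simpa [Function.update_apply] using hi)
    · intro s hs s' l l' hl hl' hll hE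
      simp only [sat_all, sat_imp, sat_ex, sat_mem, sat_and, sat_lt, sat_neg, sat_eq, ev_var,
        sat_len _ _ _ _ (show 1 < 20 by norm_num) (show 3 < 20 by norm_num),
        sat_len _ _ _ _ (show 2 < 20 by norm_num) (show 4 < 20 by norm_num),
        sat_ent _ _ _ _ _ (show 1 < 20 by norm_num) (show 5 < 20 by norm_num)
          (show 6 < 20 by norm_num),
        sat_ent _ _ _ _ _ (show 2 < 20 by norm_num) (show 5 < 20 by norm_num)
          (show 6 < 20 by norm_num)] at h3
      simpa [Function.update_apply] using h3 s (by simpa using hs) s' l l'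
        (by simpa [Function.update_apply] using hl) (by simpa [Function.update_apply] using hl')
        (by simp only [Function.update_apply]; simp; tauto)
        (fun i hi u => by
          simp [Function.update_apply] at hi ⊢
          exact ⟨(hE i hi u).1, (hE i hi u).2⟩)
  · rintro ⟨h1, h2, h3⟩
    refine ⟨?_, ?_, ?_⟩
    · simp only [sat_all, sat_imp, sat_ex, sat_mem, ev_var,
        sat_len _ _ _ _ (show 1 < 20 by norm_num) (show 2 < 20 by norm_num)]
      intro s hs
      obtain ⟨l, hl⟩ := h1 s (by simpa using hs)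
      exact ⟨l, by simpa [Function.update_apply] using hl⟩
    · simp only [sat_all, sat_imp, sat_ex, sat_mem, sat_and, sat_lt, ev_var,
        sat_len _ _ _ _ (show 1 < 20 by norm_num) (show 2 < 20 by norm_num),
        sat_ent _ _ _ _ _ (show 1 < 20 by norm_num) (show 3 < 20 by norm_num)
          (show 4 < 20 by norm_num)]
      intro s hs l i hl hi
      simpa [Function.update_apply] using h2 s (by simpa using hs) l i
        (by simpa [Function.update_apply] using hl) (by simpa [Function.update_apply] using hi)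
    · simp only [sat_all, sat_imp, sat_ex, sat_mem, sat_and, sat_lt, sat_neg, sat_eq, ev_var,
        sat_len _ _ _ _ (show 1 < 20 by norm_num) (show 3 < 20 by norm_num),
        sat_len _ _ _ _ (show 2 < 20 by norm_num) (show 4 < 20 by norm_num),
        sat_ent _ _ _ _ _ (show 1 < 20 by norm_num) (show 5 < 20 by norm_num)
          (show 6 < 20 by norm_num),
        sat_ent _ _ _ _ _ (show 2 < 20 by norm_num) (show 5 < 20 by norm_num)
          (show 6 < 20 by norm_num)]
      intro s hs s' l l' hl hl' hll hE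
      simp only [Function.update_apply] at hs hl hl' hll hE ⊢
      simp at hs hl hl' hll hE ⊢
      exact h3 s hs s' l l' hl hl' (by tauto) (fun i hi u => ⟨(hE i hi u).1, (hE i hi u).2⟩)

/-- `InfTree X_0` -/
def infFm : Fm := .all 0 (ex 1 (.and (.mem (.var 1) 0) (lenFm 1 0)))

theorem sat_inf : infFm.sat V v ↔ InfTree (V 0) := by
  simp only [infFm, InfTree, sat_all, sat_ex, sat_and, sat_mem, ev_var,
    sat_len _ _ _ _ (show 1 < 20 by norm_num) (show 0 < 20 by norm_num)]
  simp [Function.update_apply]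

/-- `HomTree X_0 X_1 x_0` -/
def homFm : Fm := .all 1 (ex 2 (.and (.mem (.var 2) 0) (.and (lenFm 2 1)
  (.all 3 (imp (.mem (.var 3) 1) (imp (.lt (.var 3) (.var 1)) (entFm 2 3 0)))))))

theorem sat_hom : homFm.sat V v ↔ HomTree (V 0) (V 1) (v 0) := by
  simp only [homFm, HomTree, sat_all, sat_ex, sat_and, sat_mem, sat_imp, sat_lt, ev_var,
    sat_len _ _ _ _ (show 2 < 20 by norm_num) (show 1 < 20 by norm_num),
    sat_ent _ _ _ _ _ (show 2 < 20 by norm_num) (show 3 < 20 by norm_num)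
          (show 0 < 20 by norm_num)]
  simp [Function.update_apply]

end

/-- the core: axioms in the elementary submodel -/
theorem core {M N : Type} [Zero M] [One M] [Add M] [Mul M] [LT M] [Zero N] [One N] [Add N] [Mul N]
    [LT N] {𝔛 : Type*} (dset : 𝔛 → ℕ → M → Set M) (ok : 𝔛 → ℕ → M → Prop) (X : ℕ → 𝔛) (ι : N → M)
    (basic : (∀ n : M, n + 1 ≠ 0) ∧ (∀ m n : M, m + 1 = n + 1 → m = n) ∧
      (∀ m : M, m + 0 = m) ∧ (∀ m n : M, m + (n + 1) = (m + n) + 1) ∧ (∀ m : M, m * 0 = 0) ∧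
      (∀ m n : M, m * (n + 1) = m * n + m) ∧ (∀ m : M, ¬ m < 0) ∧
      (∀ m n : M, m < n + 1 ↔ (m < n ∨ m = n)))
    (sind : ∀ (x : 𝔛) (φ : Fm), φ.D0 → ∀ (i j : ℕ) (v : ℕ → M) (V : ℕ → Set M),
      (∀ n, ∃ k p, ok x k p ∧ V n = dset x k p) →
      (∃ b, φ.sat V (upd v i 0 j b)) →
      (∀ a, (∃ b, φ.sat V (upd v i a j b)) → ∃ b, φ.sat V (upd v i (a + 1) j b)) →
      ∀ a, ∃ b, φ.sat V (upd v i a j b))
    (dca : ∀ (x : 𝔛) (φ ψ : Fm), φ.D0 → ψ.D0 → ∀ (i j : ℕ) (v : ℕ → M) (V : ℕ → Set M),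
      (∀ n, ∃ k p, ok x k p ∧ V n = dset x k p) →
      (∀ a, (∃ b, φ.sat V (upd v i a j b)) ↔ ∀ b, ψ.sat V (upd v i a j b)) →
      ∃ k p, ok x k p ∧ ∀ a, a ∈ dset x k p ↔ ∃ b, φ.sat V (upd v i a j b))
    (κ : M) (TS : Set M) (htree : IsTree κ TS) (hinf : InfTree TS)
    (nh : ∀ (x : 𝔛) k p, ok x k p → Unbdd (dset x k p) → ∀ c, c < κ →
      ¬ HomTree TS (dset x k p) c)
    (hel : ∀ t (k : ℕ → ℕ) (p : ℕ → N) (φ : Fm) (v : ℕ → N),
      φ.sat (fun n => ι ⁻¹' (dset (X t) (k n) (ι (p n)))) v ↔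
        φ.sat (fun n => dset (X t) (k n) (ι (p n))) (fun n => ι (v n)))
    (hmono : ∀ t k p, ok (X t) k p → ∃ k', ok (X (t + 1)) k' p ∧
      dset (X (t + 1)) k' p = dset (X t) k p)
    (hsol : ∀ t k (p : N), ok (X t) k (ι p) → Stable (dset (X t) k (ι p)) →
      ∃ t' k' , ∃ p' : N, ok (X t') k' (ι p') ∧ Unbdd (dset (X t') k' (ι p')) ∧
        ∃ c : Prop, ∀ a ∈ dset (X t') k' (ι p'), ∀ b ∈ dset (X t') k' (ι p'), a < b →
          (pr a b ∈ dset (X t) k (ι p) ↔ c))
    (hdca : ∀ t (k : ℕ → ℕ) (p : ℕ → N) (φ : Fm) (i j : ℕ) (v : ℕ → N),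
      (∃ k' p', ok (X t) k' p' ∧ dset (X t) k' p' =
        {a | ∃ b, φ.sat (fun n => dset (X t) (k n) (ι (p n))) (upd (fun n => ι (v n)) i a j b)}) →
      ∃ k' , ∃ p' : N, ok (X t) k' (ι p') ∧ dset (X t) k' (ι p') =
        {a | ∃ b, φ.sat (fun n => dset (X t) (k n) (ι (p n))) (upd (fun n => ι (v n)) i a j b)})
    (hκ : ∃ κ' : N, ι κ' = κ)
    (hT : ∃ k, ∃ p : N, ok (X 0) k (ι p) ∧ dset (X 0) k (ι p) = TS) :
    ∃ S : Set (Set N), RCA0 N S ∧ SRT22 S ∧ ¬ ∀ k : N, RWKL S k := by
  -- monotonicity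
  have mono : ∀ t t', t ≤ t' → ∀ k p, ok (X t) k p → ∃ k', ok (X t') k' p ∧
      dset (X t') k' p = dset (X t) k p := by
    intro t t' htt'
    induction t', htt' using Nat.le_induction with
    | base => exact fun k p h => ⟨k, h, rfl⟩
    | succ t' _ ih =>
      intro k p h
      obtain ⟨k', h1, h2⟩ := ih k p h
      obtain ⟨k'', h3, h4⟩ := hmono t' k' p h1
      exact ⟨k'', h3, h4.trans h2⟩
  -- homomorphism facts
  have hcod : ∀ t, ∀ φ : Fm, ∀ v : ℕ → N, φ.sat (fun _ => ι ⁻¹' (dset (X t) 0 (ι 0))) v ↔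
      φ.sat (fun _ => dset (X t) 0 (ι 0)) (fun n => ι (v n)) := fun t φ v =>
    hel t (fun _ => 0) (fun _ => 0) φ v
  have hinj : ∀ a b : N, ι a = ι b ↔ a = b := by
    intro a b
    have := hcod 0 (.eq (.var 0) (.var 1)) (fun n => if n = 0 then a else b)
    simpa [sat_eq, ev_var] using this.symm
  have hlt : ∀ a b : N, ι a < ι b ↔ a < b := by
    intro a b
    have := hcod 0 (.lt (.var 0) (.var 1)) (fun n => if n = 0 then a else b)
    simpa [sat_lt, ev_var] using this.symm
  have h0 : ι 0 = 0 := by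
    have := hcod 0 (.eq (.var 0) .zero) (fun _ => 0)
    simpa [sat_eq, ev_var, ev_zero] using this
  have h1 : ι 1 = 1 := by
    have := hcod 0 (.eq (.var 0) .one) (fun _ => 1)
    simpa [sat_eq, ev_var, ev_one] using this
  have hadd : ∀ a b : N, ι (a + b) = ι a + ι b := by
    intro a b
    have := hcod 0 (.eq (.var 2) (.add (.var 0) (.var 1)))
      (fun n => if n = 0 then a else if n = 1 then b else a + b)
    simpa [sat_eq, ev_var, ev_add] using this
  have hmul : ∀ a b : N, ι (a * b) = ι a * ι b := by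
    intro a b
    have := hcod 0 (.eq (.var 2) (.mul (.var 0) (.var 1)))
      (fun n => if n = 0 then a else if n = 1 then b else a * b)
    simpa [sat_eq, ev_var, ev_mul] using this
  have hpr : ∀ a b : N, ι (pr a b) = pr (ι a) (ι b) := by
    intro a b
    simp [pr, hadd, hmul]
  have hupd : ∀ (v : ℕ → N) (i : ℕ) (a : N), (fun n => ι (Function.update v i a n)) =
      Function.update (fun n => ι (v n)) i (ι a) := by
    intro v i a
    funext n
    by_cases hn : n = i
    · subst hn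
      simp
    · simp [Function.update_of_ne hn]
  -- the second order part
  let S : Set (Set N) := {Z | ∃ t k, ∃ p : N, ok (X t) k (ι p) ∧ Z = ι ⁻¹' dset (X t) k (ι p)}
  have common : ∀ (V : ℕ → Set N), (∀ n, V n ∈ S) → ∀ m : ℕ, ∃ t, ∃ k : ℕ → ℕ, ∃ p : ℕ → N,
      (∀ n, ok (X t) (k n) (ι (p n))) ∧ ∀ n < m, V n = ι ⁻¹' dset (X t) (k n) (ι (p n)) := by
    intro V hV m
    choose t k p hok hVd using hV
    let T := (Finset.range (m + 1)).sup t
    have hT' : ∀ n ≤ m, t n ≤ T := fun n hn =>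
      Finset.le_sup (f := t) (Finset.mem_range.2 (Nat.lt_succ_of_le hn))
    let q : ℕ → ℕ := fun n => if n < m then n else 0
    have hq : ∀ n, q n ≤ m := by
      intro n
      simp only [q]
      split_ifs <;> omega
    have hk : ∀ n, ∃ k', ok (X T) k' (ι (p (q n))) ∧
        dset (X T) k' (ι (p (q n))) = dset (X (t (q n))) (k (q n)) (ι (p (q n))) := fun n =>
      mono _ _ (hT' _ (hq n)) _ _ (hok (q n))
    choose k' hk1 hk2 using hk
    refine ⟨T, k', fun n => p (q n), hk1, fun n hn => ?_⟩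
    have hqn : q n = n := by simp [q, hn]
    rw [hk2 n, hqn]
    exact hVd n
  have hsatN : ∀ (φ : Fm) (V : ℕ → Set N) t (k : ℕ → ℕ) (p : ℕ → N) (m : ℕ), sbd φ ≤ m →
      (∀ n < m, V n = ι ⁻¹' dset (X t) (k n) (ι (p n))) → ∀ v : ℕ → N,
      (φ.sat V v ↔ φ.sat (fun n => dset (X t) (k n) (ι (p n))) (fun n => ι (v n))) := by
    intro φ V t k p m hm hV v
    rw [sat_congr φ V (fun n => ι ⁻¹' (dset (X t) (k n) (ι (p n)))) v v
      (fun n hn => hV n (lt_of_lt_of_le hn hm)) (fun _ _ => rfl)]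
    exact hel t k p φ v
  have hexN : ∀ (φ : Fm) (V : ℕ → Set N) t (k : ℕ → ℕ) (p : ℕ → N) (m : ℕ), sbd φ ≤ m →
      (∀ n < m, V n = ι ⁻¹' dset (X t) (k n) (ι (p n))) → ∀ (v : ℕ → N) (i j : ℕ) (a : N),
      ((∃ b, φ.sat V (upd v i a j b)) ↔
        ∃ b, φ.sat (fun n => dset (X t) (k n) (ι (p n))) (upd (fun n => ι (v n)) i (ι a) j b)) := by
    intro φ V t k p m hm hV v i j a
    have := hsatN (ex j φ) V t k p m hm hV (Function.update v i a)
    rw [sat_ex, sat_ex, hupd] at this
    exact this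
  refine ⟨S, ?_, ?_, ?_⟩
  · refine ⟨?_, ?_, ?_, ?_, ?_, ?_, ?_, ?_, ?_, ?_, ?_⟩
    · intro n hn
      apply basic.1 (ι n)
      rw [← h1, ← hadd, hn, h0]
    · intro m n hmn
      rw [← hinj]
      apply basic.2.1
      rw [← h1, ← hadd, ← hadd, hmn]
    · intro m
      rw [← hinj, hadd, h0]
      exact basic.2.2.1 _
    · intro m n
      rw [← hinj]
      simp only [hadd, h1]
      exact basic.2.2.2.1 _ _
    · intro m
      rw [← hinj]
      simp only [hmul, h0]
      exact basic.2.2.2.2.1 _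
    · intro m n
      rw [← hinj]
      simp only [hmul, hadd, h1]
      exact basic.2.2.2.2.2.1 _ _
    · intro m
      rw [← hlt, h0]
      exact basic.2.2.2.2.2.2.1 _
    · intro m n
      rw [← hlt, ← hlt, ← hinj]
      simp only [hadd, h1]
      exact basic.2.2.2.2.2.2.2 _ _
    · obtain ⟨k, p, hk, -⟩ := hT
      exact ⟨_, 0, k, p, hk, rfl⟩
    · intro φ hφ i j v V hV hz hs a
      obtain ⟨t, k, p, hok, hVm⟩ := common V hV (sbd φ)
      rw [hexN φ V t k p _ le_rfl hVm] at hz ⊢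
      refine sind (X t) φ hφ i j _ _ (fun n => ⟨_, _, hok n, rfl⟩) (by rw [h0] at hz; exact hz) ?_ _
      have hst : (stepFm φ i j).sat V v := (sat_step V v φ i j).2 hs
      rw [hsatN (stepFm φ i j) V t k p (sbd φ) (by simp [stepFm, sbd, imp, ex]) hVm v,
        sat_step] at hst
      exact hst
    · intro φ ψ hφ hψ i j v V hV hiff
      obtain ⟨t, k, p, hok, hVm⟩ := common V hV (max (sbd φ) (sbd ψ))
      have hst : (dcaFm φ ψ i j).sat V v := (sat_dca V v φ ψ i j).2 hiff
      rw [hsatN (dcaFm φ ψ i j) V t k p _ (by simp only [dcaFm, sbd, imp, ex]; omega) hVm v, sat_dca] at hst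
      obtain ⟨k1, p1, hok1, h2⟩ := dca (X t) φ ψ hφ hψ i j _ _ (fun n => ⟨_, _, hok n, rfl⟩) hst
      obtain ⟨k2, p2, hok2, h3⟩ := hdca t k p φ i j v ⟨k1, p1, hok1, by ext a; exact h2 a⟩
      refine ⟨_, ⟨t, k2, p2, hok2, rfl⟩, fun a => ?_⟩
      rw [hexN φ V t k p _ (le_max_left _ _) hVm v i j a, h3]
      rfl
  · rintro C ⟨t, k, p, hok, rfl⟩ hst
    have h2 := (sat_stable (fun _ => ι ⁻¹' dset (X t) k (ι p)) (fun _ => (0 : N))).2 hst
    rw [hel t (fun _ => k) (fun _ => p), sat_stable] at h2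
    obtain ⟨t', k', p', h3, h4, c, h5⟩ := hsol t k p hok h2
    refine ⟨_, ⟨t', k', p', h3, rfl⟩, ?_, c, ?_⟩
    · have h6 := (sat_unbdd (fun _ => dset (X t') k' (ι p')) (fun _ => ι 0)).2 h4
      rw [← hel t' (fun _ => k') (fun _ => p') unbddFm (fun _ => 0), sat_unbdd] at h6
      exact h6
    · intro a ha b hb hab
      have := h5 (ι a) ha (ι b) hb ((hlt a b).2 hab)
      rw [← this, ← hpr]
      rfl
  · intro hR
    obtain ⟨κ', rfl⟩ := hκ
    obtain ⟨k0, p0, hok0, hTS⟩ := hT
    have e1 : IsTree κ' (ι ⁻¹' TS) := by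
      rw [← hTS] at htree ⊢
      have h6 := (sat_tree (fun _ => dset (X 0) k0 (ι p0)) (fun _ => ι κ')).2 htree
      rw [← hel 0 (fun _ => k0) (fun _ => p0) treeFm (fun _ => κ'), sat_tree] at h6
      exact h6
    have e2 : InfTree (ι ⁻¹' TS) := by
      rw [← hTS] at hinf ⊢
      have h6 := (sat_inf (fun _ => dset (X 0) k0 (ι p0)) (fun _ => ι κ')).2 hinf
      rw [← hel 0 (fun _ => k0) (fun _ => p0) infFm (fun _ => κ'), sat_inf] at h6
      exact h6
    obtain ⟨H, ⟨t, k, p, hok, rfl⟩, hU, c, hc, hh⟩ := hR κ' (ι ⁻¹' TS)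
      ⟨0, k0, p0, hok0, by rw [hTS]⟩ e1 e2
    obtain ⟨k1, hok1, h7⟩ := mono 0 t (Nat.zero_le _) k0 (ι p0) hok0
    refine nh (X t) k (ι p) hok ?_ (ι c) ((hlt _ _).2 hc) ?_
    · have h6 := (sat_unbdd (fun _ => ι ⁻¹' dset (X t) k (ι p)) (fun _ => (0 : N))).2 hU
      rw [hel t (fun _ => k) (fun _ => p), sat_unbdd] at h6
      exact h6
    · have h6 := (sat_hom (fun n => ι ⁻¹' (dset (X t) (if n = 0 then k1 else k)
        (ι (if n = 0 then p0 else p)))) (fun _ => c)).2 (by
          simpa [h7, hTS] using hh)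
      rw [hel t (fun n => if n = 0 then k1 else k) (fun n => if n = 0 then p0 else p), sat_hom] at h6
      simpa [h7, hTS] using h6

/-- list of requests from its discrete part and its parameters -/
def mkR {M : Type*} (L : List (ℕ × ℕ)) (l : List M) : List (ℕ × ℕ × M) :=
  List.zipWith (fun a p => (a.1, a.2, p)) L l

theorem mkR_self {M : Type*} (r : List (ℕ × ℕ × M)) :
    mkR (r.map fun q => (q.1, q.2.1)) (r.map fun q => q.2.2) = r := by
  unfold mkR
  induction r with
  | nil => rfl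
  | cons q r ih =>
    simp only [List.map_cons, List.zipWith_cons_cons, ih]

open Classical in
/-- the oracles of a list of requests -/
noncomputable def HH {M : Type*} {𝔛 : Type*} (dset : 𝔛 → ℕ → M → Set M) (x0 : 𝔛)
    (nxt : 𝔛 → Set M → 𝔛) : List (ℕ × ℕ × M) → ℕ → 𝔛
  | [] => fun _ => x0
  | q :: r => Function.update (HH dset x0 nxt r) (r.length + 1)
      (nxt (HH dset x0 nxt r r.length) (dset (HH dset x0 nxt r q.1) q.2.1 q.2.2))

end ASM

theorem assembly {M : Type} [Zero M] [One M] [Add M] [Mul M] [LT M] {𝔛 : Type*}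
    (dset : 𝔛 → ℕ → M → Set M) (ok : 𝔛 → ℕ → M → Prop) (x0 : 𝔛)
    (basic : (∀ n : M, n + 1 ≠ 0) ∧ (∀ m n : M, m + 1 = n + 1 → m = n) ∧
      (∀ m : M, m + 0 = m) ∧ (∀ m n : M, m + (n + 1) = (m + n) + 1) ∧ (∀ m : M, m * 0 = 0) ∧
      (∀ m n : M, m * (n + 1) = m * n + m) ∧ (∀ m : M, ¬ m < 0) ∧
      (∀ m n : M, m < n + 1 ↔ (m < n ∨ m = n)))
    (sind : ∀ (x : 𝔛) (φ : Fm), φ.D0 → ∀ (i j : ℕ) (v : ℕ → M) (V : ℕ → Set M),
      (∀ n, ∃ k p, ok x k p ∧ V n = dset x k p) →
      (∃ b, φ.sat V (upd v i 0 j b)) →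
      (∀ a, (∃ b, φ.sat V (upd v i a j b)) → ∃ b, φ.sat V (upd v i (a + 1) j b)) →
      ∀ a, ∃ b, φ.sat V (upd v i a j b))
    (dca : ∀ (x : 𝔛) (φ ψ : Fm), φ.D0 → ψ.D0 → ∀ (i j : ℕ) (v : ℕ → M) (V : ℕ → Set M),
      (∀ n, ∃ k p, ok x k p ∧ V n = dset x k p) →
      (∀ a, (∃ b, φ.sat V (upd v i a j b)) ↔ ∀ b, ψ.sat V (upd v i a j b)) →
      ∃ k p, ok x k p ∧ ∀ a, a ∈ dset x k p ↔ ∃ b, φ.sat V (upd v i a j b))
    (srt : ∀ (x : 𝔛) k p, ok x k p → Stable (dset x k p) →
      ∃ x' : 𝔛, (∀ k p, ok x k p → ∃ k', ok x' k' p ∧ dset x' k' p = dset x k p) ∧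
        ∃ k' p', ok x' k' p' ∧ Unbdd (dset x' k' p') ∧
          ∃ c : Prop, ∀ a ∈ dset x' k' p', ∀ b ∈ dset x' k' p', a < b →
            (pr a b ∈ dset x k p ↔ c))
    (κ : M) (TS : Set M) (hT : ∃ k p, ok x0 k p ∧ dset x0 k p = TS) (htree : IsTree κ TS)
    (hinf : InfTree TS)
    (nh : ∀ (x : 𝔛) k p, ok x k p → Unbdd (dset x k p) → ∀ c, c < κ →
      ¬ HomTree TS (dset x k p) c) :
    ∃ (N : Type) (_ : Zero N) (_ : One N) (_ : Add N) (_ : Mul N) (_ : LT N) (S : Set (Set N)),
      RCA0 N S ∧ SRT22 S ∧ ¬ ∀ k : N, RWKL S k := by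
  classical
  -- the next oracle
  have hnx : ∀ (x : 𝔛) (Y : Set M), ∃ (x' : 𝔛) (p' : M),
      (∀ k p, ok x k p → ∃ k', ok x' k' p ∧ dset x' k' p = dset x k p) ∧
      ((∃ k p, ok x k p ∧ dset x k p = Y) → Stable Y → ∃ k', ok x' k' p' ∧
        Unbdd (dset x' k' p') ∧ ∃ c : Prop, ∀ a ∈ dset x' k' p', ∀ b ∈ dset x' k' p', a < b →
          (pr a b ∈ Y ↔ c)) := by
    intro x Y
    by_cases hY : (∃ k p, ok x k p ∧ dset x k p = Y) ∧ Stable Y
    · obtain ⟨⟨k, p, hk, rfl⟩, hs⟩ := hY
      obtain ⟨x', h1, k', p', h2⟩ := srt x k p hk hs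
      exact ⟨x', p', h1, fun _ _ => ⟨k', h2⟩⟩
    · exact ⟨x, 0, fun k p h => ⟨k, h, rfl⟩, fun h1 h2 => absurd ⟨h1, h2⟩ hY⟩
  choose nxt psol hn1 hn2 using hnx
  have hpc : ∀ (x : 𝔛) (Y : Set M), ∃ p' : M, (∃ k p, ok x k p ∧ dset x k p = Y) →
      ∃ k', ok x k' p' ∧ dset x k' p' = Y := by
    intro x Y
    by_cases hY : ∃ k p, ok x k p ∧ dset x k p = Y
    · obtain ⟨k, p, hk⟩ := hY
      exact ⟨p, fun _ => ⟨k, hk⟩⟩
    · exact ⟨0, fun h => absurd h hY⟩
  choose pcode hpc using hpc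
  obtain ⟨kT, pT, hTok, hTS⟩ := hT
  let H := ASM.HH dset x0 nxt
  -- the coded sets and the closure functions
  let σ : ℕ → List M → Set M := fun a l =>
    match (Encodable.decode a : Option (List (ℕ × ℕ) × ℕ)) with
    | some d => dset (H (ASM.mkR d.1 l.tail) d.1.length) d.2 (l.headD 0)
    | none => ∅
  let f : ℕ → List M → M := fun a l =>
    match a with
    | 0 => κ
    | 1 => pT
    | n + 2 =>
      if n % 2 = 0 then
        match (Encodable.decode (n / 2) : Option (List (ℕ × ℕ) × ℕ × ℕ)) with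
        | some d => psol (H (ASM.mkR d.1 l.tail) d.1.length)
            (dset (H (ASM.mkR d.1 l.tail) d.2.1) d.2.2 (l.headD 0))
        | none => 0
      else
        match (Encodable.decode (n / 2) :
            Option (List (ℕ × ℕ) × Fm × ℕ × ℕ × List ℕ × ℕ × ℕ)) with
        | some d => pcode (H (ASM.mkR d.1 (l.take d.2.2.2.2.2.1)) d.1.length)
            {a | ∃ b, d.2.1.sat (fun n => dset (H (ASM.mkR d.1 (l.take d.2.2.2.2.2.1)) d.1.length)
              (d.2.2.2.2.1.getD n 0)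
              (((l.drop d.2.2.2.2.2.1).take d.2.2.2.2.2.2).getD n 0))
              (upd (fun n => ((l.drop d.2.2.2.2.2.1).drop d.2.2.2.2.2.2).getD n 0) d.2.2.1 a
                d.2.2.2.1 b)}
        | none => 0
  obtain ⟨N, h, hNc, hcl, hel⟩ := exists_elem σ f
  have : Countable N := hNc.to_subtype
  have : Nonempty (ℕ × ℕ × N) := ⟨(0, 0, ⟨0, h.zero⟩)⟩
  obtain ⟨e, he⟩ := exists_surjective_nat (ℕ × ℕ × N)
  let req : ℕ → ℕ × ℕ × M := fun t => ((e t.unpair.1).1, (e t.unpair.1).2.1, ((e t.unpair.1).2.2 : M))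
  have hreqN : ∀ t, (req t).2.2 ∈ N := fun t => (e t.unpair.1).2.2.2
  have hreq : ∀ (t k : ℕ) (p : N), ∃ t', t ≤ t' ∧ req t' = (t, k, (p : M)) := by
    intro t k p
    obtain ⟨n, hn⟩ := he (t, k, p)
    exact ⟨Nat.pair n t, Nat.right_le_pair n t, by simp [req, hn]⟩
  let pl : ℕ → List (ℕ × ℕ × M) := fun t => Nat.rec [] (fun t r => req t :: r) t
  have hpl0 : pl 0 = [] := rfl
  have hpl1 : ∀ t, pl (t + 1) = req t :: pl t := fun t => rfl
  have hpllen : ∀ t, (pl t).length = t := by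
    intro t
    induction t with
    | zero => rfl
    | succ t ih => rw [hpl1, List.length_cons, ih]
  have hplN : ∀ t, ∀ q ∈ pl t, q.2.2 ∈ N := by
    intro t
    induction t with
    | zero => simp [hpl0]
    | succ t ih =>
      intro q hq
      rw [hpl1] at hq
      rcases List.mem_cons.1 hq with rfl | hq
      · exact hreqN t
      · exact ih q hq
  let X : ℕ → 𝔛 := fun t => H (pl t) t
  have hX0 : X 0 = x0 := rfl
  have hXs : ∀ t, X (t + 1) = nxt (X t) (dset (H (pl t) (req t).1) (req t).2.1 (req t).2.2) := by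
    intro t
    show ASM.HH dset x0 nxt (req t :: pl t) (t + 1) = _
    unfold ASM.HH
    rw [hpllen, Function.update_self]
  have hHX : ∀ t τ, τ ≤ t → H (pl t) τ = X τ := by
    intro t
    induction t with
    | zero =>
      intro τ hτ
      obtain rfl : τ = 0 := by omega
      rfl
    | succ t ih =>
      intro τ hτ
      rcases Nat.lt_or_ge t τ with h1 | h1
      · obtain rfl : τ = t + 1 := by omega
        rfl
      · rw [← ih τ h1]
        show ASM.HH dset x0 nxt (req t :: pl t) τ = _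
        rw [ASM.HH, hpllen, Function.update_of_ne (by omega)]
  have hmono : ∀ t k p, ok (X t) k p → ∃ k', ok (X (t + 1)) k' p ∧
      dset (X (t + 1)) k' p = dset (X t) k p := by
    intro t k p hk
    rw [hXs]
    exact hn1 _ _ k p hk
  have mono : ∀ t t', t ≤ t' → ∀ k p, ok (X t) k p → ∃ k', ok (X t') k' p ∧
      dset (X t') k' p = dset (X t) k p := by
    intro t t' htt'
    induction t', htt' using Nat.le_induction with
    | base => exact fun k p h => ⟨k, h, rfl⟩
    | succ t' _ ih =>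
      intro k p h
      obtain ⟨k', h1, h2⟩ := ih k p h
      obtain ⟨k'', h3, h4⟩ := hmono t' k' p h1
      exact ⟨k'', h3, h4.trans h2⟩
  letI := subZero h
  letI := subOne h
  letI := subAdd h
  letI := subMul h
  letI := subLT N
  -- the lists of data
  have hmk : ∀ t, ASM.mkR ((pl t).map fun q => (q.1, q.2.1)) ((pl t).map fun q => q.2.2) = pl t :=
    fun t => ASM.mkR_self _
  have hlenL : ∀ t, ((pl t).map fun q => (q.1, q.2.1)).length = t := by
    intro t
    rw [List.length_map, hpllen]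
  have hlenl : ∀ t, ((pl t).map fun q => q.2.2).length = t := by
    intro t
    rw [List.length_map, hpllen]
  have hmemN : ∀ t, ∀ x ∈ (pl t).map (fun q => q.2.2), x ∈ N := by
    intro t x hx
    obtain ⟨q, hq, rfl⟩ := List.mem_map.1 hx
    exact hplN t q hq
  refine ⟨N, _, _, _, _, _, ASM.core dset ok X (fun a : N => (a : M)) basic sind dca κ TS htree hinf
    nh ?_ hmono ?_ ?_ ⟨⟨κ, hcl 0 [] (by simp)⟩, rfl⟩
    ⟨kT, ⟨pT, hcl 1 [] (by simp)⟩, hTok, hTS⟩⟩
  · intro t k p φ v
    refine hel (fun n => dset (X t) (k n) (p n)) (fun n => ?_) φ v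
    refine ⟨Encodable.encode (((pl t).map fun q => (q.1, q.2.1)), k n),
      (p n : M) :: (pl t).map (fun q => q.2.2), ?_, ?_⟩
    · intro x hx
      rcases List.mem_cons.1 hx with rfl | hx
      · exact (p n).2
      · exact hmemN t x hx
    · simp only [σ, Encodable.encodek, List.tail_cons, List.headD_cons, hmk, hlenL]
      rfl
  · intro t k p hk hs
    obtain ⟨t', htt', hr⟩ := hreq t k p
    obtain ⟨k1, hk1, hd1⟩ := mono t t' htt' k p hk
    have hX1 : X (t' + 1) = nxt (X t') (dset (X t) k p) := by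
      rw [hXs, hr, hHX t' t htt']
    obtain ⟨k', h1, h2, c, h3⟩ := hn2 (X t') (dset (X t) k p) ⟨k1, p, hk1, hd1⟩ hs
    have hmem : psol (X t') (dset (X t) k p) ∈ N := by
      have h4 := hcl (2 * Encodable.encode (((pl t').map fun q => (q.1, q.2.1)), t, k) + 2)
        ((p : M) :: (pl t').map (fun q => q.2.2)) (by
          intro x hx
          rcases List.mem_cons.1 hx with rfl | hx
          · exact p.2
          · exact hmemN t' x hx)
      have e1 : (2 * Encodable.encode (((pl t').map fun q => (q.1, q.2.1)), t, k)) % 2 = 0 := by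
        omega
      have e2 : (2 * Encodable.encode (((pl t').map fun q => (q.1, q.2.1)), t, k)) / 2 =
        Encodable.encode (((pl t').map fun q => (q.1, q.2.1)), t, k) := by omega
      simp only [f, e1, e2, if_true, Encodable.encodek, List.tail_cons, List.headD_cons, hmk,
        hlenL] at h4
      rw [hHX t' t htt'] at h4
      exact h4
    refine ⟨t' + 1, k', ⟨_, hmem⟩, ?_, ?_, c, ?_⟩
    · rw [hX1]
      exact h1
    · rw [hX1]
      exact h2
    · rw [hX1]
      exact h3
  · intro t k p φ i j v hZ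
    set Z : Set M := {a | ∃ b, φ.sat (fun n => dset (X t) (k n) (p n))
      (upd (fun n => (v n : M)) i a j b)} with hZdef
    obtain ⟨k', h1, h2⟩ := hpc (X t) Z hZ
    have hmem : pcode (X t) Z ∈ N := by
      let d : List (ℕ × ℕ) × Fm × ℕ × ℕ × List ℕ × ℕ × ℕ :=
        (((pl t).map fun q => (q.1, q.2.1)), φ, i, j, (List.range (ELEM.sbd φ)).map k, t,
          ELEM.sbd φ)
      let l : List M := (pl t).map (fun q => q.2.2) ++ ((List.range (ELEM.sbd φ)).map
        (fun n => (p n : M)) ++ (List.range (ELEM.fbd φ)).map (fun n => (v n : M)))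
      have h4 := hcl (2 * Encodable.encode d + 1 + 2) l (by
          intro x hx
          rcases List.mem_append.1 hx with hx | hx
          · exact hmemN t x hx
          rcases List.mem_append.1 hx with hx | hx
          · obtain ⟨n, -, rfl⟩ := List.mem_map.1 hx
            exact (p n).2
          · obtain ⟨n, -, rfl⟩ := List.mem_map.1 hx
            exact (v n).2)
      have e1 : (2 * Encodable.encode d + 1) % 2 ≠ 0 := by omega
      have e2 : (2 * Encodable.encode d + 1) / 2 = Encodable.encode d := by omega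
      have t1 : l.take t = (pl t).map (fun q => q.2.2) := List.take_left' (hlenl t)
      have t2 : l.drop t = (List.range (ELEM.sbd φ)).map
        (fun n => (p n : M)) ++ (List.range (ELEM.fbd φ)).map (fun n => (v n : M)) :=
        List.drop_left' (hlenl t)
      have l2 : ((List.range (ELEM.sbd φ)).map (fun n => (p n : M))).length = ELEM.sbd φ := by simp
      simp only [f, e1, e2, if_false, Encodable.encodek, d, t1, t2, hmk, hlenL,
        List.take_left' l2, List.drop_left' l2] at h4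
      convert h4 using 2
      rw [hZdef]
      ext a
      refine exists_congr fun b => ELEM.sat_congr φ _ _ _ _ (fun n hn => ?_)
        (ELEM.update_congr (ELEM.update_congr (fun n hn => ?_) i a) j b)
      · simp [hn, X]
      · simp [hn]
    exact ⟨k', ⟨_, hmem⟩, h1, h2⟩

end Pool.Agent.Lib.H37R
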