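import Pool.Agent.Lib.H37R.Guar

/-!
# Chunk BLOCK (PROOF.md 3.2): from stage `n` to stage `n + 1`
-/

namespace Pool.Agent.Lib.H37R

open Filter Topology

/-- the first stage -/
theorem stage_zero {Θ : ℕ → Th} {F : ℕ → CFam} (hF : OpsClosed Θ F) {t : List ℕ → Tre}
    (ht : TreeOK t) {x a : List ℕ → Orc} {Λ : Set ℕ} {n0 : ℕ → ℕ → ℕ}
    (hx : GoodAt F t x Λ n0) (ha : Coh a) : ∃ D, StageOK F t x a Λ n0 0 D ∧
      D.L = {0} ∧ (∀ z, D.S z = ∅) := by
  obtain ⟨i, hi⟩ := hF.sep 0 0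
  obtain ⟨iU, hiU⟩ := hF.u 0 i 0
  obtain ⟨l, hl, hlt⟩ := hx.inf.exists_gt (n0 iU 1)
  refine ⟨⟨l, i, 0, fun _ => 0, {0}, fun _ => ∅, fun _ => 0, fun _ => 0⟩, ?_, rfl, fun _ => rfl⟩
  refine ⟨hl, ?_, ⟨0, by simp⟩, ?_, ?_, ⟨iU, hiU, hlt.le⟩⟩
  · intro j
    filter_upwards [ht.path (l + j)] with w hw
    obtain ⟨y, hy⟩ := hw
    refine ⟨(fun _ => y, fun _ => false), ?_, fun _ => hy⟩
    show _ ∈ ((F i 0 : Cl) : Set Sp)
    rw [hi]
    exact ⟨fun a ha => absurd ha (Nat.not_lt_zero _), fun a ha => absurd ha (Nat.not_lt_zero _)⟩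
  · refine Filter.Eventually.of_forall fun z T X w _ m _ => ⟨0, by simp, ?_⟩
    simp [cov]
  · refine Filter.Eventually.of_forall fun z y hy => ?_
    simp at hy

theorem block_mem_UF {c : ℕ} {C : CFam} {D : ℕ → CFam} {n P d0 : ℕ} {S : Stm} {d : ℕ}
    {Unk : Finset Req} {T : Tre} {X : Orc} {w : Pt}
    (h : w ∈ K (UF c C D n (uparam P d0 S d Unk) : Set Sp) T X) :
    UPred c C D n (P, S.filter (fun x => d0 ≤ x.2.2), S, d, Unk) T X w := by
  obtain ⟨P', hP', hw⟩ := h.1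
  have h1 : (P, S.filter (fun x => d0 ≤ x.2.2), S, d, Unk) = P' := by
    have := hP'
    simp only [uparam, Encodable.encodek, Option.some.injEq] at this
    exact this
  rw [h1]
  exact hw

theorem block_mem_sep {N : ℕ} {C : CFam} {p ξ : ℕ} {T : Tre} {X : Orc} {W : Pt}
    (h : W ∈ K (sepF N C (pr p ξ) : Set Sp) T X) (a : ℕ) (ha : a < N) :
    sub a W ∈ K (C p) T X := by
  have h1 := h.1.1 a ha
  simp only [prl_pr] at h1
  exact ⟨h1, sub_paths T W h.2 a⟩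

/-- codes of lists of length `N` over `L × Bool` -/
noncomputable def bset (L : Finset ℕ) (N : ℕ) : Finset ℕ := by
  classical
  exact (Finset.univ : Finset (Fin N → {x // x ∈ L} × Bool)).image
    (fun f => Encodable.encode (List.ofFn (fun i => ((f i).1.1, (f i).2))))

theorem mem_bset (L : Finset ℕ) (N : ℕ) (f : Fin N → ℕ × Bool) (hf : ∀ i, (f i).1 ∈ L) :
    Encodable.encode (List.ofFn f) ∈ bset L N := by
  classical
  unfold bset
  rw [Finset.mem_image]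
  exact ⟨fun i => (⟨(f i).1, hf i⟩, (f i).2), Finset.mem_univ _, rfl⟩

theorem dpart_bset (L : Finset ℕ) (N : ℕ) (π : ℕ) (h : π ∈ bset L N) :
    (dpart π).length = N ∧ ∀ y ∈ dpart π, y.1 ∈ L := by
  classical
  unfold bset at h
  rw [Finset.mem_image] at h
  obtain ⟨f, _, rfl⟩ := h
  rw [dpart_encode]
  refine ⟨by simp, fun y hy => ?_⟩
  rw [List.mem_ofFn] at hy
  obtain ⟨i, rfl⟩ := hy
  exact (f i).1.2

/-- majority value of the part `π` -/
theorem exists_majf (L : Finset ℕ) (n : ℕ) (hne : L.Nonempty) :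
    ∃ f : ℕ → ℕ × Bool, ∀ π ∈ bset L (2 * L.card * (n + 1)), (f π).1 ∈ L ∧
      ∃ J : Fin (n + 1) → ℕ, Function.Injective J ∧
        ∀ b, J b < 2 * L.card * (n + 1) ∧ (dpart π).getD (J b) (0, false) = f π := by
  have h : ∀ π : ℕ, ∃ y : ℕ × Bool, π ∈ bset L (2 * L.card * (n + 1)) → (y.1 ∈ L ∧
      ∃ J : Fin (n + 1) → ℕ, Function.Injective J ∧
        ∀ b, J b < 2 * L.card * (n + 1) ∧ (dpart π).getD (J b) (0, false) = y) := by
    intro π
    by_cases hπ : π ∈ bset L (2 * L.card * (n + 1))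
    · obtain ⟨h1, h2⟩ := dpart_bset _ _ _ hπ
      obtain ⟨y, hy, J, hJ, hJ2⟩ := exists_maj L n (dpart π) h1.ge hne h2
      refine ⟨y, fun _ => ⟨h2 y hy, J, hJ, fun b => ?_⟩⟩
      have := hJ2 b
      rw [h1] at this
      exact this
    · exact ⟨(0, false), fun h => absurd h hπ⟩
  choose f hf using h
  exact ⟨f, hf⟩

theorem cov_pos {N : ℕ} (hN : N ≠ 0) (w : Pt) (s m : ℕ) :
    cov N w s m = true ↔ ∀ j < N, Zb (sub j w) ((dpart s).getD j (0, false)).1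
      ((dpart s).getD j (0, false)).2 m = true := by
  unfold cov
  rw [if_neg hN]
  simp

/-- the new stems -/
noncomputable def newS (L : Finset ℕ) (par : ℕ → ℕ) (S : Stm) : Stm := by
  classical
  exact L.biUnion (fun π => (S.filter (fun y => y.1 = par π)).image (fun y => (π, y.2.1, y.2.2)))

theorem mem_newS (L : Finset ℕ) (par : ℕ → ℕ) (S : Stm) (π : ℕ) (e : Bool) (m : ℕ) :
    (π, e, m) ∈ newS L par S ↔ π ∈ L ∧ (par π, e, m) ∈ S := by
  classical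
  unfold newS
  simp only [Finset.mem_biUnion, Finset.mem_image, Finset.mem_filter, Prod.mk.injEq, Prod.exists]
  constructor
  · rintro ⟨a, ha, b, c, d, ⟨h1, h2⟩, h3, h4, h5⟩
    subst h3 h4 h5 h2
    exact ⟨ha, h1⟩
  · rintro ⟨h1, h2⟩
    exact ⟨π, h1, par π, e, m, ⟨h2, rfl⟩, rfl, rfl, rfl⟩

/-- the cover property of the new class, in one fibre -/
theorem block_cover {C : CFam} {D : ℕ → CFam} (hD0 : D 0 = infF) (c n P d0 : ℕ) (S : Stm) (d : ℕ)
    (Unk : Finset Req) (L : Finset ℕ) (hne : L.Nonempty) (thr v ξ : ℕ)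
    (f : ℕ → ℕ × Bool) (hf : ∀ π ∈ bset L (2 * L.card * (n + 1)), (f π).1 ∈ L ∧
      ∃ J : Fin (n + 1) → ℕ, Function.Injective J ∧
        ∀ b, J b < 2 * L.card * (n + 1) ∧ (dpart π).getD (J b) (0, false) = f π)
    (T : Tre) (X : Orc)
    (hcov : ∀ w ∈ K (C P) T X, ∀ m, thr ≤ m → ∃ s ∈ L, cov c w s m = true)
    (W : Pt) (hW : W ∈ K (sepF (2 * L.card * (n + 1)) (UF c C D n)
      (pr (uparam P d0 S d Unk) ξ) : Set Sp) T X)
    (m : ℕ) (hm : max thr (max d v) + 1 ≤ m) :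
    ∃ π ∈ bset L (2 * L.card * (n + 1)), (∀ m' < v, ((f π).1, (f π).2, 0, m') ∉ Unk) ∧
      cov (2 * L.card * (n + 1)) W π m = true := by
  have hcard : 0 < L.card := Finset.card_pos.2 hne
  have hN : 2 * L.card * (n + 1) ≠ 0 := by positivity
  set N := 2 * L.card * (n + 1) with hNdef
  have hU : ∀ a, a < N → UPred c C D n (P, S.filter (fun x => d0 ≤ x.2.2), S, d, Unk) T X (sub a W) :=
    fun a ha => block_mem_UF (block_mem_sep hW a ha)
  have hch : ∀ a : Fin N, ∃ y : ℕ × Bool, y.1 ∈ L ∧ Zb (sub a.1 W) y.1 y.2 m = true := by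
    intro a
    have h1 := hU a.1 a.2
    have h2 : sub 0 (sub a.1 W) ∈ K (C P) T X :=
      ⟨h1.1, sub_paths T _ (sub_paths T W hW.2 a.1) 0⟩
    obtain ⟨s, hs, hs2⟩ := hcov _ h2 m (by omega)
    rcases h1.2.2.2.1 s m hs2 with h | h
    · exact ⟨(s, false), hs, h⟩
    · exact ⟨(s, true), hs, h⟩
  choose g hg hg2 using hch
  have hπ : Encodable.encode (List.ofFn g) ∈ bset L N := mem_bset L N g hg
  have hget : ∀ j (hj : j < N), (dpart (Encodable.encode (List.ofFn g))).getD j (0, false) =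
      g ⟨j, hj⟩ := by
    intro j hj
    rw [dpart_encode, List.getD_eq_getElem _ _ (by simpa using hj)]
    simp
  refine ⟨_, hπ, ?_, ?_⟩
  · intro m' hm' hmem
    obtain ⟨h1, J, hJ, hJ2⟩ := hf _ hπ
    obtain ⟨hj, hj2⟩ := hJ2 0
    rw [hget _ hj] at hj2
    have h3 := hg2 ⟨J 0, hj⟩
    have h4 := (hU (J 0) hj).2.2.2.2 _ hmem (Nat.zero_le _) {m} (by
      intro k hk
      rw [Finset.mem_singleton] at hk
      subst hk
      refine ⟨by show d ≤ k; omega, ?_⟩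
      have h5 := h3
      simp only [hj2] at h5
      exact h5)
    rw [hD0] at h4
    have h5 := h4 m (by show m' < m; omega)
    rw [rgt_join] at h5
    simp [ind] at h5
  · rw [cov_pos hN]
    intro j hj
    rw [hget j hj]
    exact hg2 ⟨j, hj⟩

/-- REF for one class -/
theorem block_refine {C : CFam} {Dm : ℕ → CFam} (c n P d0 : ℕ) (S : Stm) (d : ℕ)
    (Unk : Finset Req) (N : ℕ) (hN : N ≠ 0) (ξ : ℕ) (Lp : Finset ℕ) (f : ℕ → ℕ × Bool) (π : ℕ)
    (J : ℕ) (hJ : J < N) (hJ2 : (dpart π).getD J (0, false) = f π) (T : Tre) (X : Orc)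
    (W : Pt) (hW : W ∈ K (sepF N (UF c C Dm n) (pr (uparam P d0 S d Unk) ξ) : Set Sp) T X) :
    ∃ w' ∈ K (C P) T X,
      (∀ m, cov N W π m = true → cov c w' (f π).1 m = true) ∧
      ∀ e m, (π, e, m) ∈ newS Lp (fun π => (f π).1) S → d0 ≤ m →
        cov c w' (f π).1 m = true := by
  have hU := block_mem_UF (block_mem_sep hW J hJ)
  refine ⟨sub 0 (sub J W), ⟨hU.1, sub_paths T _ (sub_paths T W hW.2 _) 0⟩, ?_, ?_⟩
  · intro m hm
    have h2 := (cov_pos hN W π m).1 hm J hJ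
    rw [hJ2] at h2
    exact hU.2.2.1 _ _ _ h2
  · intro e m hm hm2
    have h2 : π ∈ Lp ∧ ((f π).1, e, m) ∈ S := (mem_newS _ _ _ _ _ _).1 hm
    have h3 : ((f π).1, e, m) ∈ S.filter (fun x => d0 ≤ x.2.2) :=
      Finset.mem_filter.2 ⟨h2.2, hm2⟩
    exact hU.2.1 ((f π).1, e, m) h3

/-- GUAR for one class -/
theorem block_guar {C : CFam} {Dm : ℕ → CFam} (c n P d0 : ℕ) (S : Stm) (d : ℕ)
    (Unk : Finset Req) (N : ℕ) (hN : N ≠ 0) (ξ : ℕ) (Lp : Finset ℕ) (f : ℕ → ℕ × Bool) (π : ℕ)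
    (hπ : π ∈ Lp) (J : Fin (n + 1) → ℕ) (hJ : Function.Injective J)
    (hJ2 : ∀ b, J b < N ∧ (dpart π).getD (J b) (0, false) = f π)
    (ρ : Req) (hρ : ρ ∈ Unk) (hρn : ρ.2.2.1 ≤ n) (hpar : (f π).1 = ρ.1) (hside : (f π).2 = ρ.2.1)
    (hS : ∀ y ∈ S, y.2.2 < d) (k : ℕ) (T : Tre) (X : Orc) (hT : Bdd k T)
    (W : Pt) (hW : W ∈ K (sepF N (UF c C Dm n) (pr (uparam P d0 S d Unk) ξ) : Set Sp) T X)
    (G : Orc) (hG0 : ∀ m < d, G m = ind ((newS Lp (fun π => (f π).1) S).st π ρ.2.1) m)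
    (hG1 : ∀ m, d ≤ m → G m = true → cov N W π m = true) :
    ∃ y : ℕ → Pt, (∀ b ≤ n, y b ∈ K (Dm ρ.2.2.1 ρ.2.2.2) T (join X G)) ∧
      ∀ b ≤ n, ∀ b' ≤ n, b ≠ b' → ∀ i u, ξ ≤ u → (y b).1 i u ≠ (y b').1 i u := by
  have hst : S.st ρ.1 ρ.2.1 = (newS Lp (fun π => (f π).1) S).st π ρ.2.1 := by
    ext m
    rw [Stm.mem_st, Stm.mem_st, mem_newS, hpar]
    exact ⟨fun h => ⟨hπ, h⟩, fun h => h.2⟩
  refine guar_limit k T hT X c C Dm n N P d0 d ξ S Unk ρ hρ hρn W hW J hJ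
    (fun b => (hJ2 b).1) G ?_ ?_ ?_
  · intro m hm
    rw [hst]
    exact hG0 m hm
  · intro m hm hGm b
    have h2 := (cov_pos hN W π m).1 (hG1 m hm hGm) (J b) (hJ2 b).1
    rw [(hJ2 b).2, hpar, hside] at h2
    exact h2
  · intro m hm
    rw [Stm.mem_st] at hm
    exact hS _ hm

/-- BLOCK LEMMA -/
theorem block {Θ : ℕ → Th} {F : ℕ → CFam} (hF : OpsClosed Θ F) {t : List ℕ → Tre}
    (ht : TreeOK t) {x a : List ℕ → Orc} {Λ : Set ℕ} {n0 : ℕ → ℕ → ℕ}
    (hx : GoodAt F t x Λ n0) (ha : Coh a) (n : ℕ) (D : Stage) (hD : StageOK F t x a Λ n0 n D) :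
    ∃ D' E, StageOK F t x a Λ n0 (n + 1) D' ∧ LinkOK F t x a n D D' E := by
  classical
  obtain ⟨iU, hiU, hbig⟩ := hD.big
  set N := 2 * D.L.card * (n + 1) with hNdef
  have hcard : 0 < D.L.card := Finset.card_pos.2 hD.ne
  have hN : N ≠ 0 := by positivity
  obtain ⟨i', hi'⟩ := hF.sep N iU
  obtain ⟨iU', hiU'⟩ := hF.u N i' (n + 1)
  -- fibre data
  have hfd : ∀ z, ∃ (S : ℕ → Stm) (d : ℕ → ℕ) (Unk : ℕ → Finset Req),
      (∃ y, IsPath (t z) y) → alive (F D.i (D.P z) : Set Sp) (t z) (x z) →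
      (∀ y ∈ D.S z, y.2.2 < D.d z) →
      FibreOK (t z) (x z) (a z) (F D.i) (D.P z) D.c D.L (D.S z) (D.d z) F n S d Unk := by
    intro z
    by_cases h : (∃ y, IsPath (t z) y) ∧ alive (F D.i (D.P z) : Set Sp) (t z) (x z) ∧
      (∀ y ∈ D.S z, y.2.2 < D.d z)
    · obtain ⟨S, d, Unk, h'⟩ := fibre_lemma (kk z) (t z) (ht.bdd z) h.1 (x z) (a z) (F D.i)
        (D.P z) D.c D.L (D.S z) (D.d z) F n h.2.1 h.2.2
      exact ⟨S, d, Unk, fun _ _ _ => h'⟩
    · exact ⟨fun _ => ∅, fun _ => 0, fun _ => ∅, fun h1 h2 h3 => absurd ⟨h1, h2, h3⟩ h⟩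
  choose S d Unk hfib0 using hfd
  have hfib : ∀ᶠ z in (UL D.l : Filter (List ℕ)),
      FibreOK (t z) (x z) (a z) (F D.i) (D.P z) D.c D.L (D.S z) (D.d z) F n (S z) (d z) (Unk z) := by
    filter_upwards [ht.path D.l, hD.aliveC.aliveL, hD.stm] with z h1 h2 h3
    exact hfib0 z h1 h2 (fun y hy => (h3 y hy).2.1)
  set Pv : ℕ → List ℕ → ℕ := fun v z => uparam (D.P z) (D.d z) (S z v) (d z v) (Unk z v) with hPv
  -- level l+
  obtain ⟨lp, hlpΛ, hlp⟩ := hx.inf.exists_gt (max D.l (max (n0 iU N) (n0 iU 1)))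
  obtain ⟨j1, hj1⟩ : ∃ j1, lp = D.l + (j1 + 1) := ⟨lp - D.l - 1, by omega⟩
  set Q : ℕ → List ℕ → Prop := fun v w =>
    alive (F iU (Pv v (w.drop (j1 + 1))) : Set Sp) (t w) (x w) ∧
      ∀ m < d (w.drop (j1 + 1)) v, a w m = a (w.drop (j1 + 1)) m with hQ
  have hQev : ∀ᶠ z in (UL D.l : Filter (List ℕ)), ∀ v,
      ∀ᶠ w in (ext (j1 + 1) z : Filter (List ℕ)), Q v w := by
    filter_upwards [hfib, hx.refl_pt ht hD.mem hbig (j1 + 1), ha.ext_lt D.l (j1 + 1)]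
      with z h1 h2 h3 v
    have h4 : alive (F iU (Pv v z) : Set Sp) (t z) (x z) := by
      rw [hiU]
      exact h1.aliveU v
    filter_upwards [h2 _ h4, h3 (d z v), ext_drop (j1 + 1) z] with w h5 h6 h7
    simp only [hQ]
    rw [h7.1]
    exact ⟨h5, h6⟩
  obtain ⟨vf, hvf⟩ := overspill j1 Q
  -- the parameter at level lp
  set Pp : List ℕ → ℕ := fun w => Pv (vf w) (w.drop (j1 + 1)) with hPp
  have hlive : AliveL (F iU) t x lp Pp := by
    unfold AliveL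
    rw [hj1, ev_UL_add]
    filter_upwards [hQev] with z hz
    filter_upwards [(hvf z hz).1] with w hw
    exact hw.1
  obtain ⟨j2, ξ, hξ⟩ := hx.good iU N lp hlpΛ (by omega) Pp hlive
  -- level l'
  obtain ⟨l', hl'Λ, hl'⟩ := hx.inf.exists_gt (max (lp + j2) (n0 iU' 1))
  obtain ⟨j3, hj3⟩ : ∃ j3, l' = lp + j2 + j3 := ⟨l' - (lp + j2), by omega⟩
  have hl'2 : l' = lp + (j2 + j3) := by omega
  have hl'3 : l' = D.l + (j1 + 1 + (j2 + j3)) := by omega
  have hlD : l' - D.l = j1 + 1 + (j2 + j3) := by omega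
  have hdrop : ∀ w : List ℕ, (w.drop (j2 + j3)).drop (j1 + 1) = w.drop (l' - D.l) := by
    intro w
    rw [List.drop_drop, hlD]
    congr 1
    omega
  -- majority function and the new live parts
  obtain ⟨f, hf⟩ := exists_majf D.L n hD.ne
  set V : List ℕ → ℕ := fun w => vf (w.drop (j2 + j3)) with hV
  set Lw : List ℕ → Finset ℕ := fun w => (bset D.L N).filter
    (fun π => ∀ m < V w, ((f π).1, (f π).2, 0, m) ∉ Unk (w.drop (l' - D.l)) (V w)) with hLw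
  obtain ⟨L', hL'⟩ := fin_choice' (β := {s // s ∈ (bset D.L N).powerset}) (UL l')
    (fun w => ⟨Lw w, by rw [Finset.mem_powerset]; exact Finset.filter_subset _ _⟩)
  have hL'ev : ∀ᶠ w in (UL l' : Filter (List ℕ)), Lw w = L'.1 := by
    filter_upwards [hL'] with w hw
    exact congrArg Subtype.val hw
  -- useful: transfer a.e. statements to level l'
  have hup : ∀ (p : List ℕ → Prop), (∀ᶠ z in (UL D.l : Filter (List ℕ)), p z) →
      ∀ᶠ w in (UL l' : Filter (List ℕ)), p (w.drop (l' - D.l)) := by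
    intro p hp
    have := (ev_UL_drop D.l (l' - D.l) p).2 hp
    rwa [show D.l + (l' - D.l) = l' by omega] at this
  have hup' : ∀ (p : List ℕ → Prop), (∀ᶠ w in (UL lp : Filter (List ℕ)), p w) →
      ∀ᶠ w in (UL l' : Filter (List ℕ)), p (w.drop (j2 + j3)) := by
    intro p hp
    have := (ev_UL_drop lp (j2 + j3) p).2 hp
    rwa [← hl'2] at this
  -- the new stage
  set D' : Stage := ⟨l', i', N, fun w => pr (Pp (w.drop (j2 + j3))) (ξ (w.drop j3)), L'.1,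
    fun w => newS L'.1 (fun π => (f π).1) (S (w.drop (l' - D.l)) (V w)),
    fun w => d (w.drop (l' - D.l)) (V w),
    fun w => max (D.thr (w.drop (l' - D.l))) (max (d (w.drop (l' - D.l)) (V w)) (V w)) + 1⟩ with hD'
  have hPp' : ∀ w : List ℕ, Pp (w.drop (j2 + j3)) = Pv (V w) (w.drop (l' - D.l)) := by
    intro w
    simp only [hPp, hV]
    rw [hdrop]
  have hKW : ∀ w T X W, W ∈ K (F D'.i (D'.P w)) T X →
      W ∈ K (sepF N (UF D.c (F D.i) F n)
        (pr (uparam (D.P (w.drop (l' - D.l))) (D.d (w.drop (l' - D.l)))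
          (S (w.drop (l' - D.l)) (V w)) (d (w.drop (l' - D.l)) (V w))
          (Unk (w.drop (l' - D.l)) (V w))) (ξ (w.drop j3))) : Set Sp) T X := by
    intro w T X W hW
    have h3 := hW
    simp only [hD'] at h3
    rw [hPp', hi', hiU] at h3
    exact h3
  have hcover : ∀ᶠ z in (UL D'.l : Filter (List ℕ)), ∀ T X, ∀ w ∈ K (F D'.i (D'.P z)) T X,
      ∀ m, D'.thr z ≤ m → ∃ s ∈ D'.L, cov D'.c w s m = true := by
    filter_upwards [hup _ hD.cover, hL'ev] with w h1 h2 T X W hW m hm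
    have hW' := hKW w T X W hW
    obtain ⟨π, hπ, hπ2, hπ3⟩ := block_cover hF.inf D.c n (D.P (w.drop (l' - D.l)))
      (D.d (w.drop (l' - D.l))) (S (w.drop (l' - D.l)) (V w)) (d (w.drop (l' - D.l)) (V w))
      (Unk (w.drop (l' - D.l)) (V w)) D.L hD.ne (D.thr (w.drop (l' - D.l))) (V w) (ξ (w.drop j3))
      f hf T X (h1 T X) W hW' m hm
    refine ⟨π, ?_, hπ3⟩
    show π ∈ L'.1
    rw [← h2]
    exact Finset.mem_filter.2 ⟨hπ, hπ2⟩
  have halive : AliveU (F D'.i) t x D'.l D'.P := by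
    have h1 := hξ.up j3
    rw [← hj3] at h1
    intro j
    filter_upwards [h1 j] with w hw
    simp only [hD']
    rw [hi']
    have h2 : (((w.drop j).drop j3).drop j2) = (w.drop j).drop (j2 + j3) := by
      rw [List.drop_drop, add_comm]
    rw [h2] at hw
    exact hw
  have hLsub : L'.1 ⊆ bset D.L N := Finset.mem_powerset.1 L'.2
  have hstage : StageOK F t x a Λ n0 (n + 1) D' := by
    refine ⟨hl'Λ, halive, ?_, hcover, ?_, ⟨iU', hiU', by show _ ≤ l'; omega⟩⟩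
    · -- nonempty
      obtain ⟨w, h1, h2⟩ := (halive.aliveL.and hcover).exists
      obtain ⟨W, hW⟩ := h1
      obtain ⟨s, hs, _⟩ := h2 _ _ W hW _ le_rfl
      exact ⟨s, hs⟩
    · -- stems
      have hcoh := ha.ext_lt lp (j2 + j3)
      have h1 : ∀ᶠ w in (UL l' : Filter (List ℕ)), ∀ m < d (w.drop (l' - D.l)) (V w),
          a w m = a (w.drop (j2 + j3)) m := by
        rw [hl'2, ev_UL_add]
        filter_upwards [hcoh] with w1 hw1
        filter_upwards [hw1 (d (w1.drop (j1 + 1)) (vf w1)), ext_drop (j2 + j3) w1] with w hw hw2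
        simp only [hV]
        rw [← hl'2, ← hdrop, hw2.1]
        exact hw
      have h2 : ∀ᶠ w in (UL l' : Filter (List ℕ)), ∀ m < d (w.drop (l' - D.l)) (V w),
          a (w.drop (j2 + j3)) m = a (w.drop (l' - D.l)) m := by
        have : ∀ᶠ w in (UL lp : Filter (List ℕ)), ∀ m < d (w.drop (j1 + 1)) (vf w),
            a w m = a (w.drop (j1 + 1)) m := by
          rw [hj1, ev_UL_add]
          filter_upwards [hQev] with z hz
          filter_upwards [(hvf z hz).1] with w hw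
          exact hw.2
        filter_upwards [hup' _ this] with w hw
        rw [hdrop] at hw
        exact hw
      filter_upwards [h1, h2, hup _ hfib, hup _ hD.stm] with w g1 g2 g3 g4 y hy
      obtain ⟨π, e, m⟩ := y
      have h5 : π ∈ L'.1 ∧ ((f π).1, e, m) ∈ S (w.drop (l' - D.l)) (V w) :=
        (mem_newS _ _ _ _ _ _).1 hy
      obtain ⟨p1, p2, p3⟩ := g3.part _ _ h5.2
      refine ⟨h5.1, p2, ?_⟩
      show a w m = e
      rw [g1 m p2, g2 m p2]
      by_cases hm : m < D.d (w.drop (l' - D.l))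
      · have := (g3.old (V w) _ p1 e m hm).1 h5.2
        exact (g4 _ this).2.2
      · exact p3 (not_lt.1 hm)
  refine ⟨D', ⟨S, d, Unk, V, fun π => (f π).1, fun π => (f π).2, fun w => ξ (w.drop j3)⟩, hstage,
    ?_⟩
  refine ⟨by show D.l < l'; omega, hfib, ?_, ?_, ?_, ?_, ?_, ?_⟩
  · -- v_inf
    filter_upwards [hQev] with z hz m
    show ∀ᶠ w in (ext (l' - D.l) z : Filter (List ℕ)), m ≤ vf (w.drop (j2 + j3))
    rw [hlD, ev_ext_add]
    filter_upwards [(hvf z hz).2 m] with w1 hw1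
    filter_upwards [ext_drop (j2 + j3) w1] with w hw
    rw [hw.1]
    exact hw1
  · intro π hπ
    exact (hf π (hLsub hπ)).1
  · refine Filter.Eventually.of_forall fun w => ⟨fun π e m => mem_newS _ _ _ _ _ _, rfl⟩
  · filter_upwards [hL'ev] with w hw π hπ m hm
    have h1 : π ∈ Lw w := by rw [hw]; exact hπ
    exact (Finset.mem_filter.1 h1).2 m hm
  · -- REF
    refine Filter.Eventually.of_forall fun w T X W hW π hπ => ?_
    obtain ⟨h1, J, hJ, hJ2⟩ := hf π (hLsub hπ)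
    obtain ⟨g1, g2⟩ := hJ2 0
    exact block_refine D.c n (D.P (w.drop (l' - D.l))) (D.d (w.drop (l' - D.l)))
      (S (w.drop (l' - D.l)) (V w)) (d (w.drop (l' - D.l)) (V w))
      (Unk (w.drop (l' - D.l)) (V w)) N hN (ξ (w.drop j3)) L'.1 f π (J 0) g1 g2 T X W
      (hKW w T X W hW)
  · -- GUAR
    filter_upwards [hup _ hfib] with w hfw ρ hρ π hπ hpar hside k T X hT W hW G hG0 hG1
    obtain ⟨h1, J, hJ, hJ2⟩ := hf π (hLsub hπ)
    have hρ' := hfw.unk _ _ hρ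
    exact block_guar D.c n (D.P (w.drop (l' - D.l))) (D.d (w.drop (l' - D.l)))
      (S (w.drop (l' - D.l)) (V w)) (d (w.drop (l' - D.l)) (V w))
      (Unk (w.drop (l' - D.l)) (V w)) N hN (ξ (w.drop j3)) L'.1 f π hπ J hJ hJ2
      ρ hρ hρ'.2.1 hpar hside (fun y hy => (hfw.part _ _ hy).2.1) k T X hT W
      (hKW w T X W hW) G hG0 hG1

end Pool.Agent.Lib.H37R
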