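import Mathlib

/-!
# Chunk CLS: closed classes in compact spaces (replaces recursion theory)
-/

namespace Pool.Agent.Lib.H37R

open Filter Topology

/-- oracles -/
abbrev Orc := ℕ → Bool
/-- trees: sets of strings -/
abbrev Tre := List ℕ → Bool
/-- points: a sequence of paths and a sequence of bits -/
abbrev Pt := (ℕ → ℕ → ℕ) × (ℕ → Bool)
/-- the space in which the classes live -/
abbrev Sp := Tre × Orc × Pt

/-- initial segment of length `t` of `y` -/
def ini (y : ℕ → ℕ) (t : ℕ) : List ℕ := (List.range t).map y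

/-- `y` is a path of `T` -/
def IsPath (T : Tre) (y : ℕ → ℕ) : Prop := ∀ t, T (ini y t) = true

/-- the class given by `C` with oracles `T`, `X` -/
def K (C : Set Sp) (T : Tre) (X : Orc) : Set Pt := {w | (T, X, w) ∈ C ∧ ∀ q, IsPath T (w.1 q)}

/-- all entries of the strings of `T` are `< k` -/
def Bdd (k : ℕ) (T : Tre) : Prop := ∀ σ, T σ = true → ∀ c ∈ σ, c < k

/-- the class is nonempty -/
def alive (C : Set Sp) (T : Tre) (X : Orc) : Prop := (K C T X).Nonempty

/-- a path of a `k`-bounded tree has entries `< k` -/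
theorem IsPath.lt {k : ℕ} {T : Tre} (hT : Bdd k T) {y : ℕ → ℕ} (h : IsPath T y) (x : ℕ) :
    y x < k := by
  refine hT _ (h (x + 1)) _ ?_
  unfold ini
  exact List.mem_map.2 ⟨x, List.mem_range.2 (Nat.lt_succ_self x), rfl⟩

/-- variant: infinitely (countably) many sequences of points at once; the limits are limits along
the same ultrafilter -/
theorem limit_points {ι : Type*} (F : Ultrafilter ι) (k : ℕ) (w : ι → Pt)
    (hw : ∀ᶠ i in (F : Filter ι), ∀ q x, (w i).1 q x < k) :
    ∃ w0 : Pt, (∀ q x, ∀ᶠ i in (F : Filter ι), (w i).1 q x = w0.1 q x) ∧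
      (∀ n, ∀ᶠ i in (F : Filter ι), (w i).2 n = w0.2 n) ∧
      Tendsto w (F : Filter ι) (𝓝 w0) := by
  have h1 : ∀ q x, ∃ c, ∀ᶠ i in (F : Filter ι), (w i).1 q x = c := by
    intro q x
    have : ∀ᶠ i in (F : Filter ι), ∃ c ∈ Set.Iio k, (w i).1 q x = c :=
      hw.mono fun i hi => ⟨_, hi q x, rfl⟩
    rw [Ultrafilter.eventually_exists_mem_iff (Set.finite_Iio k)] at this
    obtain ⟨c, _, hc⟩ := this
    exact ⟨c, hc⟩
  have h2 : ∀ n, ∃ b : Bool, ∀ᶠ i in (F : Filter ι), (w i).2 n = b := by
    intro n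
    have : ∀ᶠ i in (F : Filter ι), ∃ b : Bool, (w i).2 n = b :=
      Filter.Eventually.of_forall fun i => ⟨_, rfl⟩
    rwa [Ultrafilter.eventually_exists_iff] at this
  choose y hy using h1
  choose b hb using h2
  refine ⟨(y, b), hy, hb, ?_⟩
  refine Filter.Tendsto.prodMk_nhds ?_ ?_
  · rw [tendsto_pi_nhds]
    intro q
    rw [tendsto_pi_nhds]
    intro x
    exact tendsto_nhds_of_eventually_eq (hy q x)
  · rw [tendsto_pi_nhds]
    intro n
    exact tendsto_nhds_of_eventually_eq (hb n)

/-- LIMIT LEMMA, the only use of compactness.  The points `w i` eventually have all path entries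
`< k`, so they live in the compact set `{w | ∀ q x, w.1 q x < k}` (product of finite sets, times
`ℕ → Bool`); take the limit along the ultrafilter `F`. -/
theorem limit_lemma {ι : Type*} (F : Ultrafilter ι) (k : ℕ) (C : Set Sp) (hC : IsClosed C)
    (T : ι → Tre) (X : ι → Orc) (w : ι → Pt) (T0 : Tre) (X0 : Orc)
    (hk : ∀ᶠ i in (F : Filter ι), Bdd k (T i))
    (hT : ∀ σ, ∀ᶠ i in (F : Filter ι), T i σ = T0 σ)
    (hX : ∀ n, ∀ᶠ i in (F : Filter ι), X i n = X0 n)
    (hw : ∀ᶠ i in (F : Filter ι), w i ∈ K C (T i) (X i)) :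
    ∃ w0 ∈ K C T0 X0, (∀ q x, ∀ᶠ i in (F : Filter ι), (w i).1 q x = w0.1 q x) ∧
      ∀ n, ∀ᶠ i in (F : Filter ι), (w i).2 n = w0.2 n := by
  have hlt : ∀ᶠ i in (F : Filter ι), ∀ q x, (w i).1 q x < k := by
    filter_upwards [hk, hw] with i h1 h2 q x
    exact IsPath.lt h1 (h2.2 q) x
  obtain ⟨w0, h1, h2, h3⟩ := limit_points F k w hlt
  refine ⟨w0, ⟨?_, ?_⟩, h1, h2⟩
  · have hT' : Tendsto T (F : Filter ι) (𝓝 T0) := by
      rw [tendsto_pi_nhds]
      intro σ
      exact tendsto_nhds_of_eventually_eq (hT σ)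
    have hX' : Tendsto X (F : Filter ι) (𝓝 X0) := by
      rw [tendsto_pi_nhds]
      intro n
      exact tendsto_nhds_of_eventually_eq (hX n)
    exact hC.mem_of_tendsto (hT'.prodMk_nhds (hX'.prodMk_nhds h3)) (hw.mono fun i hi => hi.1)
  · intro q t
    have h4 : ∀ᶠ i in (F : Filter ι), ∀ x ∈ Set.Iio t, (w i).1 q x = w0.1 q x :=
      (Filter.eventually_all_finite (Set.finite_Iio t)).2 fun x _ => h1 q x
    obtain ⟨i, h5, h6, h7⟩ := (h4.and ((hT (ini (w0.1 q) t)).and hw)).exists
    have h8 : ini ((w i).1 q) t = ini (w0.1 q) t := by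
      unfold ini
      refine List.map_congr_left fun x hx => ?_
      exact h5 x (List.mem_range.1 hx)
    rw [← h6, ← h8]
    exact h7.2 q t

/-- the class is alive in the limit -/
theorem alive_limit {ι : Type*} (F : Ultrafilter ι) (k : ℕ) (C : Set Sp) (hC : IsClosed C)
    (T : ι → Tre) (X : ι → Orc) (T0 : Tre) (X0 : Orc)
    (hk : ∀ᶠ i in (F : Filter ι), Bdd k (T i))
    (hT : ∀ σ, ∀ᶠ i in (F : Filter ι), T i σ = T0 σ)
    (hX : ∀ n, ∀ᶠ i in (F : Filter ι), X i n = X0 n)
    (hw : ∀ᶠ i in (F : Filter ι), alive C (T i) (X i)) : alive C T0 X0 := by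
  have h1 : ∀ i, ∃ w : Pt, alive C (T i) (X i) → w ∈ K C (T i) (X i) := by
    intro i
    by_cases hi : alive C (T i) (X i)
    · obtain ⟨w, hw⟩ := hi
      exact ⟨w, fun _ => hw⟩
    · exact ⟨(fun _ _ => 0, fun _ => false), fun h => absurd h hi⟩
  choose w hw' using h1
  obtain ⟨w0, h2, _⟩ := limit_lemma F k C hC T X w T0 X0 hk hT hX
    (hw.mono fun i hi => hw' i hi)
  exact ⟨w0, h2⟩

/-- LOCAL DEATH (for fixed tree `T`): apply `alive_limit` to a sequence of counterexamples -/
theorem local_death (k : ℕ) (C : Set Sp) (hC : IsClosed C) (T : Tre) (X : Orc) (hT : Bdd k T)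
    (h : ¬ alive C T X) : ∃ d, ∀ X' : Orc, (∀ n < d, X' n = X n) → ¬ alive C T X' := by
  by_contra hcon
  push Not at hcon
  choose X' h1 h2 using hcon
  refine h (alive_limit (Filter.hyperfilter ℕ) k C hC (fun _ => T) X' T X
    (Filter.Eventually.of_forall fun _ => hT) (fun σ => Filter.Eventually.of_forall fun _ => rfl)
    ?_ (Filter.Eventually.of_forall h2))
  intro n
  refine ((Filter.eventually_gt_atTop n).filter_mono Nat.hyperfilter_le_atTop).mono ?_
  intro d hd
  exact h1 d n hd

/-- the join of two oracles -/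
def join (X G : Orc) : Orc := fun n => if n % 2 = 0 then X (n / 2) else G (n / 2)

/-- right half of an oracle -/
def rgt (Z : Orc) : Orc := fun n => Z (2 * n + 1)

/-- left half of an oracle -/
def lft (Z : Orc) : Orc := fun n => Z (2 * n)

theorem rgt_join (X G : Orc) : rgt (join X G) = G := by
  funext n
  unfold rgt join
  rw [if_neg (by omega)]
  congr 1
  omega

theorem lft_join (X G : Orc) : lft (join X G) = X := by
  funext n
  unfold lft join
  rw [if_pos (by omega)]
  congr 1
  omega

theorem continuous_join_left (G : Orc) : Continuous (fun X : Orc => join X G) := by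
  refine continuous_pi fun n => ?_
  unfold join
  split
  · exact continuous_apply _
  · exact continuous_const

theorem continuous_lft : Continuous lft :=
  continuous_pi fun n => continuous_apply _

theorem continuous_rgt : Continuous rgt :=
  continuous_pi fun n => continuous_apply _

/-- `j`-th sub-point -/
def sub (j : ℕ) (w : Pt) : Pt := (fun q x => w.1 (Nat.pair j q) x, fun n => w.2 (Nat.pair j n))

/-- glue points together -/
def glue (f : ℕ → Pt) : Pt :=
  (fun q x => (f q.unpair.1).1 q.unpair.2 x, fun n => (f n.unpair.1).2 n.unpair.2)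

theorem sub_glue (f : ℕ → Pt) (j : ℕ) : sub j (glue f) = f j := by
  unfold sub glue
  simp only [Nat.unpair_pair]

theorem continuous_sub (j : ℕ) : Continuous (sub j) := by
  refine Continuous.prodMk ?_ ?_
  · refine continuous_pi fun q => continuous_pi fun x => ?_
    show Continuous fun w : Pt => w.1 (Nat.pair j q) x
    fun_prop
  · refine continuous_pi fun n => ?_
    show Continuous fun w : Pt => w.2 (Nat.pair j n)
    fun_prop

theorem continuous_glue : Continuous glue := by
  refine Continuous.prodMk ?_ ?_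
  · refine continuous_pi fun q => continuous_pi fun x => ?_
    show Continuous fun f : ℕ → Pt => (f q.unpair.1).1 q.unpair.2 x
    have h : Continuous fun w : Pt => w.1 q.unpair.2 x := by fun_prop
    exact h.comp (continuous_apply q.unpair.1)
  · refine continuous_pi fun n => ?_
    show Continuous fun f : ℕ → Pt => (f n.unpair.1).2 n.unpair.2
    have h : Continuous fun w : Pt => w.2 n.unpair.2 := by fun_prop
    exact h.comp (continuous_apply n.unpair.1)

/-- the path condition of a glued point -/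
theorem glue_paths (T : Tre) (f : ℕ → Pt) (h : ∀ j q, IsPath T ((f j).1 q)) :
    ∀ q, IsPath T ((glue f).1 q) :=
  fun q => h q.unpair.1 q.unpair.2

theorem sub_paths (T : Tre) (w : Pt) (h : ∀ q, IsPath T (w.1 q)) (j : ℕ) :
    ∀ q, IsPath T ((sub j w).1 q) :=
  fun q => h (Nat.pair j q)

/-- indicator function of a finite set as an oracle -/
noncomputable def ind (s : Finset ℕ) : Orc := fun n => decide (n ∈ s)

end Pool.Agent.Lib.H37R
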