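import Pool.Agent.Lib.H37R.L2

/-!
# Chunk ELEM: countable elementary submodels, for formulas with coded set parameters

`σ a l` (`a : ℕ`, `l : List M`) are the coded sets; `f a l` further functions under which the
submodel has to be closed.
-/

namespace Pool.Agent.Lib.H37R

namespace ELEM

deriving instance Encodable for Tm
deriving instance Encodable for Fm

/-- finite stages of the closure -/
def stg {M : Type*} (f : ℕ → List M → M) : ℕ → Set M
  | 0 => ∅
  | n + 1 => stg f n ∪ {x | ∃ a l, (∀ y ∈ l, y ∈ stg f n) ∧ f a l = x}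

theorem stg_countable {M : Type*} (f : ℕ → List M → M) (n : ℕ) : (stg f n).Countable := by
  induction n with
  | zero => exact Set.countable_empty
  | succ n ih =>
    refine ih.union ?_
    have h1 : Countable (stg f n) := ih.to_subtype
    refine Set.Countable.mono ?_
      (Set.countable_range (fun q : ℕ × List (stg f n) => f q.1 (q.2.map Subtype.val)))
    rintro x ⟨a, l, hl, rfl⟩
    refine ⟨(a, l.attach.map (fun y => ⟨y.1, hl y.1 y.2⟩)), ?_⟩
    simp

theorem stg_mono {M : Type*} (f : ℕ → List M → M) {m n : ℕ} (h : m ≤ n) : stg f m ⊆ stg f n := by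
  induction n, h using Nat.le_induction with
  | base => exact le_rfl
  | succ n _ ih => exact ih.trans Set.subset_union_left

theorem stg_list {M : Type*} (f : ℕ → List M → M) (l : List M) (h : ∀ a ∈ l, ∃ n, a ∈ stg f n) :
    ∃ n, ∀ a ∈ l, a ∈ stg f n := by
  induction l with
  | nil => exact ⟨0, by simp⟩
  | cons a l ih =>
    obtain ⟨n, hn⟩ := ih fun b hb => h b (List.mem_cons_of_mem _ hb)
    obtain ⟨m, hm⟩ := h a List.mem_cons_self
    refine ⟨max m n, fun b hb => ?_⟩
    rcases List.mem_cons.1 hb with rfl | hb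
    · exact stg_mono f (le_max_left _ _) hm
    · exact stg_mono f (le_max_right _ _) (hn b hb)

/-- a bound for the variables of a term -/
def tbd : Tm → ℕ
  | .var i => i + 1
  | .zero => 0
  | .one => 0
  | .add s t => max (tbd s) (tbd t)
  | .mul s t => max (tbd s) (tbd t)

/-- a bound for the number variables which matter for the value of a formula -/
def fbd : Fm → ℕ
  | .eq s t => max (tbd s) (tbd t)
  | .lt s t => max (tbd s) (tbd t)
  | .mem s _ => tbd s
  | .neg φ => fbd φ
  | .and φ ψ => max (fbd φ) (fbd ψ)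
  | .ball _ t φ => max (tbd t) (fbd φ)
  | .all _ φ => fbd φ

/-- a bound for the set variables -/
def sbd : Fm → ℕ
  | .eq _ _ => 0
  | .lt _ _ => 0
  | .mem _ n => n + 1
  | .neg φ => sbd φ
  | .and φ ψ => max (sbd φ) (sbd ψ)
  | .ball _ _ φ => sbd φ
  | .all _ φ => sbd φ

theorem ev_congr {M : Type*} [Zero M] [One M] [Add M] [Mul M] (s : Tm) (v v' : ℕ → M)
    (h : ∀ n < tbd s, v n = v' n) : s.ev v = s.ev v' := by
  induction s with
  | var i => exact h i (Nat.lt_succ_self i)
  | zero => rfl
  | one => rfl
  | add s t h1 h2 =>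
    exact congrArg₂ (· + ·) (h1 fun n hn => h n (lt_of_lt_of_le hn (le_max_left _ _)))
      (h2 fun n hn => h n (lt_of_lt_of_le hn (le_max_right _ _)))
  | mul s t h1 h2 =>
    exact congrArg₂ (· * ·) (h1 fun n hn => h n (lt_of_lt_of_le hn (le_max_left _ _)))
      (h2 fun n hn => h n (lt_of_lt_of_le hn (le_max_right _ _)))

theorem update_congr {M : Type*} {v v' : ℕ → M} {m : ℕ} (h : ∀ n < m, v n = v' n) (i : ℕ) (a : M) :
    ∀ n < m, Function.update v i a n = Function.update v' i a n := by
  intro n hn
  by_cases hi : n = i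
  · subst hi
    simp
  · simp [Function.update_of_ne hi, h n hn]

/-- the value of a formula depends only on finitely many variables -/
theorem sat_congr {M : Type*} [Zero M] [One M] [Add M] [Mul M] [LT M] (φ : Fm)
    (V V' : ℕ → Set M) (v v' : ℕ → M) (hV : ∀ n < sbd φ, V n = V' n)
    (h : ∀ n < fbd φ, v n = v' n) : φ.sat V v ↔ φ.sat V' v' := by
  induction φ generalizing v v' with
  | eq s t =>
    show s.ev v = t.ev v ↔ s.ev v' = t.ev v'
    rw [ev_congr s v v' fun n hn => h n (lt_of_lt_of_le hn (le_max_left _ _)),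
      ev_congr t v v' fun n hn => h n (lt_of_lt_of_le hn (le_max_right _ _))]
  | lt s t =>
    show s.ev v < t.ev v ↔ s.ev v' < t.ev v'
    rw [ev_congr s v v' fun n hn => h n (lt_of_lt_of_le hn (le_max_left _ _)),
      ev_congr t v v' fun n hn => h n (lt_of_lt_of_le hn (le_max_right _ _))]
  | mem s n =>
    show s.ev v ∈ V n ↔ s.ev v' ∈ V' n
    rw [ev_congr s v v' h, hV n (Nat.lt_succ_self n)]
  | neg φ ih => exact not_congr (ih v v' hV h)
  | and φ ψ ih1 ih2 =>
    exact and_congr
      (ih1 v v' (fun n hn => hV n (lt_of_lt_of_le hn (le_max_left _ _)))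
        fun n hn => h n (lt_of_lt_of_le hn (le_max_left _ _)))
      (ih2 v v' (fun n hn => hV n (lt_of_lt_of_le hn (le_max_right _ _)))
        fun n hn => h n (lt_of_lt_of_le hn (le_max_right _ _)))
  | ball i t φ ih =>
    show (∀ a : M, a < t.ev v → φ.sat V (Function.update v i a)) ↔
      ∀ a : M, a < t.ev v' → φ.sat V' (Function.update v' i a)
    rw [ev_congr t v v' fun n hn => h n (lt_of_lt_of_le hn (le_max_left _ _))]
    exact forall_congr' fun a => imp_congr_right fun _ => ih _ _ hV
      (update_congr (fun n hn => h n (lt_of_lt_of_le hn (le_max_right _ _))) i a)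
  | all i φ ih =>
    exact forall_congr' fun a => ih _ _ hV (update_congr h i a)

end ELEM

/-- closure of the empty set under countably many finitary functions is countable
(this is `enum_lemma` of chunk FAM2 again) -/
theorem closure_lemma {M : Type*} (f : ℕ → List M → M) :
    ∃ N : Set M, N.Countable ∧ ∀ n (l : List M), (∀ a ∈ l, a ∈ N) → f n l ∈ N := by
  refine ⟨⋃ n, ELEM.stg f n, Set.countable_iUnion (ELEM.stg_countable f), fun n l hl => ?_⟩
  obtain ⟨m, hm⟩ := ELEM.stg_list f l (by simpa using hl)
  exact Set.mem_iUnion.2 ⟨m + 1, Or.inr ⟨n, l, hm, rfl⟩⟩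

/-- closed under the operations -/
structure CSub {M : Type*} [Zero M] [One M] [Add M] [Mul M] (N : Set M) : Prop where
  zero : (0 : M) ∈ N
  one : (1 : M) ∈ N
  add : ∀ a ∈ N, ∀ b ∈ N, a + b ∈ N
  mul : ∀ a ∈ N, ∀ b ∈ N, a * b ∈ N

section
variable {M : Type*} [Zero M] [One M] [Add M] [Mul M] [LT M] {N : Set M}

@[reducible] def subZero (h : CSub N) : Zero N := ⟨⟨0, h.zero⟩⟩
@[reducible] def subOne (h : CSub N) : One N := ⟨⟨1, h.one⟩⟩
@[reducible] def subAdd (h : CSub N) : Add N := ⟨fun a b => ⟨a.1 + b.1, h.add _ a.2 _ b.2⟩⟩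
@[reducible] def subMul (h : CSub N) : Mul N := ⟨fun a b => ⟨a.1 * b.1, h.mul _ a.2 _ b.2⟩⟩
@[reducible] def subLT (N : Set M) : LT N := ⟨fun a b => a.1 < b.1⟩

/-- satisfaction in the submodel -/
def nsat (h : CSub N) (V : ℕ → Set M) (φ : Fm) (v : ℕ → N) : Prop :=
  @Fm.sat N (subZero h) (subOne h) (subAdd h) (subMul h) (subLT N)
    (fun n => {a : N | (a : M) ∈ V n}) φ v

omit [LT M] in
theorem ELEM.ev_coe (h : CSub N) (s : Tm) (v : ℕ → N) :
    ((@Tm.ev N (subZero h) (subOne h) (subAdd h) (subMul h) v s : N) : M) =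
      s.ev (fun n => (v n : M)) := by
  induction s with
  | var i => rfl
  | zero => rfl
  | one => rfl
  | add s t h1 h2 => exact congrArg₂ (· + ·) h1 h2
  | mul s t h1 h2 => exact congrArg₂ (· * ·) h1 h2

omit [Zero M] [One M] [Add M] [Mul M] [LT M] in
theorem ELEM.update_coe (v : ℕ → N) (i : ℕ) (a : N) :
    (fun n => ((Function.update v i a n : N) : M)) = Function.update (fun n => (v n : M)) i a := by
  funext n
  by_cases hn : n = i
  · subst hn
    simp
  · simp [Function.update_of_ne hn]

/-- Tarski-Vaught -/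
theorem elementary (h : CSub N) (V : ℕ → Set M)
    (tv : ∀ (φ : Fm) (i : ℕ) (v : ℕ → M), (∀ n, v n ∈ N) →
      (∃ a, φ.sat V (Function.update v i a)) → ∃ a ∈ N, φ.sat V (Function.update v i a))
    (φ : Fm) (v : ℕ → N) : nsat h V φ v ↔ φ.sat V (fun n => (v n : M)) := by
  induction φ generalizing v with
  | eq s t =>
    show (@Tm.ev N (subZero h) (subOne h) (subAdd h) (subMul h) v s =
      @Tm.ev N (subZero h) (subOne h) (subAdd h) (subMul h) v t) ↔ _
    rw [Subtype.ext_iff, ELEM.ev_coe, ELEM.ev_coe]
    rfl
  | lt s t =>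
    show ((@Tm.ev N (subZero h) (subOne h) (subAdd h) (subMul h) v s : N) : M) <
      ((@Tm.ev N (subZero h) (subOne h) (subAdd h) (subMul h) v t : N) : M) ↔ _
    rw [ELEM.ev_coe, ELEM.ev_coe]
    rfl
  | mem s n =>
    show ((@Tm.ev N (subZero h) (subOne h) (subAdd h) (subMul h) v s : N) : M) ∈ V n ↔ _
    rw [ELEM.ev_coe]
    rfl
  | neg φ ih => exact not_congr (ih v)
  | and φ ψ ih1 ih2 => exact and_congr (ih1 v) (ih2 v)
  | ball i t φ ih =>
    show (∀ a : N, (a : M) < ((@Tm.ev N (subZero h) (subOne h) (subAdd h) (subMul h) v t : N) : M) →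
      nsat h V φ (Function.update v i a)) ↔
        ∀ a : M, a < t.ev (fun n => (v n : M)) →
          φ.sat V (Function.update (fun n => (v n : M)) i a)
    rw [ELEM.ev_coe]
    constructor
    · intro H
      by_contra hcon
      push Not at hcon
      obtain ⟨a, ha, hsat⟩ := hcon
      -- a fresh variable `x_m` for the value of the term
      obtain ⟨m, hm1, hm2⟩ : ∃ m, ELEM.fbd φ ≤ m ∧ m ≠ i :=
        ⟨max (ELEM.fbd φ) (i + 1), le_max_left _ _, by
          have := le_max_right (ELEM.fbd φ) (i + 1)
          omega⟩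
      set T : M := t.ev (fun n => (v n : M)) with hT
      have hTN : T ∈ N := by
        rw [hT, ← ELEM.ev_coe h t v]
        exact Subtype.coe_prop _
      have hfr : ∀ b, φ.sat V (Function.update (Function.update (fun n => (v n : M)) m T) i b) ↔
          φ.sat V (Function.update (fun n => (v n : M)) i b) := by
        intro b
        refine ELEM.sat_congr φ V V _ _ (fun _ _ => rfl) (ELEM.update_congr (fun n hn => ?_) i b)
        exact Function.update_of_ne (by omega) _ _
      obtain ⟨b, hb, hb'⟩ := tv (.and (.lt (.var i) (.var m)) (.neg φ)) i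
        (Function.update (fun n => (v n : M)) m T) (fun n => by
          by_cases hn : n = m
          · subst hn
            simpa using hTN
          · simp [Function.update_of_ne hn]) ⟨a, by
            refine ⟨?_, fun hcon => hsat ((hfr a).1 hcon)⟩
            show Function.update (Function.update (fun n => (v n : M)) m T) i a i <
              Function.update (Function.update (fun n => (v n : M)) m T) i a m
            rw [Function.update_self, Function.update_of_ne hm2, Function.update_self]
            exact ha⟩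
      obtain ⟨hb1, hb2⟩ := hb'
      have hb3 : b < T := by
        have : Function.update (Function.update (fun n => (v n : M)) m T) i b i <
              Function.update (Function.update (fun n => (v n : M)) m T) i b m := hb1
        rw [Function.update_self, Function.update_of_ne hm2, Function.update_self] at this
        exact this
      apply hb2
      rw [hfr]
      have := H ⟨b, hb⟩ hb3
      rw [ih, ELEM.update_coe] at this
      exact this
    · intro H a ha
      rw [ih, ELEM.update_coe]
      exact H a ha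
  | all i φ ih =>
    show (∀ a : N, nsat h V φ (Function.update v i a)) ↔
        ∀ a : M, φ.sat V (Function.update (fun n => (v n : M)) i a)
    constructor
    · intro H
      by_contra hcon
      push Not at hcon
      obtain ⟨a, ha⟩ := hcon
      obtain ⟨b, hb, hb'⟩ := tv (.neg φ) i (fun n => (v n : M)) (fun n => (v n).2) ⟨a, ha⟩
      apply hb'
      have := H ⟨b, hb⟩
      rw [ih, ELEM.update_coe] at this
      exact this
    · intro H a
      rw [ih, ELEM.update_coe]
      exact H a

/-- existence of countable elementary submodels -/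
theorem exists_elem (σ : ℕ → List M → Set M) (f : ℕ → List M → M) :
    ∃ (N : Set M) (h : CSub N), N.Countable ∧ (∀ a (l : List M), (∀ x ∈ l, x ∈ N) → f a l ∈ N) ∧
      ∀ V : ℕ → Set M, (∀ n, ∃ a l, (∀ x ∈ l, x ∈ N) ∧ V n = σ a l) →
        ∀ (φ : Fm) (v : ℕ → N), nsat h V φ v ↔ φ.sat V (fun n => (v n : M)) := by
  classical
  -- Skolem functions: the data are the formula, the variable, the codes of the sets and the lengths
  -- of the lists of parameters of the sets
  let asg : List M → ℕ → M := fun l n => l.getD n 0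
  let sets : List (ℕ × ℕ) → List M → List (Set M) := fun A => 
    A.rec (fun _ => []) (fun p _ ih l => σ p.1 (l.take p.2) :: ih (l.drop p.2))
  let sk : Fm × ℕ × List (ℕ × ℕ) × ℕ → List M → M := fun d l =>
    if H : ∃ a, d.1.sat (fun n => (sets d.2.2.1 (l.drop d.2.2.2)).getD n ∅)
      (Function.update (asg (l.take d.2.2.2)) d.2.1 a) then H.choose else 0
  let g : ℕ → List M → M := fun n l =>
    match n with
    | 0 => 0
    | 1 => 1
    | 2 => l.getD 0 0 + l.getD 1 0
    | 3 => l.getD 0 0 * l.getD 1 0
    | n + 4 =>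
      if n % 2 = 0 then f (n / 2) l
      else match (Encodable.decode (n / 2) : Option (Fm × ℕ × List (ℕ × ℕ) × ℕ)) with
        | some d => sk d l
        | none => 0
  obtain ⟨N, hN, hcl⟩ := closure_lemma g
  have h : CSub N := by
    refine ⟨?_, ?_, ?_, ?_⟩
    · simpa [g] using hcl 0 [] (by simp)
    · simpa [g] using hcl 1 [] (by simp)
    · intro a ha b hb
      simpa [g] using hcl 2 [a, b] (by simp [ha, hb])
    · intro a ha b hb
      simpa [g] using hcl 3 [a, b] (by simp [ha, hb])
  refine ⟨N, h, hN, ?_, ?_⟩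
  · intro a l hl
    have := hcl (2 * a + 4) l hl
    simpa [g] using this
  · intro V hV φ v
    refine elementary h V ?_ φ v
    intro φ i v hv hex
    choose a l hl hVa using hV
    -- finitely many codes
    have hsets : ∀ (m k : ℕ), ∃ (A : List (ℕ × ℕ)) (L : List M), (∀ x ∈ L, x ∈ N) ∧
        sets A L = (List.range' k m).map V := by
      intro m
      induction m with
      | zero => exact fun k => ⟨[], [], by simp, rfl⟩
      | succ m ih =>
        intro k
        obtain ⟨A, L, hL, hAL⟩ := ih (k + 1)
        refine ⟨(a k, (l k).length) :: A, l k ++ L, ?_, ?_⟩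
        · intro x hx
          rcases List.mem_append.1 hx with hx | hx
          · exact hl k x hx
          · exact hL x hx
        · show σ (a k) ((l k ++ L).take (l k).length) :: sets A ((l k ++ L).drop (l k).length) = _
          rw [List.take_left, List.drop_left, hAL, List.range'_succ, List.map_cons, ← hVa]
    obtain ⟨A, L, hL, hAL⟩ := hsets (ELEM.sbd φ) 0
    have hLv : ∀ x ∈ (List.range (ELEM.fbd φ)).map v, x ∈ N := by
      intro x hx
      obtain ⟨n, -, rfl⟩ := List.mem_map.1 hx
      exact hv n
    have key : ∀ b, φ.sat (fun n => (sets A L).getD n ∅)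
        (Function.update (asg ((List.range (ELEM.fbd φ)).map v)) i b) ↔
          φ.sat V (Function.update v i b) := by
      intro b
      refine ELEM.sat_congr φ _ _ _ _ ?_ (ELEM.update_congr ?_ i b)
      · intro n hn
        rw [hAL]
        simp [hn]
      · intro n hn
        simp [asg, hn]
    have h1 := hcl (2 * Encodable.encode ((φ, i, A, ELEM.fbd φ) : Fm × ℕ × List (ℕ × ℕ) × ℕ) + 1 + 4)
      ((List.range (ELEM.fbd φ)).map v ++ L) (by
        intro x hx
        rcases List.mem_append.1 hx with hx | hx
        · exact hLv x hx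
        · exact hL x hx)
    have h2 : g (2 * Encodable.encode ((φ, i, A, ELEM.fbd φ) : Fm × ℕ × List (ℕ × ℕ) × ℕ) + 1 + 4)
        ((List.range (ELEM.fbd φ)).map v ++ L) =
        sk (φ, i, A, ELEM.fbd φ) ((List.range (ELEM.fbd φ)).map v ++ L) := by
      have e1 : (2 * Encodable.encode ((φ, i, A, ELEM.fbd φ) : Fm × ℕ × List (ℕ × ℕ) × ℕ) + 1) % 2
        = 1 := by omega
      have e2 : (2 * Encodable.encode ((φ, i, A, ELEM.fbd φ) : Fm × ℕ × List (ℕ × ℕ) × ℕ) + 1) / 2
        = Encodable.encode ((φ, i, A, ELEM.fbd φ) : Fm × ℕ × List (ℕ × ℕ) × ℕ) := by omega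
      show (if _ then _ else _) = _
      rw [if_neg (by omega), e2, Encodable.encodek]
    rw [h2] at h1
    refine ⟨_, h1, ?_⟩
    have hlen : ((List.range (ELEM.fbd φ)).map v).length = ELEM.fbd φ := by simp
    have h3 : ∃ b, φ.sat (fun n => (sets A
          (((List.range (ELEM.fbd φ)).map v ++ L).drop (ELEM.fbd φ))).getD n ∅)
        (Function.update (asg (((List.range (ELEM.fbd φ)).map v ++ L).take (ELEM.fbd φ))) i b) := by
      rw [List.drop_left' hlen, List.take_left' hlen]
      obtain ⟨b, hb⟩ := hex
      exact ⟨b, (key b).2 hb⟩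
    have h4 : sk (φ, i, A, ELEM.fbd φ) ((List.range (ELEM.fbd φ)).map v ++ L) = h3.choose := by
      show (if H : _ then _ else _) = _
      rw [dif_pos h3]
    have h5 := h3.choose_spec
    rw [← h4, List.drop_left' hlen, List.take_left' hlen] at h5
    exact (key _).1 h5

end

end Pool.Agent.Lib.H37R
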