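import Pool.Agent.Lib.H37R.L2
import Pool.Agent.Lib.H37R.Cls

/-!
# Chunk FAM: families of closed classes, operations on them, a countable closed list of families
-/

namespace Pool.Agent.Lib.H37R

open Filter Topology

/-- decoding of `pr` on `ℕ`: `sqrt (pr a b) = a + b` -/
def prl (n : ℕ) : ℕ := n - n.sqrt * n.sqrt
def prr (n : ℕ) : ℕ := n.sqrt - prl n

private theorem FAM_sqrt (a b : ℕ) : (pr a b).sqrt = a + b := by
  unfold pr
  exact Nat.sqrt_add_eq (a + b) (by omega)

theorem prl_pr (a b : ℕ) : prl (pr a b) = a := by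
  unfold prl
  rw [FAM_sqrt]
  unfold pr
  omega

theorem prr_pr (a b : ℕ) : prr (pr a b) = b := by
  unfold prr
  rw [FAM_sqrt, prl_pr]
  omega

/-- a condition on a discrete value of a continuous function is closed -/
private theorem FAM_closed {X D : Type*} [TopologicalSpace X] [TopologicalSpace D]
    [DiscreteTopology D] {f : X → D} (hf : Continuous f) (P : D → Prop) :
    IsClosed {x | P (f x)} :=
  (isClosed_discrete {d | P d}).preimage hf

/-- a condition on a discrete value of a continuous function is open -/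
private theorem FAM_open {X D : Type*} [TopologicalSpace X] [TopologicalSpace D]
    [DiscreteTopology D] {f : X → D} (hf : Continuous f) (P : D → Prop) :
    IsOpen {x | P (f x)} :=
  (isOpen_discrete {d | P d}).preimage hf

private theorem FAM_forall {X ι : Type*} [TopologicalSpace X] {P : ι → X → Prop}
    (h : ∀ i, IsClosed {x | P i x}) : IsClosed {x | ∀ i, P i x} := by
  rw [Set.setOf_forall]
  exact isClosed_iInter h

private theorem FAM_imp {X : Type*} [TopologicalSpace X] {p : Prop} {P : X → Prop}
    (h : p → IsClosed {x | P x}) : IsClosed {x | p → P x} := by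
  by_cases hp : p
  · simpa only [hp, true_imp_iff] using h hp
  · simp only [hp, false_imp_iff]
    exact isClosed_univ

private theorem FAM_pt (q t : ℕ) : Continuous fun w : Pt => w.1 q t := by fun_prop

private theorem FAM_bit (n : ℕ) : Continuous fun w : Pt => w.2 n := by fun_prop

/-- closed classes -/
abbrev Cl := TopologicalSpace.Closeds Sp
/-- families of closed classes, parameter in `ℕ` -/
abbrev CFam := ℕ → Cl

/-- The right half of the oracle has no element `> p`. -/
def infP (p : ℕ) : Set Sp := {x | ∀ n, p < n → rgt x.2.1 n = false}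

theorem isClosed_infP (p : ℕ) : IsClosed (infP p) := by
  unfold infP
  refine FAM_forall fun n => FAM_imp fun _ => ?_
  refine FAM_closed (f := fun x : Sp => rgt x.2.1 n) ?_ (fun b => b = false)
  show Continuous fun x : Sp => x.2.1 (2 * n + 1)
  fun_prop

def infF : CFam := fun p => ⟨infP p, isClosed_infP p⟩

/-- `m` points of the class, separated beyond `xi`; parameter `pr p xi` -/
def sepP (m : ℕ) (C : CFam) (q : ℕ) : Set Sp :=
  {x | (∀ a < m, (x.1, x.2.1, sub a x.2.2) ∈ (C (prl q) : Set Sp)) ∧
    ∀ a < m, ∀ b < m, a ≠ b → ∀ i t, prr q ≤ t → (sub a x.2.2).1 i t ≠ (sub b x.2.2).1 i t}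

theorem isClosed_sepP (m : ℕ) (C : CFam) (q : ℕ) : IsClosed (sepP m C q) := by
  unfold sepP
  refine IsClosed.inter (FAM_forall fun a => FAM_imp fun _ => ?_)
    (FAM_forall fun a => FAM_imp fun _ => FAM_forall fun b => FAM_imp fun _ =>
      FAM_imp fun _ => FAM_forall fun i => FAM_forall fun t => FAM_imp fun _ => ?_)
  · refine (C (prl q)).isClosed.preimage (f := fun x : Sp => (x.1, x.2.1, sub a x.2.2)) ?_
    have := continuous_sub a
    fun_prop
  · refine FAM_closed (f := fun x : Sp => ((sub a x.2.2).1 i t, (sub b x.2.2).1 i t)) ?_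
      (fun d => d.1 ≠ d.2)
    have h1 : Continuous fun x : Sp => (sub a x.2.2).1 i t :=
      (FAM_pt i t).comp ((continuous_sub a).comp (by fun_prop))
    have h2 : Continuous fun x : Sp => (sub b x.2.2).1 i t :=
      (FAM_pt i t).comp ((continuous_sub b).comp (by fun_prop))
    exact h1.prodMk h2

def sepF (m : ℕ) (C : CFam) : CFam := fun q => ⟨sepP m C q, isClosed_sepP m C q⟩

/-- read the family with the left half of the oracle -/
def leftP (C : CFam) (q : ℕ) : Set Sp := {x | (x.1, lft x.2.1, x.2.2) ∈ (C q : Set Sp)}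

theorem isClosed_leftP (C : CFam) (q : ℕ) : IsClosed (leftP C q) := by
  refine (C q).isClosed.preimage (f := fun x : Sp => (x.1, lft x.2.1, x.2.2)) ?_
  have := continuous_lft
  fun_prop

def leftF (C : CFam) : CFam := fun q => ⟨leftP C q, isClosed_leftP C q⟩

/-- a part of a cover is a natural number; for `c ≥ 1` it codes a list of pairs (part, side) -/
def dpart (s : ℕ) : List (ℕ × Bool) := (Encodable.decode s).getD []

/-- the splitting `Z_{s,e}` coded in the bits of a point -/
def Zb (w : Pt) (s : ℕ) (e : Bool) (m : ℕ) : Bool :=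
  (sub 1 w).2 (Nat.pair (Nat.pair s (if e then 1 else 0)) m)

/-- the cover coded by a point: `c = 0`: every part is everything; `c ≥ 1`: the part `π` is the
intersection over `j < c` of the `Z_{π_j}` of the `j`-th sub-point -/
def cov (c : ℕ) (w : Pt) (s m : ℕ) : Bool :=
  if c = 0 then true
  else decide (∀ j < c, Zb (sub j w) ((dpart s).getD j (0, false)).1
    ((dpart s).getD j (0, false)).2 m = true)

private theorem FAM_Zb (s : ℕ) (e : Bool) (m : ℕ) : Continuous fun w : Pt => Zb w s e m :=
  (FAM_bit _).comp (continuous_sub 1)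

theorem continuous_cov (c s m : ℕ) : Continuous (fun w : Pt => cov c w s m) := by
  unfold cov
  by_cases hc : c = 0
  · simp only [hc, if_true]
    exact continuous_const
  · simp only [hc, if_false]
    have h : Continuous fun w : Pt => fun j : Fin c => Zb (sub j w)
        ((dpart s).getD j (0, false)).1 ((dpart s).getD j (0, false)).2 m :=
      continuous_pi fun j => (FAM_Zb _ _ _).comp (continuous_sub j)
    have h2 : Continuous fun d : Fin c → Bool => decide (∀ j, d j = true) :=
      continuous_of_discreteTopology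
    refine (h2.comp h).congr fun w => ?_
    refine decide_eq_decide.2 ⟨fun h3 j hj => h3 ⟨j, hj⟩, fun h3 j => h3 j.1 j.2⟩

/-- finite set of stems: triples (part, side, element) -/
abbrev Stm := Finset (ℕ × Bool × ℕ)

/-- the stem of part `s`, side `e` -/
def Stm.st (S : Stm) (s : ℕ) (e : Bool) : Finset ℕ :=
  (S.filter (fun x => x.1 = s ∧ x.2.1 = e)).image (fun x => x.2.2)

/-- requirements (part, side, index of family, parameter) -/
abbrev Req := ℕ × Bool × ℕ × ℕ

/-- parameters of `UF`: (old parameter, new elements, stems, bound, unkilled requirements) -/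
abbrev UPar := ℕ × Stm × Stm × ℕ × Finset Req

/-- code of the witness point for requirement `ρ` and the finite set `τ` -/
def wc (ρ : Req) (τ : Finset ℕ) : ℕ := 2 + Encodable.encode (ρ, τ)

def UPred (c : ℕ) (C : CFam) (D : ℕ → CFam) (n : ℕ) (P : UPar) (T : Tre) (X : Orc) (w : Pt) : Prop :=
  (T, X, sub 0 w) ∈ (C P.1 : Set Sp) ∧
  (∀ x ∈ P.2.1, cov c (sub 0 w) x.1 x.2.2 = true) ∧
  (∀ s e m, Zb w s e m = true → cov c (sub 0 w) s m = true) ∧
  (∀ s m, cov c (sub 0 w) s m = true → Zb w s false m = true ∨ Zb w s true m = true) ∧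
  (∀ ρ ∈ P.2.2.2.2, ρ.2.2.1 ≤ n → ∀ τ : Finset ℕ,
    (∀ m ∈ τ, P.2.2.2.1 ≤ m ∧ Zb w ρ.1 ρ.2.1 m = true) →
      (T, join X (ind (P.2.2.1.st ρ.1 ρ.2.1 ∪ τ)), sub (wc ρ τ) w) ∈ (D ρ.2.2.1 ρ.2.2.2 : Set Sp))

def UP (c : ℕ) (C : CFam) (D : ℕ → CFam) (n : ℕ) (q : ℕ) : Set Sp :=
  {x | ∃ P : UPar, Encodable.decode q = some P ∧ UPred c C D n P x.1 x.2.1 x.2.2}

theorem isClosed_UP (c : ℕ) (C : CFam) (D : ℕ → CFam) (n : ℕ) (q : ℕ) :
    IsClosed (UP c C D n q) := by
  cases hq : (Encodable.decode q : Option UPar) with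
  | none =>
    have : UP c C D n q = ∅ := by
      ext x
      simp only [UP, hq, Set.mem_ofPred_eq, Set.mem_empty_iff_false, iff_false]
      rintro ⟨P, h, _⟩
      exact absurd h (by simp)
    rw [this]
    exact isClosed_empty
  | some P =>
    have : UP c C D n q = {x | UPred c C D n P x.1 x.2.1 x.2.2} := by
      ext x
      simp only [UP, hq, Set.mem_ofPred_eq]
      constructor
      · rintro ⟨P', h, h'⟩
        obtain rfl := Option.some.inj h
        exact h'
      · exact fun h => ⟨P, rfl, h⟩
    rw [this]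
    unfold UPred
    have hz : ∀ s e m, Continuous fun x : Sp => Zb x.2.2 s e m := fun s e m =>
      (FAM_Zb s e m).comp (by fun_prop)
    have hc : ∀ s m, Continuous fun x : Sp => cov c (sub 0 x.2.2) s m := fun s m =>
      (continuous_cov c s m).comp ((continuous_sub 0).comp (by fun_prop))
    refine IsClosed.inter ?_ (IsClosed.inter ?_ (IsClosed.inter ?_ (IsClosed.inter ?_ ?_)))
    · refine (C P.1).isClosed.preimage (f := fun x : Sp => (x.1, x.2.1, sub 0 x.2.2)) ?_
      have := continuous_sub 0
      fun_prop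
    · refine FAM_forall fun y => FAM_imp fun _ => ?_
      exact FAM_closed (hc y.1 y.2.2) (fun b => b = true)
    · refine FAM_forall fun s => FAM_forall fun e => FAM_forall fun m => ?_
      exact FAM_closed ((hz s e m).prodMk (hc s m)) (fun b => b.1 = true → b.2 = true)
    · refine FAM_forall fun s => FAM_forall fun m => ?_
      exact FAM_closed ((hc s m).prodMk ((hz s false m).prodMk (hz s true m)))
        (fun b => b.1 = true → b.2.1 = true ∨ b.2.2 = true)
    · refine FAM_forall fun ρ => FAM_imp fun _ => FAM_imp fun _ => FAM_forall fun τ => ?_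
      refine isClosed_imp ?_ ?_
      · have h1 : {x : Sp | ∀ m ∈ τ, P.2.2.2.1 ≤ m ∧ Zb x.2.2 ρ.1 ρ.2.1 m = true} =
            ⋂ m ∈ τ, {x : Sp | P.2.2.2.1 ≤ m ∧ Zb x.2.2 ρ.1 ρ.2.1 m = true} := by
          ext x
          simp
        rw [h1]
        refine isOpen_biInter_finset fun m _ => ?_
        exact FAM_open (hz ρ.1 ρ.2.1 m) (fun b => P.2.2.2.1 ≤ m ∧ b = true)
      · refine (D ρ.2.2.1 ρ.2.2.2).isClosed.preimage (f := fun x : Sp =>
          (x.1, join x.2.1 (ind (P.2.2.1.st ρ.1 ρ.2.1 ∪ τ)), sub (wc ρ τ) x.2.2)) ?_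
        have h2 := continuous_sub (wc ρ τ)
        have h3 := continuous_join_left (ind (P.2.2.1.st ρ.1 ρ.2.1 ∪ τ))
        refine continuous_fst.prodMk (Continuous.prodMk ?_ ?_)
        · exact h3.comp (by fun_prop)
        · exact h2.comp (by fun_prop)

def UF (c : ℕ) (C : CFam) (D : ℕ → CFam) (n : ℕ) : CFam := fun q => ⟨UP c C D n q, isClosed_UP c C D n q⟩

/-- closed predicates on (tree, oracle, sequence of sets, one path) -/
abbrev Th := ℕ → TopologicalSpace.Closeds (Tre × Orc × (ℕ → Orc) × (ℕ → ℕ))

/-- code of a tuple -/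
def tup : List ℕ → ℕ
  | [] => 0
  | a :: L => pr a (tup L)

/-- `j`-th component -/
def cmp (j p : ℕ) : ℕ := prl (prr^[j] p)

theorem cmp_tup (L : List ℕ) (j : ℕ) (h : j < L.length) : cmp j (tup L) = L.getD j 0 := by
  induction j generalizing L with
  | zero =>
    cases L with
    | nil => simp at h
    | cons a L =>
      show prl (pr a (tup L)) = a
      exact prl_pr _ _
  | succ j ih =>
    cases L with
    | nil => simp at h
    | cons a L =>
      have h' : j < L.length := by simpa using h
      have := ih L h'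
      unfold cmp at this ⊢
      rw [Function.iterate_succ_apply]
      show prl (prr^[j] (prr (pr a (tup L)))) = _
      rw [prr_pr, this, List.getD_cons_succ]

/-- sets coded in the bits of a point -/
def bts (w : Pt) : ℕ → Orc := fun j u => (sub 0 w).2 (Nat.pair j u)

/-- `compF`: parameter `q = pr p u'`, the parameter of the `j`-th set is `cmp j p` -/
def compP (θ : Th) (m : ℕ) (D D' : ℕ → CFam) (q : ℕ) : Set Sp :=
  {x | (x.1, x.2.1, bts x.2.2, (sub 0 x.2.2).1 0) ∈ (θ q : Set _) ∧
    ∀ j < m, ∀ u, (bts x.2.2 j u = true →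
        (x.1, x.2.1, sub (1 + Nat.pair j u) x.2.2) ∈ (D j (pr (cmp j (prl q)) u) : Set Sp)) ∧
      (bts x.2.2 j u = false →
        (x.1, x.2.1, sub (1 + Nat.pair j u) x.2.2) ∈ (D' j (pr (cmp j (prl q)) u) : Set Sp))}

theorem isClosed_compP (θ : Th) (m : ℕ) (D D' : ℕ → CFam) (q : ℕ) :
    IsClosed (compP θ m D D' q) := by
  unfold compP
  have hb : ∀ j u, Continuous fun w : Pt => bts w j u := fun j u =>
    (FAM_bit _).comp (continuous_sub 0)
  refine IsClosed.inter ?_ (FAM_forall fun j => FAM_imp fun _ => FAM_forall fun u => ?_)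
  · refine (θ q).isClosed.preimage (f := fun x : Sp =>
      (x.1, x.2.1, bts x.2.2, (sub 0 x.2.2).1 0)) ?_
    refine continuous_fst.prodMk (Continuous.prodMk (by fun_prop) (Continuous.prodMk ?_ ?_))
    · refine continuous_pi fun j => continuous_pi fun u => ?_
      exact (hb j u).comp (by fun_prop)
    · refine continuous_pi fun t => ?_
      exact (FAM_pt 0 t).comp ((continuous_sub 0).comp (by fun_prop))
  · have h1 : ∀ b : Bool, IsOpen {x : Sp | bts x.2.2 j u = b} := fun b =>
      FAM_open (f := fun x : Sp => bts x.2.2 j u) ((hb j u).comp (by fun_prop)) (fun c => c = b)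
    have h2 : ∀ C : Cl, IsClosed {x : Sp | (x.1, x.2.1, sub (1 + Nat.pair j u) x.2.2) ∈
        (C : Set Sp)} := by
      intro C
      refine C.isClosed.preimage (f := fun x : Sp =>
        (x.1, x.2.1, sub (1 + Nat.pair j u) x.2.2)) ?_
      have h3 := continuous_sub (1 + Nat.pair j u)
      refine continuous_fst.prodMk (Continuous.prodMk (by fun_prop) ?_)
      exact h3.comp (by fun_prop)
    exact IsClosed.inter (isClosed_imp (h1 true) (h2 _)) (isClosed_imp (h1 false) (h2 _))

def compF (θ : Th) (m : ℕ) (D D' : ℕ → CFam) : CFam := fun q => ⟨compP θ m D D' q, isClosed_compP θ m D D' q⟩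

end Pool.Agent.Lib.H37R
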