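import Pool.Agent.Lib.H37R.Fam

/-!
# Chunk FAM2: a countable list of families closed under the operations
-/

namespace Pool.Agent.Lib.H37R

open Filter Topology

/-- the enumeration -/
def FAM2_e {D : Type*} [Inhabited D] (ops : ℕ → List D → D) (i : ℕ) : D :=
  match (Encodable.decode i.unpair.2 : Option (ℕ × List ℕ)) with
  | none => default
  | some q => ops q.1 (q.2.map fun k => if _h : k < i then FAM2_e ops k else default)
termination_by i

/-- Enumeration lemma: closure under countably many finitary operations is countable.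
Proof: `e` by strong recursion, `e i = ops n (L.map e)` where `i.unpair.2` codes `(n, L)`, entries of `L`
which are `≥ i` are replaced by the default; take `i = pair s (code (n, L))` with `s` large. -/
theorem enum_lemma {D : Type*} [Inhabited D] (ops : ℕ → List D → D) :
    ∃ e : ℕ → D, ∀ n (L : List ℕ), ∃ i, e i = ops n (L.map e) := by
  refine ⟨FAM2_e ops, fun n L => ?_⟩
  refine ⟨Nat.pair (L.sum + 1) (Encodable.encode (n, L)), ?_⟩
  rw [FAM2_e, Nat.unpair_pair]
  simp only [Encodable.encodek]
  congr 1
  refine List.map_congr_left fun k hk => ?_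
  have h1 : k ≤ L.sum := List.le_sum_of_mem hk
  have h2 : k < Nat.pair (L.sum + 1) (Encodable.encode (n, L)) :=
    lt_of_lt_of_le (Nat.lt_succ_of_le h1) (Nat.left_le_pair _ _)
  rw [dif_pos h2]

/-- a list of families closed under the operations -/
structure OpsClosed (Θ : ℕ → Th) (F : ℕ → CFam) : Prop where
  inf : F 0 = infF
  sep : ∀ m i, ∃ j, F j = sepF m (F i)
  left : ∀ i, ∃ j, F j = leftF (F i)
  u : ∀ c i n, ∃ j, F j = UF c (F i) F n
  comp : ∀ a m (f g : ℕ → ℕ), ∃ j, F j = compF (Θ a) m (fun j => F (f j)) (fun j => F (g j))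

/-- only the families `D 0, ..., D n` matter in `UF` -/
theorem UF_congr (c : ℕ) (C : CFam) (D D' : ℕ → CFam) (n : ℕ) (h : ∀ i ≤ n, D i = D' i) :
    UF c C D n = UF c C D' n := by
  funext q
  apply TopologicalSpace.Closeds.ext
  show UP c C D n q = UP c C D' n q
  ext x
  unfold UP UPred
  refine exists_congr fun P => and_congr_right fun _ => and_congr_right fun _ =>
    and_congr_right fun _ => and_congr_right fun _ => and_congr_right fun _ => ?_
  refine forall_congr' fun ρ => forall_congr' fun _ => forall_congr' fun hρ => ?_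
  rw [h ρ.2.2.1 hρ]

/-- only `j < m` matters in `compF` -/
theorem compF_congr (θ : Th) (m : ℕ) (D D' E E' : ℕ → CFam) (h : ∀ j < m, D j = E j)
    (h' : ∀ j < m, D' j = E' j) : compF θ m D D' = compF θ m E E' := by
  funext q
  apply TopologicalSpace.Closeds.ext
  show compP θ m D D' q = compP θ m E E' q
  ext x
  unfold compP
  refine and_congr_right fun _ => forall_congr' fun j => forall_congr' fun hj => ?_
  rw [h j hj, h' j hj]

/-- the operations -/
def FAM2_op (Θ : ℕ → Th) (n : ℕ) (L : List CFam) : CFam :=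
  let t := n.unpair.1
  let a := n.unpair.2.unpair.1
  let b := n.unpair.2.unpair.2
  if t = 0 then infF
  else if t = 1 then sepF a (L.getD 0 infF)
  else if t = 2 then leftF (L.getD 0 infF)
  else if t = 3 then UF a (L.getD 0 infF) (fun k => L.getD (k + 1) infF) b
  else compF (Θ a) b (fun j => L.getD j infF) (fun j => L.getD (b + j) infF)

theorem exists_opsClosed (Θ : ℕ → Th) : ∃ F : ℕ → CFam, OpsClosed Θ F := by
  have : Inhabited CFam := ⟨infF⟩
  obtain ⟨e, he⟩ := enum_lemma (FAM2_op Θ)
  obtain ⟨i0, hi0⟩ := he (Nat.pair 0 0) []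
  have hi0' : e i0 = infF := by
    rw [hi0]
    simp [FAM2_op]
  set φ : ℕ → ℕ := fun i => if i = 0 then i0 else i - 1 with hφ
  have key : ∀ n (L : List ℕ), ∃ j, e (φ j) = FAM2_op Θ n (L.map fun i => e (φ i)) := by
    intro n L
    obtain ⟨i, hi⟩ := he n (L.map φ)
    refine ⟨i + 1, ?_⟩
    have h1 : φ (i + 1) = i := by simp [hφ]
    rw [h1, hi, List.map_map]
    rfl
  have hget : ∀ (L : List ℕ) (j : ℕ), j < L.length →
      (L.map fun i => e (φ i)).getD j infF = e (φ (L.getD j 0)) := by
    intro L j hj
    rw [List.getD_eq_getElem _ _ (by simpa using hj), List.getD_eq_getElem _ _ hj, List.getElem_map]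
  refine ⟨fun i => e (φ i), ?_, ?_, ?_, ?_, ?_⟩
  · show e (φ 0) = infF
    rw [show φ 0 = i0 by simp [hφ]]
    exact hi0'
  · intro m i
    obtain ⟨j, hj⟩ := key (Nat.pair 1 (Nat.pair m 0)) [i]
    refine ⟨j, hj.trans ?_⟩
    simp [FAM2_op]
  · intro i
    obtain ⟨j, hj⟩ := key (Nat.pair 2 0) [i]
    refine ⟨j, hj.trans ?_⟩
    simp [FAM2_op]
  · intro c i n
    obtain ⟨j, hj⟩ := key (Nat.pair 3 (Nat.pair c n)) (i :: List.range (n + 1))
    refine ⟨j, hj.trans ?_⟩
    unfold FAM2_op
    simp only [Nat.unpair_pair]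
    rw [if_neg (by omega), if_neg (by omega), if_neg (by omega), if_pos trivial]
    have h0 : ((i :: List.range (n + 1)).map fun i => e (φ i)).getD 0 infF = e (φ i) := rfl
    rw [h0]
    refine UF_congr _ _ _ _ _ fun k hk => ?_
    have hk' : k < n + 1 := Nat.lt_succ_of_le hk
    rw [hget _ (k + 1) (by simp; omega), List.getD_cons_succ]
    rw [List.getD_eq_getElem _ _ (by simpa using hk'), List.getElem_range]
  · intro a m f g
    obtain ⟨j, hj⟩ := key (Nat.pair 4 (Nat.pair a m))
      ((List.range m).map f ++ (List.range m).map g)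
    refine ⟨j, hj.trans ?_⟩
    unfold FAM2_op
    simp only [Nat.unpair_pair]
    rw [if_neg (by omega), if_neg (by omega), if_neg (by omega), if_neg (by omega)]
    refine compF_congr _ _ _ _ _ _ (fun k hk => ?_) (fun k hk => ?_)
    · show _ = e (φ (f k))
      rw [hget _ k (by simp; omega)]
      congr 2
      rw [List.getD_append _ _ _ _ (by simpa using hk), List.getD_eq_getElem _ _ (by simpa using hk),
        List.getElem_map, List.getElem_range]
    · show _ = e (φ (g k))
      rw [hget _ (m + k) (by simp; omega)]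
      congr 2
      rw [List.getD_append_right _ _ _ _ (by simp),
        List.getD_eq_getElem _ _ (by simp; omega), List.getElem_map, List.getElem_range]
      simp

end Pool.Agent.Lib.H37R
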