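import Pool.Agent.Lib.H37R.Fam

/-!
# Chunk FIBRE: the forcing inside one fibre (PROOF.md 3.1)
-/

namespace Pool.Agent.Lib.H37R

open Filter Topology

theorem Stm.mem_st (S : Stm) (s : ℕ) (e : Bool) (m : ℕ) : m ∈ S.st s e ↔ (s, e, m) ∈ S := by
  unfold Stm.st
  rw [Finset.mem_image]
  constructor
  · rintro ⟨⟨a, b, c⟩, h, rfl⟩
    rw [Finset.mem_filter] at h
    obtain ⟨h1, h2, h3⟩ := h
    simp only at h2 h3
    subst h2 h3
    exact h1
  · intro h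
    exact ⟨(s, e, m), Finset.mem_filter.2 ⟨h, rfl, rfl⟩, rfl⟩

/-- the requirement `ρ` is killed at the state `(S, d)` -/
def KilledAt (D : ℕ → CFam) (T : Tre) (X : Orc) (S : Stm) (d : ℕ) (ρ : Req) : Prop :=
  ∀ G : Orc, (∀ m < d, G m = ind (S.st ρ.1 ρ.2.1) m) →
    ¬ alive (D ρ.2.2.1 ρ.2.2.2) T (join X G)

/-- parameter of `UF` for the state `(S, d)`, unkilled requirements `Unk`, old bound `d0`, old
parameter `P` -/
def uparam (P d0 : ℕ) (S : Stm) (d : ℕ) (Unk : Finset Req) : ℕ :=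
  Encodable.encode ((P, S.filter (fun x => d0 ≤ x.2.2), S, d, Unk) : UPar)

/-- the result of the fibre lemma, for one fibre -/
structure FibreOK (T : Tre) (X A : Orc) (C : CFam) (P c : ℕ) (L : Finset ℕ) (S0 : Stm) (d0 : ℕ)
    (D : ℕ → CFam) (n : ℕ) (S : ℕ → Stm) (d : ℕ → ℕ) (Unk : ℕ → Finset Req) : Prop where
  d_ge : ∀ v, d0 ≤ d v ∧ v ≤ d v
  part : ∀ v, ∀ x ∈ S v, x.1 ∈ L ∧ x.2.2 < d v ∧ (d0 ≤ x.2.2 → A x.2.2 = x.2.1)
  old : ∀ v, ∀ s ∈ L, ∀ e, ∀ m < d0, (s, e, m) ∈ S v ↔ (s, e, m) ∈ S0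
  mono : ∀ v, d v ≤ d (v + 1) ∧ ∀ s e m, m < d v → ((s, e, m) ∈ S (v + 1) ↔ (s, e, m) ∈ S v)
  unk : ∀ v, ∀ ρ ∈ Unk v, ρ.1 ∈ L ∧ ρ.2.2.1 ≤ n ∧ ρ.2.2.2 < v
  killed : ∀ v, ∀ ρ : Req, ρ.1 ∈ L → ρ.2.2.1 ≤ n → ρ.2.2.2 < v → ρ ∉ Unk v →
    KilledAt D T X (S v) (d v) ρ
  valid : ∀ v, ∃ w ∈ K (C P) T X, ∀ x ∈ S v, d0 ≤ x.2.2 → cov c w x.1 x.2.2 = true
  aliveU : ∀ v, alive (UF c C D n (uparam P d0 (S v) (d v) (Unk v)) : Set Sp) T X

/-- valid states -/
private structure Val (T : Tre) (X A : Orc) (C : CFam) (P c : ℕ) (L : Finset ℕ) (S0 : Stm) (d0 : ℕ)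
    (q : Stm × ℕ) : Prop where
  d_ge : d0 ≤ q.2
  part : ∀ x ∈ q.1, x.1 ∈ L ∧ x.2.2 < q.2 ∧ (d0 ≤ x.2.2 → A x.2.2 = x.2.1)
  old : ∀ s ∈ L, ∀ e, ∀ m < d0, (s, e, m) ∈ q.1 ↔ (s, e, m) ∈ S0
  valid : ∃ w ∈ K (C P) T X, ∀ x ∈ q.1, d0 ≤ x.2.2 → cov c w x.1 x.2.2 = true

/-- extension of states -/
private def Ext (q q' : Stm × ℕ) : Prop :=
  q.2 ≤ q'.2 ∧ ∀ s e m, m < q.2 → ((s, e, m) ∈ q'.1 ↔ (s, e, m) ∈ q.1)

private theorem Ext.refl (q : Stm × ℕ) : Ext q q := ⟨le_rfl, fun _ _ _ _ => Iff.rfl⟩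

private theorem Ext.trans {q q' q'' : Stm × ℕ} (h : Ext q q') (h' : Ext q' q'') : Ext q q'' :=
  ⟨h.1.trans h'.1, fun s e m hm =>
    (h'.2 s e m (lt_of_lt_of_le hm h.1)).trans (h.2 s e m hm)⟩

private theorem KilledAt.ext {D : ℕ → CFam} {T : Tre} {X : Orc} {q q' : Stm × ℕ} {ρ : Req}
    (h : KilledAt D T X q.1 q.2 ρ) (hq : Ext q q') : KilledAt D T X q'.1 q'.2 ρ := by
  intro G hG
  refine h G fun m hm => ?_
  rw [hG m (lt_of_lt_of_le hm hq.1)]
  unfold ind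
  refine decide_eq_decide.2 ?_
  rw [Stm.mem_st, Stm.mem_st]
  exact hq.2 _ _ m hm

/-- all valid extensions satisfy the requirement -/
private def DeadEnd (T : Tre) (X A : Orc) (C : CFam) (P c : ℕ) (L : Finset ℕ) (S0 : Stm) (d0 : ℕ)
    (D : ℕ → CFam) (q : Stm × ℕ) (ρ : Req) : Prop :=
  ∀ q', Ext q q' → Val T X A C P c L S0 d0 q' →
    alive (D ρ.2.2.1 ρ.2.2.2) T (join X (ind (q'.1.st ρ.1 ρ.2.1)))

section step

variable {k : ℕ} {T : Tre} {X A : Orc} {C : CFam} {P c : ℕ} {L : Finset ℕ} {S0 : Stm} {d0 : ℕ}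
  {D : ℕ → CFam}

private theorem Val.mono {q : Stm × ℕ} (h : Val T X A C P c L S0 d0 q) {d : ℕ} (hd : q.2 ≤ d) :
    Val T X A C P c L S0 d0 (q.1, d) where
  d_ge := h.d_ge.trans hd
  part := fun x hx => ⟨(h.part x hx).1, lt_of_lt_of_le (h.part x hx).2.1 hd, (h.part x hx).2.2⟩
  old := h.old
  valid := h.valid

private theorem step_one (hT : Bdd k T) {q : Stm × ℕ} (h : Val T X A C P c L S0 d0 q) (ρ : Req) :
    ∃ q', Ext q q' ∧ Val T X A C P c L S0 d0 q' ∧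
      (KilledAt D T X q'.1 q'.2 ρ ∨ DeadEnd T X A C P c L S0 d0 D q' ρ) := by
  by_cases hd : DeadEnd T X A C P c L S0 d0 D q ρ
  · exact ⟨q, Ext.refl q, h, Or.inr hd⟩
  · unfold DeadEnd at hd
    push Not at hd
    obtain ⟨q', h1, h2, h3⟩ := hd
    obtain ⟨d, hd⟩ := local_death k (D ρ.2.2.1 ρ.2.2.2) (D ρ.2.2.1 ρ.2.2.2).isClosed T
      (join X (ind (q'.1.st ρ.1 ρ.2.1))) hT h3
    refine ⟨(q'.1, max q'.2 d), ⟨h1.1.trans (le_max_left _ _), h1.2⟩, h2.mono (le_max_left _ _),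
      Or.inl ?_⟩
    intro G hG
    refine hd _ fun n hn => ?_
    unfold join
    split
    · rfl
    · refine hG _ ?_
      have : n / 2 ≤ n := Nat.div_le_self n 2
      exact lt_of_lt_of_le (lt_of_le_of_lt this hn) (le_max_right _ _)

private theorem step_fin (hT : Bdd k T) (R : Finset Req) : ∀ {q : Stm × ℕ},
    Val T X A C P c L S0 d0 q →
    ∃ q', Ext q q' ∧ Val T X A C P c L S0 d0 q' ∧
      ∀ ρ ∈ R, KilledAt D T X q'.1 q'.2 ρ ∨ DeadEnd T X A C P c L S0 d0 D q' ρ := by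
  classical
  induction R using Finset.induction_on with
  | empty =>
    intro q h
    exact ⟨q, Ext.refl q, h, fun ρ hρ => absurd hρ (Finset.notMem_empty ρ)⟩
  | insert ρ R _ ih =>
    intro q h
    obtain ⟨q1, h1, h2, h3⟩ := ih h
    obtain ⟨q2, h4, h5, h6⟩ := step_one (D := D) hT h2 ρ
    refine ⟨q2, h1.trans h4, h5, ?_⟩
    intro ρ' hρ'
    rcases Finset.mem_insert.1 hρ' with rfl | hρ'
    · exact h6
    · rcases h3 ρ' hρ' with h7 | h7
      · exact Or.inl (KilledAt.ext h7 h4)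
      · exact Or.inr fun q' h8 h9 => h7 q' (h4.trans h8) h9

/-- the UF class is alive -/
private theorem aliveU_of (hp : ∃ y, IsPath T y) {n : ℕ} {q : Stm × ℕ}
    (h : Val T X A C P c L S0 d0 q) (Unk : Finset Req) (hL : ∀ ρ ∈ Unk, ρ.1 ∈ L)
    (hU : ∀ ρ ∈ Unk, DeadEnd T X A C P c L S0 d0 D q ρ) :
    alive (UF c C D n (uparam P d0 q.1 q.2 Unk) : Set Sp) T X := by
  classical
  obtain ⟨y, hy⟩ := hp
  obtain ⟨w, hw, hcov⟩ := h.valid
  set dflt : Pt := (fun _ => y, fun _ => false) with hdflt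
  -- witnesses
  have hY : ∀ (ρ : Req) (τ : Finset ℕ), ∃ Y : Pt,
      (∀ i, IsPath T (Y.1 i)) ∧
      (alive (D ρ.2.2.1 ρ.2.2.2) T (join X (ind (q.1.st ρ.1 ρ.2.1 ∪ τ))) →
        Y ∈ K (D ρ.2.2.1 ρ.2.2.2) T (join X (ind (q.1.st ρ.1 ρ.2.1 ∪ τ)))) := by
    intro ρ τ
    by_cases ha : alive (D ρ.2.2.1 ρ.2.2.2) T (join X (ind (q.1.st ρ.1 ρ.2.1 ∪ τ)))
    · obtain ⟨Y, hY⟩ := ha
      exact ⟨Y, hY.2, fun _ => hY⟩
    · exact ⟨dflt, fun _ => hy, fun h => absurd h ha⟩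
  choose Y hY1 hY2 using hY
  set bits : ℕ → Bool := fun n => cov c w n.unpair.1.unpair.1 n.unpair.2 &&
    (A n.unpair.2 == decide (n.unpair.1.unpair.2 = 1)) with hbits
  set f : ℕ → Pt := fun j => if j = 0 then w else if j = 1 then (fun _ => y, bits) else
    match (Encodable.decode (j - 2) : Option (Req × Finset ℕ)) with
    | none => dflt
    | some r => Y r.1 r.2 with hf
  have hf0 : f 0 = w := by simp [hf]
  have hf1 : f 1 = (fun _ => y, bits) := by simp [hf]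
  have hf2 : ∀ ρ τ, f (wc ρ τ) = Y ρ τ := by
    intro ρ τ
    have h1 : wc ρ τ ≠ 0 := by unfold wc; omega
    have h2 : wc ρ τ ≠ 1 := by unfold wc; omega
    have h3 : wc ρ τ - 2 = Encodable.encode (ρ, τ) := by unfold wc; omega
    simp only [hf, h1, h2, if_false, h3, Encodable.encodek]
  have hfp : ∀ j i, IsPath T ((f j).1 i) := by
    intro j i
    simp only [hf]
    split
    · exact hw.2 i
    · split
      · exact hy
      · split
        · exact hy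
        · exact hY1 _ _ i
  have hZ : ∀ s e m, Zb (glue f) s e m = (cov c w s m && (A m == e)) := by
    intro s e m
    unfold Zb
    rw [sub_glue, hf1]
    simp only [hbits, Nat.unpair_pair]
    congr 2
    cases e <;> simp
  refine ⟨glue f, ?_, glue_paths T f hfp⟩
  refine ⟨(P, q.1.filter (fun x => d0 ≤ x.2.2), q.1, q.2, Unk), ?_, ?_⟩
  · exact Encodable.encodek _
  refine ⟨?_, ?_, ?_, ?_, ?_⟩
  · show (T, X, sub 0 (glue f)) ∈ (C P : Set Sp)
    rw [sub_glue, hf0]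
    exact hw.1
  · intro x hx
    show cov c (sub 0 (glue f)) x.1 x.2.2 = true
    rw [sub_glue, hf0]
    rw [Finset.mem_filter] at hx
    exact hcov x hx.1 hx.2
  · intro s e m hz
    show cov c (sub 0 (glue f)) s m = true
    have hz' : Zb (glue f) s e m = true := hz
    rw [hZ, Bool.and_eq_true] at hz'
    rw [sub_glue, hf0]
    exact hz'.1
  · intro s m hc
    have hc' : cov c (sub 0 (glue f)) s m = true := hc
    rw [sub_glue, hf0] at hc'
    show Zb (glue f) s false m = true ∨ Zb (glue f) s true m = true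
    rw [hZ, hZ, hc']
    cases A m <;> simp
  · intro ρ hρ _ τ hτ
    show (T, join X (ind (q.1.st ρ.1 ρ.2.1 ∪ τ)), sub (wc ρ τ) (glue f)) ∈
      (D ρ.2.2.1 ρ.2.2.2 : Set Sp)
    rw [sub_glue, hf2]
    refine (hY2 ρ τ ?_).1
    have hτ' : ∀ m ∈ τ, q.2 ≤ m ∧ cov c w ρ.1 m = true ∧ A m = ρ.2.1 := by
      intro m hm
      obtain ⟨h1, h2⟩ := hτ m hm
      have h2' : Zb (glue f) ρ.1 ρ.2.1 m = true := h2
      rw [hZ, Bool.and_eq_true, beq_iff_eq] at h2'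
      exact ⟨h1, h2'⟩
    set S' : Stm := q.1 ∪ τ.image (fun m => (ρ.1, ρ.2.1, m)) with hS'
    have hmem : ∀ x : ℕ × Bool × ℕ, x ∈ S' ↔ x ∈ q.1 ∨ ∃ m ∈ τ, (ρ.1, ρ.2.1, m) = x := by
      intro x
      rw [hS', Finset.mem_union, Finset.mem_image]
    have hst : S'.st ρ.1 ρ.2.1 = q.1.st ρ.1 ρ.2.1 ∪ τ := by
      ext m
      rw [Stm.mem_st, hmem, Finset.mem_union, Stm.mem_st]
      refine or_congr_right ⟨?_, fun h => ⟨m, h, rfl⟩⟩
      rintro ⟨m', hm', h⟩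
      simp only [Prod.mk.injEq, true_and] at h
      rw [← h]
      exact hm'
    rw [← hst]
    refine hU ρ hρ (S', max q.2 (τ.sup id + 1)) ⟨le_max_left _ _, ?_⟩ ?_
    · intro s e m hm
      show (s, e, m) ∈ S' ↔ _
      rw [hmem]
      refine ⟨?_, Or.inl⟩
      rintro (h1 | ⟨m', hm', h1⟩)
      · exact h1
      · simp only [Prod.mk.injEq] at h1
        have := (hτ' m' hm').1
        omega
    · refine ⟨h.d_ge.trans (le_max_left _ _), ?_, ?_, w, hw, ?_⟩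
      · intro x hx
        rcases (hmem x).1 hx with h1 | ⟨m, hm, rfl⟩
        · exact ⟨(h.part x h1).1, lt_of_lt_of_le (h.part x h1).2.1 (le_max_left _ _),
            (h.part x h1).2.2⟩
        · refine ⟨hL ρ hρ, ?_, fun _ => (hτ' m hm).2.2⟩
          have h2 : m ≤ τ.sup id := Finset.le_sup (f := id) hm
          exact lt_of_lt_of_le (Nat.lt_succ_of_le h2) (le_max_right _ _)
      · intro s hs e m hm
        show (s, e, m) ∈ S' ↔ _
        rw [hmem, ← h.old s hs e m hm]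
        refine ⟨?_, Or.inl⟩
        rintro (h1 | ⟨m', hm', h1⟩)
        · exact h1
        · simp only [Prod.mk.injEq] at h1
          have := (hτ' m' hm').1
          have := h.d_ge
          omega
      · intro x hx hxd
        rcases (hmem x).1 hx with h1 | ⟨m, hm, rfl⟩
        · exact hcov x h1 hxd
        · exact (hτ' m hm).2.1

end step

/-- FIBRE LEMMA -/
theorem fibre_lemma (k : ℕ) (T : Tre) (hT : Bdd k T) (hp : ∃ y, IsPath T y) (X A : Orc)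
    (C : CFam) (P c : ℕ) (L : Finset ℕ) (S0 : Stm) (d0 : ℕ) (D : ℕ → CFam) (n : ℕ)
    (hC : alive (C P : Set Sp) T X) (hS0 : ∀ x ∈ S0, x.2.2 < d0) :
    ∃ S d Unk, FibreOK T X A C P c L S0 d0 D n S d Unk := by
  classical
  -- the requirements
  set R : ℕ → Finset Req := fun v =>
    L ×ˢ ((Finset.univ : Finset Bool) ×ˢ (Finset.range (n + 1) ×ˢ Finset.range v)) with hR
  have hRmem : ∀ v (ρ : Req), ρ ∈ R v ↔ ρ.1 ∈ L ∧ ρ.2.2.1 ≤ n ∧ ρ.2.2.2 < v := by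
    intro v ρ
    simp only [hR, Finset.mem_product, Finset.mem_univ, true_and, Finset.mem_range,
      Nat.lt_succ_iff]
  -- the start
  have hstart : Val T X A C P c L S0 d0 (S0.filter (fun x => x.1 ∈ L), d0) := by
    refine ⟨le_rfl, ?_, ?_, ?_⟩
    · intro x hx
      rw [Finset.mem_filter] at hx
      exact ⟨hx.2, hS0 x hx.1, fun h => absurd h (not_le.2 (hS0 x hx.1))⟩
    · intro s hs e m _
      show (s, e, m) ∈ S0.filter (fun x => x.1 ∈ L) ↔ _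
      rw [Finset.mem_filter]
      exact ⟨fun h => h.1, fun h => ⟨h, hs⟩⟩
    · obtain ⟨w, hw⟩ := hC
      refine ⟨w, hw, fun x hx hxd => ?_⟩
      rw [Finset.mem_filter] at hx
      exact absurd hxd (not_le.2 (hS0 x hx.1))
  -- the step
  have hstep : ∀ (v : ℕ) (q : Stm × ℕ), ∃ q', Val T X A C P c L S0 d0 q →
      Ext q q' ∧ Val T X A C P c L S0 d0 q' ∧ v ≤ q'.2 ∧
        ∀ ρ ∈ R v, KilledAt D T X q'.1 q'.2 ρ ∨ DeadEnd T X A C P c L S0 d0 D q' ρ := by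
    intro v q
    by_cases hq : Val T X A C P c L S0 d0 q
    · have hq1 : Val T X A C P c L S0 d0 (q.1, max q.2 v) := hq.mono (le_max_left _ _)
      obtain ⟨q', h1, h2, h3⟩ := step_fin (D := D) hT (R v) hq1
      have h0 : Ext q (q.1, max q.2 v) := ⟨le_max_left _ _, fun _ _ _ _ => Iff.rfl⟩
      exact ⟨q', fun _ => ⟨h0.trans h1, h2, (le_max_right _ _).trans h1.1, h3⟩⟩
    · exact ⟨q, fun h => absurd h hq⟩
  choose g hg using hstep
  set Q : ℕ → Stm × ℕ := fun v => Nat.rec (g 0 (S0.filter (fun x => x.1 ∈ L), d0))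
    (fun v q => g (v + 1) q) v with hQ
  have hQ0 : Q 0 = g 0 (S0.filter (fun x => x.1 ∈ L), d0) := rfl
  have hQs : ∀ v, Q (v + 1) = g (v + 1) (Q v) := fun v => rfl
  have hval : ∀ v, Val T X A C P c L S0 d0 (Q v) := by
    intro v
    induction v with
    | zero =>
      rw [hQ0]
      exact (hg 0 _ hstart).2.1
    | succ v ih =>
      rw [hQs]
      exact (hg (v + 1) _ ih).2.1
  have hprop : ∀ v, v ≤ (Q v).2 ∧
      ∀ ρ ∈ R v, KilledAt D T X (Q v).1 (Q v).2 ρ ∨ DeadEnd T X A C P c L S0 d0 D (Q v) ρ := by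
    intro v
    cases v with
    | zero =>
      rw [hQ0]
      exact (hg 0 _ hstart).2.2
    | succ v =>
      rw [hQs]
      exact (hg (v + 1) _ (hval v)).2.2
  have hext : ∀ v, Ext (Q v) (Q (v + 1)) := by
    intro v
    rw [hQs]
    exact (hg (v + 1) _ (hval v)).1
  set Unk : ℕ → Finset Req := fun v => (R v).filter (fun ρ => ¬ KilledAt D T X (Q v).1 (Q v).2 ρ)
    with hUnk
  refine ⟨fun v => (Q v).1, fun v => (Q v).2, Unk, ?_⟩
  refine ⟨fun v => ⟨(hval v).d_ge, (hprop v).1⟩, fun v => (hval v).part, fun v => (hval v).old,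
    hext, ?_, ?_, fun v => (hval v).valid, ?_⟩
  · intro v ρ hρ
    simp only [hUnk, Finset.mem_filter] at hρ
    exact (hRmem v ρ).1 hρ.1
  · intro v ρ h1 h2 h3 h4
    by_contra hcon
    refine h4 ?_
    simp only [hUnk, Finset.mem_filter]
    exact ⟨(hRmem v ρ).2 ⟨h1, h2, h3⟩, hcon⟩
  · intro v
    refine aliveU_of hp (hval v) (Unk v) ?_ ?_
    · intro ρ hρ
      simp only [hUnk, Finset.mem_filter] at hρ
      exact ((hRmem v ρ).1 hρ.1).1
    · intro ρ hρ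
      simp only [hUnk, Finset.mem_filter] at hρ
      exact ((hprop v).2 ρ hρ.1).resolve_left hρ.2

end Pool.Agent.Lib.H37R
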