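import Pool.Agent.Lib.H37R.Ultra
import Pool.Agent.Lib.H37R.FamEnum

/-!
# Chunk GOOD: alive classes at the levels, good oracles
-/

namespace Pool.Agent.Lib.H37R

open Filter

/-- what we need to know about the tree `t` -/
structure TreeOK (t : List ℕ → Tre) : Prop where
  coh : Coh t
  bdd : ∀ z, Bdd (kk z) (t z)
  path : ∀ l, ∀ᶠ z in (UL l : Filter (List ℕ)), ∃ y, IsPath (t z) y
  pre : ∀ z σ τ, t z (σ ++ τ) = true → t z σ = true

/-- alive at level `l`, the parameter `P` lives at level `l` -/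
def AliveL (C : CFam) (t : List ℕ → Tre) (x : List ℕ → Orc) (l : ℕ) (P : List ℕ → ℕ) : Prop :=
  ∀ᶠ z in (UL l : Filter (List ℕ)), alive (C (P z)) (t z) (x z)

/-- alive at all levels `≥ l`, the parameter `P` lives at level `l` -/
def AliveU (C : CFam) (t : List ℕ → Tre) (x : List ℕ → Orc) (l : ℕ) (P : List ℕ → ℕ) : Prop :=
  ∀ j, ∀ᶠ w in (UL (l + j) : Filter (List ℕ)), alive (C (P (w.drop j))) (t w) (x w)

/-- `x` is good with levels `Λ` and thresholds `n0` -/
structure GoodAt (F : ℕ → CFam) (t : List ℕ → Tre) (x : List ℕ → Orc) (Λ : Set ℕ)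
    (n0 : ℕ → ℕ → ℕ) : Prop where
  coh : Coh x
  inf : Λ.Infinite
  good : ∀ i m, ∀ l ∈ Λ, n0 i m ≤ l → ∀ P : List ℕ → ℕ, AliveL (F i) t x l P →
    ∃ (j : ℕ) (ξ : List ℕ → ℕ), AliveU (sepF m (F i)) t x (l + j) (fun w => pr (P (w.drop j)) (ξ w))

def Good (F : ℕ → CFam) (t : List ℕ → Tre) (x : List ℕ → Orc) : Prop :=
  ∃ Λ n0, GoodAt F t x Λ n0

/-- the number of colours does not change above a nonempty list -/
theorem good_kk_ext {z : List ℕ} (hz : z ≠ []) (j : ℕ) :
    ∀ᶠ w in (ext j z : Filter (List ℕ)), kk w = kk z := by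
  filter_upwards [ext_drop j z] with w hw
  have hl : 0 < z.length := List.length_pos_iff.2 hz
  rw [← hw.1, kk_drop w j (by omega)]

/-- pointwise antitonicity: alive above ⟹ alive -/
theorem alive_down {t : List ℕ → Tre} (ht : TreeOK t) {x : List ℕ → Orc} (hx : Coh x) (l j : ℕ) :
    ∀ᶠ z in (UL l : Filter (List ℕ)), ∀ C : Set Sp, IsClosed C →
      (∀ᶠ w in (ext j z : Filter (List ℕ)), alive C (t w) (x w)) → alive C (t z) (x z) := by
  filter_upwards [ht.coh.ext l j, hx.ext l j, UL_length l] with z h1 h2 h3 C hC h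
  have hz : z ≠ [] := by
    intro e
    rw [e] at h3
    simp at h3
  refine alive_limit (ext j z) (kk z) C hC t x (t z) (x z) ?_ h1 h2 h
  filter_upwards [good_kk_ext hz j] with w hw
  rw [← hw]
  exact ht.bdd w

theorem AliveL.down {t : List ℕ → Tre} (ht : TreeOK t) {x : List ℕ → Orc} (hx : Coh x)
    {C : CFam} {l j : ℕ} {P : List ℕ → ℕ}
    (h : ∀ᶠ w in (UL (l + j) : Filter (List ℕ)), alive (C (P (w.drop j))) (t w) (x w)) :
    AliveL C t x l P := by
  rw [ev_UL_add] at h
  unfold AliveL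
  filter_upwards [h, alive_down ht hx l j] with z h1 h2
  refine h2 (C (P z)) (C (P z)).isClosed ?_
  filter_upwards [h1, ext_drop j z] with w h3 h4
  rw [h4.1] at h3
  exact h3

theorem AliveU.aliveL {t : List ℕ → Tre} {x : List ℕ → Orc}
    {C : CFam} {l : ℕ} {P : List ℕ → ℕ} (h : AliveU C t x l P) : AliveL C t x l P := by
  have := h 0
  simpa [AliveL] using this

/-- moving the parameter to a higher level -/
theorem AliveU.up {t : List ℕ → Tre} {x : List ℕ → Orc} {C : CFam} {l : ℕ} {P : List ℕ → ℕ}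
    (h : AliveU C t x l P) (j : ℕ) : AliveU C t x (l + j) (fun w => P (w.drop j)) := by
  intro i
  have := h (j + i)
  rw [← add_assoc] at this
  simp only [List.drop_drop]
  rw [add_comm i j]
  exact this

/-- alive at cofinally many levels ⟹ alive at all levels -/
theorem aliveU_of_cofinal {t : List ℕ → Tre} (ht : TreeOK t) {x : List ℕ → Orc} (hx : Coh x)
    {C : CFam} {l : ℕ} {P : List ℕ → ℕ}
    (h : ∀ n, ∃ j, n ≤ j ∧
      ∀ᶠ w in (UL (l + j) : Filter (List ℕ)), alive (C (P (w.drop j))) (t w) (x w)) :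
    AliveU C t x l P := by
  intro j
  obtain ⟨i, hi, h2⟩ := h j
  obtain ⟨d, rfl⟩ := Nat.exists_eq_add_of_le hi
  have : AliveL C t x (l + j) (fun w => P (w.drop j)) := by
    apply AliveL.down ht hx (j := d)
    simp only [List.drop_drop]
    rw [add_assoc, add_comm d j]
    exact h2
  exact this

/-- `m` separated elements give an element -/
theorem alive_of_sep {C : CFam} {m p ξ : ℕ} {T : Tre} {X : Orc} (hm : 1 ≤ m)
    (h : alive (sepF m C (pr p ξ) : Set Sp) T X) : alive (C p) T X := by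
  obtain ⟨w, h1, h2⟩ := h
  refine ⟨sub 0 w, ?_, sub_paths T w h2 0⟩
  have h3 : ∀ a < m, (T, X, sub a w) ∈ (C (prl (pr p ξ)) : Set Sp) := h1.1
  have := h3 0 hm
  rwa [prl_pr] at this

/-- construct an element of `sepF` from `m` separated points -/
theorem alive_sep {C : CFam} {m p ξ : ℕ} {T : Tre} {X : Orc} (hpath : ∃ y, IsPath T y)
    (w : ℕ → Pt) (hw : ∀ a < m, w a ∈ K (C p) T X)
    (hs : ∀ a < m, ∀ b < m, a ≠ b → ∀ i t, ξ ≤ t → (w a).1 i t ≠ (w b).1 i t) :
    alive (sepF m C (pr p ξ) : Set Sp) T X := by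
  classical
  obtain ⟨y, hy⟩ := hpath
  let f : ℕ → Pt := fun a => if a < m then w a else (fun _ => y, fun _ => false)
  have hf : ∀ a < m, f a = w a := fun a ha => if_pos ha
  refine ⟨glue f, ?_, ?_⟩
  · show (T, X, glue f) ∈ sepP m C (pr p ξ)
    refine ⟨?_, ?_⟩
    · intro a ha
      show (T, X, sub a (glue f)) ∈ (C (prl (pr p ξ)) : Set Sp)
      rw [prl_pr, sub_glue, hf a ha]
      exact (hw a ha).1
    · intro a ha b hb hab i t ht
      show (sub a (glue f)).1 i t ≠ (sub b (glue f)).1 i t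
      rw [prr_pr] at ht
      rw [sub_glue, sub_glue, hf a ha, hf b hb]
      exact hs a ha b hb hab i t ht
  · apply glue_paths
    intro a q
    by_cases ha : a < m
    · rw [hf a ha]
      exact (hw a ha).2 q
    · have : f a = (fun _ => y, fun _ => false) := if_neg ha
      rw [this]
      exact hy

/-- reflection (`m = 1`) -/
theorem GoodAt.refl {F : ℕ → CFam} {t : List ℕ → Tre} (ht : TreeOK t) {x : List ℕ → Orc}
    {Λ : Set ℕ} {n0 : ℕ → ℕ → ℕ} (h : GoodAt F t x Λ n0) {i l : ℕ} (hl : l ∈ Λ)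
    (hn : n0 i 1 ≤ l) {P : List ℕ → ℕ} (hP : AliveL (F i) t x l P) : AliveU (F i) t x l P := by
  obtain ⟨j, ξ, hj⟩ := h.good i 1 l hl hn P hP
  apply aliveU_of_cofinal ht h.coh
  intro n
  refine ⟨j + n, Nat.le_add_left _ _, ?_⟩
  have h2 := hj n
  rw [← add_assoc]
  filter_upwards [h2] with w hw
  have := alive_of_sep le_rfl hw
  rw [List.drop_drop] at this
  rwa [add_comm j n]

/-- pointwise form of reflection: a.e. fibre `z` of level `l` has the property that every class
`F i p` alive at `z` is alive above `z` -/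
theorem GoodAt.refl_pt {F : ℕ → CFam} {t : List ℕ → Tre} (ht : TreeOK t) {x : List ℕ → Orc}
    {Λ : Set ℕ} {n0 : ℕ → ℕ → ℕ} (h : GoodAt F t x Λ n0) {i l : ℕ} (hl : l ∈ Λ)
    (hn : n0 i 1 ≤ l) (j : ℕ) :
    ∀ᶠ z in (UL l : Filter (List ℕ)), ∀ p, alive (F i p) (t z) (x z) →
      ∀ᶠ w in (ext j z : Filter (List ℕ)), alive (F i p) (t w) (x w) := by
  apply ev_forall_of_choice
  intro u
  rcases (UL l).em (fun z => alive (F i (u z)) (t z) (x z)) with h1 | h1
  · have h2 := (h.refl ht hl hn (P := u) h1) j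
    rw [ev_UL_add] at h2
    filter_upwards [h2] with z hz _
    filter_upwards [hz, ext_drop j z] with w h3 h4
    rw [h4.1] at h3
    exact h3
  · filter_upwards [h1] with z hz hz'
    exact absurd hz' hz

end Pool.Agent.Lib.H37R
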