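import Pool.Agent.Lib.H37R.Hist

/-!
# Chunk PROC: the process and the limit tree (PROOF.md 2)
-/

namespace Pool.Agent.Lib.H37R

open Filter Topology

/-- trivial prolongation -/
def procP (k : ℕ) (c : Hist) : Hist :=
  (ht c + 1, fun i => if i < ht c then bx c i else Finset.range k) :: c

theorem procP_ht (k : ℕ) (c : Hist) : ht (procP k c) = ht c + 1 := rfl

theorem procP_le {k u : ℕ} (hu : u ≤ k) (c : Hist) : LE k u c (procP k c) where
  suf := by
    refine ⟨[(ht c + 1, fun i => if i < ht c then bx c i else Finset.range k)], rfl, ?_⟩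
    intro e he
    rw [List.mem_singleton] at he
    subst he
    exact ⟨Nat.le_succ _, le_rfl, fun i _ => Finset.Subset.refl _⟩
  ht_le := Nat.le_succ _
  old := by
    intro i hi
    simp [procP, bx, hi]
  rng := by
    intro i h1 h2
    have e : bx (procP k c) i = Finset.range k := by
      simp only [procP, bx]
      rw [if_neg (by omega)]
    rw [e]
    exact ⟨Finset.Subset.refl _, by simpa using hu⟩

open Classical in
/-- one stage of the process -/
noncomputable def procS (k u : ℕ) (C : Set Sp) (c : Hist) : Hist :=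
  if h : Killable k u c C then procP k h.choose else procP k c

theorem procS_le {k u : ℕ} (hu : u ≤ k) (C : Set Sp) (c : Hist) : LE k u c (procS k u C c) := by
  unfold procS
  split_ifs with h
  · exact h.choose_spec.1.trans (procP_le hu _)
  · exact procP_le hu _

theorem procS_ht {k u : ℕ} (C : Set Sp) (c : Hist) : ht c + 1 ≤ ht (procS k u C c) := by
  unfold procS
  split_ifs with h
  · rw [procP_ht]
    exact Nat.succ_le_succ h.choose_spec.1.ht_le
  · rw [procP_ht]

theorem procS_kill {k u : ℕ} (hu : u ≤ k) (C : Set Sp) (c : Hist) :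
    Killed k (procS k u C c) C ∨ ¬ Killable k u c C := by
  by_cases h : Killable k u c C
  · left
    unfold procS
    rw [dif_pos h]
    intro T hT
    exact h.choose_spec.2 T (EE_mono (procP_le hu _) hT)
  · right; exact h

/-- PROCESS: `G j` are closed classes; stage `j` kills `G j` if possible. -/
theorem process (k u : ℕ) (hu : u ≤ k) (c0 : Hist) (h0 : LE k 1 [] c0) (G : ℕ → Set Sp) :
    ∃ cs : ℕ → Hist, cs 0 = c0 ∧ (∀ j, LE k u (cs j) (cs (j + 1))) ∧ (∀ j, j ≤ ht (cs j)) ∧
      ∀ j, Killed k (cs (j + 1)) (G j) ∨ ¬ Killable k u (cs j) (G j) := by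
  have _ := h0
  refine ⟨fun j => Nat.rec c0 (fun j c => procS k u (G j) c) j, rfl, ?_, ?_, ?_⟩
  · intro j
    exact procS_le hu _ _
  · intro j
    induction j with
    | zero => exact Nat.zero_le _
    | succ j ih => exact le_trans (Nat.succ_le_succ ih) (procS_ht (k := k) (u := u) (G j) _)
  · intro j
    exact procS_kill hu _ _

theorem proc_head {c : Hist} {i : ℕ} (h : i < ht c) : ∃ e ∈ c, e.1 = ht c ∧ e.2 = bx c := by
  cases c with
  | nil => exact absurd h (Nat.not_lt_zero _)
  | cons e c => exact ⟨e, List.mem_cons_self, rfl, rfl⟩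

theorem proc_getD_ini (y : ℕ → ℕ) {i t : ℕ} (h : i < t) : (ini y t).getD i 0 = y i := by
  simp [ini, List.getD, h]

/-- the limit tree -/
theorem limit_tree (k u : ℕ) (hu : 1 ≤ u) (cs : ℕ → Hist) (h0 : LE k 1 [] (cs 0))
    (h1 : ∀ j, LE k u (cs j) (cs (j + 1))) (hh : ∀ j, j ≤ ht (cs j)) :
    ∃ T : Tre, (∀ j, T ∈ EE k (cs j)) ∧ (∃ y, IsPath T y) ∧
      ∀ σ τ, T (σ ++ τ) = true → T σ = true := by
  classical
  have hn : ∀ j, LE k 1 [] (cs j) := by
    intro j
    induction j with
    | zero => exact h0
    | succ j ih => exact ih.trans ((h1 j).mono hu)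
  have hm : ∀ a d, LE k u (cs a) (cs (a + d)) := by
    intro a d
    induction d with
    | zero => exact LE.rfl' k u (cs a) (hn a)
    | succ d ih => exact ih.trans (h1 (a + d))
  have hm' : ∀ a b, a ≤ b → LE k u (cs a) (cs b) := by
    intro a b hab
    have := hm a (b - a)
    rwa [Nat.add_sub_cancel' hab] at this
  let T : Tre := fun σ => decide (∀ j, inT k (cs j) σ)
  have hT : ∀ σ, T σ = true ↔ ∀ j, inT k (cs j) σ := fun σ => by simp [T]
  have key : ∀ j σ, σ.length ≤ ht (cs j) → inT k (cs j) σ → ∀ j', inT k (cs j') σ := by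
    intro j σ hσ hin j'
    refine ⟨hin.1, ?_⟩
    intro e he hlt
    rcases le_total j' j with h | h
    · obtain ⟨new, hnew, _⟩ := (hm' j' j h).suf
      have : e ∈ cs j := by rw [hnew]; exact List.mem_append_right _ he
      exact hin.2 e this hlt
    · obtain ⟨new, hnew, hnew2⟩ := (hm' j j' h).suf
      rw [hnew] at he
      rcases List.mem_append.1 he with he | he
      · have := (hnew2 e he).1
        omega
      · exact hin.2 e he hlt
  refine ⟨T, ?_, ?_, ?_⟩
  · intro j
    refine ⟨?_, ?_, ?_⟩
    · intro σ hσ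
      exact ((hT σ).1 hσ 0).1
    · intro σ hσ
      rw [Bool.eq_iff_iff, hT σ]
      simp only [TT, decide_eq_true_eq]
      exact ⟨fun h => h j, fun h => key j σ hσ h⟩
    · intro σ hσ hlt i hi
      obtain ⟨e, he, he1, he2⟩ := proc_head hi
      have := ((hT σ).1 hσ j).2 e he (by omega) i (by omega)
      rwa [he2] at this
  · have hne : ∀ i, ∃ a, a ∈ bx (cs (i + 1)) i := by
      intro i
      have hi : i < ht (cs (i + 1)) := lt_of_lt_of_le (Nat.lt_succ_self i) (hh (i + 1))
      have := ((hn (i + 1)).rng i (Nat.zero_le _) hi).2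
      exact Finset.card_pos.1 this
    choose y hy using hne
    have hy' : ∀ j i, i < j → y i ∈ bx (cs j) i := by
      intro j i hij
      have := (hm' (i + 1) j hij).old i (lt_of_lt_of_le (Nat.lt_succ_self i) (hh (i + 1)))
      rw [this]
      exact hy i
    refine ⟨y, ?_⟩
    intro t
    rw [hT]
    intro j
    constructor
    · intro a ha
      simp only [ini, List.mem_map, List.mem_range] at ha
      obtain ⟨i, _, rfl⟩ := ha
      have hi : i < ht (cs (i + 1)) := lt_of_lt_of_le (Nat.lt_succ_self i) (hh (i + 1))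
      have := ((hn (i + 1)).rng i (Nat.zero_le _) hi).1 (hy i)
      simpa using this
    · intro e he hlt i hi
      have hlen : (ini y t).length = t := by simp [ini]
      rw [hlen] at hlt
      rw [proc_getD_ini y (lt_trans hi hlt)]
      obtain ⟨new, hnew, _⟩ := (hm' j (max j (i + 1)) (le_max_left _ _)).suf
      have he' : e ∈ cs (max j (i + 1)) := by rw [hnew]; exact List.mem_append_right _ he
      obtain ⟨new', hnew', h2⟩ := (hn (max j (i + 1))).suf
      rw [List.append_nil] at hnew'
      have := (h2 e (by rw [← hnew']; exact he')).2.2 i hi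
      exact this (hy' _ i (lt_of_lt_of_le (Nat.lt_succ_self i) (le_max_right _ _)))
  · intro σ τ h
    rw [hT] at h ⊢
    intro j
    constructor
    · intro a ha
      exact (h j).1 a (List.mem_append_left _ ha)
    · intro e he hlt i hi
      have := (h j).2 e he (by rw [List.length_append]; omega) i hi
      rwa [List.getD_append _ _ _ _ (lt_trans hi hlt)] at this

end Pool.Agent.Lib.H37R
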