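import Pool.Agent.Lib.H37R.Kill
import Pool.Agent.Lib.H37R.Proc

/-!
# Chunk GROUND: the tree `t` over all levels

`start [y] = []`, `start (y :: z) = proc z y` for `z ≠ []`, where `proc z` is the process of `process`
for `k = kk z`, `u = z.length !` (`= (l + 1)!` at level `l`), `c0 = start z`, and `G` an enumeration of
all `F i p`; `t z` = its limit tree.  In the (negligible) fibres where `kk z < z.length !` or something
fails put `t z = fun _ => false`.
-/

namespace Pool.Agent.Lib.H37R

open Filter Topology

/-- the enumeration of all classes of the list -/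
def groundG (F : ℕ → CFam) (j : ℕ) : Set Sp := (F j.unpair.1 j.unpair.2 : Set Sp)

/-- what a process has to satisfy -/
structure GroundProc (F : ℕ → CFam) (k u : ℕ) (c0 : Hist) (cs : ℕ → Hist) : Prop where
  zero : cs 0 = c0
  step : ∀ j, LE k u (cs j) (cs (j + 1))
  hgt : ∀ j, j ≤ ht (cs j)
  kill : ∀ j, Killed k (cs (j + 1)) (groundG F j) ∨ ¬ Killable k u (cs j) (groundG F j)

/-- what a limit tree has to satisfy -/
structure GroundTree (k : ℕ) (cs : ℕ → Hist) (T : Tre) : Prop where
  mem : ∀ j, T ∈ EE k (cs j)
  path : ∃ y, IsPath T y
  pre : ∀ σ τ, T (σ ++ τ) = true → T σ = true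

open Classical in
/-- the process -/
noncomputable def groundPr (F : ℕ → CFam) (k u : ℕ) (c0 : Hist) : ℕ → Hist :=
  if h : ∃ cs, GroundProc F k u c0 cs then h.choose else fun _ => c0

open Classical in
/-- the tree of the process; `fun _ => false` if something fails -/
noncomputable def groundTr (k : ℕ) (cs : ℕ → Hist) : Tre :=
  if h : ∃ T, GroundTree k cs T then h.choose else fun _ => false

/-- start of the fibre `z` -/
noncomputable def groundSt (F : ℕ → CFam) : List ℕ → Hist
  | [] => []
  | y :: z => if z = [] then [] else groundPr F (kk z) z.length.factorial (groundSt F z) y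

/-- the process in the fibre `z` -/
noncomputable def groundCs (F : ℕ → CFam) (z : List ℕ) : ℕ → Hist :=
  groundPr F (kk z) z.length.factorial (groundSt F z)

/-- the tree in the fibre `z` -/
noncomputable def groundT (F : ℕ → CFam) (z : List ℕ) : Tre := groundTr (kk z) (groundCs F z)

theorem ground_nil (k u : ℕ) : LE k u [] [] where
  suf := ⟨[], rfl, by simp⟩
  ht_le := le_rfl
  old := fun i _ => rfl
  rng := fun i _ h => absurd h (Nat.not_lt_zero i)

theorem groundPr_spec (F : ℕ → CFam) {k u : ℕ} {c0 : Hist} (hu : u ≤ k) (h0 : LE k 1 [] c0) :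
    GroundProc F k u c0 (groundPr F k u c0) := by
  have h : ∃ cs, GroundProc F k u c0 cs := by
    obtain ⟨cs, h1, h2, h3, h4⟩ := process k u hu c0 h0 (groundG F)
    exact ⟨cs, h1, h2, h3, h4⟩
  unfold groundPr
  rw [dif_pos h]
  exact h.choose_spec

theorem groundTr_spec {k u : ℕ} (hu : 1 ≤ u) {cs : ℕ → Hist} (h0 : LE k 1 [] (cs 0))
    (h1 : ∀ j, LE k u (cs j) (cs (j + 1))) (hh : ∀ j, j ≤ ht (cs j)) :
    GroundTree k cs (groundTr k cs) := by
  have h : ∃ T, GroundTree k cs T := by
    obtain ⟨T, hT1, hT2, hT3⟩ := limit_tree k u hu cs h0 h1 hh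
    exact ⟨T, hT1, hT2, hT3⟩
  unfold groundTr
  rw [dif_pos h]
  exact h.choose_spec

theorem groundTr_cases (k : ℕ) (cs : ℕ → Hist) :
    GroundTree k cs (groundTr k cs) ∨ groundTr k cs = fun _ => false := by
  by_cases h : ∃ T, GroundTree k cs T
  · left
    unfold groundTr
    rw [dif_pos h]
    exact h.choose_spec
  · right
    unfold groundTr
    rw [dif_neg h]

/-- histories above `[]` are reflexive for all `u` they satisfy -/
theorem ground_refl {k u : ℕ} {c : Hist} (h : LE k 1 [] c) : LE k u c c := LE.rfl' k u c h

/-- facts about the fibre `z`, for fibres with many colours -/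
theorem ground_start (F : ℕ → CFam) : ∀ z : List ℕ, z.length.factorial ≤ kk z →
    LE (kk z) 1 [] (groundSt F z)
  | [], _ => ground_nil _ _
  | y :: z, hz => by
    by_cases h : z = []
    · subst h
      simp only [groundSt, if_true]
      exact ground_nil _ _
    · have hk : kk (y :: z) = kk z := kk_cons y z h
      have hz' : z.length.factorial ≤ kk z := by
        rw [← hk]
        refine le_trans ?_ hz
        exact Nat.factorial_le (by simp)
      have ih := ground_start F z hz'
      rw [hk]
      simp only [groundSt, if_neg h]
      have hp := groundPr_spec F hz' ih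
      have h1 : (1 : ℕ) ≤ z.length.factorial := Nat.factorial_pos _
      have key : ∀ j, LE (kk z) 1 [] (groundPr F (kk z) z.length.factorial (groundSt F z) j) := by
        intro j
        induction j with
        | zero => rw [hp.zero]; exact ih
        | succ j ihj => exact ihj.trans ((hp.step j).mono h1)
      exact key y

theorem groundCs_spec (F : ℕ → CFam) (z : List ℕ) (hz : z.length.factorial ≤ kk z) :
    GroundProc F (kk z) z.length.factorial (groundSt F z) (groundCs F z) :=
  groundPr_spec F hz (ground_start F z hz)

theorem groundCs_nil (F : ℕ → CFam) (z : List ℕ) (hz : z.length.factorial ≤ kk z) (j : ℕ) :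
    LE (kk z) 1 [] (groundCs F z j) := by
  have hp := groundCs_spec F z hz
  have h1 : (1 : ℕ) ≤ z.length.factorial := Nat.factorial_pos _
  induction j with
  | zero => rw [hp.zero]; exact ground_start F z hz
  | succ j ihj => exact ihj.trans ((hp.step j).mono h1)

theorem groundCs_le (F : ℕ → CFam) (z : List ℕ) (hz : z.length.factorial ≤ kk z) (i j : ℕ) :
    LE (kk z) z.length.factorial (groundCs F z i) (groundCs F z (i + j)) := by
  have hp := groundCs_spec F z hz
  induction j with
  | zero => exact ground_refl (groundCs_nil F z hz i)
  | succ j ih => exact ih.trans (hp.step (i + j))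

theorem groundT_spec (F : ℕ → CFam) (z : List ℕ) (hz : z.length.factorial ≤ kk z) :
    GroundTree (kk z) (groundCs F z) (groundT F z) := by
  have hp := groundCs_spec F z hz
  exact groundTr_spec (u := z.length.factorial) (Nat.factorial_pos _) (groundCs_nil F z hz 0)
    hp.step hp.hgt

theorem groundSt_cons (F : ℕ → CFam) (y : ℕ) (z : List ℕ) (hz : z ≠ []) :
    groundSt F (y :: z) = groundCs F z y := by
  simp only [groundSt, if_neg hz, groundCs]

/-- a.e. fibre has many colours -/
theorem ground_ae (l : ℕ) : ∀ᶠ z in (UL l : Filter (List ℕ)),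
    z ≠ [] ∧ z.length = l + 1 ∧ z.length.factorial ≤ kk z := by
  filter_upwards [UL_length l, UL_kk l (l + 1).factorial] with z h1 h2
  refine ⟨?_, h1, ?_⟩
  · intro h
    rw [h] at h1
    simp at h1
  · rw [h1]; exact h2

theorem ground_ext_ae (j : ℕ) (z : List ℕ) (hz0 : z ≠ []) (hz : (z.length + j).factorial ≤ kk z) :
    ∀ᶠ w in (ext j z : Filter (List ℕ)), w ≠ [] ∧ w.length = z.length + j ∧
      kk w = kk z ∧ w.length.factorial ≤ kk w := by
  filter_upwards [ext_drop j z] with w hw
  obtain ⟨h1, h2⟩ := hw
  have hl : 0 < z.length := List.length_pos_iff.2 hz0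
  have hk : kk w = kk z := by
    rw [← h1, kk_drop w j (by omega)]
  refine ⟨?_, h2, hk, ?_⟩
  · intro h
    rw [h] at h2
    simp at h2
    omega
  · rw [h2, hk]; exact hz

/-- the start of a fibre above `z` extends the start of `z` -/
theorem ground_above (F : ℕ → CFam) (j : ℕ) (z : List ℕ) (hz0 : z ≠ [])
    (hz : (z.length + j).factorial ≤ kk z) :
    ∀ᶠ w in (ext j z : Filter (List ℕ)), kk w = kk z ∧ w.length.factorial ≤ kk w ∧
      LE (kk z) z.length.factorial (groundSt F z) (groundSt F w) := by
  induction j with
  | zero =>
    rw [ev_ext_zero]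
    refine ⟨rfl, by simpa using hz, ?_⟩
    exact ground_refl (ground_start F z (by simpa using hz))
  | succ j ih =>
    rw [ev_ext_succ]
    have hz' : (z.length + j).factorial ≤ kk z := le_trans (Nat.factorial_le (by omega)) hz
    have := ground_ext_ae j z hz0 hz'
    filter_upwards [ih hz', this] with w hw hw'
    obtain ⟨h1, h2, h3⟩ := hw
    obtain ⟨g1, g2, g3, g4⟩ := hw'
    refine Eventually.of_forall ?_
    intro y
    have hk : kk (y :: w) = kk z := by rw [kk_cons y w g1, h1]
    refine ⟨hk, ?_, ?_⟩
    · rw [hk]
      refine le_trans ?_ hz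
      apply Nat.factorial_le
      rw [List.length_cons, g2]
      omega
    · rw [groundSt_cons F y w g1]
      refine h3.trans ?_
      have hp := groundCs_spec F w h2
      have := groundCs_le F w h2 0 y
      rw [hp.zero, zero_add, h1] at this
      refine this.mono ?_
      apply Nat.factorial_le
      omega

theorem ground (F : ℕ → CFam) :
    ∃ t : List ℕ → Tre, TreeOK t ∧ GoodAt F t (fun _ => zo) Set.univ (fun _ m => m) := by
  refine ⟨groundT F, ?_, ?_⟩
  · constructor
    · -- coherence
      intro l
      filter_upwards [ground_ae l, UL_kk l (l + 2).factorial] with z hz hz2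
      obtain ⟨h0, h1, h2⟩ := hz
      intro σ
      filter_upwards [U_ge σ.length] with y hy
      have hT := groundT_spec F z h2
      have hp := groundCs_spec F z h2
      have hk : kk (y :: z) = kk z := kk_cons y z h0
      have hl : (y :: z).length.factorial ≤ kk (y :: z) := by
        rw [hk]
        simpa [h1] using hz2
      have hT' := groundT_spec F (y :: z) hl
      have hp' := groundCs_spec F (y :: z) hl
      have e1 := (hT.mem y).2.1 σ (le_trans hy (hp.hgt y))
      have e2 := (hT'.mem 0).2.1 σ (by
        rw [hp'.zero, groundSt_cons F y z h0]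
        exact le_trans hy (hp.hgt y))
      rw [e1, e2, hk, hp'.zero, groundSt_cons F y z h0]
    · -- bounded
      intro z
      rcases groundTr_cases (kk z) (groundCs F z) with h | h
      · exact (h.mem 0).1
      · intro σ hσ
        rw [groundT, h] at hσ
        exact absurd hσ (by simp)
    · intro l
      filter_upwards [ground_ae l] with z hz
      exact (groundT_spec F z hz.2.2).path
    · intro z σ τ hz
      rcases groundTr_cases (kk z) (groundCs F z) with h | h
      · exact h.pre σ τ hz
      · rw [groundT, h] at hz
        exact absurd hz (by simp)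
  · constructor
    · intro l
      exact Eventually.of_forall (fun z a => Eventually.of_forall (fun y => rfl))
    · exact Set.infinite_univ
    · intro i m l _ hm P hP
      refine ⟨1, fun w => ht (groundSt F w), ?_⟩
      intro j
      rw [add_assoc, ev_UL_add l (1 + j)]
      filter_upwards [ground_ae l, UL_kk l (l + 1 + (1 + j)).factorial, hP] with z hz hz2 hz3
      obtain ⟨h0, h1, h2⟩ := hz
      rw [add_comm 1 j, ev_ext_succ' j z]
      have hT := groundT_spec F z h2
      have hp := groundCs_spec F z h2
      filter_upwards [U_ge (Nat.pair i (P z))] with y hy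
      have hk : kk (y :: z) = kk z := kk_cons y z h0
      have hlen : (y :: z).length = l + 2 := by simp [h1]
      have hyl : ((y :: z).length + j).factorial ≤ kk (y :: z) := by
        rw [hk, hlen]
        refine le_trans (Nat.factorial_le (by omega)) hz2
      have hab := ground_above F j (y :: z) (List.cons_ne_nil _ _) hyl
      -- the class is not killable from `start (y :: z)`
      have hnk : ¬ Killable (kk z) z.length.factorial (groundSt F (y :: z)) (F i (P z) : Set Sp) := by
        rw [groundSt_cons F y z h0]
        have hj := hp.kill (Nat.pair i (P z))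
        have e : groundG F (Nat.pair i (P z)) = (F i (P z) : Set Sp) := by simp [groundG]
        rw [e] at hj
        have hnot : ¬ Killable (kk z) z.length.factorial (groundCs F z (Nat.pair i (P z)))
            (F i (P z) : Set Sp) := by
          rcases hj with hj | hj
          · exact absurd hz3 (hj _ (hT.mem _))
          · exact hj
        have hle := groundCs_le F z h2 (Nat.pair i (P z)) (y - Nat.pair i (P z))
        rw [Nat.add_sub_cancel' hy] at hle
        exact not_killable_mono hle hnot
      filter_upwards [hab, ext_drop j (y :: z)] with w hw hwd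
      obtain ⟨g1, g2, g3⟩ := hw
      obtain ⟨d1, d2⟩ := hwd
      have hTw := groundT_spec F w g2
      have hpw := groundCs_spec F w g2
      have hd : w.drop (1 + j) = z := by
        rw [add_comm 1 j, ← List.drop_drop, d1]
        simp
      have hd1 : w.drop j = y :: z := d1
      have hkw : kk w = kk z := by rw [g1, hk]
      have hmu : m * z.length.factorial ≤ (y :: z).length.factorial := by
        rw [hlen, h1, Nat.factorial_succ (l + 1)]
        exact Nat.mul_le_mul_right _ (by omega)
      have hstep : ∀ a, LE (kk z) (m * z.length.factorial) (groundSt F (y :: z)) (groundCs F w a) := by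
        intro a
        have g3' : LE (kk z) (y :: z).length.factorial (groundSt F (y :: z)) (groundSt F w) := by
          rw [← hk]; exact g3
        have h4 := groundCs_le F w g2 0 a
        rw [zero_add, hpw.zero, hkw] at h4
        have h5 : (y :: z).length.factorial ≤ w.length.factorial := by
          apply Nat.factorial_le
          rw [d2]; omega
        exact (g3'.trans (h4.mono h5)).mono hmu
      have hstep2 : ∀ a, LE (kk z) (m * z.length.factorial) (groundCs F w a) (groundCs F w (a + 1)) := by
        intro a
        have h4 := hpw.step a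
        rw [hkw] at h4
        refine h4.mono (hmu.trans ?_)
        apply Nat.factorial_le
        rw [d2]; omega
      obtain ⟨v, hv1, hv2⟩ := kill_lemma (kk z) z.length.factorial m (F i (P z) : Set Sp)
        (F i (P z)).isClosed (groundSt F (y :: z)) (groundCs F w) hstep hstep2 hpw.hgt (groundT F w)
        (by rw [← hkw]; exact hTw.mem) hnk
      have hgoal : (List.drop j w).drop 1 = z := by
        rw [d1]; simp
      show alive (sepF m (F i) (pr (P ((List.drop j w).drop 1)) (ht (groundSt F (List.drop j w)))) :
        Set Sp) (groundT F w) zo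
      rw [hgoal, d1]
      exact alive_sep hTw.path v hv1 hv2

end Pool.Agent.Lib.H37R
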