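import Pool.Agent.Lib.H37R.Stage

/-!
# Chunk GUAR: pigeonhole and the limit argument (PROOF.md 3.2, GUAR)
-/

namespace Pool.Agent.Lib.H37R

open Filter Topology

/-- the parts of the next stage: codes of lists of length `N` over `L × Bool` -/
theorem dpart_encode (l : List (ℕ × Bool)) : dpart (Encodable.encode l) = l := by
  unfold dpart
  rw [Encodable.encodek]
  rfl

/-- pigeonhole: a list of length `N ≥ 2 r (n + 1)` over `L × Bool`, `|L| ≤ r`, attains some value at
`n + 1` different places -/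
theorem exists_maj (L : Finset ℕ) (n : ℕ) (l : List (ℕ × Bool)) (hl : 2 * L.card * (n + 1) ≤ l.length)
    (hne : L.Nonempty) (h : ∀ y ∈ l, y.1 ∈ L) :
    ∃ y ∈ l, ∃ J : Fin (n + 1) → ℕ, Function.Injective J ∧ ∀ b, J b < l.length ∧ l.getD (J b) (0, false) = y := by
  classical
  have hr : 1 ≤ L.card := Finset.card_pos.2 hne
  set t : Finset (ℕ × Bool) := L ×ˢ (Finset.univ : Finset Bool) with ht
  have htc : t.card = L.card * 2 := by
    rw [ht, Finset.card_product, Finset.card_univ, Fintype.card_bool]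
  have hmaps : ∀ j ∈ Finset.range l.length, l.getD j (0, false) ∈ t := by
    intro j hj
    rw [Finset.mem_range] at hj
    rw [List.getD_eq_getElem _ _ hj, ht, Finset.mem_product]
    exact ⟨h _ (List.getElem_mem hj), Finset.mem_univ _⟩
  have hlt : t.card * n < (Finset.range l.length).card := by
    rw [Finset.card_range, htc]
    have : L.card * 2 * n < 2 * L.card * (n + 1) := by
      have e1 : 2 * L.card * (n + 1) = L.card * 2 * n + 2 * L.card := by ring
      omega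
    omega
  obtain ⟨y, _, hy2⟩ := Finset.exists_lt_card_fiber_of_mul_lt_card_of_maps_to hmaps hlt
  obtain ⟨s, hs, hsc⟩ := Finset.exists_subset_card_eq (show n + 1 ≤ _ from hy2)
  have hsm : ∀ j ∈ s, j < l.length ∧ l.getD j (0, false) = y := by
    intro j hj
    have := hs hj
    rw [Finset.mem_filter, Finset.mem_range] at this
    exact this
  refine ⟨y, ?_, s.orderEmbOfFin hsc, (s.orderEmbOfFin hsc).injective, fun b =>
    hsm _ (s.orderEmbOfFin_mem hsc b)⟩
  obtain ⟨h1, h2⟩ := hsm _ (s.orderEmbOfFin_mem hsc 0)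
  rw [← h2, List.getD_eq_getElem _ _ h1]
  exact List.getElem_mem h1

/-- GUAR for one class: the limit argument.  `W` is a point of `sepF N (UF c C D n)`. -/
theorem guar_limit (k : ℕ) (T : Tre) (hT : Bdd k T) (X : Orc) (c : ℕ) (C : CFam) (D : ℕ → CFam)
    (n N P d0 d ξ : ℕ) (S : Stm) (Unk : Finset Req) (ρ : Req) (hρ : ρ ∈ Unk) (hρn : ρ.2.2.1 ≤ n)
    (W : Pt) (hW : W ∈ K (sepF N (UF c C D n) (pr (uparam P d0 S d Unk) ξ) : Set Sp) T X)
    (J : Fin (n + 1) → ℕ) (hJ : Function.Injective J) (hJN : ∀ b, J b < N)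
    (G : Orc) (hG0 : ∀ m < d, G m = ind (S.st ρ.1 ρ.2.1) m)
    (hG1 : ∀ m, d ≤ m → G m = true → ∀ b, Zb (sub (J b) W) ρ.1 ρ.2.1 m = true) 
    (hS : ∀ m ∈ S.st ρ.1 ρ.2.1, m < d) :
    ∃ y : ℕ → Pt, (∀ b ≤ n, y b ∈ K (D ρ.2.2.1 ρ.2.2.2) T (join X G)) ∧
      ∀ b ≤ n, ∀ b' ≤ n, b ≠ b' → ∀ i u, ξ ≤ u → (y b).1 i u ≠ (y b').1 i u := by
  classical
  obtain ⟨⟨hW1, hW2⟩, hW3⟩ := hW
  simp only [prl_pr, prr_pr] at hW1 hW2
  have hUP : ∀ b, UPred c C D n (P, S.filter (fun x => d0 ≤ x.2.2), S, d, Unk) T X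
      (sub (J b) W) := by
    intro b
    obtain ⟨Q, hQ, hQ'⟩ := hW1 (J b) (hJN b)
    have e1 : (Encodable.decode (uparam P d0 S d Unk) : Option UPar) =
        some (P, S.filter (fun x => d0 ≤ x.2.2), S, d, Unk) := Encodable.encodek _
    rw [e1] at hQ
    obtain rfl := Option.some.inj hQ
    exact hQ'
  set τ : ℕ → Finset ℕ := fun h => (Finset.range h).filter (fun m => d ≤ m ∧ G m = true) with hτ
  set Y : Fin (n + 1) → ℕ → Pt := fun b h => sub (wc ρ (τ h)) (sub (J b) W) with hY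
  have hmem : ∀ b h, Y b h ∈ K (D ρ.2.2.1 ρ.2.2.2) T (join X (ind (S.st ρ.1 ρ.2.1 ∪ τ h))) := by
    intro b h
    refine ⟨?_, sub_paths T _ (sub_paths T _ hW3 _) _⟩
    refine (hUP b).2.2.2.2 ρ hρ hρn (τ h) ?_
    intro m hm
    simp only [hτ, Finset.mem_filter] at hm
    exact ⟨hm.2.1, hG1 m hm.2.1 hm.2.2 b⟩
  have hev : ∀ N, ∀ᶠ h in (Filter.hyperfilter ℕ : Filter ℕ), N < h := fun N =>
    (Filter.eventually_gt_atTop N).filter_mono Nat.hyperfilter_le_atTop
  have hX : ∀ m, ∀ᶠ h in (Filter.hyperfilter ℕ : Filter ℕ),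
      join X (ind (S.st ρ.1 ρ.2.1 ∪ τ h)) m = join X G m := by
    intro m
    refine (hev (m / 2)).mono fun h hh => ?_
    unfold join
    split
    · rfl
    · unfold ind
      rcases Nat.lt_or_ge (m / 2) d with h1 | h1
      · rw [hG0 _ h1]
        unfold ind
        refine decide_eq_decide.2 ?_
        rw [Finset.mem_union]
        refine ⟨?_, Or.inl⟩
        rintro (h2 | h2)
        · exact h2
        · simp only [hτ, Finset.mem_filter] at h2
          omega
      · have h2 : (m / 2 ∈ S.st ρ.1 ρ.2.1 ∪ τ h) ↔ G (m / 2) = true := by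
          rw [Finset.mem_union]
          simp only [hτ, Finset.mem_filter, Finset.mem_range]
          constructor
          · rintro (h3 | h3)
            · have := hS _ h3
              omega
            · exact h3.2.2
          · exact fun h3 => Or.inr ⟨hh, h1, h3⟩
        rw [show decide (m / 2 ∈ S.st ρ.1 ρ.2.1 ∪ τ h) = decide (G (m / 2) = true) from
          decide_eq_decide.2 h2]
        simp
  have hlim : ∀ b, ∃ y ∈ K (D ρ.2.2.1 ρ.2.2.2) T (join X G), ∀ q x,
      ∀ᶠ h in (Filter.hyperfilter ℕ : Filter ℕ), (Y b h).1 q x = y.1 q x := by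
    intro b
    obtain ⟨y, h1, h2, _⟩ := limit_lemma (Filter.hyperfilter ℕ) k (D ρ.2.2.1 ρ.2.2.2)
      (D ρ.2.2.1 ρ.2.2.2).isClosed (fun _ => T) (fun h => join X (ind (S.st ρ.1 ρ.2.1 ∪ τ h)))
      (Y b) T (join X G) (Filter.Eventually.of_forall fun _ => hT)
      (fun σ => Filter.Eventually.of_forall fun _ => rfl) hX (Filter.Eventually.of_forall (hmem b))
    exact ⟨y, h1, h2⟩
  choose y hy1 hy2 using hlim
  set y' : ℕ → Pt := fun b => if hb : b < n + 1 then y ⟨b, hb⟩ else (fun _ _ => 0, fun _ => false)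
    with hy'
  have hyy : ∀ b (hb : b < n + 1), y' b = y ⟨b, hb⟩ := fun b hb => by
    simp only [hy', hb, dif_pos]
  refine ⟨y', ?_, ?_⟩
  · intro b hb
    rw [hyy b (Nat.lt_succ_of_le hb)]
    exact hy1 _
  · intro b hb b' hb' hne i u hu
    rw [hyy b (Nat.lt_succ_of_le hb), hyy b' (Nat.lt_succ_of_le hb')]
    intro heq
    obtain ⟨h, h1, h2⟩ := ((hy2 ⟨b, Nat.lt_succ_of_le hb⟩ i u).and
      (hy2 ⟨b', Nat.lt_succ_of_le hb'⟩ i u)).exists
    rw [← h1, ← h2] at heq
    refine hW2 (J ⟨b, Nat.lt_succ_of_le hb⟩) (hJN _) (J ⟨b', Nat.lt_succ_of_le hb'⟩) (hJN _) ?_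
      (Nat.pair (wc ρ (τ h)) i) u hu heq
    intro hJe
    have := hJ hJe
    simp only [Fin.mk.injEq] at this
    exact hne this

end Pool.Agent.Lib.H37R
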