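import Pool.Agent.Lib.H37R.GoodDef

/-!
# Chunk HIST: histories, killing, the kill lemma, the process (ground level, one fibre, `k` colours)
-/

namespace Pool.Agent.Lib.H37R

open Filter Topology

/-- histories, newest entry first -/
abbrev Hist := List (ℕ × (ℕ → Finset ℕ))

/-- height -/
def ht : Hist → ℕ
  | [] => 0
  | e :: _ => e.1

/-- current box -/
def bx : Hist → ℕ → Finset ℕ
  | [] => fun _ => ∅
  | e :: _ => e.2

/-- `σ` is in the tree of the history -/
def inT (k : ℕ) (c : Hist) (σ : List ℕ) : Prop :=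
  (∀ a ∈ σ, a < k) ∧ ∀ e ∈ c, e.1 < σ.length → ∀ i < e.1, σ.getD i 0 ∈ e.2 i

open Classical in
/-- the tree of a history -/
noncomputable def TT (k : ℕ) (c : Hist) : Tre := fun σ => decide (inT k c σ)

/-- `c ≤_u c'` -/
structure LE (k u : ℕ) (c c' : Hist) : Prop where
  suf : ∃ new : Hist, c' = new ++ c ∧
    ∀ e ∈ new, ht c ≤ e.1 ∧ e.1 ≤ ht c' ∧ ∀ i < e.1, bx c' i ⊆ e.2 i
  ht_le : ht c ≤ ht c'
  old : ∀ i < ht c, bx c' i = bx c i
  rng : ∀ i, ht c ≤ i → i < ht c' → bx c' i ⊆ Finset.range k ∧ u ≤ (bx c' i).card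

theorem LE.rfl' (k u : ℕ) (c : Hist) (_hc : LE k 1 [] c) : LE k u c c where
  suf := ⟨[], rfl, fun e he => absurd he List.not_mem_nil⟩
  ht_le := le_rfl
  old := fun _ _ => rfl
  rng := fun i h1 h2 => absurd h2 (not_lt.2 h1)

theorem LE.trans {k u : ℕ} {a b c : Hist} (h : LE k u a b) (h' : LE k u b c) : LE k u a c where
  suf := by
    obtain ⟨n1, e1, p1⟩ := h.suf
    obtain ⟨n2, e2, p2⟩ := h'.suf
    refine ⟨n2 ++ n1, by rw [e2, e1, List.append_assoc], ?_⟩
    intro e he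
    rcases List.mem_append.1 he with he | he
    · obtain ⟨q1, q2, q3⟩ := p2 e he
      exact ⟨h.ht_le.trans q1, q2, q3⟩
    · obtain ⟨q1, q2, q3⟩ := p1 e he
      refine ⟨q1, q2.trans h'.ht_le, fun i hi => ?_⟩
      rw [h'.old i (lt_of_lt_of_le hi q2)]
      exact q3 i hi
  ht_le := h.ht_le.trans h'.ht_le
  old := fun i hi => (h'.old i (lt_of_lt_of_le hi h.ht_le)).trans (h.old i hi)
  rng := by
    intro i h1 h2
    rcases Nat.lt_or_ge i (ht b) with h3 | h3
    · rw [h'.old i h3]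
      exact h.rng i h1 h3
    · exact h'.rng i h3 h2

theorem LE.mono {k u u' : ℕ} {a b : Hist} (hu : u ≤ u') (h : LE k u' a b) : LE k u a b where
  suf := h.suf
  ht_le := h.ht_le
  old := h.old
  rng := fun i h1 h2 => ⟨(h.rng i h1 h2).1, hu.trans (h.rng i h1 h2).2⟩

/-- the trees compatible with the history -/
def EE (k : ℕ) (c : Hist) : Set Tre :=
  {T | Bdd k T ∧ (∀ σ : List ℕ, σ.length ≤ ht c → T σ = TT k c σ) ∧
    ∀ σ : List ℕ, T σ = true → ht c < σ.length → ∀ i < ht c, σ.getD i 0 ∈ bx c i}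

theorem HIST_TT_append {k : ℕ} {new c : Hist} {σ : List ℕ}
    (h : ∀ e ∈ new, σ.length ≤ e.1) : TT k (new ++ c) σ = TT k c σ := by
  unfold TT
  refine decide_eq_decide.2 ⟨fun h1 => ⟨h1.1, fun e he => h1.2 e (List.mem_append_right _ he)⟩,
    fun h1 => ⟨h1.1, fun e he hl => ?_⟩⟩
  rcases List.mem_append.1 he with he | he
  · exact absurd hl (not_lt.2 (h e he))
  · exact h1.2 e he hl

theorem EE_mono {k u : ℕ} {c c' : Hist} (h : LE k u c c') : EE k c' ⊆ EE k c := by
  rintro T ⟨h1, h2, h3⟩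
  obtain ⟨new, e1, p1⟩ := h.suf
  refine ⟨h1, ?_, ?_⟩
  · intro σ hσ
    rw [h2 σ (hσ.trans h.ht_le), e1]
    exact HIST_TT_append fun e he => hσ.trans (p1 e he).1
  · intro σ hT hσ i hi
    rcases Nat.lt_or_ge (ht c') σ.length with h4 | h4
    · rw [← h.old i hi]
      exact h3 σ hT h4 i (lt_of_lt_of_le hi h.ht_le)
    · rw [h2 σ h4] at hT
      have h5 : inT k c' σ := by
        classical
        exact of_decide_eq_true hT
      cases c with
      | nil => exact absurd hi (Nat.not_lt_zero i)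
      | cons e r =>
        refine h5.2 e ?_ hσ i hi
        rw [e1]
        exact List.mem_append_right _ List.mem_cons_self

/-- the empty oracle -/
def zo : Orc := fun _ => false

/-- `C` is killed at `c` -/
def Killed (k : ℕ) (c : Hist) (C : Set Sp) : Prop := ∀ T ∈ EE k c, ¬ alive C T zo

/-- `C` can be killed from `c` -/
def Killable (k u : ℕ) (c : Hist) (C : Set Sp) : Prop := ∃ c', LE k u c c' ∧ Killed k c' C

theorem not_killable_mono {k u : ℕ} {c c' : Hist} {C : Set Sp} (h : LE k u c c')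
    (hC : ¬ Killable k u c C) : ¬ Killable k u c' C := by
  rintro ⟨c'', h1, h2⟩
  exact hC ⟨c'', h.trans h1, h2⟩

end Pool.Agent.Lib.H37R
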