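import Pool.Agent.Lib.H37R.Hist

/-!
# Chunk KILL: the kill lemma (PROOF.md 2)
-/

namespace Pool.Agent.Lib.H37R

open Filter Topology

/-- `m` disjoint subsets of size `≥ u` -/
theorem exists_disjoint_subsets (m u : ℕ) (s : Finset ℕ) (h : m * u ≤ s.card) :
    ∃ f : ℕ → Finset ℕ, (∀ a < m, f a ⊆ s ∧ u ≤ (f a).card) ∧
      ∀ a < m, ∀ b < m, a ≠ b → Disjoint (f a) (f b) := by
  induction m generalizing s with
  | zero => exact ⟨fun _ => ∅, fun a ha => absurd ha (Nat.not_lt_zero a),
      fun a ha => absurd ha (Nat.not_lt_zero a)⟩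
  | succ m ih =>
    have h1 : u ≤ s.card := by
      rw [Nat.succ_mul] at h
      omega
    obtain ⟨t, ht, hc⟩ := Finset.exists_subset_card_eq h1
    have h2 : m * u ≤ (s \ t).card := by
      rw [Finset.card_sdiff_of_subset ht, hc]
      rw [Nat.succ_mul] at h
      omega
    obtain ⟨f, hf1, hf2⟩ := ih (s \ t) h2
    have hd : ∀ a < m, Disjoint (f a) t := fun a ha =>
      Finset.disjoint_of_subset_left (hf1 a ha).1 Finset.sdiff_disjoint
    refine ⟨fun a => if a < m then f a else t, ?_, ?_⟩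
    · intro a _
      by_cases h3 : a < m
      · simp only [h3, if_true]
        exact ⟨(hf1 a h3).1.trans Finset.sdiff_subset, (hf1 a h3).2⟩
      · simp only [h3, if_false]
        exact ⟨ht, hc.ge⟩
    · intro a ha b hb hab
      by_cases h3 : a < m
      · by_cases h4 : b < m
        · simp only [h3, h4, if_true]
          exact hf2 a h3 b h4 hab
        · simp only [h3, h4, if_true, if_false]
          exact hd a h3
      · by_cases h4 : b < m
        · simp only [h3, h4, if_true, if_false]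
          exact (hd b h4).symm
        · omega

/-- KILL LEMMA -/
theorem kill_lemma (k u m : ℕ) (C : Set Sp) (hC : IsClosed C) (c : Hist) (cs : ℕ → Hist)
    (h0 : ∀ j, LE k (m * u) c (cs j)) (h1 : ∀ j, LE k (m * u) (cs j) (cs (j + 1)))
    (hh : ∀ j, j ≤ ht (cs j)) (T : Tre) (hT : ∀ j, T ∈ EE k (cs j))
    (hk : ¬ Killable k u c C) :
    ∃ w : ℕ → Pt, (∀ a < m, w a ∈ K C T zo) ∧
      ∀ a < m, ∀ b < m, a ≠ b → ∀ i t, ht c ≤ t → (w a).1 i t ≠ (w b).1 i t := by
  classical
  -- monotonicity of the sequence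
  have hmono : ∀ j d, bx (cs (j + d)) = bx (cs (j + d)) ∧ ht (cs j) ≤ ht (cs (j + d)) ∧
      ∀ x < ht (cs j), bx (cs (j + d)) x = bx (cs j) x := by
    intro j d
    induction d with
    | zero => exact ⟨rfl, le_rfl, fun _ _ => rfl⟩
    | succ d ih =>
      refine ⟨rfl, ih.2.1.trans (h1 (j + d)).ht_le, fun x hx => ?_⟩
      have h2 := (h1 (j + d)).old x (lt_of_lt_of_le hx ih.2.1)
      exact h2.trans (ih.2.2 x hx)
  -- the limit box
  set B : ℕ → Finset ℕ := fun x => bx (cs (x + 1)) x with hB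
  have hBx : ∀ j x, x < ht (cs j) → bx (cs j) x = B x := by
    intro j x hx
    have hx' : x < ht (cs (x + 1)) := lt_of_lt_of_le (Nat.lt_succ_self x) (hh (x + 1))
    rcases Nat.le_total j (x + 1) with h2 | h2
    · obtain ⟨d, hd⟩ := Nat.exists_eq_add_of_le h2
      have := (hmono j d).2.2 x hx
      rw [← hd] at this
      exact this.symm
    · obtain ⟨d, hd⟩ := Nat.exists_eq_add_of_le h2
      have := (hmono (x + 1) d).2.2 x hx'
      rw [← hd] at this
      exact this
  have hBc : ∀ x, ht c ≤ x → B x ⊆ Finset.range k ∧ m * u ≤ (B x).card := by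
    intro x hx
    exact (h0 (x + 1)).rng x hx (lt_of_lt_of_le (Nat.lt_succ_self x) (hh (x + 1)))
  have hBo : ∀ x, x < ht c → B x = bx c x := fun x hx => (h0 (x + 1)).old x hx
  -- the splitting
  have hsplit : ∀ x, ∃ f : ℕ → Finset ℕ, ht c ≤ x → ((∀ a < m, f a ⊆ B x ∧ u ≤ (f a).card) ∧
      ∀ a < m, ∀ b < m, a ≠ b → Disjoint (f a) (f b)) := by
    intro x
    by_cases hx : ht c ≤ x
    · obtain ⟨f, hf⟩ := exists_disjoint_subsets m u (B x) (hBc x hx).2
      exact ⟨f, fun _ => hf⟩
    · exact ⟨fun _ => ∅, fun h => absurd h hx⟩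
  choose f hf using hsplit
  set V : ℕ → ℕ → Finset ℕ := fun a x => if x < ht c then B x else f x a with hV
  have hVB : ∀ a < m, ∀ x, V a x ⊆ B x := by
    intro a ha x
    by_cases hx : x < ht c
    · simp only [hV, hx, if_true]
      exact subset_rfl
    · simp only [hV, hx, if_false]
      exact ((hf x (not_lt.1 hx)).1 a ha).1
  have claim : ∀ a < m, ∃ w ∈ K C T zo, ∀ q x, w.1 q x ∈ V a x := by
    intro a ha
    have key : ∀ n, ∃ Tn ∈ EE k ((ht (cs n), V a) :: cs n), alive C Tn zo := by
      intro n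
      by_contra hcon
      push Not at hcon
      refine hk ⟨(ht (cs n), V a) :: cs n, ?_, hcon⟩
      have hh0 : ht c ≤ ht (cs n) := (h0 n).ht_le
      obtain ⟨new, e1, p1⟩ := (h0 n).suf
      have hVe : ∀ e ∈ new, ∀ i < e.1, V a i ⊆ e.2 i := by
        intro e he i hi
        have h3 := (p1 e he).2.2 i hi
        rw [hBx n i (lt_of_lt_of_le hi (p1 e he).2.1)] at h3
        exact (hVB a ha i).trans h3
      refine ⟨⟨(ht (cs n), V a) :: new, by rw [List.cons_append, ← e1], ?_⟩, hh0, ?_, ?_⟩
      · intro e he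
        rcases List.mem_cons.1 he with rfl | he
        · exact ⟨hh0, le_rfl, fun i _ => subset_rfl⟩
        · exact ⟨(p1 e he).1, (p1 e he).2.1, hVe e he⟩
      · intro i hi
        show V a i = bx c i
        simp only [hV, hi, if_true]
        exact hBo i hi
      · intro i hi _
        show V a i ⊆ Finset.range k ∧ u ≤ (V a i).card
        refine ⟨(hVB a ha i).trans (hBc i hi).1, ?_⟩
        simp only [hV, not_lt.2 hi, if_false]
        exact ((hf i hi).1 a ha).2
    choose Tn hTn hal using key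
    choose w hw using hal
    -- agreement
    have hagree : ∀ n (σ : List ℕ), σ.length ≤ ht (cs n) → Tn n σ = T σ := by
      intro n σ hσ
      rw [(hTn n).2.1 σ hσ, (hT n).2.1 σ hσ]
      have := HIST_TT_append (k := k) (new := [(ht (cs n), V a)]) (c := cs n) (σ := σ) (by
        intro e he
        obtain rfl := List.mem_singleton.1 he
        exact hσ)
      exact this
    have hentry : ∀ n q x, x < ht (cs n) → (w n).1 q x ∈ V a x := by
      intro n q x hx
      have h3 := (hw n).2 q (ht (cs n) + 1)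
      have hlen : (ini ((w n).1 q) (ht (cs n) + 1)).length = ht (cs n) + 1 := by
        simp [ini]
      have h4 := (hTn n).2.2 _ h3 (by rw [hlen]; exact Nat.lt_succ_self _) x hx
      have h5 : (ini ((w n).1 q) (ht (cs n) + 1)).getD x 0 = (w n).1 q x := by
        have hx' : x < ht (cs n) + 1 := Nat.lt_succ_of_lt hx
        simp [ini, List.getD, hx']
      rw [h5] at h4
      exact h4
    have hev : ∀ N, ∀ᶠ n in (Filter.hyperfilter ℕ : Filter ℕ), N ≤ n := fun N =>
      (Filter.eventually_ge_atTop N).filter_mono Nat.hyperfilter_le_atTop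
    obtain ⟨w0, hw0, h6, _⟩ := limit_lemma (Filter.hyperfilter ℕ) k C hC Tn (fun _ => zo) w T zo
      (Filter.Eventually.of_forall fun n => (hTn n).1)
      (fun σ => (hev σ.length).mono fun n hn => hagree n σ (hn.trans (hh n)))
      (fun n => Filter.Eventually.of_forall fun _ => rfl)
      (Filter.Eventually.of_forall hw)
    refine ⟨w0, hw0, fun q x => ?_⟩
    obtain ⟨n, h7, h8⟩ := ((h6 q x).and (hev (x + 1))).exists
    rw [← h7]
    exact hentry n q x (lt_of_lt_of_le h8 (hh n))
  have hex : ∀ a, ∃ w : Pt, a < m → w ∈ K C T zo ∧ ∀ q x, w.1 q x ∈ V a x := by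
    intro a
    by_cases ha : a < m
    · obtain ⟨w, hw1, hw2⟩ := claim a ha
      exact ⟨w, fun _ => ⟨hw1, hw2⟩⟩
    · exact ⟨(fun _ _ => 0, fun _ => false), fun h => absurd h ha⟩
  choose w hw using hex
  refine ⟨w, fun a ha => (hw a ha).1, ?_⟩
  intro a ha b hb hab i t htc heq
  have h3 := (hw a ha).2 i t
  have h4 := (hw b hb).2 i t
  rw [← heq] at h4
  simp only [hV, not_lt.2 htc, if_false] at h3 h4
  exact Finset.disjoint_left.1 ((hf t htc).2 a ha b hb hab) h3 h4

end Pool.Agent.Lib.H37R
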