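import Pool.Agent.Lib.H37R.Ultra
import Pool.Agent.Lib.H37R.Cls

/-!
# Chunk KOENIG: two small lemmas for the step
-/

namespace Pool.Agent.Lib.H37R

open Filter Topology

/-- ancestors of the point `p m` of level `m`: `KOENIG_anc .. m j` has level `m - j` -/
def KOENIG_anc (par : ℕ → ℕ → ℕ) (p : ℕ → ℕ) (m : ℕ) : ℕ → ℕ
  | 0 => p m
  | j + 1 => par (m - j - 1) (KOENIG_anc par p m j)

theorem KOENIG_anc_mem {L : ℕ → Finset ℕ} {par : ℕ → ℕ → ℕ}
    (hpar : ∀ n, ∀ π ∈ L (n + 1), par n π ∈ L n) {p : ℕ → ℕ} (hp : ∀ m, p m ∈ L m) (m j : ℕ)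
    (hj : j ≤ m) : KOENIG_anc par p m j ∈ L (m - j) := by
  induction j with
  | zero => exact hp m
  | succ j ih =>
    have h1 := ih (by omega)
    have h2 : m - j = (m - j - 1) + 1 := by omega
    rw [h2] at h1
    have h3 := hpar (m - j - 1) _ h1
    have h4 : m - (j + 1) = m - j - 1 := by omega
    rw [h4]
    exact h3

/-- Koenig for the tree of parts -/
theorem koenig (L : ℕ → Finset ℕ) (hL : ∀ n, (L n).Nonempty) (par : ℕ → ℕ → ℕ)
    (hpar : ∀ n, ∀ π ∈ L (n + 1), par n π ∈ L n) :
    ∃ s : ℕ → ℕ, ∀ n, s n ∈ L n ∧ s n = par n (s (n + 1)) := by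
  choose p hp using hL
  have h1 : ∀ n, ∃ c ∈ (L n : Set ℕ),
      ∀ᶠ m in (U : Filter ℕ), KOENIG_anc par p m (m - n) = c := by
    intro n
    rw [← Ultrafilter.eventually_exists_mem_iff (Finset.finite_toSet (L n))]
    filter_upwards [U_ge n] with m hm
    refine ⟨_, ?_, rfl⟩
    have h2 := KOENIG_anc_mem hpar hp m (m - n) (Nat.sub_le _ _)
    have h3 : m - (m - n) = n := by omega
    rw [h3] at h2
    exact h2
  choose s hs1 hs2 using h1
  refine ⟨s, fun n => ⟨hs1 n, ?_⟩⟩
  obtain ⟨m, hm1, hm2, hm3⟩ := ((hs2 n).and ((hs2 (n + 1)).and (U_ge (n + 1)))).exists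
  rw [← hm1, ← hm2]
  have h2 : m - n = (m - (n + 1)) + 1 := by omega
  have h3 : m - (m - (n + 1)) - 1 = n := by omega
  rw [h2]
  show par (m - (m - (n + 1)) - 1) (KOENIG_anc par p m (m - (n + 1))) = _
  rw [h3]

theorem KOENIG_exists {l : ℕ → ℕ} (hl : StrictMono l) (q : ℕ) : ∃ n, q ≤ l n + 1 :=
  ⟨q, (hl.id_le q).trans (Nat.le_succ _)⟩

open Classical in
/-- the next level of the sequence -/
noncomputable def KOENIG_nx {l : ℕ → ℕ} (hl : StrictMono l) (q : ℕ) : ℕ :=
  Nat.find (KOENIG_exists hl q)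

theorem KOENIG_nx_spec {l : ℕ → ℕ} (hl : StrictMono l) (q : ℕ) : q ≤ l (KOENIG_nx hl q) + 1 := by
  classical
  exact Nat.find_spec (KOENIG_exists hl q)

theorem KOENIG_nx_eq {l : ℕ → ℕ} (hl : StrictMono l) {q n : ℕ} (h1 : q ≤ l n + 1)
    (h2 : ∀ m < n, l m + 1 < q) : KOENIG_nx hl q = n := by
  classical
  refine le_antisymm (Nat.find_min' (KOENIG_exists hl q) h1) ?_
  by_contra hcon
  rw [not_le] at hcon
  have := h2 _ hcon
  have h3 := KOENIG_nx_spec hl q
  omega

theorem KOENIG_nx_lt {l : ℕ → ℕ} (hl : StrictMono l) {q m : ℕ} (h : m < KOENIG_nx hl q) :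
    l m + 1 < q := by
  classical
  have := Nat.find_min (KOENIG_exists hl q) h
  omega

open Classical in
/-- the extended family -/
noncomputable def KOENIG_G {l : ℕ → ℕ} (hl : StrictMono l) (g : ℕ → List ℕ → Orc) (z : List ℕ) :
    Orc := fun m =>
  decide (∀ᶠ w in (ext (l (KOENIG_nx hl z.length) + 1 - z.length) z : Filter (List ℕ)),
    g (KOENIG_nx hl z.length) w m = true)

theorem KOENIG_G_iff {l : ℕ → ℕ} (hl : StrictMono l) (g : ℕ → List ℕ → Orc) (z : List ℕ) (m : ℕ) :
    KOENIG_G hl g z m = true ↔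
      ∀ᶠ w in (ext (l (KOENIG_nx hl z.length) + 1 - z.length) z : Filter (List ℕ)),
        g (KOENIG_nx hl z.length) w m = true := by
  classical
  unfold KOENIG_G
  exact decide_eq_true_iff

theorem KOENIG_G_level {l : ℕ → ℕ} (hl : StrictMono l) (g : ℕ → List ℕ → Orc) (n : ℕ)
    (z : List ℕ) (hz : z.length = l n + 1) : KOENIG_G hl g z = g n z := by
  have h1 : KOENIG_nx hl z.length = n :=
    KOENIG_nx_eq hl hz.le fun m hm => by rw [hz]; have := hl hm; omega
  funext m
  rw [Bool.eq_iff_iff, KOENIG_G_iff, h1, hz, Nat.sub_self, ev_ext_zero]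

/-- a family given at the levels `l n` (strictly increasing) which is coherent from `l n` to
`l (n + 1)` extends to a coherent family: at the other levels take the limit from the next level
of the sequence -/
theorem coh_of_levels (l : ℕ → ℕ) (hl : StrictMono l) (g : ℕ → List ℕ → Orc)
    (hg : ∀ n, ∀ᶠ z in (UL (l n) : Filter (List ℕ)), ∀ m,
      ∀ᶠ w in (ext (l (n + 1) - l n) z : Filter (List ℕ)), g (n + 1) w m = g n z m) :
    ∃ G : List ℕ → Orc, Coh G ∧ ∀ n, ∀ z : List ℕ, z.length = l n + 1 → G z = g n z := by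
  refine ⟨KOENIG_G hl g, ?_, fun n z hz => KOENIG_G_level hl g n z hz⟩
  intro q
  have hspec := KOENIG_nx_spec hl (q + 1)
  set n := KOENIG_nx hl (q + 1) with hn
  rcases Nat.lt_or_ge q (l n) with hq | hq
  · filter_upwards [UL_length q] with z hz m
    have e1 : KOENIG_nx hl z.length = n := by rw [hz]
    have e2 : ∀ y, KOENIG_nx hl (y :: z).length = n := by
      intro y
      rw [List.length_cons, hz]
      refine KOENIG_nx_eq hl (by omega) fun m hm => ?_
      have := KOENIG_nx_lt hl (hn ▸ hm)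
      omega
    have e3 : l n + 1 - z.length = (l n - q - 1) + 1 := by omega
    have e4 : ∀ y, l n + 1 - (y :: z).length = l n - q - 1 := by
      intro y; rw [List.length_cons]; omega
    by_cases h : KOENIG_G hl g z m = true
    · rw [h]
      rw [KOENIG_G_iff, e1, e3, ev_ext_succ'] at h
      filter_upwards [h] with y hy
      rw [KOENIG_G_iff, e2, e4]
      exact hy
    · have h' : KOENIG_G hl g z m = false := by simpa using h
      rw [h']
      rw [KOENIG_G_iff, e1, e3, ev_ext_succ', ← Ultrafilter.eventually_not] at h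
      filter_upwards [h] with y hy
      rw [← Bool.not_eq_true, KOENIG_G_iff, e2, e4]
      exact hy
  · have hq' : q = l n := by omega
    have hg' := hg n
    rw [← hq'] at hg'
    filter_upwards [UL_length q, hg'] with z hz hgz m
    have e0 : KOENIG_G hl g z = g n z := KOENIG_G_level hl g n z (by rw [hz, hq'])
    have e2 : ∀ y, KOENIG_nx hl (y :: z).length = n + 1 := by
      intro y
      rw [List.length_cons, hz]
      have h5 : l n < l (n + 1) := hl (Nat.lt_succ_self n)
      refine KOENIG_nx_eq hl (by omega) fun m hm => ?_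
      have h6 := hl.monotone (Nat.le_of_lt_succ hm)
      omega
    have h5 : l n < l (n + 1) := hl (Nat.lt_succ_self n)
    have e3 : l (n + 1) - q = (l (n + 1) - q - 1) + 1 := by omega
    have e4 : ∀ y, l (n + 1) + 1 - (y :: z).length = l (n + 1) - q - 1 := by
      intro y; rw [List.length_cons]; omega
    have h6 := hgz m
    rw [e3, ev_ext_succ'] at h6
    rw [e0]
    filter_upwards [h6] with y hy
    by_cases h : g n z m = true
    · rw [h] at hy ⊢
      rw [KOENIG_G_iff, e2, e4]
      exact hy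
    · have h' : g n z m = false := by simpa using h
      rw [h'] at hy ⊢
      rw [← Bool.not_eq_true, KOENIG_G_iff, e2, e4]
      intro hcon
      obtain ⟨w, hw1, hw2⟩ := (hy.and hcon).exists
      rw [hw1] at hw2
      exact Bool.false_ne_true hw2

end Pool.Agent.Lib.H37R
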