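import Mathlib

/-!
# Second order arithmetic: RCA0, SRT22, RWKL  (definitions of the final statement)

A structure of second order arithmetic is a type `M` with `0, 1, +, *, <` and a set `S : Set (Set M)`
of subsets of `M`.  `RCA0 M S` are Simpson's axioms (basic axioms, Sigma^0_1 induction and Delta^0_1
comprehension, number and set parameters allowed).
-/

namespace Pool.Agent.Lib.H37R

/-- the pairing function `(x + y)^2 + x` -/
def pr {M : Type*} [Add M] [Mul M] (x y : M) : M := (x + y) * (x + y) + x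

/-- terms of the language of arithmetic, variables `var i` -/
inductive Tm : Type
  | var (i : ℕ) : Tm
  | zero : Tm
  | one : Tm
  | add (s t : Tm) : Tm
  | mul (s t : Tm) : Tm

/-- value of a term -/
def Tm.ev {M : Type*} [Zero M] [One M] [Add M] [Mul M] (v : ℕ → M) : Tm → M
  | .var i => v i
  | .zero => 0
  | .one => 1
  | .add s t => s.ev v + t.ev v
  | .mul s t => s.ev v * t.ev v

/-- formulas with number quantifiers only, set variables `X_n` occur in `mem`;
`ball i t φ` is the bounded quantifier `∀ x_i < t, φ` -/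
inductive Fm : Type
  | eq (s t : Tm) : Fm
  | lt (s t : Tm) : Fm
  | mem (s : Tm) (n : ℕ) : Fm
  | neg (φ : Fm) : Fm
  | and (φ ψ : Fm) : Fm
  | ball (i : ℕ) (t : Tm) (φ : Fm) : Fm
  | all (i : ℕ) (φ : Fm) : Fm

/-- satisfaction; `V n` is the value of the set variable `X_n`, `v i` the value of `x_i` -/
def Fm.sat {M : Type*} [Zero M] [One M] [Add M] [Mul M] [LT M] (V : ℕ → Set M) :
    Fm → (ℕ → M) → Prop
  | .eq s t, v => s.ev v = t.ev v
  | .lt s t, v => s.ev v < t.ev v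
  | .mem s n, v => s.ev v ∈ V n
  | .neg φ, v => ¬ φ.sat V v
  | .and φ ψ, v => φ.sat V v ∧ ψ.sat V v
  | .ball i t φ, v => ∀ a : M, a < t.ev v → φ.sat V (Function.update v i a)
  | .all i φ, v => ∀ a : M, φ.sat V (Function.update v i a)

/-- `Δ^0_0` formulas: only bounded quantifiers -/
def Fm.D0 : Fm → Prop
  | .eq _ _ => True
  | .lt _ _ => True
  | .mem _ _ => True
  | .neg φ => φ.D0
  | .and φ ψ => φ.D0 ∧ ψ.D0
  | .ball _ _ φ => φ.D0
  | .all _ _ => False

/-- the assignment `v` with `x_i := a` and `x_j := b` -/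
def upd {M : Type*} (v : ℕ → M) (i : ℕ) (a : M) (j : ℕ) (b : M) : ℕ → M :=
  Function.update (Function.update v i a) j b

/-- the axioms of `RCA_0` (Simpson) -/
structure RCA0 (M : Type*) [Zero M] [One M] [Add M] [Mul M] [LT M] (S : Set (Set M)) : Prop where
  succ_ne_zero : ∀ n : M, n + 1 ≠ 0
  succ_inj : ∀ m n : M, m + 1 = n + 1 → m = n
  add_zero' : ∀ m : M, m + 0 = m
  add_succ' : ∀ m n : M, m + (n + 1) = (m + n) + 1
  mul_zero' : ∀ m : M, m * 0 = 0
  mul_succ' : ∀ m n : M, m * (n + 1) = m * n + m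
  not_lt_zero' : ∀ m : M, ¬ m < 0
  lt_succ' : ∀ m n : M, m < n + 1 ↔ (m < n ∨ m = n)
  nonempty : S.Nonempty
  /-- `Σ^0_1` induction -/
  sigma_ind : ∀ φ : Fm, φ.D0 → ∀ (i j : ℕ) (v : ℕ → M) (V : ℕ → Set M), (∀ n, V n ∈ S) →
    (∃ b, φ.sat V (upd v i 0 j b)) →
    (∀ a, (∃ b, φ.sat V (upd v i a j b)) → ∃ b, φ.sat V (upd v i (a + 1) j b)) →
    ∀ a, ∃ b, φ.sat V (upd v i a j b)
  /-- `Δ^0_1` comprehension -/
  delta_ca : ∀ φ ψ : Fm, φ.D0 → ψ.D0 → ∀ (i j : ℕ) (v : ℕ → M) (V : ℕ → Set M),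
    (∀ n, V n ∈ S) →
    (∀ a, (∃ b, φ.sat V (upd v i a j b)) ↔ ∀ b, ψ.sat V (upd v i a j b)) →
    ∃ Z ∈ S, ∀ a, a ∈ Z ↔ ∃ b, φ.sat V (upd v i a j b)

section
variable {M : Type*} [Zero M] [One M] [Add M] [Mul M] [LT M]

/-- `H` is infinite, i.e. unbounded -/
def Unbdd (H : Set M) : Prop := ∀ b : M, ∃ h ∈ H, b < h

/-- The colouring of pairs `x < y` given by `pr x y ∈ C` is stable. -/
def Stable (C : Set M) : Prop :=
  ∀ x, ∃ s, ∀ y y', s < y → s < y' → x < y → x < y' → (pr x y ∈ C ↔ pr x y' ∈ C)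

/-- `SRT^2_2`: every stable 2-colouring of pairs has an infinite homogeneous set -/
def SRT22 (S : Set (Set M)) : Prop :=
  ∀ C ∈ S, Stable C → ∃ H ∈ S, Unbdd H ∧ ∃ c : Prop, ∀ x ∈ H, ∀ y ∈ H, x < y → (pr x y ∈ C ↔ c)

/-- `s` codes a finite sequence of length `l` (codes are triples `pr (pr a b) l`) -/
def Len (s l : M) : Prop := ∃ a b, s = pr (pr a b) l

/-- `v` is the `i`-th entry of the sequence coded by `s = pr (pr a b) l` (Goedel's beta function:
the remainder of `a` modulo `b (i + 1) + 1`), `i < l` -/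
def Ent (s i v : M) : Prop :=
  ∃ a b l q, s = pr (pr a b) l ∧ i < l ∧ a = q * (b * (i + 1) + 1) + v ∧ v < b * (i + 1) + 1

/-- `T` is a tree in `k^{<ℕ}`, given as a set of codes: closed under initial segments (and hence
under changing the code of a string) -/
structure IsTree (k : M) (T : Set M) : Prop where
  codes : ∀ s ∈ T, ∃ l, Len s l
  entries : ∀ s ∈ T, ∀ l i, Len s l → i < l → ∃ v, v < k ∧ Ent s i v
  initial : ∀ s ∈ T, ∀ s' l l', Len s l → Len s' l' → (l' < l ∨ l' = l) →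
    (∀ i, i < l' → ∀ v, Ent s' i v ↔ Ent s i v) → s' ∈ T

/-- the tree has strings of every length -/
def InfTree (T : Set M) : Prop := ∀ l, ∃ s ∈ T, Len s l

/-- `H` is homogeneous for the tree `T` with colour `c` -/
def HomTree (T H : Set M) (c : M) : Prop :=
  ∀ l, ∃ s ∈ T, Len s l ∧ ∀ i ∈ H, i < l → Ent s i c

/-- `RWKL_k` -/
def RWKL (S : Set (Set M)) (k : M) : Prop :=
  ∀ T ∈ S, IsTree k T → InfTree T → ∃ H ∈ S, Unbdd H ∧ ∃ c, c < k ∧ HomTree T H c

end

end Pool.Agent.Lib.H37R
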