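import Pool.Agent.Lib.H37R.Block
import Pool.Agent.Lib.H37R.Koenig

/-!
# Chunk LIMIT (PROOF.md 3.3): the step
-/

namespace Pool.Agent.Lib.H37R

open Filter Topology

theorem LIMIT_split {l l' : ℕ} (h : l ≤ l') (P : List ℕ → Prop) :
    (∀ᶠ w in (UL l' : Filter (List ℕ)), P w) ↔
      ∀ᶠ z in (UL l : Filter (List ℕ)), ∀ᶠ w in (ext (l' - l) z : Filter (List ℕ)), P w := by
  obtain ⟨j, rfl⟩ := Nat.exists_eq_add_of_le h
  simpa using ev_UL_add l j P

theorem LIMIT_drop {l l' : ℕ} (h : l ≤ l') (P : List ℕ → Prop) :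
    (∀ᶠ w in (UL l' : Filter (List ℕ)), P (w.drop (l' - l))) ↔
      ∀ᶠ z in (UL l : Filter (List ℕ)), P z := by
  obtain ⟨j, rfl⟩ := Nat.exists_eq_add_of_le h
  simpa using ev_UL_drop l j P

/-- the sequences of stages and links -/
theorem LIMIT_seq {Θ : ℕ → Th} {F : ℕ → CFam} (hF : OpsClosed Θ F) {t : List ℕ → Tre}
    (ht : TreeOK t) {x a : List ℕ → Orc} {Λ : Set ℕ} {n0 : ℕ → ℕ → ℕ}
    (hx : GoodAt F t x Λ n0) (ha : Coh a) :
    ∃ (D : ℕ → Stage) (E : ℕ → LinkD), (∀ n, StageOK F t x a Λ n0 n (D n)) ∧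
      ∀ n, LinkOK F t x a n (D n) (D (n + 1)) (E n) := by
  obtain ⟨D0, hD0, -⟩ := stage_zero hF ht hx ha
  have hb := fun (n : ℕ) (D : Stage) (hD : StageOK F t x a Λ n0 n D) => block hF ht hx ha n D hD
  let sq : (n : ℕ) → {D : Stage // StageOK F t x a Λ n0 n D} := fun n =>
    Nat.rec (motive := fun n => {D : Stage // StageOK F t x a Λ n0 n D}) ⟨D0, hD0⟩
      (fun n p => ⟨(hb n p.1 p.2).choose, (hb n p.1 p.2).choose_spec.choose_spec.1⟩) n
  refine ⟨fun n => (sq n).1, fun n => (hb n (sq n).1 (sq n).2).choose_spec.choose,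
    fun n => (sq n).2, fun n => ?_⟩
  exact (hb n (sq n).1 (sq n).2).choose_spec.choose_spec.2

theorem LIMIT_fibre_mono {T : Tre} {X A : Orc} {C : CFam} {P c : ℕ} {L : Finset ℕ} {S0 : Stm}
    {d0 : ℕ} {D : ℕ → CFam} {n : ℕ} {S : ℕ → Stm} {d : ℕ → ℕ} {Unk : ℕ → Finset Req}
    (h : FibreOK T X A C P c L S0 d0 D n S d Unk) {v v' : ℕ} (hv : v ≤ v') :
    d v ≤ d v' ∧ ∀ s e m, m < d v → ((s, e, m) ∈ S v' ↔ (s, e, m) ∈ S v) := by
  induction v', hv using Nat.le_induction with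
  | base => exact ⟨le_rfl, fun _ _ _ _ => Iff.rfl⟩
  | succ v' hv ih =>
    refine ⟨ih.1.trans (h.mono v').1, fun s e m hm => ?_⟩
    rw [(h.mono v').2 s e m (lt_of_lt_of_le hm ih.1), ih.2 s e m hm]

theorem LIMIT_fibre_ex {T : Tre} {X A : Orc} {C : CFam} {P c : ℕ} {L : Finset ℕ} {S0 : Stm}
    {d0 : ℕ} {D : ℕ → CFam} {n : ℕ} {S : ℕ → Stm} {d : ℕ → ℕ} {Unk : ℕ → Finset Req}
    (h : FibreOK T X A C P c L S0 d0 D n S d Unk) {v : ℕ} {s : ℕ} {e : Bool} {m : ℕ}
    (hm : m < d v) : (∃ v', (s, e, m) ∈ S v') ↔ (s, e, m) ∈ S v := by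
  constructor
  · rintro ⟨v', hv'⟩
    rcases le_total v v' with hle | hle
    · exact ((LIMIT_fibre_mono h hle).2 s e m hm).1 hv'
    · exact ((LIMIT_fibre_mono h hle).2 s e m (h.part v' _ hv').2.1).2 hv'
  · intro hv
    exact ⟨v, hv⟩

open Classical in
/-- the solution at the levels of the stages -/
noncomputable def LIMIT_g (E : ℕ → LinkD) (s : ℕ → ℕ) (e : Bool) (n : ℕ) (z : List ℕ) : Orc :=
  fun m => decide (∃ v, (s n, e, m) ∈ (E n).S z v)

theorem LIMIT_g_iff (E : ℕ → LinkD) (s : ℕ → ℕ) (e : Bool) (n : ℕ) (z : List ℕ) (m : ℕ) :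
    LIMIT_g E s e n z m = true ↔ ∃ v, (s n, e, m) ∈ (E n).S z v := by
  simp [LIMIT_g]

section

variable {F : ℕ → CFam} {t : List ℕ → Tre} {x a : List ℕ → Orc} {Λ : Set ℕ} {n0 : ℕ → ℕ → ℕ}
  {D : ℕ → Stage} {E : ℕ → LinkD} {s : ℕ → ℕ} {e : Bool}

theorem LIMIT_mono (hE : ∀ n, LinkOK F t x a n (D n) (D (n + 1)) (E n)) :
    StrictMono (fun n => (D n).l) :=
  strictMono_nat_of_lt_succ fun n => (hE n).lt

/-- below the old bound the solution is the old stem -/
theorem LIMIT_old (hE : ∀ n, LinkOK F t x a n (D n) (D (n + 1)) (E n))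
    (hs : ∀ n, s n ∈ (D n).L ∧ s n = (E n).par (s (n + 1))) (n : ℕ) :
    ∀ᶠ z in (UL (D n).l : Filter (List ℕ)), ∀ m < (D n).d z,
      (LIMIT_g E s e n z m = true ↔ (s n, e, m) ∈ (D n).S z) := by
  filter_upwards [(hE n).fibre] with z hz m hm
  rw [LIMIT_g_iff, LIMIT_fibre_ex hz (v := 0) (lt_of_lt_of_le hm (hz.d_ge 0).1),
    hz.old 0 _ (hs n).1 e m hm]

/-- coherence between the levels of the stages -/
theorem LIMIT_coh (hE : ∀ n, LinkOK F t x a n (D n) (D (n + 1)) (E n))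
    (hs : ∀ n, s n ∈ (D n).L ∧ s n = (E n).par (s (n + 1))) (n : ℕ) :
    ∀ᶠ z in (UL (D n).l : Filter (List ℕ)), ∀ m,
      ∀ᶠ w in (ext ((D (n + 1)).l - (D n).l) z : Filter (List ℕ)),
        LIMIT_g E s e (n + 1) w m = LIMIT_g E s e n z m := by
  have h1 := (LIMIT_split (hE n).lt.le _).1 (LIMIT_old (e := e) hE hs (n + 1))
  have h2 := (LIMIT_split (hE n).lt.le _).1 (hE n).stems
  filter_upwards [h1, h2, (hE n).v_inf, (hE n).fibre] with z h1 h2 h3 h4 m
  filter_upwards [h1, h2, h3 (m + 1), ext_drop ((D (n + 1)).l - (D n).l) z] with w h1 h2 h3 h5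
  rw [h5.1] at h2
  have hd : m < (D (n + 1)).d w := by
    rw [h2.2]
    have := (h4.d_ge ((E n).v w)).2
    omega
  have hiff : LIMIT_g E s e (n + 1) w m = true ↔ LIMIT_g E s e n z m = true := by
    rw [h1 m hd, h2.1]
    rw [LIMIT_g_iff, LIMIT_fibre_ex h4 (v := (E n).v w) (by rw [← h2.2]; exact hd),
      ← (hs n).2]
    exact and_iff_right (hs (n + 1)).1
  exact Bool.eq_iff_iff.2 hiff

/-- below the bound of stage `n` the solution at level `l n'` is the stem of stage `n` -/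
theorem LIMIT_stem (hE : ∀ n, LinkOK F t x a n (D n) (D (n + 1)) (E n))
    (hs : ∀ n, s n ∈ (D n).L ∧ s n = (E n).par (s (n + 1))) {G : List ℕ → Orc} (hG : Coh G)
    (hG' : ∀ n, ∀ z : List ℕ, z.length = (D n).l + 1 → G z = LIMIT_g E s e n z)
    {n n' : ℕ} (hn : n ≤ n') :
    ∀ᶠ w in (UL (D n').l : Filter (List ℕ)), ∀ m < (D n).d (w.drop ((D n').l - (D n).l)),
      (G w m = true ↔ (s n, e, m) ∈ (D n).S (w.drop ((D n').l - (D n).l))) := by
  have hl : (D n).l ≤ (D n').l := (LIMIT_mono hE).monotone hn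
  rw [LIMIT_split hl]
  filter_upwards [hG.ext_lt (D n).l ((D n').l - (D n).l), LIMIT_old (e := e) hE hs n,
    UL_length (D n).l] with z h1 h2 h3
  filter_upwards [h1 ((D n).d z), ext_drop ((D n').l - (D n).l) z] with w h4 h5 m hm
  rw [h5.1] at hm ⊢
  rw [h4 m hm, hG' n z h3]
  exact h2 m hm

/-- limit of the witnesses of validity -/
theorem LIMIT_valid {k : ℕ} {T : Tre} (hT : Bdd k T) {X A : Orc} {C : CFam} {P c : ℕ}
    {L : Finset ℕ} {S0 : Stm}
    {d0 : ℕ} {D : ℕ → CFam} {n : ℕ} {S : ℕ → Stm} {d : ℕ → ℕ} {Unk : ℕ → Finset Req}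
    (h : FibreOK T X A C P c L S0 d0 D n S d Unk) (s : ℕ) (e : Bool) :
    ∃ W ∈ K (C P) T X, ∀ m, d0 ≤ m → (∃ v, (s, e, m) ∈ S v) → cov c W s m = true := by
  choose w hw hwc using h.valid
  obtain ⟨W, hW, h1, h2⟩ := limit_lemma (Filter.hyperfilter ℕ) k (C P) (C P).isClosed
    (fun _ => T) (fun _ => X) w T X (Eventually.of_forall fun _ => hT)
    (fun σ => Eventually.of_forall fun _ => rfl) (fun m => Eventually.of_forall fun _ => rfl)
    (Eventually.of_forall hw)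
  refine ⟨W, hW, fun m hm hv => ?_⟩
  obtain ⟨v0, hv0⟩ := hv
  have htend : Tendsto w (Filter.hyperfilter ℕ : Filter ℕ) (𝓝 W) := by
    rw [nhds_prod_eq]
    refine Tendsto.prodMk ?_ ?_
    · rw [tendsto_pi_nhds]
      intro q
      rw [tendsto_pi_nhds]
      intro y
      refine tendsto_nhds_of_eventually_eq ?_
      exact h1 q y
    · rw [tendsto_pi_nhds]
      intro q
      exact tendsto_nhds_of_eventually_eq (h2 q)
  have hc : Tendsto (fun v => cov c (w v) s m) (Filter.hyperfilter ℕ : Filter ℕ)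
      (𝓝 (cov c W s m)) := ((continuous_cov c s m).tendsto W).comp htend
  have hc' : Tendsto (fun v => cov c (w v) s m) (Filter.hyperfilter ℕ : Filter ℕ) (𝓝 true) := by
    refine tendsto_nhds_of_eventually_eq ?_
    have hge : ∀ᶠ v in (Filter.hyperfilter ℕ : Filter ℕ), v0 ≤ v := U_ge v0
    filter_upwards [hge] with v hv
    have hmem := (h.part v0 _ hv0).2.1
    exact hwc v (s, e, m) (((LIMIT_fibre_mono h hv).2 s e m hmem).2 hv0) hm
  exact tendsto_nhds_unique hc hc'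

/-- the cover condition holds at all higher levels -/
theorem LIMIT_chain (ht : TreeOK t) (hE : ∀ n, LinkOK F t x a n (D n) (D (n + 1)) (E n))
    (hs : ∀ n, s n ∈ (D n).L ∧ s n = (E n).par (s (n + 1))) {G : List ℕ → Orc} (hG : Coh G)
    (hG' : ∀ n, ∀ z : List ℕ, z.length = (D n).l + 1 → G z = LIMIT_g E s e n z)
    (k : ℕ) : ∀ n,
    ∀ᶠ w in (UL (D (n + k)).l : Filter (List ℕ)),
      ∃ W ∈ K (F (D n).i ((D n).P (w.drop ((D (n + k)).l - (D n).l)))) (t w) (x w),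
        ∀ m, (D n).d (w.drop ((D (n + k)).l - (D n).l)) ≤ m → G w m = true →
          cov (D n).c W (s n) m = true := by
  induction k with
  | zero =>
    intro n
    filter_upwards [(hE n).fibre, UL_length (D n).l] with w hw hl
    obtain ⟨W, hW, hW'⟩ := LIMIT_valid (ht.bdd w) hw (s n) e
    refine ⟨W, by simpa using hW, fun m hm hGm => hW' m (by simpa using hm) ?_⟩
    rw [hG' n w hl] at hGm
    exact (LIMIT_g_iff E s e n w m).1 hGm
  | succ k ih =>
    intro n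
    have hl1 : (D n).l ≤ (D (n + 1)).l := (hE n).lt.le
    have hl2 : (D (n + 1)).l ≤ (D (n + 1 + k)).l := (LIMIT_mono hE).monotone (by omega)
    have hidx : n + (k + 1) = n + 1 + k := by omega
    rw [hidx]
    have hdd : ∀ w : List ℕ, (w.drop ((D (n + 1 + k)).l - (D (n + 1)).l)).drop
        ((D (n + 1)).l - (D n).l) = w.drop ((D (n + 1 + k)).l - (D n).l) := by
      intro w
      rw [List.drop_drop]
      congr 1
      omega
    have h1 := (LIMIT_drop hl2 _).2 (hE n).refine'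
    have h2 := LIMIT_stem hE hs hG hG' (n := n + 1) (n' := n + 1 + k) (by omega)
    filter_upwards [ih (n + 1), h1, h2] with w h3 h1 h2
    obtain ⟨W, hW, hWc⟩ := h3
    obtain ⟨w', hw', h4, h5⟩ := h1 (t w) (x w) W hW (s (n + 1)) (hs (n + 1)).1
    rw [hdd, ← (hs n).2] at *
    refine ⟨w', hw', fun m hm hGm => ?_⟩
    rcases lt_or_ge m ((D (n + 1)).d (w.drop ((D (n + 1 + k)).l - (D (n + 1)).l))) with hlt | hge
    · exact h5 e m ((h2 m hlt).1 hGm) hm
    · exact h4 m (hWc m hge hGm)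

/-- the elements of the solution have colour `e` -/
theorem LIMIT_colour (hD : ∀ n, StageOK F t x a Λ n0 n (D n))
    (hE : ∀ n, LinkOK F t x a n (D n) (D (n + 1)) (E n))
    (hs : ∀ n, s n ∈ (D n).L ∧ s n = (E n).par (s (n + 1))) (n : ℕ) :
    ∀ᶠ z in (UL (D n).l : Filter (List ℕ)), ∀ m,
      LIMIT_g E s e n z m = true → a z m = e := by
  filter_upwards [(hE n).fibre, (hD n).stm] with z h1 h2 m hm
  obtain ⟨v, hv⟩ := (LIMIT_g_iff E s e n z m).1 hm
  rcases lt_or_ge m ((D n).d z) with hlt | hge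
  · exact (h2 _ ((h1.old v _ (hs n).1 e m hlt).1 hv)).2.2
  · exact (h1.part v _ hv).2.2 hge

/-- an unkilled requirement is in `Unk` -/
theorem LIMIT_unk {T : Tre} {X A : Orc} {C : CFam} {P c : ℕ} {L : Finset ℕ} {S0 : Stm}
    {d0 : ℕ} {D : ℕ → CFam} {n : ℕ} {S : ℕ → Stm} {d : ℕ → ℕ} {Unk : ℕ → Finset Req}
    (h : FibreOK T X A C P c L S0 d0 D n S d Unk) {s : ℕ} {e : Bool} {i p v : ℕ}
    (hs : s ∈ L) (hi : i ≤ n) (hp : p < v) (G : Orc)
    (hG : ∀ m, G m = true ↔ ∃ v, (s, e, m) ∈ S v) (ha : alive (D i p) T (join X G)) :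
    (s, e, i, p) ∈ Unk v := by
  by_contra hcon
  refine h.killed v (s, e, i, p) hs hi hp hcon G (fun m hm => ?_) ha
  rw [Bool.eq_iff_iff, hG m, LIMIT_fibre_ex h hm]
  simp [ind, Stm.mem_st]

/-- infinitely many elements -/
theorem LIMIT_inf (hF : F 0 = infF) {T : Tre} (hT : ∃ y, IsPath T y) {X A : Orc} {C : CFam}
    {P c : ℕ} {L : Finset ℕ} {S0 : Stm}
    {d0 : ℕ} {n : ℕ} {S : ℕ → Stm} {d : ℕ → ℕ} {Unk : ℕ → Finset Req}
    (h : FibreOK T X A C P c L S0 d0 F n S d Unk) {s : ℕ} {e : Bool} {p v : ℕ}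
    (hs : s ∈ L) (hp : p < v) (G : Orc)
    (hG : ∀ m, G m = true ↔ ∃ v, (s, e, m) ∈ S v) (hu : (s, e, 0, p) ∉ Unk v) :
    ∃ m, p < m ∧ G m = true := by
  by_contra hcon
  push Not at hcon
  refine hu (LIMIT_unk h hs (Nat.zero_le _) hp G hG ?_)
  obtain ⟨y, hy⟩ := hT
  refine ⟨(fun _ => y, fun _ => false), ?_, fun _ => hy⟩
  rw [hF]
  intro m hm
  show rgt (join X G) m = false
  rw [rgt_join]
  simpa using hcon m hm

end

theorem LIMIT_coh_join {x g : List ℕ → Orc} (hx : Coh x) (hg : Coh g) :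
    Coh (fun z => join (x z) (g z)) := by
  intro l
  filter_upwards [hx l, hg l] with z h1 h2 m
  filter_upwards [h1 (m / 2), h2 (m / 2)] with y h3 h4
  simp only [join, h3, h4]

/-- STEP: every coherent family `a` has an unbounded good subset of one of the two colours -/
theorem step {Θ : ℕ → Th} {F : ℕ → CFam} (hF : OpsClosed Θ F) {t : List ℕ → Tre}
    (ht : TreeOK t) {x a : List ℕ → Orc} (hx : Good F t x) (ha : Coh a) :
    ∃ (e : Bool) (g : List ℕ → Orc), Coh g ∧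
      (∀ l, ∀ᶠ z in (UL l : Filter (List ℕ)), ∀ m, g z m = true → a z m = e) ∧
      (∀ l (b : List ℕ → ℕ), ∃ (j : ℕ) (h : List ℕ → ℕ),
        ∀ᶠ w in (UL (l + j) : Filter (List ℕ)), b (w.drop j) < h w ∧ g w (h w) = true) ∧
      Good F t (fun z => join (x z) (g z)) := by
  obtain ⟨Λ, n0, hx⟩ := hx
  obtain ⟨D, E, hD, hE⟩ := LIMIT_seq hF ht hx ha
  obtain ⟨s, hs⟩ := koenig (fun n => (D n).L) (fun n => (hD n).ne) (fun n => (E n).par)
    (fun n => (hE n).par_mem)
  have hmono := LIMIT_mono hE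
  obtain ⟨e, he⟩ : ∃ e : Bool, ∀ N, ∃ n, N ≤ n ∧ (E n).side (s (n + 1)) = e := by
    by_contra hcon
    push Not at hcon
    obtain ⟨N1, h1⟩ := hcon true
    obtain ⟨N2, h2⟩ := hcon false
    have h3 := h1 (max N1 N2) (le_max_left _ _)
    have h4 := h2 (max N1 N2) (le_max_right _ _)
    cases h : (E (max N1 N2)).side (s (max N1 N2 + 1))
    · exact h4 h
    · exact h3 h
  obtain ⟨G, hG, hG'⟩ := coh_of_levels (fun n => (D n).l) hmono (LIMIT_g E s e)
    (LIMIT_coh hE hs)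
  have hGiff : ∀ n, ∀ᶠ z in (UL (D n).l : Filter (List ℕ)), ∀ m,
      G z m = true ↔ ∃ v, (s n, e, m) ∈ (E n).S z v := by
    intro n
    filter_upwards [UL_length (D n).l] with z hz m
    rw [hG' n z hz, LIMIT_g_iff]
  refine ⟨e, G, hG, ?_, ?_, ?_⟩
  · intro l
    have hl : l ≤ (D l).l := hmono.le_apply
    have h1 := LIMIT_colour (e := e) hD hE hs l
    have h0 := hGiff l
    rw [LIMIT_split hl] at h1 h0
    filter_upwards [h0, h1, hG.ext l ((D l).l - l), ha.ext l ((D l).l - l)] with z h0 h1 h2 h3 m hm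
    obtain ⟨w, hw0, hw1, hw2, hw3⟩ := (h0.and (h1.and ((h2 m).and (h3 m)))).exists
    rw [← hw3]
    refine hw1 m ((LIMIT_g_iff E s e l w m).2 ((hw0 m).1 ?_))
    rw [hw2]
    exact hm
  · intro l b
    obtain ⟨n, hn, hen⟩ := he l
    have hl : l ≤ (D n).l := le_trans hn hmono.le_apply
    have key : ∀ᶠ z in (UL (D n).l : Filter (List ℕ)), ∀ m, ∃ m', m < m' ∧ G z m' = true := by
      have h4 := (LIMIT_split (hE n).lt.le _).1 (hE n).infk
      filter_upwards [(hE n).fibre, hGiff n, (hE n).v_inf, h4, ht.path (D n).l]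
        with z h1 h2 h3 h4 h5 m
      obtain ⟨w, hw1, hw2, hw3⟩ := ((h3 (m + 1)).and (h4.and
        (ext_drop ((D (n + 1)).l - (D n).l) z))).exists
      have h6 := hw2 (s (n + 1)) (hs (n + 1)).1 m hw1
      rw [hw3.1, ← (hs n).2, hen] at h6
      exact LIMIT_inf hF.inf h5 h1 (hs n).1 hw1 (G z) h2 h6
    classical
    refine ⟨(D n).l - l, fun w => if h : ∃ m', b (w.drop ((D n).l - l)) < m' ∧ G w m' = true then
      h.choose else 0, ?_⟩
    rw [Nat.add_sub_cancel' hl]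
    filter_upwards [key] with w hw
    have h := hw (b (w.drop ((D n).l - l)))
    rw [dif_pos h]
    exact h.choose_spec
  · refine ⟨{l | ∃ n, l = (D n).l ∧ (E n).side (s (n + 1)) = e}, fun i m => (D (max i m)).l,
      ⟨LIMIT_coh_join hx.coh hG, ?_, ?_⟩⟩
    · rw [Set.infinite_iff_exists_gt]
      intro N
      obtain ⟨n, hn, hen⟩ := he (N + 1)
      exact ⟨(D n).l, ⟨n, rfl, hen⟩, lt_of_lt_of_le (Nat.lt_of_succ_le hn) hmono.le_apply⟩
    · rintro i m l ⟨n, rfl, hen⟩ hn P hP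
      have hnim : max i m ≤ n := hmono.le_iff_le.1 hn
      have hlev : (D n).l + ((D (n + 1)).l - (D n).l) = (D (n + 1)).l :=
        Nat.add_sub_cancel' (hE n).lt.le
      refine ⟨(D (n + 1)).l - (D n).l, (E n).ξ, ?_⟩
      rw [hlev]
      have hunk : ∀ᶠ w in (UL (D (n + 1)).l : Filter (List ℕ)),
          (s n, e, i, P (w.drop ((D (n + 1)).l - (D n).l))) ∈
            (E n).Unk (w.drop ((D (n + 1)).l - (D n).l)) ((E n).v w) := by
        rw [LIMIT_split (hE n).lt.le]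
        filter_upwards [(hE n).fibre, (hE n).v_inf, hGiff n, hP] with z h1 h2 h3 h4
        filter_upwards [h2 (P z + 1), ext_drop ((D (n + 1)).l - (D n).l) z] with w h5 h6
        rw [h6.1]
        exact LIMIT_unk h1 (hs n).1 (le_trans (le_max_left _ _) hnim) h5 (G z) h3 h4
      refine aliveU_of_cofinal ht (LIMIT_coh_join hx.coh hG) fun N => ?_
      have hl' : (D (n + 1)).l ≤ (D (n + 1 + N)).l := hmono.monotone (by omega)
      refine ⟨(D (n + 1 + N)).l - (D (n + 1)).l, ?_, ?_⟩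
      · have h1 : ∀ N, (D (n + 1)).l + N ≤ (D (n + 1 + N)).l := by
          intro N
          induction N with
          | zero => exact le_rfl
          | succ N ih => have := (hE (n + 1 + N)).lt
                         rw [show n + 1 + (N + 1) = n + 1 + N + 1 by omega]
                         omega
        have := h1 N
        omega
      rw [Nat.add_sub_cancel' hl']
      have hgd := (LIMIT_drop hl' _).2 (hE n).guar
      have hun := (LIMIT_drop hl' _).2 hunk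
      have hst := LIMIT_stem hE hs hG hG' (n := n + 1) (n' := n + 1 + N) (by omega)
      filter_upwards [LIMIT_chain ht hE hs hG hG' N (n + 1), hgd, hst, hun,
        ht.path (D (n + 1 + N)).l] with w hch hgd hst hun hp
      obtain ⟨W, hW, hWc⟩ := hch
      obtain ⟨y, hy1, hy2⟩ := hgd _ hun (s (n + 1)) (hs (n + 1)).1 (hs n).2.symm hen (kk w) (t w)
        (x w) (ht.bdd w) W hW (G w) (fun q hq => by
          rw [Bool.eq_iff_iff, hst q hq]
          simp [ind, Stm.mem_st]) hWc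
      have hm : m ≤ n := le_trans (le_max_right _ _) hnim
      exact alive_sep hp y (fun b hb => hy1 b (by omega))
        (fun b hb b' hb' hne i u hu => hy2 b (by omega) b' (by omega) hne i u hu)

end Pool.Agent.Lib.H37R
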