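import Pool.Agent.Lib.H37R.MM

/-!
# Chunk LOS: Los theorem for bounded formulas at one level
-/

namespace Pool.Agent.Lib.H37R

open Filter Topology

/-- terms are evaluated fibrewise -/
theorem mk_ev (l : ℕ) (v : ℕ → List ℕ → ℕ) (s : Tm) :
    s.ev (fun n => mk l (v n)) = mk l (fun z => s.ev (fun n => v n z)) := by
  induction s with
  | var i => rfl
  | zero => exact mk_zero l
  | one => exact mk_one l
  | add s t hs ht =>
    show s.ev _ + t.ev _ = _
    rw [hs, ht, mk_add]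
    rfl
  | mul s t hs ht =>
    show s.ev _ * t.ev _ = _
    rw [hs, ht, mk_mul]
    rfl

/-- the same if only the set variables of the formula are represented -/
def Fm.setLt (m : ℕ) : Fm → Prop
  | .eq _ _ => True
  | .lt _ _ => True
  | .mem _ n => n < m
  | .neg φ => φ.setLt m
  | .and φ ψ => φ.setLt m ∧ ψ.setLt m
  | .ball _ _ φ => φ.setLt m
  | .all _ φ => φ.setLt m

theorem los_update (l : ℕ) (v : ℕ → List ℕ → ℕ) (i : ℕ) (a : List ℕ → ℕ) :
    Function.update (fun n => mk l (v n)) i (mk l a) =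
      fun n => mk l (fun z => Function.update (fun n => v n z) i (a z) n) := by
  funext n
  by_cases h : n = i
  · subst h
    simp
  · simp [Function.update_of_ne h]

theorem los' (l m : ℕ) (V : ℕ → Set MM) (W : ℕ → List ℕ → Set ℕ)
    (hV : ∀ n < m, ∀ u, mk l u ∈ V n ↔ ∀ᶠ z in (UL l : Filter (List ℕ)), u z ∈ W n z)
    (φ : Fm) (hφ : φ.D0) (hm : φ.setLt m) (v : ℕ → List ℕ → ℕ) :
    φ.sat V (fun n => mk l (v n)) ↔
      ∀ᶠ z in (UL l : Filter (List ℕ)), φ.sat (fun n => W n z) (fun n => v n z) := by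
  induction φ generalizing v with
  | eq s t =>
    show s.ev _ = t.ev _ ↔ _
    rw [mk_ev, mk_ev, mk_eq]
    rfl
  | lt s t =>
    show s.ev _ < t.ev _ ↔ _
    rw [mk_ev, mk_ev, mk_lt]
    rfl
  | mem s n =>
    show s.ev _ ∈ V n ↔ _
    rw [mk_ev, hV n hm]
    rfl
  | neg φ ih =>
    show ¬ φ.sat V _ ↔ _
    rw [ih hφ hm, ← Ultrafilter.eventually_not]
    rfl
  | and φ ψ ih1 ih2 =>
    show φ.sat V _ ∧ ψ.sat V _ ↔ _
    rw [ih1 hφ.1 hm.1, ih2 hφ.2 hm.2, ← Filter.eventually_and]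
    rfl
  | ball i t φ ih =>
    show (∀ a : MM, a < t.ev _ → φ.sat V (Function.update _ i a)) ↔
      ∀ᶠ z in (UL l : Filter (List ℕ)), ∀ a : ℕ, a < t.ev (fun n => v n z) →
        φ.sat (fun n => W n z) (Function.update (fun n => v n z) i a)
    rw [mk_ev]
    constructor
    · intro h
      apply ev_forall_of_choice
      intro u
      rcases (UL l).em (fun z => u z < t.ev (fun n => v n z)) with h1 | h1
      · have h2 := h (mk l u) ((mk_lt l _ _).2 h1)
        rw [los_update, ih hφ hm] at h2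
        filter_upwards [h2] with z hz _
        exact hz
      · filter_upwards [h1] with z hz hz'
        exact absurd hz' hz
    · intro h a ha
      obtain ⟨u, rfl⟩ := mk_end l _ a ha
      rw [mk_lt] at ha
      rw [los_update, ih hφ hm]
      filter_upwards [h, ha] with z h1 h2
      exact h1 _ h2
  | all i φ ih => exact hφ.elim

theorem Fm.exists_setLt (φ : Fm) : ∃ m, ∀ m' ≥ m, φ.setLt m' := by
  induction φ with
  | eq s t => exact ⟨0, fun _ _ => trivial⟩
  | lt s t => exact ⟨0, fun _ _ => trivial⟩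
  | mem s n => exact ⟨n + 1, fun m' h => h⟩
  | neg φ ih => exact ih
  | and φ ψ ih1 ih2 =>
    obtain ⟨m1, h1⟩ := ih1
    obtain ⟨m2, h2⟩ := ih2
    exact ⟨max m1 m2, fun m' h => ⟨h1 m' (le_trans (le_max_left _ _) h),
      h2 m' (le_trans (le_max_right _ _) h)⟩⟩
  | ball i t φ ih => exact ih
  | all i φ ih => exact ih

/-- LOS for `Δ0` formulas at one level -/
theorem los (l : ℕ) (V : ℕ → Set MM) (W : ℕ → List ℕ → Set ℕ)
    (hV : ∀ n u, mk l u ∈ V n ↔ ∀ᶠ z in (UL l : Filter (List ℕ)), u z ∈ W n z)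
    (φ : Fm) (hφ : φ.D0) (v : ℕ → List ℕ → ℕ) :
    φ.sat V (fun n => mk l (v n)) ↔
      ∀ᶠ z in (UL l : Filter (List ℕ)), φ.sat (fun n => W n z) (fun n => v n z) := by
  obtain ⟨m, hm⟩ := φ.exists_setLt
  exact los' l m V W (fun n _ => hV n) φ hφ (hm m le_rfl) v

end Pool.Agent.Lib.H37R
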