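import Pool.Agent.Lib.H37R.Ultra
import Pool.Agent.Lib.H37R.L2

/-!
# Chunk MM: the nonstandard model
-/

namespace Pool.Agent.Lib.H37R

open Filter Topology

/-- the fibre of level `l` below the infinite sequence `x`: `[x l, ..., x 0]` -/
def pil (l : ℕ) (x : ℕ → ℕ) : List ℕ := ((List.range (l + 1)).map x).reverse

theorem pil_succ (l : ℕ) (x : ℕ → ℕ) : pil (l + 1) x = x (l + 1) :: pil l x := by
  unfold pil
  rw [List.range_succ, List.map_append, List.reverse_append]
  rfl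

theorem pil_length (l : ℕ) (x : ℕ → ℕ) : (pil l x).length = l + 1 := by
  simp [pil]

theorem pil_drop (l j : ℕ) (x : ℕ → ℕ) : (pil (l + j) x).drop j = pil l x := by
  induction j with
  | zero => rfl
  | succ j ih =>
    rw [← add_assoc, pil_succ]
    exact ih

theorem MM_pil_surj : ∀ (l : ℕ) (z : List ℕ), z.length = l + 1 → ∃ x, pil l x = z := by
  intro l z hz
  refine ⟨fun i => z.reverse.getD i 0, ?_⟩
  unfold pil
  have h : (List.range (l + 1)).map (fun i => z.reverse.getD i 0) = z.reverse := by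
    apply List.ext_getElem
    · simp [hz]
    · intro i h1 h2
      simp at h1 h2 ⊢
      simp [h2]
  rw [h, List.reverse_reverse]

theorem MM_map_drop (l : ℕ) : Filter.map (List.drop 1) (UL (l + 1) : Filter (List ℕ)) =
    (UL l : Filter (List ℕ)) := by
  ext s
  have := ev_UL_drop l 1 (fun z => z ∈ s)
  exact this

/-- the filter generated by the preimages of the sets in `UL l` is proper (directed infimum), take an
ultrafilter below it -/
theorem exists_VV : ∃ V : Ultrafilter (ℕ → ℕ), ∀ l, V.map (pil l) = UL l := by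
  let f : ℕ → Filter (ℕ → ℕ) := fun l => Filter.comap (pil l) (UL l : Filter (List ℕ))
  have hanti : Antitone f := by
    apply antitone_nat_of_succ_le
    intro l
    show Filter.comap (pil (l + 1)) (UL (l + 1) : Filter (List ℕ)) ≤
      Filter.comap (pil l) (UL l : Filter (List ℕ))
    rw [← Filter.map_le_iff_le_comap]
    have e : pil l = List.drop 1 ∘ pil (l + 1) := by
      funext x
      exact (pil_drop l 1 x).symm
    rw [e, ← Filter.map_map, ← MM_map_drop l]
    exact Filter.map_mono Filter.map_comap_le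
  have hne : ∀ l, (f l).NeBot := by
    intro l
    rw [Filter.comap_neBot_iff]
    intro s hs
    have : ∀ᶠ z in (UL l : Filter (List ℕ)), z ∈ s ∧ z.length = l + 1 :=
      (Filter.eventually_mem_set.2 hs).and (UL_length l)
    obtain ⟨z, hz1, hz2⟩ := this.exists
    obtain ⟨x, hx⟩ := MM_pil_surj l z hz2
    exact ⟨x, by rw [hx]; exact hz1⟩
  have hdir : Directed (· ≥ ·) f := hanti.directed_ge
  have hinf : (⨅ l, f l).NeBot := Filter.iInf_neBot_of_directed' hdir hne
  refine ⟨Ultrafilter.of (⨅ l, f l), ?_⟩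
  intro l
  have h1 : ((Ultrafilter.of (⨅ l, f l) : Ultrafilter (ℕ → ℕ)) : Filter (ℕ → ℕ)) ≤ f l :=
    (Ultrafilter.of_le _).trans (iInf_le f l)
  have h2 : (((Ultrafilter.of (⨅ l, f l)).map (pil l) : Ultrafilter (List ℕ)) :
      Filter (List ℕ)) ≤ (UL l : Filter (List ℕ)) := by
    rw [Ultrafilter.coe_map]
    exact Filter.map_le_iff_le_comap.2 h1
  exact Ultrafilter.coe_le_coe.1 h2

noncomputable def VV : Ultrafilter (ℕ → ℕ) := Classical.choose exists_VV

theorem ev_VV (l : ℕ) (P : List ℕ → Prop) :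
    (∀ᶠ x in (VV : Filter (ℕ → ℕ)), P (pil l x)) ↔ ∀ᶠ z in (UL l : Filter (List ℕ)), P z := by
  have h : VV.map (pil l) = UL l := Classical.choose_spec exists_VV l
  rw [← h]
  rfl

/-- the ambient ultrapower -/
abbrev GG := (VV : Filter (ℕ → ℕ)).Germ ℕ

noncomputable def toM (l : ℕ) (a : List ℕ → ℕ) : GG := ((fun x => a (pil l x) : (ℕ → ℕ) → ℕ) : GG)

theorem toM_up (l j : ℕ) (a : List ℕ → ℕ) : toM (l + j) (fun w => a (w.drop j)) = toM l a := by
  unfold toM
  simp only [pil_drop]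

theorem toM_up' (l l' : ℕ) (h : l ≤ l') (a : List ℕ → ℕ) :
    toM l' (fun w => a (w.drop (l' - l))) = toM l a := by
  obtain ⟨j, rfl⟩ := Nat.exists_eq_add_of_le h
  rw [Nat.add_sub_cancel_left]
  exact toM_up l j a

theorem toM_add (l : ℕ) (a b : List ℕ → ℕ) : toM l a + toM l b = toM l (fun z => a z + b z) := rfl

theorem toM_mul (l : ℕ) (a b : List ℕ → ℕ) : toM l a * toM l b = toM l (fun z => a z * b z) := rfl

/-- the model -/
def MM : Type := {g : GG // ∃ l a, g = toM l a}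

/-- the element given by a function on the fibres of level `l` -/
noncomputable def mk (l : ℕ) (a : List ℕ → ℕ) : MM := ⟨toM l a, l, a, rfl⟩

theorem exists_rep (p : MM) : ∃ l a, p = mk l a := by
  obtain ⟨g, l, a, h⟩ := p
  exact ⟨l, a, Subtype.ext h⟩

theorem MM_add_mem (p q : MM) : ∃ l a, p.1 + q.1 = toM l a := by
  obtain ⟨l, a, ha⟩ := p.2
  obtain ⟨l', a', ha'⟩ := q.2
  refine ⟨max l l', fun w => a (w.drop (max l l' - l)) + a' (w.drop (max l l' - l')), ?_⟩
  rw [ha, ha', ← toM_up' l (max l l') (le_max_left _ _), ← toM_up' l' (max l l') (le_max_right _ _),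
    toM_add]

theorem MM_mul_mem (p q : MM) : ∃ l a, p.1 * q.1 = toM l a := by
  obtain ⟨l, a, ha⟩ := p.2
  obtain ⟨l', a', ha'⟩ := q.2
  refine ⟨max l l', fun w => a (w.drop (max l l' - l)) * a' (w.drop (max l l' - l')), ?_⟩
  rw [ha, ha', ← toM_up' l (max l l') (le_max_left _ _), ← toM_up' l' (max l l') (le_max_right _ _),
    toM_mul]

noncomputable instance : Zero MM := ⟨mk 0 (fun _ => 0)⟩
noncomputable instance : One MM := ⟨mk 0 (fun _ => 1)⟩
noncomputable instance : Add MM := ⟨fun p q => ⟨p.1 + q.1, MM_add_mem p q⟩⟩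
noncomputable instance : Mul MM := ⟨fun p q => ⟨p.1 * q.1, MM_mul_mem p q⟩⟩
noncomputable instance : LT MM := ⟨fun p q => p.1 < q.1⟩

theorem mk_up (l j : ℕ) (a : List ℕ → ℕ) : mk (l + j) (fun w => a (w.drop j)) = mk l a :=
  Subtype.ext (toM_up l j a)

/-- representation at a higher level -/
theorem exists_rep_ge (p : MM) : ∃ l0, ∀ l, l0 ≤ l → ∃ a, p = mk l a := by
  obtain ⟨l0, a, rfl⟩ := exists_rep p
  exact ⟨l0, fun l hl => ⟨fun w => a (w.drop (l - l0)), Subtype.ext (toM_up' l0 l hl a).symm⟩⟩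

theorem mk_eq (l : ℕ) (a b : List ℕ → ℕ) :
    mk l a = mk l b ↔ ∀ᶠ z in (UL l : Filter (List ℕ)), a z = b z := by
  rw [← ev_VV l (fun z => a z = b z)]
  constructor
  · intro h
    have h2 : toM l a = toM l b := congrArg Subtype.val h
    exact Filter.Germ.coe_eq.1 h2
  · intro h
    exact Subtype.ext (Filter.Germ.coe_eq.2 h)

theorem mk_lt (l : ℕ) (a b : List ℕ → ℕ) :
    mk l a < mk l b ↔ ∀ᶠ z in (UL l : Filter (List ℕ)), a z < b z := by
  rw [← ev_VV l (fun z => a z < b z)]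
  exact Filter.Germ.coe_lt

theorem mk_add (l : ℕ) (a b : List ℕ → ℕ) : mk l a + mk l b = mk l (fun z => a z + b z) := rfl

theorem mk_mul (l : ℕ) (a b : List ℕ → ℕ) : mk l a * mk l b = mk l (fun z => a z * b z) := rfl

theorem mk_zero (l : ℕ) : (0 : MM) = mk l (fun _ => 0) := by
  have := mk_up 0 l (fun _ => 0)
  rw [zero_add] at this
  exact this.symm

theorem mk_one (l : ℕ) : (1 : MM) = mk l (fun _ => 1) := by
  have := mk_up 0 l (fun _ => 1)
  rw [zero_add] at this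
  exact this.symm

theorem mk_pr (l : ℕ) (a b : List ℕ → ℕ) : pr (mk l a) (mk l b) = mk l (fun z => pr (a z) (b z)) := by
  unfold pr
  rw [mk_add, mk_mul, mk_add]

theorem MM_rep2 (p q : MM) : ∃ l a b, p = mk l a ∧ q = mk l b := by
  obtain ⟨l1, h1⟩ := exists_rep_ge p
  obtain ⟨l2, h2⟩ := exists_rep_ge q
  obtain ⟨a, ha⟩ := h1 (max l1 l2) (le_max_left _ _)
  obtain ⟨b, hb⟩ := h2 (max l1 l2) (le_max_right _ _)
  exact ⟨_, a, b, ha, hb⟩

theorem MM_rep3 (p q r : MM) : ∃ l a b c, p = mk l a ∧ q = mk l b ∧ r = mk l c := by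
  obtain ⟨l1, h1⟩ := exists_rep_ge p
  obtain ⟨l2, h2⟩ := exists_rep_ge q
  obtain ⟨l3, h3⟩ := exists_rep_ge r
  obtain ⟨a, ha⟩ := h1 (l1 + l2 + l3) (by omega)
  obtain ⟨b, hb⟩ := h2 (l1 + l2 + l3) (by omega)
  obtain ⟨c, hc⟩ := h3 (l1 + l2 + l3) (by omega)
  exact ⟨_, a, b, c, ha, hb, hc⟩

/-- linear order facts -/
theorem MM_trichotomy (p q : MM) : p < q ∨ p = q ∨ q < p := by
  obtain ⟨l, a, b, rfl, rfl⟩ := MM_rep2 p q
  rw [mk_lt, mk_lt, mk_eq, ← Ultrafilter.eventually_or, ← Ultrafilter.eventually_or]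
  exact Eventually.of_forall (fun z => lt_trichotomy (a z) (b z))

theorem MM_lt_trans (p q r : MM) (h : p < q) (h' : q < r) : p < r := by
  obtain ⟨l, a, b, c, rfl, rfl, rfl⟩ := MM_rep3 p q r
  rw [mk_lt] at *
  filter_upwards [h, h'] with z h1 h2
  exact lt_trans h1 h2

theorem MM_lt_irrefl (p : MM) : ¬ p < p := by
  obtain ⟨l, a, rfl⟩ := exists_rep p
  rw [mk_lt]
  intro h
  obtain ⟨z, hz⟩ := h.exists
  exact lt_irrefl _ hz

/-- END EXTENSION -/
theorem mk_end (l : ℕ) (a : List ℕ → ℕ) (b : MM) (h : b < mk l a) : ∃ b', b = mk l b' := by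
  classical
  obtain ⟨l0, h0⟩ := exists_rep_ge b
  obtain ⟨b1, rfl⟩ := h0 (l + l0) (by omega)
  rw [← mk_up l l0 a, mk_lt, ev_UL_add] at h
  have key : ∀ᶠ z in (UL l : Filter (List ℕ)), ∃ c, ∀ᶠ w in (ext l0 z : Filter (List ℕ)), b1 w = c := by
    filter_upwards [h] with z hz
    have : ∀ᶠ w in (ext l0 z : Filter (List ℕ)), b1 w < a z := by
      filter_upwards [hz, ext_drop l0 z] with w h1 h2
      rwa [h2.1] at h1
    obtain ⟨c, _, hc⟩ := fin_choice (ext l0 z) b1 (a z) this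
    exact ⟨c, hc⟩
  obtain ⟨c, hc⟩ := ev_choice _ _ key
  refine ⟨c, ?_⟩
  rw [← mk_up l l0 c, mk_eq, ev_UL_add]
  filter_upwards [hc] with z hz
  filter_upwards [hz, ext_drop l0 z] with w h1 h2
  rw [h1, h2.1]

theorem mk_end' (l : ℕ) (a : List ℕ → ℕ) (b : MM) (h : ¬ mk l a < b) : ∃ b', b = mk l b' := by
  rcases MM_trichotomy b (mk l a) with h1 | h1 | h1
  · exact mk_end l a b h1
  · exact ⟨a, h1⟩
  · exact absurd h1 h

/-- the basic axioms -/
theorem MM_basic : (∀ n : MM, n + 1 ≠ 0) ∧ (∀ m n : MM, m + 1 = n + 1 → m = n) ∧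
    (∀ m : MM, m + 0 = m) ∧ (∀ m n : MM, m + (n + 1) = (m + n) + 1) ∧ (∀ m : MM, m * 0 = 0) ∧
    (∀ m n : MM, m * (n + 1) = m * n + m) ∧ (∀ m : MM, ¬ m < 0) ∧
    (∀ m n : MM, m < n + 1 ↔ (m < n ∨ m = n)) := by
  refine ⟨?_, ?_, ?_, ?_, ?_, ?_, ?_, ?_⟩
  · intro n h
    obtain ⟨l, a, rfl⟩ := exists_rep n
    rw [mk_one l, mk_zero l, mk_add, mk_eq] at h
    obtain ⟨z, hz⟩ := h.exists
    simp at hz
  · intro m n h
    obtain ⟨l, a, b, rfl, rfl⟩ := MM_rep2 m n
    rw [mk_one l, mk_add, mk_add, mk_eq] at h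
    rw [mk_eq]
    filter_upwards [h] with z hz
    simpa using hz
  · intro m
    obtain ⟨l, a, rfl⟩ := exists_rep m
    rw [mk_zero l, mk_add, mk_eq]
    exact Eventually.of_forall (fun z => rfl)
  · intro m n
    obtain ⟨l, a, b, rfl, rfl⟩ := MM_rep2 m n
    rw [mk_one l, mk_add, mk_add, mk_add, mk_add, mk_eq]
    exact Eventually.of_forall (fun z => rfl)
  · intro m
    obtain ⟨l, a, rfl⟩ := exists_rep m
    rw [mk_zero l, mk_mul, mk_eq]
    exact Eventually.of_forall (fun z => Nat.mul_zero _)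
  · intro m n
    obtain ⟨l, a, b, rfl, rfl⟩ := MM_rep2 m n
    rw [mk_one l, mk_add, mk_mul, mk_mul, mk_add, mk_eq]
    exact Eventually.of_forall (fun z => Nat.mul_succ _ _)
  · intro m h
    obtain ⟨l, a, rfl⟩ := exists_rep m
    rw [mk_zero l, mk_lt] at h
    obtain ⟨z, hz⟩ := h.exists
    exact Nat.not_lt_zero _ hz
  · intro m n
    obtain ⟨l, a, b, rfl, rfl⟩ := MM_rep2 m n
    rw [mk_one l, mk_add, mk_lt, mk_lt, mk_eq, ← Ultrafilter.eventually_or]
    apply Filter.eventually_congr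
    exact Eventually.of_forall (fun z => by show a z < b z + 1 ↔ _; omega)

end Pool.Agent.Lib.H37R
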