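import Pool.Agent.Lib.H37R.TreeM

/-!
# Chunk NOHOM: no homogeneous set (PROOF.md 4.7)
-/

namespace Pool.Agent.Lib.H37R

open Filter Topology

theorem nohom_Len (l : ℕ) (s n : List ℕ → ℕ) (h : Len (mk l s) (mk l n)) :
    ∀ᶠ z in (UL l : Filter (List ℕ)), prr (s z) = n z := by
  obtain ⟨a, b, h⟩ := h
  obtain ⟨la, hla⟩ := exists_rep_ge a
  obtain ⟨lb, hlb⟩ := exists_rep_ge b
  obtain ⟨a, rfl⟩ := hla (l + (la + lb)) (by omega)
  obtain ⟨b, rfl⟩ := hlb (l + (la + lb)) (by omega)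
  rw [← mk_up l (la + lb) s, ← mk_up l (la + lb) n, mk_pr, mk_pr, mk_eq] at h
  rw [← ev_UL_drop l (la + lb)]
  filter_upwards [h] with w hw
  rw [hw, prr_pr]

theorem nohom_Ent (l : ℕ) (s i v : List ℕ → ℕ) (h : Ent (mk l s) (mk l i) (mk l v)) :
    ∀ᶠ z in (UL l : Filter (List ℕ)), i z < prr (s z) ∧
      prl (prl (s z)) % (prr (prl (s z)) * (i z + 1) + 1) = v z := by
  obtain ⟨a, b, m, q, h1, h2, h3, h4⟩ := h
  obtain ⟨la, hla⟩ := exists_rep_ge a
  obtain ⟨lb, hlb⟩ := exists_rep_ge b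
  obtain ⟨lm, hlm⟩ := exists_rep_ge m
  obtain ⟨lq, hlq⟩ := exists_rep_ge q
  obtain ⟨a, rfl⟩ := hla (l + (la + lb + lm + lq)) (by omega)
  obtain ⟨b, rfl⟩ := hlb (l + (la + lb + lm + lq)) (by omega)
  obtain ⟨m, rfl⟩ := hlm (l + (la + lb + lm + lq)) (by omega)
  obtain ⟨q, rfl⟩ := hlq (l + (la + lb + lm + lq)) (by omega)
  rw [← mk_up l (la + lb + lm + lq) s, mk_pr, mk_pr, mk_eq] at h1
  rw [← mk_up l (la + lb + lm + lq) i, mk_lt] at h2
  rw [← mk_up l (la + lb + lm + lq) i, ← mk_up l (la + lb + lm + lq) v,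
    mk_one (l + (la + lb + lm + lq)), mk_add, mk_mul, mk_add, mk_mul, mk_add, mk_eq] at h3
  rw [← mk_up l (la + lb + lm + lq) i, ← mk_up l (la + lb + lm + lq) v,
    mk_one (l + (la + lb + lm + lq)), mk_add, mk_mul, mk_add, mk_lt] at h4
  rw [← ev_UL_drop l (la + lb + lm + lq)]
  filter_upwards [h1, h2, h3, h4] with w c1 c2 c3 c4
  rw [c1, prr_pr, prl_pr, prl_pr, prr_pr]
  refine ⟨c2, ?_⟩
  rw [c3]
  rw [Nat.mul_add_mod', Nat.mod_eq_of_lt c4]

section
variable {Θ : ℕ → Th} {F : ℕ → CFam} {t : List ℕ → Tre}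

theorem nohom_repS {x : List ℕ → Orc} {i : ℕ} {P P' : List ℕ → ℕ} {w : List ℕ} (h : P w = P' w) :
    repS F t x i P w = repS F t x i P' w := by
  funext u
  rw [Bool.eq_iff_iff]
  simp only [repS, decide_eq_true_eq]
  rw [h]

theorem nohom_koenig {T : Tre} {k : ℕ} (hb : Bdd k T) (hpre : ∀ σ τ, T (σ ++ τ) = true → T σ = true)
    (A : ℕ → Prop) (c : ℕ)
    (h : ∀ n, ∃ σ, T σ = true ∧ σ.length = n ∧ ∀ u < n, A u → σ.getD u 0 = c) :
    ∃ y, IsPath T y ∧ ∀ u, A u → y u = c := by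
  choose σ h1 h2 h3 using h
  have hlt : ∀ u, ∀ᶠ n in (U : Filter ℕ), (σ n).getD u 0 < k + 1 := by
    intro u
    filter_upwards [U_ge (u + 1)] with n hn
    have hu : u < (σ n).length := by rw [h2]; omega
    rw [List.getD_eq_getElem _ _ hu]
    exact lt_trans (hb _ (h1 n) _ (List.getElem_mem hu)) (Nat.lt_succ_self _)
  have hy : ∀ u, ∃ v, ∀ᶠ n in (U : Filter ℕ), (σ n).getD u 0 = v := by
    intro u
    obtain ⟨v, _, hv⟩ := fin_choice U (fun n => (σ n).getD u 0) (k + 1) (hlt u)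
    exact ⟨v, hv⟩
  choose y hy using hy
  refine ⟨y, ?_, ?_⟩
  · intro m
    have hall : ∀ᶠ n in (U : Filter ℕ), ∀ u ∈ Finset.range m, (σ n).getD u 0 = y u := by
      rw [Filter.eventually_all_finset]
      intro u _
      exact hy u
    obtain ⟨n, hn1, hn2⟩ := (hall.and (U_ge m)).exists
    have e : ini y m = (σ n).take m := by
      apply List.ext_getElem
      · simp [ini, h2, hn2]
      · intro i hi1 hi2
        have hi : i < m := by simpa [ini] using hi1
        have hi' : i < (σ n).length := by rw [h2]; omega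
        have := hn1 i (Finset.mem_range.2 hi)
        rw [List.getD_eq_getElem _ _ hi'] at this
        simp [ini, this]
    rw [e]
    apply hpre _ ((σ n).drop m)
    rw [List.take_append_drop]
    exact h1 n
  · intro u hu
    obtain ⟨n, hn1, hn2⟩ := ((hy u).and (U_ge (u + 1))).exists
    rw [← hn1]
    exact h3 n u hn2 hu

/-- the path of an element of a `compF` class -/
theorem nohom_comp (θ : Th) (m : ℕ) (D D' : ℕ → CFam) (q : ℕ) (T : Tre) (X : Orc)
    (Y : ℕ → Orc)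
    (hY : ∀ j < m, ∀ u,
      (Y j u = true ↔ alive (D j (pr (cmp j (prl q)) u) : Set Sp) T X) ∧
      (Y j u = false ↔ alive (D' j (pr (cmp j (prl q)) u) : Set Sp) T X))
    (w : Pt) (hw : w ∈ K (compF θ m D D' q : Set Sp) T X) :
    (T, X, bts w, w.1 (Nat.pair 0 0)) ∈
      ((θ q : TopologicalSpace.Closeds (Tre × Orc × (ℕ → Orc) × (ℕ → ℕ))) : Set _) ∧
      ∀ j < m, bts w j = Y j := by
  obtain ⟨hw, hp⟩ := hw
  have hw1 : (T, X, bts w, (sub 0 w).1 0) ∈ (θ q : Set _) := hw.1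
  have hw2 : ∀ j < m, ∀ u, (bts w j u = true →
      (T, X, sub (1 + Nat.pair j u) w) ∈ (D j (pr (cmp j (prl q)) u) : Set Sp)) ∧
    (bts w j u = false →
      (T, X, sub (1 + Nat.pair j u) w) ∈ (D' j (pr (cmp j (prl q)) u) : Set Sp)) := hw.2
  refine ⟨hw1, ?_⟩
  intro j hj
  funext u
  cases hb : bts w j u with
  | true => exact ((hY j hj u).1.2 ⟨_, (hw2 j hj u).1 hb, sub_paths T w hp _⟩).symm
  | false => exact ((hY j hj u).2.2 ⟨_, (hw2 j hj u).2 hb, sub_paths T w hp _⟩).symm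

/-- CHUNK NOHOM (PROOF.md 4.7) -/
theorem no_hom (hΘ : ∀ c : ThC, ∃ a, Θ a = thOf c) (hF : OpsClosed Θ F) (ht : TreeOK t)
    {x : List ℕ → Orc} (hx : Good F t x) (H : Set MM) (hH : ∃ k k' p, RecC F t x k k' p H)
    (hu : Unbdd H) (c : MM) (hc : c < kappa) : ¬ HomTree (TTM t) H c := by
  classical
  have _ := hc
  intro hom
  obtain ⟨Λ, n0, hx⟩ := hx
  obtain ⟨k, k', p, hp⟩ := hH
  obtain ⟨a, ha⟩ := hΘ .hom
  obtain ⟨K0, hK⟩ := hF.comp a 1 (fun _ => k) (fun _ => k')
  rw [ha] at hK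
  obtain ⟨L0, P0, c0, rfl, rfl⟩ := MM_rep2 p c
  let S : Set ℕ := {l | l ∈ Λ ∧ L0 ≤ l ∧ n0 k 1 ≤ l ∧ n0 k' 1 ≤ l ∧ n0 K0 2 ≤ l}
  have hS : ∀ n, ∃ l ∈ S, n ≤ l := by
    intro n
    obtain ⟨l, h1, h2⟩ := hx.inf.exists_gt (n + L0 + n0 k 1 + n0 k' 1 + n0 K0 2)
    exact ⟨l, ⟨h1, by omega, by omega, by omega, by omega⟩, by omega⟩
  let PP : ℕ → List ℕ → ℕ := fun l w => P0 (w.drop (l - L0))
  let cc : ℕ → List ℕ → ℕ := fun l w => c0 (w.drop (l - L0))
  have hPP : ∀ l, L0 ≤ l → mk L0 P0 = mk l (PP l) := by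
    intro l hl
    obtain ⟨j, rfl⟩ := Nat.exists_eq_add_of_le hl
    rw [← mk_up L0 j P0]
    simp only [PP, Nat.add_sub_cancel_left]
  have hcc : ∀ l, L0 ≤ l → mk L0 c0 = mk l (cc l) := by
    intro l hl
    obtain ⟨j, rfl⟩ := Nat.exists_eq_add_of_le hl
    rw [← mk_up L0 j c0]
    simp only [cc, Nat.add_sub_cancel_left]
  have hdrop : ∀ l ∈ S, ∀ j (z w : List ℕ), w.drop j = z → w.drop (l + j - L0) = z.drop (l - L0) := by
    intro l hl j z w hw
    have h5 : l + j - L0 = j + (l - L0) := by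
      have := hl.2.1
      omega
    rw [h5, ← List.drop_drop, hw]
  let f : ℕ → List ℕ → Orc := fun l z => repS F t x k (PP l) z
  have hrec : ∀ l ∈ S, RecC F t x k k' (mk l (PP l)) H := by
    intro l hl
    rw [← hPP l hl.2.1]
    exact hp
  have hrep : ∀ l ∈ S, ∀ u : List ℕ → ℕ,
      (mk l u ∈ H ↔ ∀ᶠ z in (UL l : Filter (List ℕ)), f l z (u z) = true) := by
    intro l hl u
    exact rep_mem ht hx (hrec l hl) hl.1 hl.2.2.1 u
  have hth : ∀ (q : ℕ) (T : Tre) (X : Orc) (Y : ℕ → Orc) (y : ℕ → ℕ), (T, X, Y, y) ∈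
      (((thOf .hom) q : TopologicalSpace.Closeds (Tre × Orc × (ℕ → Orc) × (ℕ → ℕ))) : Set _) ↔
      ∀ u, Y 0 u = true → y u = cmp 1 (prl q) := fun q T X Y y => Iff.rfl
  -- strings of all lengths
  have hB : ∀ l ∈ S, ∀ᶠ z in (UL l : Filter (List ℕ)), ∀ n, ∃ σ, t z σ = true ∧ σ.length = n ∧
      ∀ u < n, f l z u = true → σ.getD u 0 = cc l z := by
    intro l hl
    apply ev_forall_of_choice
    intro n
    obtain ⟨s, hsT, hsL, hsE⟩ := hom (mk l n)
    obtain ⟨ls, hls⟩ := exists_rep_ge s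
    obtain ⟨l', hl'S, hl'⟩ := hS (l + ls)
    obtain ⟨j, rfl⟩ : ∃ j, l' = l + j := ⟨l' - l, by omega⟩
    obtain ⟨s', rfl⟩ := hls (l + j) (by omega)
    have f1 := hsT (l + j) s' rfl
    rw [← mk_up l j n] at hsL hsE
    have f2 := nohom_Len _ _ _ hsL
    have f3 : ∀ᶠ w in (UL (l + j) : Filter (List ℕ)), ∀ u, u < n (w.drop j) → f (l + j) w u = true →
        u < prr (s' w) ∧ prl (prl (s' w)) % (prr (prl (s' w)) * (u + 1) + 1) = cc (l + j) w := by
      apply ev_forall_of_choice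
      intro u
      rcases (UL (l + j)).em (fun w => u w < n (w.drop j) ∧ f (l + j) w (u w) = true) with h1 | h1
      · have h2 : mk (l + j) u ∈ H := (hrep _ hl'S u).2 (h1.mono (fun w hw => hw.2))
        have h3 : mk (l + j) u < mk (l + j) (fun w => n (w.drop j)) :=
          (mk_lt _ _ _).2 (h1.mono (fun w hw => hw.1))
        have h4 := hsE _ h2 h3
        rw [hcc (l + j) (by have := hl'S.2.1; omega)] at h4
        filter_upwards [nohom_Ent _ _ _ _ h4] with w hw _ _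
        exact hw
      · filter_upwards [h1] with w hw h2 h3
        exact absurd ⟨h2, h3⟩ hw
    have f4 := rep_coh (j := j) ht hx (hrec l hl) hl.1 hl.2.2.1 hl.2.2.2.1
    have f5 := ht.coh.ext l j
    rw [ev_UL_add] at f1 f2 f3
    filter_upwards [f1, f2, f3, f4, f5, UL_length l] with z a1 a2 a3 a4 a5 a6
    have hz : z ≠ [] := by
      intro e
      rw [e] at a6
      simp at a6
    have a7 := good_kk_ext hz j
    have a8 := ext_drop j z
    -- the values of the entries are eventually constant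
    have b1 : ∀ u < n z, ∃ v, ∀ᶠ w in (ext j z : Filter (List ℕ)), (strOf (s' w)).getD u 0 = v := by
      intro u hu
      have : ∀ᶠ w in (ext j z : Filter (List ℕ)), (strOf (s' w)).getD u 0 < kk z := by
        filter_upwards [a1, a2, a7, a8] with w c1 c2 c3 c4
        rw [c4.1] at c2
        have hlen : u < (strOf (s' w)).length := by
          simp [strOf, c2, hu]
        rw [List.getD_eq_getElem _ _ hlen, ← c3]
        exact ht.bdd w _ c1.2 _ (List.getElem_mem hlen)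
      obtain ⟨v, _, hv⟩ := fin_choice (ext j z) _ _ this
      exact ⟨v, hv⟩
    choose! g hg using b1
    have b2 : ∀ᶠ w in (ext j z : Filter (List ℕ)), ∀ u ∈ Finset.range (n z),
        (strOf (s' w)).getD u 0 = g u := by
      rw [Filter.eventually_all_finset]
      intro u hu
      exact hg u (Finset.mem_range.1 hu)
    have b3 : ∀ᶠ w in (ext j z : Filter (List ℕ)), strOf (s' w) = (List.range (n z)).map g := by
      filter_upwards [b2, a2, a8] with w c1 c2 c4
      rw [c4.1] at c2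
      apply List.ext_getElem
      · simp [strOf, c2]
      · intro i h1 h2
        have hi : i < n z := by simpa using h2
        have := c1 i (Finset.mem_range.2 hi)
        rw [List.getD_eq_getElem _ _ h1] at this
        rw [this]
        simp
    have b4 : ∀ᶠ w in (ext j z : Filter (List ℕ)), ∀ u ∈ Finset.range (n z),
        repS F t x k (fun w => PP l (w.drop j)) w u = repS F t x k (PP l) z u := by
      rw [Filter.eventually_all_finset]
      intro u _
      exact a4 u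
    refine ⟨(List.range (n z)).map g, ?_, by simp, ?_⟩
    · obtain ⟨w, ⟨c1, c2⟩, c3⟩ := ((a1.and b3).and (a5 ((List.range (n z)).map g))).exists
      rw [← c3, ← c2]
      exact c1.2
    · intro u hu hfu
      have hex := ((((a1.and a2).and a3).and a8).and b3).and b4
      obtain ⟨w, ⟨⟨⟨⟨c1, c2⟩, c3⟩, c4⟩, c5⟩, c6⟩ := hex.exists
      have d1 : PP (l + j) w = PP l z := congrArg P0 (hdrop l hl j z w c4.1)
      have d2 : cc (l + j) w = cc l z := congrArg c0 (hdrop l hl j z w c4.1)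
      have d3 : f (l + j) w u = true := by
        have e1 := c6 u (Finset.mem_range.2 hu)
        have e2 : repS F t x k (fun w => PP l (w.drop j)) w u = f (l + j) w u := by
          apply congrFun
          apply nohom_repS
          show PP l (w.drop j) = PP (l + j) w
          rw [c4.1, d1]
        rw [← e2, e1]
        exact hfu
      have d4 := c3 u (by rw [c4.1]; exact hu) d3
      rw [← c5]
      have hlen : u < (strOf (s' w)).length := by simpa [strOf] using d4.1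
      rw [List.getD_eq_getElem _ _ hlen, ← d2, ← d4.2]
      simp [strOf]
  -- the class is alive
  obtain ⟨l, hl, -⟩ := hS 0
  have hal : AliveL (F K0) t x l (fun z => pr (tup [PP l z, cc l z]) 0) := by
    have h1 := comp_model ht hx (thOf .hom) 1 (fun _ => k) (fun _ => k')
      (fun _ => PP l) (fun _ => H) K0 l hK (by
        intro q T X Y' Y'' y hY hmem
        rw [hth] at hmem ⊢
        rw [← hY 0 Nat.one_pos]
        exact hmem) hl.1 (fun _ _ => hl.2.2.1) (fun _ _ => hl.2.2.2.1)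
      (fun _ _ => hrec l hl) [cc l] (fun _ => 0)
    unfold AliveL
    filter_upwards [h1, hB l hl] with z h2 h3
    have e1 : ((List.map (fun _ => PP l) (List.range 1) ++ [cc l]).map (fun a => a z)) =
        [PP l z, cc l z] := rfl
    rw [e1] at h2
    rw [h2]
    obtain ⟨y, hy1, hy2⟩ := nohom_koenig (ht.bdd z) (ht.pre z) (fun u => f l z u = true) (cc l z) h3
    refine ⟨y, hy1, ?_⟩
    refine (hth _ _ _ _ _).2 ?_
    intro u hu
    rw [prl_pr, cmp_tup _ _ (by simp)]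
    exact hy2 u hu
  -- two separated elements
  obtain ⟨j, ξ, hj⟩ := hx.good K0 2 l hl.1 hl.2.2.2.2 _ hal
  obtain ⟨h, hhH, hlt⟩ := hu (mk (l + j) ξ)
  obtain ⟨lh, hlh⟩ := exists_rep_ge h
  obtain ⟨l', hl'S, hl'⟩ := hS (l + j + lh)
  obtain ⟨i, rfl⟩ : ∃ i, l' = l + j + i := ⟨l' - (l + j), by omega⟩
  obtain ⟨h', rfl⟩ := hlh (l + j + i) (by omega)
  rw [← mk_up (l + j) i ξ, mk_lt] at hlt
  rw [hrep _ hl'S] at hhH
  have hcomp := rep_compl ht hx (hrec _ hl'S) hl'S.1 hl'S.2.2.1 hl'S.2.2.2.1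
  obtain ⟨w, ⟨⟨⟨c1, c2⟩, c3⟩, c4⟩, c5⟩ :=
    (((((hj i).and hlt).and hhH).and hcomp).and (UL_length (l + j + i))).exists
  obtain ⟨v, hv, hvp⟩ := c1
  have hd : (w.drop i).drop j = w.drop (i + j) := by rw [List.drop_drop]
  have e1 : PP l (w.drop (i + j)) = PP (l + j + i) w := by
    simp only [PP, List.drop_drop]
    congr 2
    have := hl.2.1
    omega
  have e2 : cc l (w.drop (i + j)) = cc (l + j + i) w := by
    simp only [cc, List.drop_drop]
    congr 2
    have := hl.2.1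
    omega
  have hv' : v ∈ {v : Pt | (t w, x w, v) ∈ sepP 2 (F K0)
      (pr (pr (tup [PP l ((w.drop i).drop j), cc l ((w.drop i).drop j)]) 0) (ξ (w.drop i)))} := hv
  obtain ⟨g1, g2⟩ := hv'
  simp only [prl_pr, prr_pr] at g1 g2
  rw [hd, e1, e2] at g1
  have hY : ∀ j' < 1, ∀ u,
      ((fun _ : ℕ => f (l + j + i) w) j' u = true ↔ alive ((fun _ : ℕ => F k) j'
        (pr (cmp j' (prl (pr (tup [PP (l + j + i) w, cc (l + j + i) w]) 0))) u) : Set Sp)
          (t w) (x w)) ∧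
      ((fun _ : ℕ => f (l + j + i) w) j' u = false ↔ alive ((fun _ : ℕ => F k') j'
        (pr (cmp j' (prl (pr (tup [PP (l + j + i) w, cc (l + j + i) w]) 0))) u) : Set Sp)
          (t w) (x w)) := by
    intro j' hj' u
    obtain rfl : j' = 0 := by omega
    rw [prl_pr, cmp_tup _ _ (by simp)]
    exact c4 u
  have hpt : ∀ b < 2, (sub b v).1 (Nat.pair 0 0) (h' w) = cc (l + j + i) w := by
    intro b hb
    have hm : sub b v ∈ K (compF (thOf .hom) 1 (fun _ => F k) (fun _ => F k')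
        (pr (tup [PP (l + j + i) w, cc (l + j + i) w]) 0) : Set Sp) (t w) (x w) := by
      refine ⟨?_, sub_paths _ _ hvp b⟩
      have := g1 b hb
      rw [hK] at this
      exact this
    obtain ⟨m1, m2⟩ := nohom_comp (thOf .hom) 1 (fun _ => F k) (fun _ => F k') _ (t w) (x w)
      (fun _ => f (l + j + i) w) hY (sub b v) hm
    have m3 := (hth _ _ _ _ _).1 m1 (h' w) (by rw [m2 0 Nat.one_pos]; exact c3)
    rw [m3, prl_pr, cmp_tup _ _ (by simp)]
    rfl
  exact g2 0 (by norm_num) 1 (by norm_num) (by norm_num) (Nat.pair 0 0) (h' w) c2.le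
    (by rw [hpt 0 (by norm_num), hpt 1 (by norm_num)])

end

end Pool.Agent.Lib.H37R
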