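import Pool.Agent.Lib.H37R.MM
import Pool.Agent.Lib.H37R.GoodDef

/-!
# Chunk REC (PROOF.md 4.1, 4.2): the sets of the model coded relative to a good oracle
-/

namespace Pool.Agent.Lib.H37R

open Filter Topology

/-- `F i p` is alive in the whole model -/
def AliveM (F : ℕ → CFam) (t : List ℕ → Tre) (x : List ℕ → Orc) (i : ℕ) (p : MM) : Prop :=
  ∀ l P, p = mk l P → AliveL (F i) t x l P

theorem AliveM_mk {F : ℕ → CFam} {t : List ℕ → Tre} (ht : TreeOK t) {x : List ℕ → Orc}
    (hx : Coh x) (i l : ℕ) (P : List ℕ → ℕ) :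
    AliveM F t x i (mk l P) ↔ AliveU (F i) t x l P := by
  constructor
  · intro h j
    exact h (l + j) (fun w => P (w.drop j)) (mk_up l j P).symm
  · intro h l' P' he
    have h1 := h l'
    rw [← mk_up l l' P, ← mk_up l' l P', add_comm l' l, mk_eq] at he
    apply AliveL.down ht hx (j := l)
    rw [add_comm l' l]
    filter_upwards [he, h1] with w h2 h3
    rwa [h2] at h3

/-- `(i, i', p)` codes the set `Y` relative to `x` -/
def RecC (F : ℕ → CFam) (t : List ℕ → Tre) (x : List ℕ → Orc) (i i' : ℕ) (p : MM) (Y : Set MM) :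
    Prop :=
  ∀ u, (u ∈ Y ↔ AliveM F t x i (pr p u)) ∧ (u ∉ Y ↔ AliveM F t x i' (pr p u))

/-- the fibrewise representation at the level `l` of the set with code `(i, i', mk l P)` -/
noncomputable def repS (F : ℕ → CFam) (t : List ℕ → Tre) (x : List ℕ → Orc) (i : ℕ)
    (P : List ℕ → ℕ) (z : List ℕ) : Orc :=
  open Classical in fun u => decide (alive (F i (pr (P z) u) : Set Sp) (t z) (x z))

/-- REP: at all good levels exactly one of the two classes is alive, a.e., for all `u` -/
theorem rep_compl {F : ℕ → CFam} {t : List ℕ → Tre} (ht : TreeOK t) {x : List ℕ → Orc}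
    {Λ : Set ℕ} {n0 : ℕ → ℕ → ℕ} (h : GoodAt F t x Λ n0) {i i' l : ℕ} {P : List ℕ → ℕ}
    {Y : Set MM} (hY : RecC F t x i i' (mk l P) Y) (hl : l ∈ Λ) (h1 : n0 i 1 ≤ l)
    (h2 : n0 i' 1 ≤ l) :
    ∀ᶠ z in (UL l : Filter (List ℕ)), ∀ u,
      (repS F t x i P z u = true ↔ alive (F i (pr (P z) u) : Set Sp) (t z) (x z)) ∧
      (repS F t x i P z u = false ↔ alive (F i' (pr (P z) u) : Set Sp) (t z) (x z)) := by
  have hx := h.coh
  apply ev_forall_of_choice
  intro u
  have e : pr (mk l P) (mk l u) = mk l (fun z => pr (P z) (u z)) := mk_pr l P u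
  have hu := hY (mk l u)
  rw [e, AliveM_mk ht hx, AliveM_mk ht hx] at hu
  by_cases hm : mk l u ∈ Y
  · have a1 := (hu.1.1 hm).aliveL
    have a2 : ¬ AliveL (F i') t x l (fun z => pr (P z) (u z)) := fun h3 =>
      (hu.2.2 (h.refl ht hl h2 h3)) hm
    unfold AliveL at a1 a2
    rw [← Ultrafilter.eventually_not] at a2
    filter_upwards [a1, a2] with z b1 b2
    refine ⟨by simp [repS], ?_⟩
    simp only [repS, decide_eq_false_iff_not]
    exact ⟨fun h5 => absurd b1 h5, fun h5 => absurd h5 b2⟩
  · have a1 := (hu.2.1 hm).aliveL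
    have a2 : ¬ AliveL (F i) t x l (fun z => pr (P z) (u z)) := fun h3 =>
      hm (hu.1.2 (h.refl ht hl h1 h3))
    unfold AliveL at a1 a2
    rw [← Ultrafilter.eventually_not] at a2
    filter_upwards [a1, a2] with z b1 b2
    refine ⟨by simp [repS], ?_⟩
    simp only [repS, decide_eq_false_iff_not]
    exact ⟨fun _ => b1, fun _ => b2⟩

theorem rep_mem {F : ℕ → CFam} {t : List ℕ → Tre} (ht : TreeOK t) {x : List ℕ → Orc}
    {Λ : Set ℕ} {n0 : ℕ → ℕ → ℕ} (h : GoodAt F t x Λ n0) {i i' l : ℕ} {P : List ℕ → ℕ}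
    {Y : Set MM} (hY : RecC F t x i i' (mk l P) Y) (hl : l ∈ Λ) (h1 : n0 i 1 ≤ l)
    (u : List ℕ → ℕ) :
    mk l u ∈ Y ↔ ∀ᶠ z in (UL l : Filter (List ℕ)), repS F t x i P z (u z) = true := by
  have hx := h.coh
  have e : pr (mk l P) (mk l u) = mk l (fun z => pr (P z) (u z)) := mk_pr l P u
  have hu := (hY (mk l u)).1
  rw [e, AliveM_mk ht hx] at hu
  rw [hu]
  constructor
  · intro h3
    filter_upwards [h3.aliveL] with z hz
    simpa [repS] using hz
  · intro h3
    apply h.refl ht hl h1
    unfold AliveL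
    filter_upwards [h3] with z hz
    simpa [repS] using hz

/-- the representation at a good level agrees with the classes at all higher levels -/
theorem rep_coh {F : ℕ → CFam} {t : List ℕ → Tre} (ht : TreeOK t) {x : List ℕ → Orc}
    {Λ : Set ℕ} {n0 : ℕ → ℕ → ℕ} (h : GoodAt F t x Λ n0) {i i' l j : ℕ} {P : List ℕ → ℕ}
    {Y : Set MM} (hY : RecC F t x i i' (mk l P) Y) (hl : l ∈ Λ)
    (h1 : n0 i 1 ≤ l) (h2 : n0 i' 1 ≤ l) :
    ∀ᶠ z in (UL l : Filter (List ℕ)), ∀ u, ∀ᶠ w in (ext j z : Filter (List ℕ)),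
      repS F t x i (fun w => P (w.drop j)) w u = repS F t x i P z u := by
  have _ := hY
  have _ := h2
  filter_upwards [h.refl_pt ht hl h1 j, alive_down ht h.coh l j] with z a1 a2 u
  by_cases hz : alive (F i (pr (P z) u) : Set Sp) (t z) (x z)
  · filter_upwards [a1 _ hz, ext_drop j z] with w b1 b2
    have e1 : repS F t x i P z u = true := by simpa [repS] using hz
    rw [e1]
    simp only [repS, decide_eq_true_eq]
    rw [b2.1]
    exact b1
  · have a3 : ¬ ∀ᶠ w in (ext j z : Filter (List ℕ)), alive (F i (pr (P z) u) : Set Sp) (t w) (x w) :=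
      fun h5 => hz (a2 _ (F i (pr (P z) u)).isClosed h5)
    rw [← Ultrafilter.eventually_not] at a3
    filter_upwards [a3, ext_drop j z] with w b1 b2
    have e1 : repS F t x i P z u = false := by simpa [repS] using hz
    rw [e1]
    simp only [repS, decide_eq_false_iff_not]
    rw [b2.1]
    exact b1

/-- next good level -/
noncomputable def recNx (S : Set ℕ) (m : ℕ) : ℕ := sInf {n | n ∈ S ∧ m ≤ n}

theorem recNx_mem {S : Set ℕ} (hS : S.Infinite) (m : ℕ) : recNx S m ∈ S ∧ m ≤ recNx S m := by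
  have : {n | n ∈ S ∧ m ≤ n}.Nonempty := by
    obtain ⟨n, h1, h2⟩ := hS.exists_gt m
    exact ⟨n, h1, h2.le⟩
  exact Nat.sInf_mem this

theorem recNx_self {S : Set ℕ} (hS : S.Infinite) {m : ℕ} (hm : m ∈ S) : recNx S m = m :=
  le_antisymm (Nat.sInf_le ⟨hm, le_rfl⟩) (recNx_mem hS m).2

theorem recNx_succ {S : Set ℕ} {m : ℕ} (hm : m ∉ S) : recNx S (m + 1) = recNx S m := by
  unfold recNx
  congr 1
  ext n
  constructor
  · rintro ⟨h1, h2⟩
    exact ⟨h1, by omega⟩
  · rintro ⟨h1, h2⟩
    refine ⟨h1, ?_⟩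
    rcases Nat.lt_or_ge m n with h3 | h3
    · exact h3
    · have : n = m := by omega
      rw [this] at h1
      exact absurd h1 hm

/-- the same as a coherent family on all levels, equal to the representation on the good levels
`≥ l` (below and in between: limits from the next good level) -/
theorem rep_family {F : ℕ → CFam} {t : List ℕ → Tre} (ht : TreeOK t) {x : List ℕ → Orc}
    {Λ : Set ℕ} {n0 : ℕ → ℕ → ℕ} (h : GoodAt F t x Λ n0) {i i' : ℕ} {p : MM}
    {Y : Set MM} (hY : RecC F t x i i' p Y) :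
    ∃ y : List ℕ → Orc, Coh y ∧
      ∀ l u, mk l u ∈ Y ↔ ∀ᶠ z in (UL l : Filter (List ℕ)), y z (u z) = true := by
  classical
  obtain ⟨L, hL⟩ := exists_rep_ge p
  obtain ⟨P, hP⟩ := hL L le_rfl
  let S : Set ℕ := {n | n ∈ Λ ∧ L ≤ n ∧ n0 i 1 ≤ n ∧ n0 i' 1 ≤ n}
  have hS : S.Infinite := by
    have : (Λ \ Set.Iio (L + n0 i 1 + n0 i' 1)).Infinite := h.inf.sdiff (Set.finite_Iio _)
    refine this.mono ?_
    rintro n ⟨h1, h2⟩
    simp only [Set.mem_Iio, not_lt] at h2
    exact ⟨h1, by omega, by omega, by omega⟩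
  let PP : ℕ → List ℕ → ℕ := fun n w => P (w.drop (n - L))
  have hPP : ∀ n ∈ S, p = mk n (PP n) := by
    intro n hn
    have h2 := hn.2.1
    obtain ⟨j, rfl⟩ := Nat.exists_eq_add_of_le h2
    rw [hP, ← mk_up L j P]
    simp only [PP, Nat.add_sub_cancel_left]
  have hYS : ∀ n ∈ S, RecC F t x i i' (mk n (PP n)) Y := by
    intro n hn
    rw [← hPP n hn]
    exact hY
  let lev : List ℕ → ℕ := fun z => z.length - 1
  let y : List ℕ → Orc := fun z u =>
    decide (∀ᶠ w in (ext (recNx S (lev z) - lev z) z : Filter (List ℕ)),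
      repS F t x i (PP (recNx S (lev z))) w u = true)
  have hy : ∀ m z u, z.length = m + 1 → (y z u = true ↔
      ∀ᶠ w in (ext (recNx S m - m) z : Filter (List ℕ)), repS F t x i (PP (recNx S m)) w u = true) := by
    intro m z u hz
    have : lev z = m := by simp only [lev]; omega
    simp only [y, decide_eq_true_eq, this]
  refine ⟨y, ?_, ?_⟩
  · intro m
    by_cases hm : m ∈ S
    · -- good level
      set d := recNx S (m + 1) - m with hd
      have hn := recNx_mem hS (m + 1)
      have hco := rep_coh (j := d) ht h (hYS m hm) hm.1 hm.2.2.1 hm.2.2.2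
      filter_upwards [hco, UL_length m] with z h1 h2
      intro u
      have e2 : ∀ v, (v :: z).length = (m + 1) + 1 := fun v => by simp [h2]
      have e3 : d = (recNx S (m + 1) - (m + 1)) + 1 := by omega
      have h3 := h1 u
      have e4 : ∀ w : List ℕ, PP m (w.drop d) = PP (recNx S (m + 1)) w := by
        intro w
        simp only [PP, List.drop_drop]
        congr 2
        have := hm.2.1
        omega
      have h4 : ∀ᶠ w in (ext d z : Filter (List ℕ)),
          repS F t x i (PP (recNx S (m + 1))) w u = repS F t x i (PP m) z u := by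
        filter_upwards [h3] with w hw
        rw [← hw]
        simp only [repS, e4]
      rw [e3, ev_ext_succ'] at h4
      filter_upwards [h4] with v hv
      rw [Bool.eq_iff_iff, hy (m + 1) (v :: z) u (e2 v), hy m z u h2, recNx_self hS hm,
        Nat.sub_self, ev_ext_zero]
      constructor
      · intro h5
        obtain ⟨w, hw1, hw2⟩ := (hv.and h5).exists
        rw [← hw1, hw2]
      · intro h5
        filter_upwards [hv] with w hw
        rw [hw, h5]
    · filter_upwards [UL_length m] with z h2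
      intro u
      have hn := recNx_mem hS m
      have hne : m ≠ recNx S m := by
        intro h5
        rw [h5] at hm
        exact hm hn.1
      have e2 : ∀ v, (v :: z).length = (m + 1) + 1 := fun v => by simp [h2]
      have e3 : recNx S m - m = (recNx S m - (m + 1)) + 1 := by omega
      have e5 : ∀ v, (y (v :: z) u = true ↔
          ∀ᶠ w in (ext (recNx S m - (m + 1)) (v :: z) : Filter (List ℕ)),
            repS F t x i (PP (recNx S m)) w u = true) := by
        intro v
        rw [hy (m + 1) (v :: z) u (e2 v), recNx_succ hm]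
      have e6 : y z u = true ↔ ∀ᶠ v in (U : Filter ℕ), y (v :: z) u = true := by
        rw [hy m z u h2, e3, ev_ext_succ']
        exact Filter.eventually_congr (Eventually.of_forall (fun v => (e5 v).symm))
      by_cases hc : y z u = true
      · rw [hc]
        exact e6.1 hc
      · have h6 : ¬ ∀ᶠ v in (U : Filter ℕ), y (v :: z) u = true := fun h7 => hc (e6.2 h7)
        rw [← Ultrafilter.eventually_not] at h6
        filter_upwards [h6] with v hv
        rw [Bool.not_eq_true] at hv hc
        rw [hv, hc]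
  · intro m u
    have hn := recNx_mem hS m
    have e1 : m + (recNx S m - m) = recNx S m := by omega
    have h1 : mk m u = mk (recNx S m) (fun w => u (w.drop (recNx S m - m))) := by
      have := mk_up m (recNx S m - m) u
      rw [e1] at this
      exact this.symm
    rw [h1, rep_mem ht h (hYS _ hn.1) hn.1.1 hn.1.2.2.1]
    have h3 := ev_UL_add m (recNx S m - m) (fun w => repS F t x i (PP (recNx S m)) w
      (u (w.drop (recNx S m - m))) = true)
    rw [e1] at h3
    rw [h3]
    constructor
    · intro h4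
      filter_upwards [h4, UL_length m] with z b1 b2
      rw [hy m z _ b2]
      filter_upwards [b1, ext_drop (recNx S m - m) z] with w c1 c2
      rwa [c2.1] at c1
    · intro h4
      filter_upwards [h4, UL_length m] with z b1 b2
      rw [hy m z _ b2] at b1
      filter_upwards [b1, ext_drop (recNx S m - m) z] with w c1 c2
      rwa [c2.1]

/-- COMP, inside one fibre: the class `compF` is alive iff the sets have the property `θ` -/
theorem comp_alive (θ : Th) (m : ℕ) (D D' : ℕ → CFam) (q : ℕ) (T : Tre) (X : Orc)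
    (hT : ∃ y, IsPath T y) (Y : ℕ → Orc)
    (hY : ∀ j < m, ∀ u,
      (Y j u = true ↔ alive (D j (pr (cmp j (prl q)) u) : Set Sp) T X) ∧
      (Y j u = false ↔ alive (D' j (pr (cmp j (prl q)) u) : Set Sp) T X))
    (hθ : ∀ (Y' Y'' : ℕ → Orc) (y : ℕ → ℕ), (∀ j < m, Y' j = Y'' j) →
      ((T, X, Y', y) ∈ (θ q : Set _) → (T, X, Y'', y) ∈ (θ q : Set _))) :
    alive (compF θ m D D' q : Set Sp) T X ↔ ∃ y, IsPath T y ∧ (T, X, Y, y) ∈ (θ q : Set _) := by
  classical
  constructor
  · rintro ⟨w, hw, hp⟩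
    have hw1 : (T, X, bts w, (sub 0 w).1 0) ∈ (θ q : Set _) := hw.1
    have hw2 : ∀ j < m, ∀ u, (bts w j u = true →
        (T, X, sub (1 + Nat.pair j u) w) ∈ (D j (pr (cmp j (prl q)) u) : Set Sp)) ∧
      (bts w j u = false →
        (T, X, sub (1 + Nat.pair j u) w) ∈ (D' j (pr (cmp j (prl q)) u) : Set Sp)) := hw.2
    refine ⟨(sub 0 w).1 0, sub_paths T w hp 0 0, ?_⟩
    refine hθ _ _ _ ?_ hw1
    intro j hj
    funext u
    cases hb : bts w j u with
    | true =>
      exact ((hY j hj u).1.2 ⟨_, (hw2 j hj u).1 hb, sub_paths T w hp _⟩).symm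
    | false =>
      exact ((hY j hj u).2.2 ⟨_, (hw2 j hj u).2 hb, sub_paths T w hp _⟩).symm
  · rintro ⟨y, hy, hth⟩
    have hex : ∀ j u, ∃ v : Pt, (∀ q, IsPath T (v.1 q)) ∧ (j < m →
        (Y j u = true → (T, X, v) ∈ (D j (pr (cmp j (prl q)) u) : Set Sp)) ∧
        (Y j u = false → (T, X, v) ∈ (D' j (pr (cmp j (prl q)) u) : Set Sp))) := by
      intro j u
      by_cases hj : j < m
      · cases hb : Y j u with
        | true =>
          obtain ⟨v, h1, h2⟩ := (hY j hj u).1.1 hb
          exact ⟨v, h2, fun _ => ⟨fun _ => h1, fun h => absurd h (by simp)⟩⟩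
        | false =>
          obtain ⟨v, h1, h2⟩ := (hY j hj u).2.1 hb
          exact ⟨v, h2, fun _ => ⟨fun h => absurd h (by simp), fun _ => h1⟩⟩
      · exact ⟨(fun _ => y, fun _ => false), fun _ => hy, fun h => absurd h hj⟩
    choose v hv1 hv2 using hex
    let f : ℕ → Pt := fun n => if n = 0 then (fun _ => y, fun n => Y n.unpair.1 n.unpair.2)
      else v (n - 1).unpair.1 (n - 1).unpair.2
    have hf0 : f 0 = (fun _ => y, fun n => Y n.unpair.1 n.unpair.2) := rfl
    have hf1 : ∀ j u, f (1 + Nat.pair j u) = v j u := by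
      intro j u
      have : 1 + Nat.pair j u ≠ 0 := by omega
      simp only [f, if_neg this, Nat.add_sub_cancel_left, Nat.unpair_pair]
    have hb : bts (glue f) = Y := by
      funext j u
      simp only [bts, sub_glue, hf0, Nat.unpair_pair]
    refine ⟨glue f, ?_, ?_⟩
    · show (T, X, glue f) ∈ compP θ m D D' q
      refine ⟨?_, ?_⟩
      · show (T, X, bts (glue f), (sub 0 (glue f)).1 0) ∈ (θ q : Set _)
        rw [hb, sub_glue, hf0]
        exact hth
      · intro j hj u
        show (bts (glue f) j u = true →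
            (T, X, sub (1 + Nat.pair j u) (glue f)) ∈ (D j (pr (cmp j (prl q)) u) : Set Sp)) ∧
          (bts (glue f) j u = false →
            (T, X, sub (1 + Nat.pair j u) (glue f)) ∈ (D' j (pr (cmp j (prl q)) u) : Set Sp))
        rw [hb, sub_glue, hf1]
        exact hv2 j u hj
    · apply glue_paths
      intro n q
      by_cases hn : n = 0
      · subst hn
        rw [hf0]
        exact hy
      · simp only [f, if_neg hn]
        exact hv1 _ _ q

/-- tuples in the model -/
noncomputable def tupM : List MM → MM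
  | [] => 0
  | a :: L => pr a (tupM L)

theorem tupM_mk (l : ℕ) (L : List (List ℕ → ℕ)) :
    tupM (L.map (mk l)) = mk l (fun z => tup (L.map (fun f => f z))) := by
  induction L with
  | nil => exact mk_zero l
  | cons a L ih =>
    rw [List.map_cons, tupM, ih, mk_pr]
    rfl

/-- COMP at the level of the model.  The sets `Y j`, `j < m`, have codes `(f j, g j, p j)`; the
class `compF θ` with parameter `pr (tupM (p 0, ..., p (m-1), further parameters)) u`. -/
theorem comp_model {F : ℕ → CFam} {t : List ℕ → Tre} (ht : TreeOK t) {x : List ℕ → Orc}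
    {Λ : Set ℕ} {n0 : ℕ → ℕ → ℕ} (h : GoodAt F t x Λ n0) (θ : Th) (m : ℕ) (f g : ℕ → ℕ)
    (P : ℕ → List ℕ → ℕ) (Y : ℕ → Set MM) (i l : ℕ)
    (hi : F i = compF θ m (fun j => F (f j)) (fun j => F (g j)))
    (hθ : ∀ (q : ℕ) (T : Tre) (X : Orc) (Y' Y'' : ℕ → Orc) (y : ℕ → ℕ), (∀ j < m, Y' j = Y'' j) →
      ((T, X, Y', y) ∈ (θ q : Set _) → (T, X, Y'', y) ∈ (θ q : Set _)))
    (hl : l ∈ Λ) (hlf : ∀ j < m, n0 (f j) 1 ≤ l) (hlg : ∀ j < m, n0 (g j) 1 ≤ l)
    (hY : ∀ j < m, RecC F t x (f j) (g j) (mk l (P j)) (Y j))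
    (Q : List (List ℕ → ℕ)) (u : List ℕ → ℕ) :
    (∀ᶠ z in (UL l : Filter (List ℕ)),
      (alive (F i (pr (tup (((List.range m).map P ++ Q).map (fun a => a z))) (u z)) : Set Sp)
          (t z) (x z) ↔
        ∃ y, IsPath (t z) y ∧ (t z, x z, (fun j => repS F t x (f j) (P j) z), y) ∈
          (θ (pr (tup (((List.range m).map P ++ Q).map (fun a => a z))) (u z)) : Set _))) := by
  have hall : ∀ᶠ z in (UL l : Filter (List ℕ)), ∀ j ∈ Finset.range m, ∀ u,
      (repS F t x (f j) (P j) z u = true ↔ alive (F (f j) (pr (P j z) u) : Set Sp) (t z) (x z)) ∧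
      (repS F t x (f j) (P j) z u = false ↔ alive (F (g j) (pr (P j z) u) : Set Sp) (t z) (x z)) := by
    rw [Filter.eventually_all_finset]
    intro j hj
    have hj' := Finset.mem_range.1 hj
    exact rep_compl ht h (hY j hj') hl (hlf j hj') (hlg j hj')
  filter_upwards [hall, ht.path l] with z h1 h2
  rw [hi]
  apply comp_alive
  · exact h2
  · intro j hj v
    have e : cmp j (prl (pr (tup (((List.range m).map P ++ Q).map (fun a => a z))) (u z))) = P j z := by
      rw [prl_pr, cmp_tup _ _ (by simp; omega)]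
      rw [List.map_append, List.getD_append _ _ _ _ (by simpa using hj)]
      simp [List.getD, hj]
    rw [e]
    exact h1 j (Finset.mem_range.2 hj) v
  · intro Y' Y'' y hj
    exact hθ _ _ _ Y' Y'' y hj

/-- sets coded relative to `x` are coded relative to `join x g` -/
theorem RecC_left {Θ : ℕ → Th} {F : ℕ → CFam} (hF : OpsClosed Θ F) {t : List ℕ → Tre}
    (x g : List ℕ → Orc) (i i' : ℕ) :
    ∃ j j', ∀ p Y, RecC F t x i i' p Y → RecC F t (fun z => join (x z) (g z)) j j' p Y := by
  obtain ⟨j, hj⟩ := hF.left i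
  obtain ⟨j', hj'⟩ := hF.left i'
  have key : ∀ (a b : ℕ), F b = leftF (F a) → ∀ q,
      AliveM F t (fun z => join (x z) (g z)) b q ↔ AliveM F t x a q := by
    intro a b hab q
    have h2 : ∀ (n : ℕ) (T : Tre) (X G : Orc),
        alive (F b n : Set Sp) T (join X G) ↔ alive (F a n : Set Sp) T X := by
      intro n T X G
      rw [hab]
      have h3 : K (leftF (F a) n : Set Sp) T (join X G) = K (F a n : Set Sp) T X := by
        ext w
        show ((T, lft (join X G), w) ∈ (F a n : Set Sp) ∧ _) ↔ _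
        rw [lft_join]
        rfl
      unfold alive
      rw [h3]
    unfold AliveM AliveL
    simp only [h2]
  refine ⟨j, j', ?_⟩
  intro p Y hY u
  rw [key i j hj, key i' j' hj']
  exact hY u

end Pool.Agent.Lib.H37R
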