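import Pool.Agent.Lib.H37R.Theta
import Pool.Agent.Lib.H37R.Los
import Pool.Agent.Lib.H37R.Rec

/-!
# Chunk RCAM: Sigma1 induction and Delta1 comprehension in MM (PROOF.md 4.4)
-/

namespace Pool.Agent.Lib.H37R

open Filter Topology

/-- bound for the number variables of a term -/
def rcamTb : Tm → ℕ
  | .var i => i + 1
  | .zero => 0
  | .one => 0
  | .add s t => max (rcamTb s) (rcamTb t)
  | .mul s t => max (rcamTb s) (rcamTb t)

/-- bound for the number variables of a formula -/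
def rcamFb : Fm → ℕ
  | .eq s t => max (rcamTb s) (rcamTb t)
  | .lt s t => max (rcamTb s) (rcamTb t)
  | .mem s _ => rcamTb s
  | .neg φ => rcamFb φ
  | .and φ ψ => max (rcamFb φ) (rcamFb ψ)
  | .ball _ t φ => max (rcamTb t) (rcamFb φ)
  | .all _ φ => rcamFb φ

theorem rcam_ev {M : Type*} [Zero M] [One M] [Add M] [Mul M] (s : Tm) (v v' : ℕ → M)
    (h : ∀ n < rcamTb s, v n = v' n) : s.ev v = s.ev v' := by
  induction s with
  | var i => exact h i (Nat.lt_succ_self i)
  | zero => rfl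
  | one => rfl
  | add s t hs ht =>
    have h1 := hs (fun n hn => h n (lt_of_lt_of_le hn (le_max_left _ _)))
    have h2 := ht (fun n hn => h n (lt_of_lt_of_le hn (le_max_right _ _)))
    simp only [Tm.ev, h1, h2]
  | mul s t hs ht =>
    have h1 := hs (fun n hn => h n (lt_of_lt_of_le hn (le_max_left _ _)))
    have h2 := ht (fun n hn => h n (lt_of_lt_of_le hn (le_max_right _ _)))
    simp only [Tm.ev, h1, h2]

theorem rcam_update {M : Type*} {N : ℕ} {v v' : ℕ → M} (h : ∀ n < N, v n = v' n) (i : ℕ) (a : M) :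
    ∀ n < N, Function.update v i a n = Function.update v' i a n := by
  intro n hn
  by_cases hi : n = i
  · subst hi; simp
  · simp only [Function.update_of_ne hi]; exact h n hn

theorem rcam_sat {M : Type*} [Zero M] [One M] [Add M] [Mul M] [LT M] (V : ℕ → Set M) (φ : Fm) :
    ∀ (v v' : ℕ → M), (∀ n < rcamFb φ, v n = v' n) → (φ.sat V v ↔ φ.sat V v') := by
  induction φ with
  | eq s t =>
    intro v v' h
    have h1 := rcam_ev s v v' (fun n hn => h n (lt_of_lt_of_le hn (le_max_left _ _)))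
    have h2 := rcam_ev t v v' (fun n hn => h n (lt_of_lt_of_le hn (le_max_right _ _)))
    simp only [Fm.sat, h1, h2]
  | lt s t =>
    intro v v' h
    have h1 := rcam_ev s v v' (fun n hn => h n (lt_of_lt_of_le hn (le_max_left _ _)))
    have h2 := rcam_ev t v v' (fun n hn => h n (lt_of_lt_of_le hn (le_max_right _ _)))
    simp only [Fm.sat, h1, h2]
  | mem s n =>
    intro v v' h
    have h1 := rcam_ev s v v' h
    simp only [Fm.sat, h1]
  | neg φ ih =>
    intro v v' h
    simp only [Fm.sat, ih v v' h]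
  | and φ ψ ih1 ih2 =>
    intro v v' h
    simp only [Fm.sat, ih1 v v' (fun n hn => h n (lt_of_lt_of_le hn (le_max_left _ _))),
      ih2 v v' (fun n hn => h n (lt_of_lt_of_le hn (le_max_right _ _)))]
  | ball i t φ ih =>
    intro v v' h
    have h1 := rcam_ev t v v' (fun n hn => h n (lt_of_lt_of_le hn (le_max_left _ _)))
    simp only [Fm.sat, h1]
    exact forall_congr' (fun a => imp_congr Iff.rfl (ih _ _ (rcam_update
      (fun n hn => h n (lt_of_lt_of_le hn (le_max_right _ _))) i a)))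
  | all i φ ih =>
    intro v v' h
    simp only [Fm.sat]
    exact forall_congr' (fun a => ih _ _ (rcam_update h i a))

theorem rcam_sat_set {M : Type*} [Zero M] [One M] [Add M] [Mul M] [LT M] (m : ℕ)
    (V V' : ℕ → Set M) (hV : ∀ n < m, V n = V' n) (φ : Fm) :
    φ.setLt m → ∀ (v : ℕ → M), (φ.sat V v ↔ φ.sat V' v) := by
  induction φ with
  | eq s t => intro _ v; exact Iff.rfl
  | lt s t => intro _ v; exact Iff.rfl
  | mem s n =>
    intro h v
    simp only [Fm.sat, hV n h]
  | neg φ ih =>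
    intro h v
    simp only [Fm.sat, ih h v]
  | and φ ψ ih1 ih2 =>
    intro h v
    simp only [Fm.sat, ih1 h.1 v, ih2 h.2 v]
  | ball i t φ ih =>
    intro h v
    simp only [Fm.sat]
    exact forall_congr' (fun a => imp_congr Iff.rfl (ih h _))
  | all i φ ih =>
    intro h v
    simp only [Fm.sat]
    exact forall_congr' (fun a => ih h _)

section
variable {Θ : ℕ → Th} {F : ℕ → CFam} {t : List ℕ → Tre} {x : List ℕ → Orc}

/-- all relevant objects are represented at the level `l` -/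
structure RcamRep (Λ : Set ℕ) (n0 : ℕ → ℕ → ℕ) (m N : ℕ) (f g : ℕ → ℕ) (k : ℕ) (p v : ℕ → MM)
    (l : ℕ) (P W : ℕ → List ℕ → ℕ) : Prop where
  hl : l ∈ Λ
  hf : ∀ j < m, n0 (f j) 1 ≤ l
  hg : ∀ j < m, n0 (g j) 1 ≤ l
  hk : n0 k 1 ≤ l
  hP : ∀ n < m, p n = mk l (P n)
  hW : ∀ n < N, v n = mk l (W n)

theorem rcam_exists_rep {Λ : Set ℕ} (n0 : ℕ → ℕ → ℕ) (m N : ℕ) (f g : ℕ → ℕ)
    (k : ℕ) (p v : ℕ → MM) :
    ∃ L0, ∀ l, L0 ≤ l → l ∈ Λ → ∃ P W, RcamRep Λ n0 m N f g k p v l P W := by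
  choose r hr using exists_rep_ge
  refine ⟨(Finset.range m).sup (fun j => n0 (f j) 1) + (Finset.range m).sup (fun j => n0 (g j) 1)
    + n0 k 1 + (Finset.range m).sup (fun n => r (p n)) + (Finset.range N).sup (fun n => r (v n)),
    fun l hL hl => ?_⟩
  have h1 : ∀ j < m, n0 (f j) 1 ≤ (Finset.range m).sup (fun j => n0 (f j) 1) := fun j hj =>
    Finset.le_sup (f := fun j => n0 (f j) 1) (Finset.mem_range.2 hj)
  have h2 : ∀ j < m, n0 (g j) 1 ≤ (Finset.range m).sup (fun j => n0 (g j) 1) := fun j hj =>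
    Finset.le_sup (f := fun j => n0 (g j) 1) (Finset.mem_range.2 hj)
  have h3 : ∀ j < m, r (p j) ≤ (Finset.range m).sup (fun n => r (p n)) := fun j hj =>
    Finset.le_sup (f := fun n => r (p n)) (Finset.mem_range.2 hj)
  have h4 : ∀ j < N, r (v j) ≤ (Finset.range N).sup (fun n => r (v n)) := fun j hj =>
    Finset.le_sup (f := fun n => r (v n)) (Finset.mem_range.2 hj)
  have hp : ∀ n, ∃ a, n < m → p n = mk l a := by
    intro n
    by_cases hn : n < m
    · obtain ⟨a, ha⟩ := hr (p n) l (by have := h3 n hn; omega)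
      exact ⟨a, fun _ => ha⟩
    · exact ⟨fun _ => 0, fun h => absurd h hn⟩
  have hv : ∀ n, ∃ a, n < N → v n = mk l a := by
    intro n
    by_cases hn : n < N
    · obtain ⟨a, ha⟩ := hr (v n) l (by have := h4 n hn; omega)
      exact ⟨a, fun _ => ha⟩
    · exact ⟨fun _ => 0, fun h => absurd h hn⟩
  choose P hP using hp
  choose W hW using hv
  exact ⟨P, W, hl, fun j hj => by have := h1 j hj; omega, fun j hj => by have := h2 j hj; omega,
    by omega, hP, hW⟩

/-- the value of the formula in the fibre `z` -/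
def rcamS (F : ℕ → CFam) (t : List ℕ → Tre) (x : List ℕ → Orc) (f : ℕ → ℕ) (P W : ℕ → List ℕ → ℕ)
    (φ : Fm) (i j : ℕ) (z : List ℕ) (c b : ℕ) : Prop :=
  φ.sat (fun n => {d | repS F t x (f n) (P n) z d = true}) (upd (fun n => W n z) i c j b)

theorem rcam_los (ht : TreeOK t) {Λ : Set ℕ} {n0 : ℕ → ℕ → ℕ} (h : GoodAt F t x Λ n0)
    {m N : ℕ} {f g : ℕ → ℕ} {k : ℕ} {p v : ℕ → MM} {l : ℕ} {P W : ℕ → List ℕ → ℕ}
    (hr : RcamRep Λ n0 m N f g k p v l P W) {V : ℕ → Set MM}
    (hV : ∀ n < m, RecC F t x (f n) (g n) (p n) (V n))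
    (φ : Fm) (hφ : φ.D0) (hm : φ.setLt m) (hN : rcamFb φ ≤ N) (i j : ℕ) (u B : List ℕ → ℕ) :
    φ.sat V (upd v i (mk l u) j (mk l B)) ↔
      ∀ᶠ z in (UL l : Filter (List ℕ)), rcamS F t x f P W φ i j z (u z) (B z) := by
  have h1 : φ.sat V (upd v i (mk l u) j (mk l B)) ↔
      φ.sat V (fun n => mk l (fun z => upd (fun n => W n z) i (u z) j (B z) n)) := by
    apply rcam_sat
    intro n hn
    by_cases hj : n = j
    · subst hj; simp [upd]
    · by_cases hi : n = i
      · subst hi; simp [upd, hj]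
      · simp only [upd, Function.update_of_ne hj, Function.update_of_ne hi]
        exact hr.hW n (lt_of_lt_of_le hn hN)
  rw [h1]
  exact los' l m V (fun n z => {d | repS F t x (f n) (P n) z d = true})
    (fun n hn u' => by
      have h2 := hV n hn
      rw [hr.hP n hn] at h2
      exact rep_mem ht h h2 hr.hl (hr.hf n hn) u') φ hφ hm _

/-- the parameter -/
noncomputable def rcamPar (m N : ℕ) (p v : ℕ → MM) : MM :=
  tupM ((List.range m).map p ++ (List.range N).map v)

theorem rcam_alive (ht : TreeOK t) {Λ : Set ℕ} {n0 : ℕ → ℕ → ℕ} (h : GoodAt F t x Λ n0)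
    {m N : ℕ} {f g : ℕ → ℕ} {k : ℕ} {p v : ℕ → MM} {l : ℕ} {P W : ℕ → List ℕ → ℕ}
    (hr : RcamRep Λ n0 m N f g k p v l P W) {V : ℕ → Set MM}
    (hV : ∀ n < m, RecC F t x (f n) (g n) (p n) (V n))
    (φ : Fm) (hφ : φ.D0) (hm : φ.setLt m) (hN : rcamFb φ ≤ N) (i j : ℕ)
    (hk : F k = compF (thOf (.fm φ i j m)) m (fun j => F (f j)) (fun j => F (g j)))
    (u : List ℕ → ℕ) :
    (∀ᶠ z in (UL l : Filter (List ℕ)), ∀ b : ℕ, ¬ rcamS F t x f P W φ i j z (u z) b) ↔
      AliveM F t x k (pr (rcamPar m N p v) (mk l u)) := by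
  have e1 : rcamPar m N p v = mk l (fun z =>
      tup (((List.range m).map P ++ (List.range N).map W).map (fun a => a z))) := by
    rw [← tupM_mk]
    unfold rcamPar
    congr 1
    rw [List.map_append, List.map_map, List.map_map]
    congr 1
    · apply List.map_congr_left
      intro n hn
      exact hr.hP n (List.mem_range.1 hn)
    · apply List.map_congr_left
      intro n hn
      exact hr.hW n (List.mem_range.1 hn)
  rw [e1, mk_pr, AliveM_mk ht h.coh]
  have hY : ∀ j < m, RecC F t x (f j) (g j) (mk l (P j)) (V j) := by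
    intro n hn
    have h2 := hV n hn
    rw [hr.hP n hn] at h2
    exact h2
  have hθ : ∀ (q : ℕ) (T : Tre) (X : Orc) (Y' Y'' : ℕ → Orc) (y : ℕ → ℕ),
      (∀ j < m, Y' j = Y'' j) →
      ((T, X, Y', y) ∈ (thOf (.fm φ i j m) q : Set _) →
        (T, X, Y'', y) ∈ (thOf (.fm φ i j m) q : Set _)) := by
    intro q T X Y' Y'' y hYY hmem
    have hmem' : φ.D0 ∧ ∀ b : ℕ, ¬ φ.sat (fun n => {u | Y' n u = true})
      (upd (fun n => cmp (m + n) (prl q)) i (prr q) j b) := hmem
    show φ.D0 ∧ ∀ b : ℕ, ¬ φ.sat (fun n => {u | Y'' n u = true})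
      (upd (fun n => cmp (m + n) (prl q)) i (prr q) j b)
    refine ⟨hmem'.1, fun b hb => hmem'.2 b ?_⟩
    refine (rcam_sat_set m _ _ ?_ φ hm _).2 hb
    intro n hn
    show {u | Y' n u = true} = {u | Y'' n u = true}
    rw [hYY n hn]
  have hc := comp_model ht h (thOf (.fm φ i j m)) m f g P V k l hk hθ hr.hl hr.hf hr.hg hY
    ((List.range N).map W) u
  have key : ∀ z : List ℕ, (∃ y, IsPath (t z) y) →
      (alive (F k (pr (tup (((List.range m).map P ++ (List.range N).map W).map (fun a => a z)))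
          (u z)) : Set Sp) (t z) (x z) ↔
        ∃ y, IsPath (t z) y ∧ (t z, x z, (fun j => repS F t x (f j) (P j) z), y) ∈
          (thOf (.fm φ i j m) (pr (tup (((List.range m).map P ++
            (List.range N).map W).map (fun a => a z))) (u z)) : Set _)) →
      (alive (F k (pr (tup (((List.range m).map P ++ (List.range N).map W).map (fun a => a z)))
          (u z)) : Set Sp) (t z) (x z) ↔
        ∀ b : ℕ, ¬ rcamS F t x f P W φ i j z (u z) b) := by
    intro z hz hiff
    rw [hiff]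
    have hmem : ∀ y : ℕ → ℕ, ((t z, x z, (fun j => repS F t x (f j) (P j) z), y) ∈
          (thOf (.fm φ i j m) (pr (tup (((List.range m).map P ++
            (List.range N).map W).map (fun a => a z))) (u z)) : Set _)) ↔
        ∀ b : ℕ, ¬ rcamS F t x f P W φ i j z (u z) b := by
      intro y
      have hsat : ∀ b : ℕ, (φ.sat (fun n => {d | repS F t x (f n) (P n) z d = true})
          (upd (fun n => cmp (m + n) (prl (pr (tup (((List.range m).map P ++
            (List.range N).map W).map (fun a => a z))) (u z)))) i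
            (prr (pr (tup (((List.range m).map P ++
            (List.range N).map W).map (fun a => a z))) (u z))) j b)) ↔
          rcamS F t x f P W φ i j z (u z) b := by
        intro b
        unfold rcamS
        rw [prl_pr, prr_pr]
        apply rcam_sat
        intro n hn
        have hnN : n < N := lt_of_lt_of_le hn hN
        unfold upd
        apply rcam_update (N := N) _ _ _ n hnN
        intro n hnN
        apply rcam_update (N := N) _ _ _ n hnN
        intro n hnN
        show cmp (m + n) (tup (((List.range m).map P ++ (List.range N).map W).map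
          (fun a => a z))) = W n z
        rw [cmp_tup _ _ (by simp; omega)]
        rw [List.getD_eq_getElem?_getD, List.getElem?_map, List.getElem?_append_right (by simp)]
        simp [hnN]
      constructor
      · intro hmem b hb
        have hmem' : φ.D0 ∧ ∀ b : ℕ, ¬ φ.sat (fun n => {d | repS F t x (f n) (P n) z d = true})
          (upd (fun n => cmp (m + n) (prl (pr (tup (((List.range m).map P ++
            (List.range N).map W).map (fun a => a z))) (u z)))) i
            (prr (pr (tup (((List.range m).map P ++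
            (List.range N).map W).map (fun a => a z))) (u z))) j b) := hmem
        exact hmem'.2 b ((hsat b).2 hb)
      · intro hb
        show φ.D0 ∧ ∀ b : ℕ, ¬ φ.sat (fun n => {d | repS F t x (f n) (P n) z d = true})
          (upd (fun n => cmp (m + n) (prl (pr (tup (((List.range m).map P ++
            (List.range N).map W).map (fun a => a z))) (u z)))) i
            (prr (pr (tup (((List.range m).map P ++
            (List.range N).map W).map (fun a => a z))) (u z))) j b)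
        exact ⟨hφ, fun b hb' => hb b ((hsat b).1 hb')⟩
    constructor
    · rintro ⟨y, _, hy⟩
      exact (hmem y).1 hy
    · intro hb
      obtain ⟨y, hy⟩ := hz
      exact ⟨y, hy, (hmem y).2 hb⟩
  have hL : AliveL (F k) t x l (fun z => pr (tup (((List.range m).map P ++
      (List.range N).map W).map (fun a => a z))) (u z)) ↔
      ∀ᶠ z in (UL l : Filter (List ℕ)), ∀ b : ℕ, ¬ rcamS F t x f P W φ i j z (u z) b := by
    unfold AliveL
    constructor
    · intro hA
      filter_upwards [hA, hc, ht.path l] with z h1 h2 h3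
      exact (key z h3 h2).1 h1
    · intro hA
      filter_upwards [hA, hc, ht.path l] with z h1 h2 h3
      exact (key z h3 h2).2 h1
  rw [← hL]
  exact ⟨fun hA => h.refl ht hr.hl hr.hk hA, fun hA => hA.aliveL⟩

/-- PI1: the sets defined by a universal formula are coded, and can be read off in the fibres -/
theorem rcam_pi1 (ht : TreeOK t) {Λ : Set ℕ} {n0 : ℕ → ℕ → ℕ} (h : GoodAt F t x Λ n0)
    {m N : ℕ} {f g : ℕ → ℕ} {k : ℕ} {p v : ℕ → MM} {V : ℕ → Set MM}
    (hV : ∀ n < m, RecC F t x (f n) (g n) (p n) (V n))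
    (φ : Fm) (hφ : φ.D0) (hm : φ.setLt m) (hN : rcamFb φ ≤ N) (i j : ℕ)
    (hk : F k = compF (thOf (.fm φ i j m)) m (fun j => F (f j)) (fun j => F (g j)))
    (u : MM) :
    (∀ b, ¬ φ.sat V (upd v i u j b)) ↔ AliveM F t x k (pr (rcamPar m N p v) u) := by
  obtain ⟨L0, hL0⟩ := rcam_exists_rep (Λ := Λ) n0 m N f g k p v
  obtain ⟨L1, hL1⟩ := exists_rep_ge u
  constructor
  · intro hb
    obtain ⟨l, hlΛ, hl⟩ := h.inf.exists_gt (L0 + L1)
    obtain ⟨P, W, hr⟩ := hL0 l (by omega) hlΛ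
    obtain ⟨U', hU'⟩ := hL1 l (by omega)
    subst hU'
    rw [← rcam_alive ht h hr hV φ hφ hm hN i j hk U']
    apply ev_forall_of_choice
    intro B
    rw [Ultrafilter.eventually_not]
    rw [← rcam_los ht h hr hV φ hφ hm hN i j U' B]
    exact hb (mk l B)
  · intro hA b hb
    obtain ⟨L2, hL2⟩ := exists_rep_ge b
    obtain ⟨l, hlΛ, hl⟩ := h.inf.exists_gt (L0 + L1 + L2)
    obtain ⟨P, W, hr⟩ := hL0 l (by omega) hlΛ
    obtain ⟨U', hU'⟩ := hL1 l (by omega)
    obtain ⟨B, hB⟩ := hL2 l (by omega)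
    subst hU'
    subst hB
    rw [rcam_los ht h hr hV φ hφ hm hN i j U' B] at hb
    rw [← rcam_alive ht h hr hV φ hφ hm hN i j hk U'] at hA
    obtain ⟨z, h1, h2⟩ := (hb.and hA).exists
    exact h2 (B z) h1

/-- index of the class -/
theorem rcam_index (hΘ : ∀ c : ThC, ∃ a, Θ a = thOf c) (hF : OpsClosed Θ F) (c : ThC) (m : ℕ)
    (f g : ℕ → ℕ) :
    ∃ k, F k = compF (thOf c) m (fun j => F (f j)) (fun j => F (g j)) := by
  obtain ⟨a, ha⟩ := hΘ c
  obtain ⟨k, hk⟩ := hF.comp a m f g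
  exact ⟨k, by rw [hk, ha]⟩

/-- CHUNK RCAM -/
theorem sigma_ind_MM (hΘ : ∀ c : ThC, ∃ a, Θ a = thOf c) (hF : OpsClosed Θ F) (ht : TreeOK t)
    {x : List ℕ → Orc} (hx : Good F t x) (φ : Fm) (hφ : φ.D0) (i j : ℕ) (v : ℕ → MM)
    (V : ℕ → Set MM) (hV : ∀ n, ∃ i i' p, RecC F t x i i' p (V n))
    (h0 : ∃ b, φ.sat V (upd v i 0 j b))
    (h1 : ∀ a, (∃ b, φ.sat V (upd v i a j b)) → ∃ b, φ.sat V (upd v i (a + 1) j b)) :
    ∀ a, ∃ b, φ.sat V (upd v i a j b) := by
  obtain ⟨Λ, n0, h⟩ := hx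
  choose f g p hfg using hV
  obtain ⟨m, hm⟩ := Fm.exists_setLt φ
  obtain ⟨k, hk⟩ := rcam_index hΘ hF (.fm φ i j m) m f g
  have hm' : φ.setLt m := hm m le_rfl
  have hV' : ∀ n < m, RecC F t x (f n) (g n) (p n) (V n) := fun n _ => hfg n
  intro a
  by_contra hcon
  have hcon' : ∀ b, ¬ φ.sat V (upd v i a j b) := fun b hb => hcon ⟨b, hb⟩
  obtain ⟨L0, hL0⟩ := rcam_exists_rep (Λ := Λ) n0 m (rcamFb φ) f g k p v
  obtain ⟨L1, hL1⟩ := exists_rep_ge a
  obtain ⟨l, hlΛ, hl⟩ := h.inf.exists_gt (L0 + L1)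
  obtain ⟨P, W, hr⟩ := hL0 l (by omega) hlΛ
  obtain ⟨A, hA⟩ := hL1 l (by omega)
  subst hA
  rw [rcam_pi1 ht h hV' φ hφ hm' le_rfl i j hk, ← rcam_alive ht h hr hV' φ hφ hm' le_rfl i j hk A]
    at hcon'
  -- the least element
  classical
  let S : List ℕ → ℕ → Prop := fun z c => ∀ b : ℕ, ¬ rcamS F t x f P W φ i j z c b
  let C : List ℕ → ℕ := fun z => if hz : ∃ c, S z c then Nat.find hz else 0
  have hC1 : ∀ᶠ z in (UL l : Filter (List ℕ)), S z (C z) ∧ ∀ c < C z, ¬ S z c := by
    filter_upwards [hcon'] with z hz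
    have hex : ∃ c, S z c := ⟨A z, hz⟩
    have hCz : C z = Nat.find hex := by simp only [C]; rw [dif_pos hex]
    rw [hCz]
    exact ⟨Nat.find_spec hex, fun c hc => Nat.find_min hex hc⟩
  have hCM : ∀ b, ¬ φ.sat V (upd v i (mk l C) j b) := by
    rw [rcam_pi1 ht h hV' φ hφ hm' le_rfl i j hk,
      ← rcam_alive ht h hr hV' φ hφ hm' le_rfl i j hk C]
    filter_upwards [hC1] with z hz
    exact hz.1
  have hC0 : ∀ᶠ z in (UL l : Filter (List ℕ)), C z ≠ 0 := by
    by_contra hne
    have hne' : ∀ᶠ z in (UL l : Filter (List ℕ)), C z = 0 := by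
      have := (Ultrafilter.eventually_not (f := UL l) (p := fun z => C z ≠ 0)).2 hne
      filter_upwards [this] with z hz
      by_contra hz'
      exact hz hz'
    have e : mk l C = (0 : MM) := by
      rw [mk_zero l, mk_eq]
      exact hne'
    rw [e] at hCM
    obtain ⟨b, hb⟩ := h0
    exact hCM b hb
  have hpred : ∀ᶠ z in (UL l : Filter (List ℕ)), ∃ b, rcamS F t x f P W φ i j z (C z - 1) b := by
    filter_upwards [hC1, hC0] with z hz hz0
    have := hz.2 (C z - 1) (by omega)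
    by_contra hb
    exact this (fun b hb' => hb ⟨b, hb'⟩)
  obtain ⟨B, hB⟩ := ev_choice _ _ hpred
  have hsat : φ.sat V (upd v i (mk l (fun z => C z - 1)) j (mk l B)) := by
    rw [rcam_los ht h hr hV' φ hφ hm' le_rfl i j (fun z => C z - 1) B]
    exact hB
  obtain ⟨b, hb⟩ := h1 _ ⟨_, hsat⟩
  have e : mk l (fun z => C z - 1) + 1 = mk l C := by
    rw [mk_one l, mk_add, mk_eq]
    filter_upwards [hC0] with z hz
    omega
  rw [e] at hb
  exact hCM b hb

theorem delta_ca_MM (hΘ : ∀ c : ThC, ∃ a, Θ a = thOf c) (hF : OpsClosed Θ F) (ht : TreeOK t)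
    {x : List ℕ → Orc} (hx : Good F t x) (φ ψ : Fm) (hφ : φ.D0) (hψ : ψ.D0) (i j : ℕ)
    (v : ℕ → MM) (V : ℕ → Set MM) (hV : ∀ n, ∃ i i' p, RecC F t x i i' p (V n))
    (h : ∀ a, (∃ b, φ.sat V (upd v i a j b)) ↔ ∀ b, ψ.sat V (upd v i a j b)) :
    ∃ k k' p, RecC F t x k k' p {a | ∃ b, φ.sat V (upd v i a j b)} := by
  obtain ⟨Λ, n0, hG⟩ := hx
  choose f g p hfg using hV
  obtain ⟨m1, hm1⟩ := Fm.exists_setLt φ
  obtain ⟨m2, hm2⟩ := Fm.exists_setLt (.neg ψ)
  obtain ⟨k1, hk1⟩ := rcam_index hΘ hF (.fm φ i j (max m1 m2)) (max m1 m2) f g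
  obtain ⟨k2, hk2⟩ := rcam_index hΘ hF (.fm (.neg ψ) i j (max m1 m2)) (max m1 m2) f g
  have hV' : ∀ n < max m1 m2, RecC F t x (f n) (g n) (p n) (V n) := fun n _ => hfg n
  have hψ' : (Fm.neg ψ).D0 := hψ
  refine ⟨k2, k1, rcamPar (max m1 m2) (max (rcamFb φ) (rcamFb (.neg ψ))) p v, fun u => ⟨?_, ?_⟩⟩
  · rw [← rcam_pi1 ht hG hV' (.neg ψ) hψ' (hm2 _ (le_max_right _ _)) (le_max_right _ _) i j hk2 u]
    show (∃ b, φ.sat V (upd v i u j b)) ↔ _
    rw [h u]
    exact forall_congr' (fun b => (not_not (a := ψ.sat V (upd v i u j b))).symm)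
  · rw [← rcam_pi1 ht hG hV' φ hφ (hm1 _ (le_max_left _ _)) (le_max_left _ _) i j hk1 u]
    show (¬ ∃ b, φ.sat V (upd v i u j b)) ↔ _
    exact not_exists

end

end Pool.Agent.Lib.H37R
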