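import Pool.Agent.Lib.H37R.Unif
import Pool.Agent.Lib.H37R.Limit

/-!
# Chunk SRTM: stable Ramsey in MM (PROOF.md 4.6)
-/

namespace Pool.Agent.Lib.H37R

open Filter Topology

/-! ### Elementary facts -/

/-- a family which represents a set is coherent -/
theorem SRTM_coh {A : Set MM} {a : List ℕ → Orc}
    (h : ∀ l u, mk l u ∈ A ↔ ∀ᶠ z in (UL l : Filter (List ℕ)), a z (u z) = true) : Coh a := by
  intro l
  apply ev_forall_of_choice
  intro u
  have h1 := h l u
  have h2 := h (l + 1) (fun w => u (w.drop 1))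
  rw [mk_up l 1 u, h1, ev_UL_succ] at h2
  rcases (UL l).em (fun z => a z (u z) = true) with h3 | h3
  · have h4 := h2.1 h3
    filter_upwards [h3, h4] with z h5 h6
    filter_upwards [h6] with y h7
    rw [h5]
    simpa using h7
  · have h4 : ¬ ∀ᶠ z in (UL l : Filter (List ℕ)), a z (u z) = true := by
      intro h5
      obtain ⟨z, h6, h7⟩ := (h3.and h5).exists
      exact h6 h7
    have h5 : ¬ ∀ᶠ z in (UL l : Filter (List ℕ)), ∀ᶠ y in (U : Filter ℕ),
        a (y :: z) (u ((y :: z).drop 1)) = true := fun h6 => h4 (h2.2 h6)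
    have h6 : ∀ᶠ z in (UL l : Filter (List ℕ)), ¬ ∀ᶠ y in (U : Filter ℕ),
        a (y :: z) (u ((y :: z).drop 1)) = true := Ultrafilter.eventually_not.2 h5
    filter_upwards [h3, h6] with z h7 h8
    have h9 : ∀ᶠ y in (U : Filter ℕ), ¬ a (y :: z) (u ((y :: z).drop 1)) = true :=
      Ultrafilter.eventually_not.2 h8
    filter_upwards [h9] with y h10
    have h11 : a (y :: z) (u z) = false := by simpa using h10
    have h12 : a z (u z) = false := by simpa using h7
    rw [h11, h12]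

/-- the set given by a family -/
def SRTM_set (g : List ℕ → Orc) : Set MM :=
  {m | ∃ l u, m = mk l u ∧ ∀ᶠ z in (UL l : Filter (List ℕ)), g z (u z) = true}

theorem SRTM_lift {g : List ℕ → Orc} (hg : Coh g) (l j : ℕ) (u : List ℕ → ℕ) :
    (∀ᶠ w in (UL (l + j) : Filter (List ℕ)), g w (u (w.drop j)) = true) ↔
      ∀ᶠ z in (UL l : Filter (List ℕ)), g z (u z) = true := by
  rw [ev_UL_add]
  have h := hg.ext l j
  constructor
  · intro h1
    filter_upwards [h1, h] with z h2 h3
    obtain ⟨w, h4, h5, h6⟩ := (h2.and ((h3 (u z)).and (ext_drop j z))).exists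
    rw [h6.1] at h4
    rw [← h5]
    exact h4
  · intro h1
    filter_upwards [h1, h] with z h2 h3
    filter_upwards [h3 (u z), ext_drop j z] with w h5 h6
    rw [h6.1, h5]
    exact h2

theorem SRTM_mem {g : List ℕ → Orc} (hg : Coh g) (l : ℕ) (u : List ℕ → ℕ) :
    mk l u ∈ SRTM_set g ↔ ∀ᶠ z in (UL l : Filter (List ℕ)), g z (u z) = true := by
  constructor
  · rintro ⟨l', u', h1, h2⟩
    have e1 : mk (l + l') (fun w => u (w.drop l')) = mk l u := mk_up l l' u
    have e2 : mk (l + l') (fun w => u' (w.drop l)) = mk l' u' := by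
      rw [add_comm l l']
      exact mk_up l' l u'
    rw [← SRTM_lift hg l l' u]
    have h3 : ∀ᶠ w in (UL (l + l') : Filter (List ℕ)), g w (u' (w.drop l)) = true := by
      rw [add_comm l l']
      exact (SRTM_lift hg l' l u').2 h2
    have h4 : ∀ᶠ w in (UL (l + l') : Filter (List ℕ)), u (w.drop l') = u' (w.drop l) := by
      rw [← mk_eq, e1, e2, h1]
    filter_upwards [h3, h4] with w h5 h6
    rw [h6]
    exact h5
  · intro h
    exact ⟨l, u, rfl, h⟩

theorem SRTM_lt_asymm {p q : MM} (h : p < q) : ¬ q < p := fun h' =>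
  MM_lt_irrefl _ (MM_lt_trans _ _ _ h h')

theorem SRTM_not_lt_trans {p q r : MM} (h : ¬ q < p) (h' : q < r) : p < r := by
  rcases MM_trichotomy p q with h1 | h1 | h1
  · exact MM_lt_trans _ _ _ h1 h'
  · rw [h1]; exact h'
  · exact absurd h1 h

/-! ### The limit colour -/

/-- the elements with limit colour `1` -/
def SRTM_lim (C : Set MM) : Set MM := {h | ∃ s, ∀ y, ¬ y < s → pr h y ∈ C}

theorem SRTM_lim_iff {C : Set MM} {h s : MM} (hs : ∀ y, ¬ y < s → (pr h y ∈ C ↔ pr h s ∈ C)) :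
    h ∈ SRTM_lim C ↔ pr h s ∈ C := by
  constructor
  · rintro ⟨s', h1⟩
    by_cases h2 : s < s'
    · rw [← hs s' (SRTM_lt_asymm h2)]
      exact h1 s' (MM_lt_irrefl _)
    · exact h1 s h2
  · intro h1
    exact ⟨s, fun y hy => (hs y hy).2 h1⟩

/-- a bound for all elements of level `l` -/
theorem SRTM_head (l : ℕ) (u : List ℕ → ℕ) : mk l u < mk (l + 1) (fun w => w.headD 0) := by
  rw [← mk_up l 1 u, mk_lt, ev_UL_succ]
  refine Filter.Eventually.of_forall fun z => ?_
  filter_upwards [U_ge (u z + 1)] with y hy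
  show u ((y :: z).drop 1) < y
  simpa using hy

/-- the limit colour is given by a coherent family -/
theorem SRTM_family {C : Set MM} {y : List ℕ → Orc}
    (hy : ∀ l u, mk l u ∈ C ↔ ∀ᶠ z in (UL l : Filter (List ℕ)), y z (u z) = true)
    (hun : ∀ b : MM, ∃ s : MM, b < s ∧
      ∀ h, ¬ b < h → ∀ y, ¬ y < s → (pr h y ∈ C ↔ pr h s ∈ C)) :
    ∃ a : List ℕ → Orc, Coh a ∧
      ∀ l u, mk l u ∈ SRTM_lim C ↔ ∀ᶠ z in (UL l : Filter (List ℕ)), a z (u z) = true := by
  classical
  have h1 : ∀ l : ℕ, ∃ (j : ℕ) (S : List ℕ → ℕ), ∀ u : List ℕ → ℕ,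
      mk l u ∈ SRTM_lim C ↔ pr (mk l u) (mk (l + j) S) ∈ C := by
    intro l
    obtain ⟨s, _, hs⟩ := hun (mk (l + 1) (fun w => w.headD 0))
    obtain ⟨l0, hl0⟩ := exists_rep_ge s
    obtain ⟨S, hS⟩ := hl0 (l + l0) (by omega)
    refine ⟨l0, S, fun u => ?_⟩
    rw [← hS]
    exact SRTM_lim_iff (hs _ (SRTM_lt_asymm (SRTM_head l u)))
  choose j S hS using h1
  let a : List ℕ → Orc := fun z m =>
    decide (∀ᶠ w in (ext (j (z.length - 1)) z : Filter (List ℕ)),
      y w (pr m (S (z.length - 1) w)) = true)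
  have ha : ∀ l u, mk l u ∈ SRTM_lim C ↔ ∀ᶠ z in (UL l : Filter (List ℕ)), a z (u z) = true := by
    intro l u
    rw [hS l u, ← mk_up l (j l) u, mk_pr, hy, ev_UL_add]
    constructor
    · intro h
      filter_upwards [h, UL_length l] with z h2 h3
      have h4 : z.length - 1 = l := by omega
      simp only [a, h4, decide_eq_true_eq]
      filter_upwards [h2, ext_drop (j l) z] with w h5 h6
      rw [h6.1] at h5
      exact h5
    · intro h
      filter_upwards [h, UL_length l] with z h2 h3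
      have h4 : z.length - 1 = l := by omega
      simp only [a, h4, decide_eq_true_eq] at h2
      filter_upwards [h2, ext_drop (j l) z] with w h5 h6
      rw [h6.1]
      exact h5
  exact ⟨a, SRTM_coh ha, ha⟩

/-! ### Codes -/

/-- at good levels it is enough to look at one level -/
theorem SRTM_alive {F : ℕ → CFam} {t : List ℕ → Tre} (ht : TreeOK t) {x : List ℕ → Orc}
    {Λ : Set ℕ} {n0 : ℕ → ℕ → ℕ} (h : GoodAt F t x Λ n0) {i l : ℕ} (hl : l ∈ Λ)
    (hn : n0 i 1 ≤ l) (P : List ℕ → ℕ) : AliveM F t x i (mk l P) ↔ AliveL (F i) t x l P := by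
  rw [AliveM_mk ht h.coh]
  exact ⟨fun h1 => h1.aliveL, fun h1 => h.refl ht hl hn h1⟩

/-- the right half of a good oracle is coded -/
theorem SRTM_right {Θ : ℕ → Th} {F : ℕ → CFam} {t : List ℕ → Tre}
    (hΘ : ∀ c : ThC, ∃ a, Θ a = thOf c) (hF : OpsClosed Θ F) (ht : TreeOK t)
    {x g : List ℕ → Orc} (hg : Coh g) (hx : Coh (fun z => join (x z) (g z))) :
    ∃ i i', RecC F t (fun z => join (x z) (g z)) i i' 0 (SRTM_set g) := by
  have key : ∀ b : Bool, ∃ i, ∀ l (u : List ℕ → ℕ),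
      AliveM F t (fun z => join (x z) (g z)) i (pr 0 (mk l u)) ↔
        ∀ᶠ z in (UL l : Filter (List ℕ)), g z (u z) = b := by
    intro b
    obtain ⟨c, hc⟩ := hΘ (.rgt b)
    obtain ⟨i, hi⟩ := hF.comp c 0 (fun _ => 0) (fun _ => 0)
    refine ⟨i, fun l u => ?_⟩
    rw [mk_zero l, mk_pr, AliveM_mk ht hx]
    have hpt : ∀ (T : Tre) (X : Orc) (q v : ℕ), (∃ y, IsPath T y) →
        (alive (F i (pr q v) : Set Sp) T X ↔ rgt X v = b) := by
      intro T X q v hT
      rw [hi, hc]
      have h := comp_alive (thOf (.rgt b)) 0 (fun j => F 0) (fun j => F 0) (pr q v) T X hT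
        (fun _ _ => false) (fun j hj => absurd hj (Nat.not_lt_zero j)) (fun Y' Y'' y _ h => h)
      rw [h]
      constructor
      · rintro ⟨y, _, h2⟩
        have h3 : rgt X (prr (pr q v)) = b := h2
        rwa [prr_pr] at h3
      · intro h2
        obtain ⟨y, hy⟩ := hT
        refine ⟨y, hy, ?_⟩
        show rgt X (prr (pr q v)) = b
        rwa [prr_pr]
    constructor
    · intro h
      have h0 := h.aliveL
      unfold AliveL at h0
      filter_upwards [h0, ht.path l] with z h1 h2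
      rw [hpt _ _ _ _ h2, rgt_join] at h1
      exact h1
    · intro h j
      have h1 : ∀ᶠ w in (UL (l + j) : Filter (List ℕ)), g w (u (w.drop j)) = b := by
        rw [ev_UL_add]
        filter_upwards [h, hg.ext l j] with z h2 h3
        filter_upwards [h3 (u z), ext_drop j z] with w h5 h6
        rw [h6.1, h5]
        exact h2
      filter_upwards [h1, ht.path (l + j)] with w h2 h3
      rw [hpt _ _ _ _ h3, rgt_join]
      exact h2
  obtain ⟨i, hi⟩ := key true
  obtain ⟨i', hi'⟩ := key false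
  refine ⟨i, i', fun u => ?_⟩
  obtain ⟨l, u, rfl⟩ := exists_rep u
  rw [SRTM_mem hg, hi, hi']
  refine ⟨Iff.rfl, ?_⟩
  rw [← Ultrafilter.eventually_not]
  apply Filter.eventually_congr
  exact Filter.Eventually.of_forall fun z => by simp

/-- the greedy set is coded -/
theorem SRTM_greedy {Θ : ℕ → Th} {F : ℕ → CFam} {t : List ℕ → Tre}
    (hΘ : ∀ c : ThC, ∃ a, Θ a = thOf c) (hF : OpsClosed Θ F) (ht : TreeOK t)
    {x : List ℕ → Orc} {Λ : Set ℕ} {n0 : ℕ → ℕ → ℕ} (h : GoodAt F t x Λ n0)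
    {C G : Set MM} {iC iC' iG iG' : ℕ} {pC pG : MM} (hC : RecC F t x iC iC' pC C)
    (hG : RecC F t x iG iG' pG G) (e : Bool) :
    ∃ (k k' : ℕ) (p : MM) (H : Set MM), RecC F t x k k' p H ∧ ∃ L0, ∀ l ∈ Λ, L0 ≤ l →
      ∃ rC rG : List ℕ → Orc,
        (∀ u, mk l u ∈ C ↔ ∀ᶠ z in (UL l : Filter (List ℕ)), rC z (u z) = true) ∧
        (∀ u, mk l u ∈ G ↔ ∀ᶠ z in (UL l : Filter (List ℕ)), rG z (u z) = true) ∧
        (∀ u, mk l u ∈ H ↔
          ∀ᶠ z in (UL l : Filter (List ℕ)), grd (rC z) (rG z) e (u z) = true) := by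
  let f : ℕ → ℕ := fun j => if j = 0 then iC else iG
  let f' : ℕ → ℕ := fun j => if j = 0 then iC' else iG'
  obtain ⟨lC, hlC⟩ := exists_rep_ge pC
  obtain ⟨lG, hlG⟩ := exists_rep_ge pG
  have key : ∀ b : Bool, ∃ i, ∀ l ∈ Λ,
      n0 iC 1 ≤ l → n0 iC' 1 ≤ l → n0 iG 1 ≤ l → n0 iG' 1 ≤ l → n0 i 1 ≤ l →
      ∀ PC PG : List ℕ → ℕ, pC = mk l PC → pG = mk l PG → ∀ u : List ℕ → ℕ,
      (AliveM F t x i (pr (tupM [pC, pG]) (mk l u)) ↔
        ∀ᶠ z in (UL l : Filter (List ℕ)),
          grd (repS F t x iC PC z) (repS F t x iG PG z) e (u z) = b) := by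
    intro b
    obtain ⟨c, hc⟩ := hΘ (.grd e b)
    obtain ⟨i, hi⟩ := hF.comp c 2 f f'
    rw [hc] at hi
    refine ⟨i, fun l hl h1 h2 h3 h4 h5 PC PG hPC hPG u => ?_⟩
    have hp : pr (tupM [pC, pG]) (mk l u)
        = mk l (fun z => pr (tup [PC z, PG z]) (u z)) := by
      have e1 : [pC, pG] = [PC, PG].map (mk l) := by rw [hPC, hPG]; rfl
      rw [e1, tupM_mk, mk_pr]
      rfl
    rw [hp, SRTM_alive ht h hl h5]
    let P : ℕ → List ℕ → ℕ := fun j => if j = 0 then PC else PG
    have hcm := comp_model ht h (thOf (.grd e b)) 2 f f' P (fun j => if j = 0 then C else G) i l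
      hi ?_ hl ?_ ?_ ?_ [] u
    · unfold AliveL
      apply Filter.eventually_congr
      filter_upwards [hcm, ht.path l] with z h6 h7
      have e2 : (((List.range 2).map P ++ []).map (fun a : List ℕ → ℕ => a z)) = [PC z, PG z] := by
        rw [List.append_nil]
        rfl
      rw [e2] at h6
      rw [h6]
      constructor
      · rintro ⟨y, _, h8⟩
        have h9 : grd (repS F t x iC PC z) (repS F t x iG PG z) e
            (prr (pr (tup [PC z, PG z]) (u z))) = b := h8
        rwa [prr_pr] at h9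
      · intro h8
        obtain ⟨y, hy⟩ := h7
        refine ⟨y, hy, ?_⟩
        show grd (repS F t x iC PC z) (repS F t x iG PG z) e
            (prr (pr (tup [PC z, PG z]) (u z))) = b
        rwa [prr_pr]
    · intro q T X Y' Y'' y hY hm
      have h9 : grd (Y' 0) (Y' 1) e (prr q) = b := hm
      show grd (Y'' 0) (Y'' 1) e (prr q) = b
      rw [← hY 0 (by omega), ← hY 1 (by omega)]
      exact h9
    · intro j hj
      show n0 (if j = 0 then iC else iG) 1 ≤ l
      split_ifs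
      · exact h1
      · exact h3
    · intro j hj
      show n0 (if j = 0 then iC' else iG') 1 ≤ l
      split_ifs
      · exact h2
      · exact h4
    · intro j hj
      show RecC F t x (if j = 0 then iC else iG) (if j = 0 then iC' else iG')
        (mk l (if j = 0 then PC else PG)) (if j = 0 then C else G)
      split_ifs
      · rw [← hPC]
        exact hC
      · rw [← hPG]
        exact hG
  obtain ⟨k, hk⟩ := key true
  obtain ⟨k', hk'⟩ := key false
  let L1 : ℕ := n0 iC 1 + n0 iC' 1 + n0 iG 1 + n0 iG' 1 + n0 k 1 + n0 k' 1 + lC + lG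
  refine ⟨k, k', tupM [pC, pG], {u | AliveM F t x k (pr (tupM [pC, pG]) u)}, ?_, L1, ?_⟩
  · intro u
    refine ⟨Iff.rfl, ?_⟩
    obtain ⟨lu, hlu⟩ := exists_rep_ge u
    obtain ⟨l, hl, hl2⟩ := h.inf.exists_gt (L1 + lu)
    obtain ⟨PC, hPC⟩ := hlC l (by omega)
    obtain ⟨PG, hPG⟩ := hlG l (by omega)
    obtain ⟨u', rfl⟩ := hlu l (by omega)
    show ¬ AliveM F t x k (pr (tupM [pC, pG]) (mk l u')) ↔ _
    rw [hk l hl (by omega) (by omega) (by omega) (by omega) (by omega) PC PG hPC hPG u',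
      hk' l hl (by omega) (by omega) (by omega) (by omega) (by omega) PC PG hPC hPG u',
      ← Ultrafilter.eventually_not]
    apply Filter.eventually_congr
    exact Filter.Eventually.of_forall fun z => by simp
  · intro l hl hL
    obtain ⟨PC, hPC⟩ := hlC l (by omega)
    obtain ⟨PG, hPG⟩ := hlG l (by omega)
    refine ⟨repS F t x iC PC, repS F t x iG PG, ?_, ?_, ?_⟩
    · intro u
      rw [hPC] at hC
      exact rep_mem ht h hC hl (by omega) u
    · intro u
      rw [hPG] at hG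
      exact rep_mem ht h hG hl (by omega) u
    · intro u
      exact hk l hl (by omega) (by omega) (by omega) (by omega) (by omega) PC PG hPC hPG u

section
variable {Θ : ℕ → Th} {F : ℕ → CFam} {t : List ℕ → Tre}

/-- CHUNK SRTM (PROOF.md 4.6) -/
theorem srt_MM (hΘ : ∀ c : ThC, ∃ a, Θ a = thOf c) (hF : OpsClosed Θ F) (ht : TreeOK t)
    {x : List ℕ → Orc} (hx : Good F t x) (C : Set MM) (hC : ∃ i i' p, RecC F t x i i' p C)
    (hst : Stable C) :
    ∃ g : List ℕ → Orc, Good F t (fun z => join (x z) (g z)) ∧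
      ∃ (H : Set MM) (k k' : ℕ) (p : MM), RecC F t (fun z => join (x z) (g z)) k k' p H ∧
        Unbdd H ∧ ∃ c : Prop, ∀ a ∈ H, ∀ b ∈ H, a < b → (pr a b ∈ C ↔ c) := by
  have hun := unif_limit hΘ hF ht hx C hC hst
  obtain ⟨i, i', p, hC⟩ := hC
  obtain ⟨Λ0, m0, hx0⟩ := id hx
  obtain ⟨y, hy, hyC⟩ := rep_family ht hx0 hC
  obtain ⟨a, ha, haA⟩ := SRTM_family hyC hun
  obtain ⟨e, g, hg, hga, hgu, hgood⟩ := step hF ht hx ha
  refine ⟨g, hgood, ?_⟩
  obtain ⟨Λ, n0, hG⟩ := hgood
  obtain ⟨j, j', hjj⟩ := RecC_left hF x g i i' (t := t)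
  have hC' := hjj p C hC
  obtain ⟨kG, kG', hkG⟩ := SRTM_right hΘ hF ht hg hG.coh
  obtain ⟨k, k', pH, H, hH, L0, hL⟩ := SRTM_greedy hΘ hF ht hG hC' hkG e
  -- elements of `G` have limit colour `e`
  have hGA : ∀ h ∈ SRTM_set g, (h ∈ SRTM_lim C ↔ e = true) := by
    intro h hh
    obtain ⟨l, u, rfl⟩ := exists_rep h
    rw [SRTM_mem hg] at hh
    rw [haA]
    constructor
    · intro h1
      obtain ⟨z, h2, h3, h4⟩ := (h1.and (hh.and (hga l))).exists
      rw [← h4 _ h3]
      exact h2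
    · intro h1
      filter_upwards [hh, hga l] with z h3 h4
      rw [h4 _ h3]
      exact h1
  -- representation at a good level
  have hrep : ∀ L1 : ℕ, ∃ l ∈ Λ, L0 ≤ l ∧ L1 ≤ l := by
    intro L1
    obtain ⟨l, hl, hl2⟩ := hG.inf.exists_gt (L0 + L1)
    exact ⟨l, hl, by omega, by omega⟩
  have hHG : ∀ h ∈ H, h ∈ SRTM_set g := by
    intro h hh
    obtain ⟨lh, hlh⟩ := exists_rep_ge h
    obtain ⟨l, hl, hl0, hl1⟩ := hrep lh
    obtain ⟨u, rfl⟩ := hlh l hl1
    obtain ⟨rC, rG, h1, h2, h3⟩ := hL l hl hl0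
    rw [h2]
    rw [h3] at hh
    filter_upwards [hh] with z hz
    exact ((grd_iff _ _ _ _).1 hz).1
  refine ⟨H, k, k', pH, hH, ?_, e = true, ?_⟩
  · -- unbounded
    intro b
    obtain ⟨s, hbs, hs⟩ := hun b
    -- an element of `G` above `s`
    obtain ⟨y0, hy0, hsy⟩ : ∃ y0 ∈ SRTM_set g, s < y0 := by
      obtain ⟨ls, S, rfl⟩ := exists_rep s
      obtain ⟨jj, h, hh⟩ := hgu ls S
      refine ⟨mk (ls + jj) h, ?_, ?_⟩
      · rw [SRTM_mem hg]
        exact hh.mono fun w hw => hw.2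
      · rw [← mk_up ls jj S, mk_lt]
        exact hh.mono fun w hw => hw.1
    by_contra hcon
    push Not at hcon
    -- `hcon : ∀ h ∈ H, ¬ b < h`
    have hby : b < y0 := MM_lt_trans _ _ _ hbs hsy
    refine hcon y0 ?_ hby
    obtain ⟨ly, hly⟩ := exists_rep_ge y0
    obtain ⟨l, hl, hl0, hl1⟩ := hrep ly
    obtain ⟨Y, rfl⟩ := hly l hl1
    obtain ⟨rC, rG, h1, h2, h3⟩ := hL l hl hl0
    rw [h3]
    have hYG : ∀ᶠ z in (UL l : Filter (List ℕ)), rG z (Y z) = true := (h2 Y).1 hy0
    have hall : ∀ᶠ z in (UL l : Filter (List ℕ)), ∀ h : ℕ, h < Y z →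
        grd (rC z) (rG z) e h = true → rC z (pr h (Y z)) = e := by
      apply ev_forall_of_choice
      intro u
      rcases (UL l).em (fun z => grd (rC z) (rG z) e (u z) = true) with h4 | h4
      · have huH : mk l u ∈ H := (h3 u).2 h4
        have hnb : ¬ b < mk l u := hcon _ huH
        have h5 := hGA _ (hHG _ huH)
        have h6 := hs (mk l u) hnb
        have h7 : pr (mk l u) (mk l Y) ∈ C ↔ e = true := by
          rw [h6 _ (SRTM_lt_asymm hsy), ← SRTM_lim_iff h6, h5]
        rw [mk_pr, h1] at h7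
        cases e with
        | true =>
          have h8 := h7.2 rfl
          filter_upwards [h8] with z h9 _ _
          exact h9
        | false =>
          have h8 : ¬ ∀ᶠ z in (UL l : Filter (List ℕ)), rC z (pr (u z) (Y z)) = true := by
            intro h9
            exact absurd (h7.1 h9) (by simp)
          filter_upwards [Ultrafilter.eventually_not.2 h8] with z h9 _ _
          simpa using h9
      · filter_upwards [h4] with z h5 _ h6
        exact absurd h6 h5
    filter_upwards [hYG, hall] with z h4 h5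
    exact (grd_iff _ _ _ _).2 ⟨h4, h5⟩
  · -- homogeneous
    intro a0 ha0 b0 hb0 hab
    obtain ⟨la, hla⟩ := exists_rep_ge a0
    obtain ⟨lb, hlb⟩ := exists_rep_ge b0
    obtain ⟨l, hl, hl0, hl1⟩ := hrep (la + lb)
    obtain ⟨A, rfl⟩ := hla l (by omega)
    obtain ⟨B, rfl⟩ := hlb l (by omega)
    obtain ⟨rC, rG, h1, h2, h3⟩ := hL l hl hl0
    rw [h3] at ha0 hb0
    rw [mk_lt] at hab
    rw [mk_pr, h1]
    have h4 : ∀ᶠ z in (UL l : Filter (List ℕ)), rC z (pr (A z) (B z)) = e := by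
      filter_upwards [ha0, hb0, hab] with z h5 h6 h7
      exact ((grd_iff _ _ _ _).1 h6).2 _ h7 h5
    constructor
    · intro h5
      obtain ⟨z, h6, h7⟩ := (h4.and h5).exists
      rw [← h6]
      exact h7
    · intro h5
      filter_upwards [h4] with z h6
      rw [h6]
      exact h5

end

end Pool.Agent.Lib.H37R
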