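import Pool.Agent.Lib.H37R.Assembly
import Pool.Agent.Lib.H37R.Ground
import Pool.Agent.Lib.H37R.Rcam
import Pool.Agent.Lib.H37R.Srtm
import Pool.Agent.Lib.H37R.NoHom

/-!
# The main theorem
-/

namespace Pool.Agent.Lib.H37R

open Filter Topology

/-- MAIN THEOREM -/
theorem main : ∃ (N : Type) (_ : Zero N) (_ : One N) (_ : Add N) (_ : Mul N) (_ : LT N)
    (S : Set (Set N)), RCA0 N S ∧ SRT22 S ∧ ¬ ∀ k : N, RWKL S k := by
  obtain ⟨Θ, hΘ⟩ := exists_Theta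
  obtain ⟨F, hF⟩ := exists_opsClosed Θ
  obtain ⟨t, ht, hg⟩ := ground F
  let 𝔛 := {x : List ℕ → Orc // Good F t x}
  have hg' : Good F t (fun _ => zo) := ⟨_, _, hg⟩
  have key : ∀ (x : 𝔛) (V : Set MM),
      (∃ k p, RecC F t x.1 (Nat.unpair k).1 (Nat.unpair k).2 p
        {u | AliveM F t x.1 (Nat.unpair k).1 (pr p u)} ∧
        V = {u | AliveM F t x.1 (Nat.unpair k).1 (pr p u)}) ↔
      ∃ i i' p, RecC F t x.1 i i' p V := by
    intro x V
    constructor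
    · rintro ⟨k, p, h, rfl⟩
      exact ⟨_, _, p, h⟩
    · rintro ⟨i, i', p, h⟩
      have hV : V = {u | AliveM F t x.1 i (pr p u)} := by
        ext u
        exact (h u).1
      refine ⟨Nat.pair i i', p, ?_, ?_⟩
      · simp only [Nat.unpair_pair]
        rw [← hV]
        exact h
      · simp only [Nat.unpair_pair]
        exact hV
  refine assembly (𝔛 := 𝔛) (fun x k p => {u | AliveM F t x.1 (Nat.unpair k).1 (pr p u)})
    (fun x k p => RecC F t x.1 (Nat.unpair k).1 (Nat.unpair k).2 p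
      {u | AliveM F t x.1 (Nat.unpair k).1 (pr p u)}) ⟨_, hg'⟩ MM_basic ?_ ?_ ?_
    kappa (TTM t) ?_ (isTree_TTM ht) (infTree_TTM ht) ?_
  · intro x φ hφ i j v V hV h0 h1
    exact sigma_ind_MM hΘ hF ht x.2 φ hφ i j v V (fun n => (key x _).1 (hV n)) h0 h1
  · intro x φ ψ hφ hψ i j v V hV h
    obtain ⟨k, k', p, hk⟩ :=
      delta_ca_MM hΘ hF ht x.2 φ ψ hφ hψ i j v V (fun n => (key x _).1 (hV n)) h
    obtain ⟨k2, p2, h2, h3⟩ := (key x _).2 ⟨k, k', p, hk⟩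
    refine ⟨k2, p2, h2, fun a => ?_⟩
    rw [← h3]
    rfl
  · intro x k p hk hst
    obtain ⟨g, hg2, H, k2, k2', p2, h2, hu, hc⟩ := srt_MM hΘ hF ht x.2 _ ⟨_, _, _, hk⟩ hst
    refine ⟨⟨_, hg2⟩, ?_, ?_⟩
    · intro k3 p3 h3
      obtain ⟨j, j', hj⟩ := RecC_left hF x.1 g (Nat.unpair k3).1 (Nat.unpair k3).2 (t := t)
      have h4 := hj _ _ h3
      have hV : {u | AliveM F t x.1 (Nat.unpair k3).1 (pr p3 u)} =
          {u | AliveM F t (fun z => join (x.1 z) (g z)) j (pr p3 u)} := by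
        ext u
        exact (h4 u).1
      refine ⟨Nat.pair j j', ?_, ?_⟩
      · simp only [Nat.unpair_pair]
        rw [← hV]
        exact h4
      · simp only [Nat.unpair_pair]
        exact hV.symm
    · obtain ⟨k4, p4, h4, h5⟩ := (key ⟨_, hg2⟩ H).2 ⟨_, _, _, h2⟩
      refine ⟨k4, p4, h4, ?_, ?_⟩
      · simp only
        rw [← h5]
        exact hu
      · simp only
        rw [← h5]
        exact hc
  · obtain ⟨k, k', p, hk⟩ := rec_TTM hΘ hF ht hg'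
    obtain ⟨k2, p2, h2, h3⟩ := (key ⟨_, hg'⟩ _).2 ⟨k, k', p, hk⟩
    exact ⟨k2, p2, h2, h3.symm⟩
  · intro x k p hk hu c hc
    exact no_hom hΘ hF ht x.2 _ ⟨_, _, _, hk⟩ hu c hc

end Pool.Agent.Lib.H37R
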