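import Pool.Agent.Lib.H37R.GoodDef
import Pool.Agent.Lib.H37R.Fibre

/-!
# Stages and links (definitions for chunks BLOCK and LIMIT, PROOF.md 3.2)
-/

namespace Pool.Agent.Lib.H37R

open Filter Topology

/-- data of a stage: level, index of the class, cov code, parameter, live parts, stems, bound,
threshold of the cover (functions of the fibre are functions of the fibre of level `l`) -/
structure Stage where
  l : ℕ
  i : ℕ
  c : ℕ
  P : List ℕ → ℕ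
  L : Finset ℕ
  S : List ℕ → Stm
  d : List ℕ → ℕ
  thr : List ℕ → ℕ

/-- invariants of the stage number `n` -/
structure StageOK (F : ℕ → CFam) (t : List ℕ → Tre) (x a : List ℕ → Orc) (Λ : Set ℕ)
    (n0 : ℕ → ℕ → ℕ) (n : ℕ) (D : Stage) : Prop where
  mem : D.l ∈ Λ
  aliveC : AliveU (F D.i) t x D.l D.P
  ne : D.L.Nonempty
  cover : ∀ᶠ z in (UL D.l : Filter (List ℕ)), ∀ T X, ∀ w ∈ K (F D.i (D.P z)) T X,
    ∀ m, D.thr z ≤ m → ∃ s ∈ D.L, cov D.c w s m = true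
  stm : ∀ᶠ z in (UL D.l : Filter (List ℕ)), ∀ y ∈ D.S z,
    y.1 ∈ D.L ∧ y.2.2 < D.d z ∧ a z y.2.2 = y.2.1
  big : ∃ iU, F iU = UF D.c (F D.i) F n ∧ n0 iU 1 ≤ D.l

/-- data of the link between two stages: fibre data at level `D.l` (arguments: fibre `z`, index `v`),
the function `v` on the fibres of level `D'.l`, parent and side of the new parts, separation bound -/
structure LinkD where
  S : List ℕ → ℕ → Stm
  d : List ℕ → ℕ → ℕ
  Unk : List ℕ → ℕ → Finset Req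
  v : List ℕ → ℕ
  par : ℕ → ℕ
  side : ℕ → Bool
  ξ : List ℕ → ℕ

/-- the link between stage `n` and stage `n + 1` -/
structure LinkOK (F : ℕ → CFam) (t : List ℕ → Tre) (x a : List ℕ → Orc) (n : ℕ) (D D' : Stage)
    (E : LinkD) : Prop where
  lt : D.l < D'.l
  fibre : ∀ᶠ z in (UL D.l : Filter (List ℕ)),
    FibreOK (t z) (x z) (a z) (F D.i) (D.P z) D.c D.L (D.S z) (D.d z) F n (E.S z) (E.d z) (E.Unk z)
  v_inf : ∀ᶠ z in (UL D.l : Filter (List ℕ)), ∀ m,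
    ∀ᶠ w in (ext (D'.l - D.l) z : Filter (List ℕ)), m ≤ E.v w
  par_mem : ∀ π ∈ D'.L, E.par π ∈ D.L
  /-- the new stems and the new bound -/
  stems : ∀ᶠ w in (UL D'.l : Filter (List ℕ)),
    (∀ π e m, (π, e, m) ∈ D'.S w ↔
      (π ∈ D'.L ∧ (E.par π, e, m) ∈ E.S (w.drop (D'.l - D.l)) (E.v w))) ∧
    D'.d w = E.d (w.drop (D'.l - D.l)) (E.v w)
  /-- on the live parts the requirements `infF m` are killed -/
  infk : ∀ᶠ w in (UL D'.l : Filter (List ℕ)), ∀ π ∈ D'.L, ∀ m < E.v w,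
    (E.par π, E.side π, 0, m) ∉ E.Unk (w.drop (D'.l - D.l)) (E.v w)
  /-- (REF) -/
  refine' : ∀ᶠ w in (UL D'.l : Filter (List ℕ)), ∀ T X, ∀ W ∈ K (F D'.i (D'.P w)) T X,
    ∀ π ∈ D'.L, ∃ w' ∈ K (F D.i (D.P (w.drop (D'.l - D.l)))) T X,
      (∀ m, cov D'.c W π m = true → cov D.c w' (E.par π) m = true) ∧
      ∀ e m, (π, e, m) ∈ D'.S w → D.d (w.drop (D'.l - D.l)) ≤ m → cov D.c w' (E.par π) m = true
  /-- (GUAR) -/
  guar : ∀ᶠ w in (UL D'.l : Filter (List ℕ)), ∀ ρ ∈ E.Unk (w.drop (D'.l - D.l)) (E.v w),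
    ∀ π ∈ D'.L, E.par π = ρ.1 → E.side π = ρ.2.1 →
    ∀ (k : ℕ) (T : Tre) (X : Orc), Bdd k T → ∀ W ∈ K (F D'.i (D'.P w)) T X, ∀ G : Orc,
      (∀ m < D'.d w, G m = ind ((D'.S w).st π ρ.2.1) m) →
      (∀ m, D'.d w ≤ m → G m = true → cov D'.c W π m = true) →
      ∃ y : ℕ → Pt, (∀ b ≤ n, y b ∈ K (F ρ.2.2.1 ρ.2.2.2) T (join X G)) ∧
        ∀ b ≤ n, ∀ b' ≤ n, b ≠ b' → ∀ i u, E.ξ w ≤ u → (y b).1 i u ≠ (y b').1 i u

end Pool.Agent.Lib.H37R
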