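import Pool.Agent.Lib.H37R.Fam

/-!
# Chunk THETA: the closed predicates used in `compF`
-/

namespace Pool.Agent.Lib.H37R

open Filter Topology

/-- greedy homogeneous subset of `G` for the colouring `f` and colour `e` -/
def grd (f G : Orc) (e : Bool) (u : ℕ) : Bool :=
  G u && (List.finRange u).all (fun h => !(grd f G e h.1) || (f (pr h.1 u) == e))
termination_by u
decreasing_by exact h.2

theorem grd_iff (f G : Orc) (e : Bool) (u : ℕ) :
    grd f G e u = true ↔ G u = true ∧ ∀ h < u, grd f G e h = true → f (pr h u) = e := by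
  rw [grd]
  simp only [Bool.and_eq_true, List.all_eq_true, List.mem_finRange, forall_const, Bool.or_eq_true,
    Bool.not_eq_true', beq_iff_eq]
  constructor
  · rintro ⟨h1, h2⟩
    refine ⟨h1, ?_⟩
    intro h hh hg
    rcases h2 ⟨h, hh⟩ with h3 | h3
    · rw [hg] at h3
      exact absurd h3 (by simp)
    · exact h3
  · rintro ⟨h1, h2⟩
    refine ⟨h1, ?_⟩
    intro h
    by_cases hg : grd f G e h.1 = true
    · exact Or.inr (h2 h.1 h.2 hg)
    · left
      simpa using hg

/-- string coded by `s` (Goedel beta, see `Len`, `Ent`) -/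
def strOf (s : ℕ) : List ℕ :=
  (List.range (prr s)).map (fun i => prl (prl s) % (prr (prl s) * (i + 1) + 1))

/-- `s` is a code of a string -/
def IsCode (s : ℕ) : Prop := s = pr (pr (prl (prl s)) (prr (prl s))) (prr s)

instance (s : ℕ) : Decidable (IsCode s) := by unfold IsCode; infer_instance

deriving instance Countable for Tm
deriving instance Countable for Fm

/-- codes for the closed predicates -/
inductive ThC : Type
  | fm (φ : Fm) (i j m : ℕ) : ThC
  | grd (e b : Bool) : ThC
  | hom : ThC
  | rgt (b : Bool) : ThC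
  | tree (b : Bool) : ThC
  | lim : ThC

deriving instance Countable for ThC

open Classical in
/-- `Sp' = Tre × Orc × (ℕ → Orc) × (ℕ → ℕ)`;
`fm φ i j m`: `φ` is `Δ0` and `∀ b, ¬ φ` for the assignment `x_n = cmp (m + n) (prl q)`,
  `x_i = prr q`, `x_j = b`;
`grd e b`: `grd Y_0 Y_1 e (prr q) = b`;
`hom`: the path has colour `cmp 1 (prl q)` on `Y_0`;
`rgt b`: `rgt X (prr q) = b`;
`tree b`: `prr q` is a code and its string is in `T` (`b = true`), resp. not (`b = false`);
`lim`: for `h ≤ cmp 1 (prl q)` and `y ≥ prr q` we have `Y_0 (pr h y) = Y_0 (pr h (prr q))`. -/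
def thP (q : ℕ) : ThC → Set (Tre × Orc × (ℕ → Orc) × (ℕ → ℕ))
  | .fm φ i j m => {x | φ.D0 ∧ ∀ b : ℕ, ¬ φ.sat (fun n => {u | x.2.2.1 n u = true})
      (upd (fun n => cmp (m + n) (prl q)) i (prr q) j b)}
  | .grd e b => {x | grd (x.2.2.1 0) (x.2.2.1 1) e (prr q) = b}
  | .hom => {x | ∀ u, x.2.2.1 0 u = true → x.2.2.2 u = cmp 1 (prl q)}
  | .rgt b => {x | rgt x.2.1 (prr q) = b}
  | .tree b => {x | (decide (IsCode (prr q)) && x.1 (strOf (prr q))) = b}
  | .lim => {x | ∀ h ≤ cmp 1 (prl q), ∀ y, prr q ≤ y →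
      x.2.2.1 0 (pr h y) = x.2.2.1 0 (pr h (prr q))}

/-- a `Δ0` formula depends only on finitely many bits of the sets: closed and open -/
theorem isClopen_sat (φ : Fm) (hφ : φ.D0) (v : ℕ → ℕ) :
    IsClopen {Y : ℕ → Orc | φ.sat (fun n => {u | Y n u = true}) v} := by
  have hc : ∀ p : Prop, IsClopen {_Y : ℕ → Orc | p} := by
    intro p
    by_cases hp : p
    · simp only [hp, Set.ofPred_true]
      exact isClopen_univ
    · simp only [hp, Set.ofPred_false]
      exact isClopen_empty
  induction φ generalizing v with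
  | eq s t => exact hc (s.ev v = t.ev v)
  | lt s t => exact hc (s.ev v < t.ev v)
  | mem s n =>
    have : Continuous (fun Y : ℕ → Orc => Y n (s.ev v)) :=
      (continuous_apply (s.ev v)).comp (continuous_apply n)
    exact (isClopen_discrete ({true} : Set Bool)).preimage this
  | neg φ ih => exact (ih hφ v).compl
  | and φ ψ ih1 ih2 => exact (ih1 hφ.1 v).inter (ih2 hφ.2 v)
  | ball i t φ ih =>
    have e : {Y : ℕ → Orc | (Fm.ball i t φ).sat (fun n => {u | Y n u = true}) v} =
        ⋂ a ∈ Set.Iio (t.ev v), {Y : ℕ → Orc | φ.sat (fun n => {u | Y n u = true})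
          (Function.update v i a)} := by
      ext Y
      simp only [Set.mem_iInter, Set.mem_Iio, Set.mem_ofPred_eq]
      rfl
    rw [e]
    exact (Set.finite_Iio _).isClopen_biInter (fun a _ => ih hφ _)
  | all i φ ih => exact hφ.elim

theorem theta_grd (e : Bool) (u : ℕ) : IsClopen {p : Orc × Orc | grd p.1 p.2 e u = true} := by
  induction u using Nat.strong_induction_on with
  | _ u ih =>
    have e1 : {p : Orc × Orc | grd p.1 p.2 e u = true} = {p : Orc × Orc | p.2 u = true} ∩
        ⋂ h ∈ Set.Iio u, ({p : Orc × Orc | grd p.1 p.2 e h = true}ᶜ ∪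
          {p : Orc × Orc | p.1 (pr h u) = e}) := by
      ext p
      simp only [Set.mem_inter_iff, Set.mem_iInter, Set.mem_Iio, Set.mem_ofPred_eq, Set.mem_union,
        Set.mem_compl_iff]
      rw [grd_iff]
      constructor
      · rintro ⟨h1, h2⟩
        refine ⟨h1, fun h hh => ?_⟩
        by_cases h3 : grd p.1 p.2 e h = true
        · exact Or.inr (h2 h hh h3)
        · exact Or.inl h3
      · rintro ⟨h1, h2⟩
        refine ⟨h1, fun h hh h3 => ?_⟩
        rcases h2 h hh with h4 | h4
        · exact absurd h3 h4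
        · exact h4
    rw [e1]
    have c1 : Continuous (fun p : Orc × Orc => p.2 u) := (continuous_apply u).comp continuous_snd
    refine IsClopen.inter ((isClopen_discrete ({true} : Set Bool)).preimage c1) ?_
    refine (Set.finite_Iio _).isClopen_biInter (fun h hh => ?_)
    have c2 : Continuous (fun p : Orc × Orc => p.1 (pr h u)) :=
      (continuous_apply (pr h u)).comp continuous_fst
    exact (ih h hh).compl.union ((isClopen_discrete ({e} : Set Bool)).preimage c2)

theorem theta_grd' (e b : Bool) (u : ℕ) : IsClopen {p : Orc × Orc | grd p.1 p.2 e u = b} := by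
  cases b with
  | true => exact theta_grd e u
  | false =>
    have : {p : Orc × Orc | grd p.1 p.2 e u = false} = {p : Orc × Orc | grd p.1 p.2 e u = true}ᶜ := by
      ext p
      simp
    rw [this]
    exact (theta_grd e u).compl

theorem isClosed_thP (q : ℕ) (c : ThC) : IsClosed (thP q c) := by
  have cY : Continuous (fun x : Tre × Orc × (ℕ → Orc) × (ℕ → ℕ) => x.2.2.1) :=
    continuous_fst.comp (continuous_snd.comp continuous_snd)
  have cy : Continuous (fun x : Tre × Orc × (ℕ → Orc) × (ℕ → ℕ) => x.2.2.2) :=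
    continuous_snd.comp (continuous_snd.comp continuous_snd)
  have cX : Continuous (fun x : Tre × Orc × (ℕ → Orc) × (ℕ → ℕ) => x.2.1) :=
    continuous_fst.comp continuous_snd
  have cYn : ∀ n u, Continuous (fun x : Tre × Orc × (ℕ → Orc) × (ℕ → ℕ) => x.2.2.1 n u) :=
    fun n u => (continuous_apply u).comp ((continuous_apply n).comp cY)
  cases c with
  | fm φ i j m =>
    by_cases hφ : φ.D0
    · have e : thP q (.fm φ i j m) = ⋂ b : ℕ, ((fun x : Tre × Orc × (ℕ → Orc) × (ℕ → ℕ) => x.2.2.1) ⁻¹'
          {Y : ℕ → Orc | φ.sat (fun n => {u | Y n u = true})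
            (upd (fun n => cmp (m + n) (prl q)) i (prr q) j b)})ᶜ := by
        ext x
        simp only [thP, Set.mem_ofPred_eq, Set.mem_iInter, Set.mem_compl_iff, Set.mem_preimage]
        exact ⟨fun h => h.2, fun h => ⟨hφ, h⟩⟩
      rw [e]
      exact isClosed_iInter (fun b => ((isClopen_sat φ hφ _).preimage cY).compl.isClosed)
    · have e : thP q (.fm φ i j m) = ∅ := by
        ext x
        simp only [thP, Set.mem_ofPred_eq, Set.mem_empty_iff_false, iff_false]
        exact fun h => hφ h.1
      rw [e]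
      exact isClosed_empty
  | grd e b =>
    have c1 : Continuous (fun x : Tre × Orc × (ℕ → Orc) × (ℕ → ℕ) => (x.2.2.1 0, x.2.2.1 1)) :=
      ((continuous_apply 0).comp cY).prodMk ((continuous_apply 1).comp cY)
    exact ((theta_grd' e b (prr q)).preimage c1).isClosed
  | hom =>
    have e : thP q .hom = ⋂ u : ℕ, ({x : Tre × Orc × (ℕ → Orc) × (ℕ → ℕ) | x.2.2.1 0 u = true}ᶜ ∪
        {x : Tre × Orc × (ℕ → Orc) × (ℕ → ℕ) | x.2.2.2 u = cmp 1 (prl q)}) := by
      ext x
      simp only [thP, Set.mem_ofPred_eq, Set.mem_iInter, Set.mem_compl_iff, Set.mem_union]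
      refine forall_congr' (fun u => ?_)
      tauto
    rw [e]
    refine isClosed_iInter (fun u => IsClosed.union ?_ ?_)
    · exact ((isClopen_discrete ({true} : Set Bool)).preimage (cYn 0 u)).compl.isClosed
    · exact isClosed_eq ((continuous_apply u).comp cy) continuous_const
  | rgt b =>
    exact isClosed_eq ((continuous_apply (prr q)).comp (continuous_rgt.comp cX)) continuous_const
  | tree b =>
    have c1 : Continuous (fun x : Tre × Orc × (ℕ → Orc) × (ℕ → ℕ) => x.1 (strOf (prr q))) :=
      (continuous_apply _).comp continuous_fst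
    have c2 : Continuous (fun c : Bool => (decide (IsCode (prr q)) && c)) :=
      continuous_of_discreteTopology
    exact isClosed_eq (c2.comp c1) continuous_const
  | lim =>
    have e : thP q .lim = ⋂ h : ℕ, ⋂ y : ℕ, {x : Tre × Orc × (ℕ → Orc) × (ℕ → ℕ) |
        h ≤ cmp 1 (prl q) → prr q ≤ y → x.2.2.1 0 (pr h y) = x.2.2.1 0 (pr h (prr q))} := by
      ext x
      simp only [thP, Set.mem_ofPred_eq, Set.mem_iInter]
      exact ⟨fun h a b c d => h a c b d, fun h a c b d => h a b c d⟩
    rw [e]
    refine isClosed_iInter (fun h => isClosed_iInter (fun y => ?_))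
    by_cases h1 : h ≤ cmp 1 (prl q)
    · by_cases h2 : prr q ≤ y
      · simp only [h1, h2, forall_const]
        exact isClosed_eq (cYn 0 _) (cYn 0 _)
      · simp only [h2, IsEmpty.forall_iff, implies_true, Set.ofPred_true]
        exact isClosed_univ
    · simp only [h1, IsEmpty.forall_iff, Set.ofPred_true]
      exact isClosed_univ

def thOf (c : ThC) : Th := fun q => ⟨thP q c, isClosed_thP q c⟩

theorem exists_Theta : ∃ Θ : ℕ → Th, ∀ c : ThC, ∃ a, Θ a = thOf c := by
  have : Nonempty ThC := ⟨ThC.hom⟩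
  obtain ⟨f, hf⟩ := exists_surjective_nat ThC
  refine ⟨fun a => thOf (f a), fun c => ?_⟩
  obtain ⟨a, rfl⟩ := hf c
  exact ⟨a, rfl⟩

end Pool.Agent.Lib.H37R
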