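import Pool.Agent.Lib.H37R.Theta
import Pool.Agent.Lib.H37R.Los
import Pool.Agent.Lib.H37R.Rec

/-!
# Chunk TREEM: the tree in MM (PROOF.md 4.7)
-/

namespace Pool.Agent.Lib.H37R

open Filter Topology

section
variable {Θ : ℕ → Th} {F : ℕ → CFam} {t : List ℕ → Tre}

/-- number of colours of the tree in the model -/
noncomputable def kappa : MM := mk 0 kk

/-- the tree in the model -/
def TTM (t : List ℕ → Tre) : Set MM :=
  {s | ∀ l S, s = mk l S →
    ∀ᶠ z in (UL l : Filter (List ℕ)), IsCode (S z) ∧ t z (strOf (S z)) = true}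

/-- codes in `ℕ` -/
theorem TREEM_len_iff (s n : ℕ) : Len s n ↔ IsCode s ∧ n = prr s := by
  constructor
  · rintro ⟨a, b, rfl⟩
    unfold IsCode
    rw [prl_pr, prl_pr, prr_pr, prr_pr]
    exact ⟨rfl, rfl⟩
  · rintro ⟨h, rfl⟩
    exact ⟨_, _, h⟩

/-- entry number `i` of the string coded by `s` -/
def TREEM_ent (s i : ℕ) : ℕ := prl (prl s) % (prr (prl s) * (i + 1) + 1)

theorem TREEM_ent_iff (s i v : ℕ) : Ent s i v ↔ IsCode s ∧ i < prr s ∧ v = TREEM_ent s i := by
  constructor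
  · rintro ⟨a, b, l, q, rfl, h1, h2, h3⟩
    unfold IsCode TREEM_ent
    rw [prl_pr, prl_pr, prr_pr, prr_pr]
    refine ⟨rfl, h1, ?_⟩
    rw [h2, mul_comm q, Nat.mul_add_mod, Nat.mod_eq_of_lt h3]
  · rintro ⟨h, h1, rfl⟩
    refine ⟨_, _, _, prl (prl s) / (prr (prl s) * (i + 1) + 1), h, h1, ?_, ?_⟩
    · unfold TREEM_ent
      rw [mul_comm]
      exact (Nat.div_add_mod _ _).symm
    · exact Nat.mod_lt _ (Nat.succ_pos _)

theorem TREEM_strOf (s : ℕ) : strOf s = (List.range (prr s)).map (TREEM_ent s) := rfl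

/-- every string has a code -/
theorem TREEM_exists_code (σ : List ℕ) : ∃ s, IsCode s ∧ strOf s = σ ∧ prr s = σ.length := by
  refine ⟨pr (pr (Nat.unbeta σ).unpair.1 (Nat.unbeta σ).unpair.2) σ.length, ?_, ?_, ?_⟩
  · unfold IsCode
    rw [prl_pr, prl_pr, prr_pr, prr_pr]
  · rw [TREEM_strOf, prr_pr]
    apply List.ext_getElem
    · simp
    · intro i h1 h2
      simp only [List.getElem_map, List.getElem_range]
      unfold TREEM_ent
      rw [prl_pr, prl_pr, prr_pr]
      have h3 := Nat.beta_unbeta_coe σ ⟨i, h2⟩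
      unfold Nat.beta at h3
      rw [mul_comm]
      exact h3
  · exact prr_pr _ _

/-- raise a representation -/
theorem TREEM_up (l j : ℕ) (a : List ℕ → ℕ) : mk l a = mk (l + j) (fun w => a (w.drop j)) :=
  (mk_up l j a).symm

theorem TREEM_len_mk (l : ℕ) (S N : List ℕ → ℕ) :
    Len (mk l S) (mk l N) ↔ ∀ᶠ z in (UL l : Filter (List ℕ)), Len (S z) (N z) := by
  constructor
  · rintro ⟨a, b, h⟩
    obtain ⟨la, ha⟩ := exists_rep_ge a
    obtain ⟨lb, hb⟩ := exists_rep_ge b
    obtain ⟨A, rfl⟩ := ha (l + (la + lb)) (by omega)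
    obtain ⟨B, rfl⟩ := hb (l + (la + lb)) (by omega)
    rw [TREEM_up l (la + lb) S, TREEM_up l (la + lb) N, mk_pr, mk_pr, mk_eq] at h
    rw [← ev_UL_drop l (la + lb)]
    filter_upwards [h] with w hw
    exact ⟨_, _, hw⟩
  · intro h
    have h1 : ∀ᶠ z in (UL l : Filter (List ℕ)), S z = pr (pr (prl (prl (S z))) (prr (prl (S z)))) (N z) := by
      filter_upwards [h] with z hz
      obtain ⟨h2, h3⟩ := (TREEM_len_iff _ _).1 hz
      rw [h3]
      exact h2
    refine ⟨mk l (fun z => prl (prl (S z))), mk l (fun z => prr (prl (S z))), ?_⟩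
    rw [mk_pr, mk_pr, mk_eq]
    exact h1

theorem TREEM_ent_mk (l : ℕ) (S I V : List ℕ → ℕ) :
    Ent (mk l S) (mk l I) (mk l V) ↔ ∀ᶠ z in (UL l : Filter (List ℕ)), Ent (S z) (I z) (V z) := by
  constructor
  · rintro ⟨a, b, m, q, h1, h2, h3, h4⟩
    obtain ⟨la, ha⟩ := exists_rep_ge a
    obtain ⟨lb, hb⟩ := exists_rep_ge b
    obtain ⟨lm, hm⟩ := exists_rep_ge m
    obtain ⟨lq, hq⟩ := exists_rep_ge q
    obtain ⟨A, rfl⟩ := ha (l + (la + lb + lm + lq)) (by omega)
    obtain ⟨B, rfl⟩ := hb (l + (la + lb + lm + lq)) (by omega)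
    obtain ⟨N, rfl⟩ := hm (l + (la + lb + lm + lq)) (by omega)
    obtain ⟨Q, rfl⟩ := hq (l + (la + lb + lm + lq)) (by omega)
    rw [TREEM_up l (la + lb + lm + lq) S, mk_pr, mk_pr, mk_eq] at h1
    rw [TREEM_up l (la + lb + lm + lq) I, mk_lt] at h2
    rw [TREEM_up l (la + lb + lm + lq) I, TREEM_up l (la + lb + lm + lq) V,
      mk_one (l + (la + lb + lm + lq)), mk_add, mk_mul, mk_add, mk_mul, mk_add, mk_eq] at h3
    rw [TREEM_up l (la + lb + lm + lq) I, TREEM_up l (la + lb + lm + lq) V,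
      mk_one (l + (la + lb + lm + lq)), mk_add, mk_mul, mk_add, mk_lt] at h4
    rw [← ev_UL_drop l (la + lb + lm + lq) (fun z => Ent (S z) (I z) (V z))]
    filter_upwards [h1, h2, h3, h4] with w h1 h2 h3 h4
    exact ⟨_, _, _, _, h1, h2, h3, h4⟩
  · intro h
    refine ⟨mk l (fun z => prl (prl (S z))), mk l (fun z => prr (prl (S z))),
      mk l (fun z => prr (S z)),
      mk l (fun z => prl (prl (S z)) / (prr (prl (S z)) * (I z + 1) + 1)), ?_, ?_, ?_, ?_⟩
    · rw [mk_pr, mk_pr, mk_eq]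
      filter_upwards [h] with z hz
      exact ((TREEM_ent_iff _ _ _).1 hz).1
    · rw [mk_lt]
      filter_upwards [h] with z hz
      exact ((TREEM_ent_iff _ _ _).1 hz).2.1
    · rw [mk_one l, mk_add, mk_mul, mk_add, mk_mul, mk_add, mk_eq]
      filter_upwards [h] with z hz
      rw [((TREEM_ent_iff _ _ _).1 hz).2.2]
      unfold TREEM_ent
      rw [mul_comm (prl (prl (S z)) / (prr (prl (S z)) * (I z + 1) + 1))]
      exact (Nat.div_add_mod _ _).symm
    · rw [mk_one l, mk_add, mk_mul, mk_add, mk_lt]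
      filter_upwards [h] with z hz
      rw [((TREEM_ent_iff _ _ _).1 hz).2.2]
      exact Nat.mod_lt _ (Nat.succ_pos _)

/-- `kappa` at every level -/
theorem TREEM_kappa (l : ℕ) : kappa = mk l kk := by
  have h1 : mk 0 kk = mk (0 + l) (fun w => kk (w.drop l)) := (mk_up 0 l kk).symm
  rw [zero_add] at h1
  unfold kappa
  rw [h1, mk_eq]
  filter_upwards [UL_length l] with z hz
  exact kk_drop z l (by omega)

/-- the membership in the tree may be checked at one level -/
theorem TREEM_mem (ht : TreeOK t) (l : ℕ) (S : List ℕ → ℕ) :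
    mk l S ∈ TTM t ↔
      ∀ᶠ z in (UL l : Filter (List ℕ)), IsCode (S z) ∧ t z (strOf (S z)) = true := by
  constructor
  · intro h
    exact h l S rfl
  · intro h l' S' he
    rw [TREEM_up l l' S, TREEM_up l' l S', add_comm l' l, mk_eq] at he
    have h1 : ∀ᶠ w in (UL (l + l') : Filter (List ℕ)),
        IsCode (S (w.drop l')) ∧ t w (strOf (S (w.drop l'))) = true := by
      rw [ev_UL_add]
      filter_upwards [h, ht.coh.ext l l'] with z hz hc
      filter_upwards [hc (strOf (S z)), ext_drop l' z] with w hw hd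
      rw [hd.1, hw]
      exact hz
    have h2 : ∀ᶠ w in (UL (l + l') : Filter (List ℕ)),
        IsCode (S' (w.drop l)) ∧ t w (strOf (S' (w.drop l))) = true := by
      filter_upwards [h1, he] with w hw hew
      rw [← hew]
      exact hw
    rw [add_comm l l', ev_UL_add] at h2
    filter_upwards [h2, ht.coh.ext l' l] with z hz hc
    obtain ⟨w, hw1, hw2, hw3⟩ := (hz.and ((hc (strOf (S' z))).and (ext_drop l z))).exists
    rw [hw3.1] at hw1
    rw [← hw2]
    exact hw1

/-- CHUNK TREEM (PROOF.md 4.7) -/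
theorem isTree_TTM (ht : TreeOK t) : IsTree kappa (TTM t) := by
  refine ⟨?_, ?_, ?_⟩
  · intro s hs
    obtain ⟨l, S, rfl⟩ := exists_rep s
    refine ⟨mk l (fun z => prr (S z)), ?_⟩
    rw [TREEM_len_mk]
    filter_upwards [(TREEM_mem ht l S).1 hs] with z hz
    exact (TREEM_len_iff _ _).2 ⟨hz.1, rfl⟩
  · intro s hs n i hn hi
    obtain ⟨l, S, N, I, rfl, rfl, rfl⟩ := MM_rep3 s n i
    refine ⟨mk l (fun z => TREEM_ent (S z) (I z)), ?_, ?_⟩
    · rw [TREEM_kappa l, mk_lt]
      rw [mk_lt] at hi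
      filter_upwards [(TREEM_mem ht l S).1 hs, hi, (TREEM_len_mk l S N).1 hn] with z h1 h2 h3
      refine ht.bdd z _ h1.2 _ ?_
      rw [TREEM_strOf, List.mem_map]
      refine ⟨I z, ?_, rfl⟩
      rw [List.mem_range, ← ((TREEM_len_iff _ _).1 h3).2]
      exact h2
    · rw [TREEM_ent_mk]
      rw [mk_lt] at hi
      filter_upwards [hi, (TREEM_len_mk l S N).1 hn] with z h2 h3
      obtain ⟨h4, h5⟩ := (TREEM_len_iff _ _).1 h3
      exact (TREEM_ent_iff _ _ _).2 ⟨h4, h5 ▸ h2, rfl⟩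
  · intro s hs s' n n' hn hn' hle hent
    -- a common level
    obtain ⟨l1, r1⟩ := exists_rep_ge s
    obtain ⟨l2, r2⟩ := exists_rep_ge s'
    obtain ⟨l3, r3⟩ := exists_rep_ge n
    obtain ⟨l4, r4⟩ := exists_rep_ge n'
    obtain ⟨S, rfl⟩ := r1 (l1 + l2 + l3 + l4) (by omega)
    obtain ⟨S', rfl⟩ := r2 (l1 + l2 + l3 + l4) (by omega)
    obtain ⟨N, rfl⟩ := r3 (l1 + l2 + l3 + l4) (by omega)
    obtain ⟨N', rfl⟩ := r4 (l1 + l2 + l3 + l4) (by omega)
    set l := l1 + l2 + l3 + l4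
    rw [TREEM_len_mk] at hn hn'
    have hle' : ∀ᶠ z in (UL l : Filter (List ℕ)), N' z ≤ N z := by
      rcases hle with h | h
      · rw [mk_lt] at h
        exact h.mono fun z hz => hz.le
      · rw [mk_eq] at h
        exact h.mono fun z hz => hz.le
    have hsame : ∀ᶠ z in (UL l : Filter (List ℕ)), ∀ i, i < N' z →
        TREEM_ent (S' z) i = TREEM_ent (S z) i := by
      apply ev_forall_of_choice
      intro u
      rcases (UL l).em (fun z => u z < N' z) with h1 | h1
      · have h2 : Ent (mk l S') (mk l u) (mk l (fun z => TREEM_ent (S' z) (u z))) := by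
          rw [TREEM_ent_mk]
          filter_upwards [hn', h1] with z h3 h4
          obtain ⟨h5, h6⟩ := (TREEM_len_iff _ _).1 h3
          exact (TREEM_ent_iff _ _ _).2 ⟨h5, h6 ▸ h4, rfl⟩
        have h3 := (hent (mk l u) ((mk_lt l u N').2 h1) _).1 h2
        rw [TREEM_ent_mk] at h3
        filter_upwards [h3] with z h4 h5
        exact ((TREEM_ent_iff _ _ _).1 h4).2.2
      · filter_upwards [h1] with z h2 h3
        exact absurd h3 h2
    rw [TREEM_mem ht]
    filter_upwards [(TREEM_mem ht l S).1 hs, hn, hn', hle', hsame] with z h1 h2 h3 h4 h5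
    obtain ⟨h6, h7⟩ := (TREEM_len_iff _ _).1 h2
    obtain ⟨h8, h9⟩ := (TREEM_len_iff _ _).1 h3
    refine ⟨h8, ?_⟩
    have h10 : strOf (S z) = strOf (S' z) ++
        (List.range (N z - N' z)).map (fun i => TREEM_ent (S z) (N' z + i)) := by
      rw [TREEM_strOf, TREEM_strOf, ← h7, ← h9]
      have h11 : N z = N' z + (N z - N' z) := by omega
      conv_lhs => rw [h11, List.range_add, List.map_append]
      congr 1
      · refine List.map_congr_left fun i hi => ?_
        exact (h5 i (List.mem_range.1 hi)).symm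
      · rw [List.map_map]
        rfl
    have h12 := h1.2
    rw [h10] at h12
    exact ht.pre z _ _ h12

theorem infTree_TTM (ht : TreeOK t) : InfTree (TTM t) := by
  intro n
  obtain ⟨l, N, rfl⟩ := exists_rep n
  have h1 : ∀ᶠ z in (UL l : Filter (List ℕ)), ∃ s : ℕ, IsCode s ∧ t z (strOf s) = true ∧
      N z = prr s := by
    filter_upwards [ht.path l] with z hz
    obtain ⟨y, hy⟩ := hz
    obtain ⟨s, h2, h3, h4⟩ := TREEM_exists_code (ini y (N z))
    refine ⟨s, h2, ?_, ?_⟩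
    · rw [h3]
      exact hy (N z)
    · rw [h4]
      simp [ini]
  obtain ⟨S, hS⟩ := ev_choice _ _ h1
  refine ⟨mk l S, ?_, ?_⟩
  · rw [TREEM_mem ht]
    filter_upwards [hS] with z hz
    exact ⟨hz.1, hz.2.1⟩
  · rw [TREEM_len_mk]
    filter_upwards [hS] with z hz
    exact (TREEM_len_iff _ _).2 ⟨hz.1, hz.2.2⟩

theorem TREEM_alive (b : Bool) (D D' : ℕ → CFam) (q : ℕ) (T : Tre) (X : Orc)
    (hT : ∃ y, IsPath T y) :
    alive (compF (thOf (.tree b)) 0 D D' q : Set Sp) T X ↔
      (decide (IsCode (prr q)) && T (strOf (prr q))) = b := by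
  rw [comp_alive (thOf (.tree b)) 0 D D' q T X hT (fun _ _ => false)
    (fun j hj => absurd hj (Nat.not_lt_zero j)) (fun Y' Y'' y _ h => h)]
  constructor
  · rintro ⟨y, -, h⟩
    exact h
  · intro h
    obtain ⟨y, hy⟩ := hT
    exact ⟨y, hy, h⟩

theorem TREEM_aliveM (hF : OpsClosed Θ F) (ht : TreeOK t) {x : List ℕ → Orc} (hx : Coh x)
    {b : Bool} {k : ℕ} {D D' : ℕ → CFam} (hk : F k = compF (thOf (.tree b)) 0 D D')
    (l : ℕ) (u : List ℕ → ℕ) :
    AliveM F t x k (pr (mk l (fun _ => 0)) (mk l u)) ↔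
      ∀ᶠ z in (UL l : Filter (List ℕ)), (decide (IsCode (u z)) && t z (strOf (u z))) = b := by
  have _ := hF
  rw [mk_pr, AliveM_mk ht hx]
  have h1 : ∀ j, (∀ᶠ w in (UL (l + j) : Filter (List ℕ)),
      alive (F k (pr 0 (u (w.drop j))) : Set Sp) (t w) (x w)) ↔
      ∀ᶠ z in (UL l : Filter (List ℕ)), (decide (IsCode (u z)) && t z (strOf (u z))) = b := by
    intro j
    have h2 : (∀ᶠ w in (UL (l + j) : Filter (List ℕ)),
        alive (F k (pr 0 (u (w.drop j))) : Set Sp) (t w) (x w)) ↔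
        ∀ᶠ w in (UL (l + j) : Filter (List ℕ)),
          (decide (IsCode (u (w.drop j))) && t w (strOf (u (w.drop j)))) = b := by
      apply Filter.eventually_congr
      filter_upwards [ht.path (l + j)] with w hw
      rw [hk, TREEM_alive b D D' _ _ _ hw, prr_pr]
    rw [h2, ev_UL_add]
    apply Filter.eventually_congr
    filter_upwards [ht.coh.ext l j] with z hz
    have h3 : (∀ᶠ w in (ext j z : Filter (List ℕ)),
        (decide (IsCode (u (w.drop j))) && t w (strOf (u (w.drop j)))) = b) ↔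
        ∀ᶠ _w in (ext j z : Filter (List ℕ)),
          (decide (IsCode (u z)) && t z (strOf (u z))) = b := by
      apply Filter.eventually_congr
      filter_upwards [hz (strOf (u z)), ext_drop j z] with w hw hd
      rw [hd.1, hw]
    rw [h3, Filter.eventually_const]
  constructor
  · intro h
    exact (h1 0).1 (h 0)
  · intro h j
    exact (h1 j).2 h

theorem rec_TTM (hΘ : ∀ c : ThC, ∃ a, Θ a = thOf c) (hF : OpsClosed Θ F) (ht : TreeOK t)
    {x : List ℕ → Orc} (hx : Good F t x) : ∃ k k' p, RecC F t x k k' p (TTM t) := by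
  obtain ⟨Λ, n0, hgood⟩ := hx
  have hcoh := hgood.coh
  obtain ⟨a, ha⟩ := hΘ (.tree true)
  obtain ⟨a', ha'⟩ := hΘ (.tree false)
  obtain ⟨k, hk⟩ := hF.comp a 0 (fun _ => 0) (fun _ => 0)
  obtain ⟨k', hk'⟩ := hF.comp a' 0 (fun _ => 0) (fun _ => 0)
  rw [ha] at hk
  rw [ha'] at hk'
  refine ⟨k, k', 0, ?_⟩
  intro u
  obtain ⟨l, U', rfl⟩ := exists_rep u
  rw [mk_zero l, TREEM_aliveM hF ht hcoh hk, TREEM_aliveM hF ht hcoh hk', TREEM_mem ht]
  have h1 : ∀ z, (IsCode (U' z) ∧ t z (strOf (U' z)) = true) ↔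
      (decide (IsCode (U' z)) && t z (strOf (U' z))) = true := by
    intro z
    rw [Bool.and_eq_true, decide_eq_true_iff]
  constructor
  · exact Filter.eventually_congr (Eventually.of_forall h1)
  · rw [← Ultrafilter.eventually_not]
    apply Filter.eventually_congr
    refine Eventually.of_forall fun z => ?_
    rw [h1 z, Bool.not_eq_true]

end

end Pool.Agent.Lib.H37R
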