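import Mathlib

/-!
# Chunk ULTRA: iterated ultrafilters on lists

`U` nonprincipal ultrafilter on `ℕ`.  A list `z` of length `l + 1` is a point (fibre) of level `l`;
the head is the last variable, the last element is `kk z`.
`ext j z`: ultrafilter of the extensions of `z` by `j` further variables (at the head);
`UL l`: ultrafilter of level `l`.
-/

namespace Pool.Agent.Lib.H37R

open Filter

/-- nonprincipal ultrafilter on `ℕ` -/
noncomputable def U : Ultrafilter ℕ := Filter.hyperfilter ℕ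

/-- extensions by `j` variables -/
noncomputable def ext : ℕ → List ℕ → Ultrafilter (List ℕ)
  | 0, z => pure z
  | j + 1, z => (ext j z).bind (fun w => U.map (fun y => y :: w))

/-- the ultrafilter of level `l`, concentrated on lists of length `l + 1` -/
noncomputable def UL (l : ℕ) : Ultrafilter (List ℕ) :=
  (U.map (fun y => [y])).bind (ext l)

/-- number of colours of the fibre -/
def kk (z : List ℕ) : ℕ := z.getLastD 0

theorem U_ge (n : ℕ) : ∀ᶠ y in (U : Filter ℕ), n ≤ y :=
  (Filter.eventually_ge_atTop n).filter_mono Nat.hyperfilter_le_atTop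

theorem ev_bind {α β : Type*} (f : Ultrafilter α) (m : α → Ultrafilter β) (P : β → Prop) :
    (∀ᶠ w in (f.bind m : Filter β), P w) ↔ ∀ᶠ x in (f : Filter α), ∀ᶠ w in (m x : Filter β), P w :=
  Iff.rfl

theorem ev_ext_zero (z : List ℕ) (P : List ℕ → Prop) :
    (∀ᶠ w in (ext 0 z : Filter (List ℕ)), P w) ↔ P z :=
  Iff.rfl

theorem ev_ext_succ (j : ℕ) (z : List ℕ) (P : List ℕ → Prop) :
    (∀ᶠ w in (ext (j + 1) z : Filter (List ℕ)), P w) ↔
      ∀ᶠ w in (ext j z : Filter (List ℕ)), ∀ᶠ y in (U : Filter ℕ), P (y :: w) :=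
  Iff.rfl

theorem ev_ext_add (i j : ℕ) (z : List ℕ) (P : List ℕ → Prop) :
    (∀ᶠ w in (ext (i + j) z : Filter (List ℕ)), P w) ↔
      ∀ᶠ w in (ext i z : Filter (List ℕ)), ∀ᶠ w' in (ext j w : Filter (List ℕ)), P w' := by
  induction j generalizing P with
  | zero => exact Iff.rfl
  | succ j ih =>
    rw [← Nat.add_assoc, ev_ext_succ, ih]
    exact Iff.rfl

/-- one variable first, then `j` more -/
theorem ev_ext_succ' (j : ℕ) (z : List ℕ) (P : List ℕ → Prop) :
    (∀ᶠ w in (ext (j + 1) z : Filter (List ℕ)), P w) ↔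
      ∀ᶠ y in (U : Filter ℕ), ∀ᶠ w in (ext j (y :: z) : Filter (List ℕ)), P w := by
  rw [Nat.add_comm j 1, ev_ext_add, ev_ext_succ, ev_ext_zero]

theorem ev_UL_add (l j : ℕ) (P : List ℕ → Prop) :
    (∀ᶠ w in (UL (l + j) : Filter (List ℕ)), P w) ↔
      ∀ᶠ z in (UL l : Filter (List ℕ)), ∀ᶠ w in (ext j z : Filter (List ℕ)), P w := by
  unfold UL
  rw [ev_bind, ev_bind]
  simp only [ev_ext_add]

theorem ev_UL_zero (P : List ℕ → Prop) :
    (∀ᶠ z in (UL 0 : Filter (List ℕ)), P z) ↔ ∀ᶠ y in (U : Filter ℕ), P [y] :=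
  Iff.rfl

theorem ev_UL_succ (l : ℕ) (P : List ℕ → Prop) :
    (∀ᶠ w in (UL (l + 1) : Filter (List ℕ)), P w) ↔
      ∀ᶠ z in (UL l : Filter (List ℕ)), ∀ᶠ y in (U : Filter ℕ), P (y :: z) := by
  rw [ev_UL_add]
  exact Iff.rfl

/-- the extensions of `z` extend `z` -/
theorem ext_drop (j : ℕ) (z : List ℕ) :
    ∀ᶠ w in (ext j z : Filter (List ℕ)), w.drop j = z ∧ w.length = z.length + j := by
  induction j with
  | zero =>
    rw [ev_ext_zero]
    exact ⟨rfl, rfl⟩
  | succ j ih =>
    rw [ev_ext_succ]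
    refine ih.mono fun w hw => ?_
    refine Filter.Eventually.of_forall fun y => ⟨hw.1, ?_⟩
    rw [List.length_cons, hw.2]
    omega

theorem UL_length (l : ℕ) : ∀ᶠ z in (UL l : Filter (List ℕ)), z.length = l + 1 := by
  unfold UL
  rw [ev_bind]
  show ∀ᶠ y in (U : Filter ℕ), ∀ᶠ w in (ext l [y] : Filter (List ℕ)), w.length = l + 1
  refine Filter.Eventually.of_forall fun y => ?_
  refine (ext_drop l [y]).mono fun w hw => ?_
  rw [hw.2, List.length_singleton]
  omega

/-- a property of the lower level fibre -/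
theorem ev_UL_drop (l j : ℕ) (P : List ℕ → Prop) :
    (∀ᶠ w in (UL (l + j) : Filter (List ℕ)), P (w.drop j)) ↔
      ∀ᶠ z in (UL l : Filter (List ℕ)), P z := by
  rw [ev_UL_add]
  have h : ∀ z, (∀ᶠ w in (ext j z : Filter (List ℕ)), P (w.drop j)) ↔ P z := by
    intro z
    rw [Filter.eventually_congr (q := fun _ => P z)
      ((ext_drop j z).mono fun w hw => by rw [hw.1])]
    exact Filter.eventually_const
  simp only [h]

theorem ev_ext_drop (j : ℕ) (z : List ℕ) (P : List ℕ → Prop) :
    (∀ᶠ w in (ext j z : Filter (List ℕ)), P (w.drop j)) ↔ P z := by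
  rw [Filter.eventually_congr (q := fun _ => P z)
    ((ext_drop j z).mono fun w hw => by rw [hw.1])]
  exact Filter.eventually_const

theorem UL_head (l n : ℕ) : ∀ᶠ z in (UL l : Filter (List ℕ)), n ≤ z.headD 0 := by
  cases l with
  | zero =>
    rw [ev_UL_zero]
    exact U_ge n
  | succ l =>
    rw [ev_UL_succ]
    exact Filter.Eventually.of_forall fun z => U_ge n

theorem ext_head (j n : ℕ) (z : List ℕ) :
    ∀ᶠ w in (ext (j + 1) z : Filter (List ℕ)), n ≤ w.headD 0 := by
  rw [ev_ext_succ]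
  exact Filter.Eventually.of_forall fun z => U_ge n

theorem UL_kk (l n : ℕ) : ∀ᶠ z in (UL l : Filter (List ℕ)), n ≤ kk z := by
  induction l with
  | zero =>
    rw [ev_UL_zero]
    exact U_ge n
  | succ l ih =>
    rw [ev_UL_succ]
    filter_upwards [ih, UL_length l] with z hz hl
    refine Filter.Eventually.of_forall fun y => ?_
    have : kk (y :: z) = kk z := by
      cases z with
      | nil => simp at hl
      | cons a z => rfl
    rw [this]
    exact hz

theorem kk_cons (y : ℕ) (z : List ℕ) (hz : z ≠ []) : kk (y :: z) = kk z := by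
  cases z with
  | nil => exact absurd rfl hz
  | cons a z => rfl

theorem kk_drop (w : List ℕ) (j : ℕ) (h : j < w.length) : kk (w.drop j) = kk w := by
  induction j generalizing w with
  | zero => rfl
  | succ j ih =>
    cases w with
    | nil => simp at h
    | cons a w =>
      have h' : j < w.length := by simpa using h
      rw [List.drop_succ_cons, ih w h']
      refine (kk_cons a w ?_).symm
      rintro rfl
      simp at h'

/-- finite pigeonhole for ultrafilters -/
theorem fin_choice {α : Type*} (F : Ultrafilter α) (f : α → ℕ) (b : ℕ)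
    (h : ∀ᶠ w in (F : Filter α), f w < b) : ∃ c < b, ∀ᶠ w in (F : Filter α), f w = c := by
  have h1 : ∀ᶠ w in (F : Filter α), ∃ c ∈ Set.Iio b, f w = c :=
    h.mono fun w hw => ⟨f w, hw, rfl⟩
  rw [Ultrafilter.eventually_exists_mem_iff (Set.finite_Iio b)] at h1
  obtain ⟨c, hc, h2⟩ := h1
  exact ⟨c, hc, h2⟩

/-- finite pigeonhole for ultrafilters, finite type of values -/
theorem fin_choice' {α β : Type*} [Finite β] (F : Ultrafilter α) (f : α → β) :
    ∃ c, ∀ᶠ w in (F : Filter α), f w = c := by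
  have h1 : ∀ᶠ w in (F : Filter α), ∃ c, f w = c :=
    Filter.Eventually.of_forall fun w => ⟨f w, rfl⟩
  rwa [Ultrafilter.eventually_exists_iff] at h1

/-- choice principle -/
theorem ev_choice {α β : Type*} [Nonempty β] (F : Filter α) (P : α → β → Prop)
    (h : ∀ᶠ z in F, ∃ u, P z u) : ∃ u : α → β, ∀ᶠ z in F, P z (u z) := by
  have h1 : ∀ z, ∃ u, (∃ u, P z u) → P z u := by
    intro z
    by_cases hz : ∃ u, P z u
    · obtain ⟨u, hu⟩ := hz
      exact ⟨u, fun _ => hu⟩
    · exact ⟨Classical.arbitrary β, fun h => absurd h hz⟩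
  choose u hu using h1
  exact ⟨u, h.mono fun z hz => hu z hz⟩

/-- contrapositive form of the choice principle: to prove that a.e. `z` satisfies `∀ u, P z u` it is
enough to consider choice functions -/
theorem ev_forall_of_choice {α β : Type*} [Nonempty β] (F : Ultrafilter α) (P : α → β → Prop)
    (h : ∀ u : α → β, ∀ᶠ z in (F : Filter α), P z (u z)) :
    ∀ᶠ z in (F : Filter α), ∀ u, P z u := by
  by_contra hcon
  rw [← Ultrafilter.eventually_not] at hcon
  have h1 : ∀ᶠ z in (F : Filter α), ∃ u, ¬ P z u := hcon.mono fun z hz => not_forall.1 hz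
  obtain ⟨u, hu⟩ := ev_choice (F : Filter α) (fun z u => ¬ P z u) h1
  obtain ⟨z, hz1, hz2⟩ := (hu.and (h u)).exists
  exact hz1 hz2

/-- overspill: `v w` is the maximum of `0` and all `m ≤ head w` such that `Q v' w` for all
`v' ≤ m` -/
theorem overspill (j : ℕ) (Q : ℕ → List ℕ → Prop) :
    ∃ v : List ℕ → ℕ, ∀ z : List ℕ,
      (∀ n, ∀ᶠ w in (ext (j + 1) z : Filter (List ℕ)), Q n w) →
        (∀ᶠ w in (ext (j + 1) z : Filter (List ℕ)), Q (v w) w) ∧
          ∀ n, ∀ᶠ w in (ext (j + 1) z : Filter (List ℕ)), n ≤ v w := by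
  classical
  refine ⟨fun w => Nat.findGreatest (fun m => ∀ v' ≤ m, Q v' w) (w.headD 0), ?_⟩
  intro z hz
  constructor
  · refine (hz 0).mono fun w hw => ?_
    have h0 : ∀ v' ≤ 0, Q v' w := by
      intro v' hv'
      obtain rfl : v' = 0 := by omega
      exact hw
    exact Nat.findGreatest_spec (P := fun m => ∀ v' ≤ m, Q v' w) (Nat.zero_le (w.headD 0)) h0 _ le_rfl
  · intro n
    have h1 : ∀ᶠ w in (ext (j + 1) z : Filter (List ℕ)), ∀ v' ∈ Set.Iic n, Q v' w :=
      (Filter.eventually_all_finite (Set.finite_Iic n)).2 fun v' _ => hz v'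
    filter_upwards [h1, ext_head j n z] with w hw1 hw2
    exact Nat.le_findGreatest hw2 hw1

/-- coherent families of functions `α → β` indexed by the fibres -/
def Coh {α β : Type*} (s : List ℕ → α → β) : Prop :=
  ∀ l, ∀ᶠ z in (UL l : Filter (List ℕ)), ∀ a, ∀ᶠ y in (U : Filter ℕ), s (y :: z) a = s z a

private theorem ULTRA_coh {α β : Type*} {s : List ℕ → α → β} (h : Coh s) (l j : ℕ) :
    ∀ᶠ z in (UL l : Filter (List ℕ)), ∀ a, ∀ᶠ w in (ext j z : Filter (List ℕ)), s w a = s z a := by
  induction j with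
  | zero =>
    refine Filter.Eventually.of_forall fun z a => ?_
    rw [ev_ext_zero]
  | succ j ih =>
    have h1 := h (l + j)
    rw [ev_UL_add] at h1
    filter_upwards [h1, ih] with z hz1 hz2 a
    rw [ev_ext_succ]
    filter_upwards [hz1, hz2 a] with w hw1 hw2
    refine (hw1 a).mono fun y hy => ?_
    rw [hy, hw2]

theorem Coh.ext {α β : Type*} {s : List ℕ → α → β} (h : Coh s) (l j : ℕ) :
    ∀ᶠ z in (UL l : Filter (List ℕ)), ∀ a, ∀ᶠ w in (ext j z : Filter (List ℕ)), s w a = s z a :=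
  ULTRA_coh h l j

/-- values below a bound agree simultaneously -/
theorem Coh.ext_lt {β : Type*} {s : List ℕ → ℕ → β} (h : Coh s) (l j : ℕ) :
    ∀ᶠ z in (UL l : Filter (List ℕ)), ∀ n, ∀ᶠ w in (Pool.Agent.Lib.H37R.ext j z : Filter (List ℕ)),
      ∀ a < n, s w a = s z a := by
  refine (ULTRA_coh h l j).mono fun z hz n => ?_
  exact (Filter.eventually_all_finite (Set.finite_Iio n)).2 fun a _ => hz a

end Pool.Agent.Lib.H37R
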