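import Pool.Agent.Lib.H37R.Theta
import Pool.Agent.Lib.H37R.Los
import Pool.Agent.Lib.H37R.Rec

/-!
# Chunk UNIF: uniform limits (PROOF.md 4.5)
-/

namespace Pool.Agent.Lib.H37R

open Filter Topology

/-- `x_0`-th row, `x_1 = s`, `x_2 = b`: `s ≤ b` and the colours of `(x_0, b)`, `(x_0, s)` are different -/
def unifA (n : ℕ) : Fm :=
  .mem (.add (.mul (.add (.var 0) (.var n)) (.add (.var 0) (.var n))) (.var 0)) 0

def unifF : Fm :=
  .and (.neg (.lt (.var 2) (.var 1)))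
    (.neg (.and (.neg (.and (unifA 2) (.neg (unifA 1)))) (.neg (.and (unifA 1) (.neg (unifA 2))))))

theorem unifF_D0 : unifF.D0 := ⟨trivial, ⟨trivial, trivial⟩, trivial, trivial⟩

theorem unifF_sat (Y : ℕ → Orc) (v : ℕ → ℕ) :
    unifF.sat (fun n => {u | Y n u = true}) v ↔
      (v 1 ≤ v 2 ∧ Y 0 (pr (v 0) (v 2)) ≠ Y 0 (pr (v 0) (v 1))) := by
  have e : unifF.sat (fun n => {u | Y n u = true}) v ↔
      (¬ v 2 < v 1 ∧ ¬ ((¬ (Y 0 (pr (v 0) (v 2)) = true ∧ ¬ Y 0 (pr (v 0) (v 1)) = true)) ∧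
        (¬ (Y 0 (pr (v 0) (v 1)) = true ∧ ¬ Y 0 (pr (v 0) (v 2)) = true)))) := Iff.rfl
  rw [e, not_lt]
  cases Y 0 (pr (v 0) (v 2)) <;> cases Y 0 (pr (v 0) (v 1)) <;> simp

theorem unif_th (q : ℕ) (T : Tre) (X : Orc) (Y : ℕ → Orc) (y : ℕ → ℕ) :
    (T, X, Y, y) ∈ thP q (.fm unifF 1 2 1) ↔
      ∀ b, prr q ≤ b → Y 0 (pr (cmp 1 (prl q)) b) = Y 0 (pr (cmp 1 (prl q)) (prr q)) := by
  have h0 : ∀ b, upd (fun n => cmp (1 + n) (prl q)) 1 (prr q) 2 b 0 = cmp 1 (prl q) := by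
    intro b
    simp [upd]
  have h1 : ∀ b, upd (fun n => cmp (1 + n) (prl q)) 1 (prr q) 2 b 1 = prr q := by
    intro b
    simp [upd]
  have h2 : ∀ b, upd (fun n => cmp (1 + n) (prl q)) 1 (prr q) 2 b 2 = b := by
    intro b
    simp [upd]
  show (unifF.D0 ∧ ∀ b : ℕ, ¬ unifF.sat (fun n => {u | Y n u = true})
      (upd (fun n => cmp (1 + n) (prl q)) 1 (prr q) 2 b)) ↔ _
  simp only [unifF_sat, h0, h1, h2]
  constructor
  · rintro ⟨_, h⟩ b hb
    by_contra hne
    exact h b ⟨hb, hne⟩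
  · intro h
    exact ⟨unifF_D0, fun b hb => hb.2 (h b hb.1)⟩

/-- countable saturation at a level -/
theorem unif_sat (l : ℕ) (Q : ℕ → List ℕ → ℕ → Prop)
    (hanti : ∀ n m z h, n ≤ m → Q m z h → Q n z h)
    (hQ : ∀ n, ∀ᶠ z in (UL l : Filter (List ℕ)), ∃ h, Q n z h) :
    ∃ h : List ℕ → ℕ, ∀ n, ∀ᶠ z in (UL l : Filter (List ℕ)), Q n z (h z) := by
  classical
  let N : List ℕ → ℕ := fun z => Nat.findGreatest (fun n => ∃ h, Q n z h) (z.headD 0)
  let h : List ℕ → ℕ := fun z => if hz : ∃ h, Q (N z) z h then hz.choose else 0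
  refine ⟨h, fun n => ?_⟩
  filter_upwards [hQ n, UL_head l n] with z h1 h2
  have h3 : n ≤ N z := Nat.le_findGreatest h2 h1
  have h4 : ∃ h, Q (N z) z h := Nat.findGreatest_spec (P := fun n => ∃ h, Q n z h) h2 h1
  have h5 : Q (N z) z (h z) := by
    simp only [h, dif_pos h4]
    exact h4.choose_spec
  exact hanti n (N z) z _ h3 h5

section
variable {Θ : ℕ → Th} {F : ℕ → CFam} {t : List ℕ → Tre}

/-- CHUNK UNIF (PROOF.md 4.5): uniform limits -/
theorem unif_limit (hΘ : ∀ c : ThC, ∃ a, Θ a = thOf c) (hF : OpsClosed Θ F) (ht : TreeOK t)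
    {x : List ℕ → Orc} (hx : Good F t x) (C : Set MM) (hC : ∃ i i' p, RecC F t x i i' p C)
    (hst : Stable C) (b : MM) :
    ∃ s : MM, b < s ∧ ∀ h, ¬ b < h → ∀ y, ¬ y < s → (pr h y ∈ C ↔ pr h s ∈ C) := by
  classical
  obtain ⟨Λ, n0, hx⟩ := hx
  obtain ⟨i, i', p, hp⟩ := hC
  obtain ⟨a, ha⟩ := hΘ (.fm unifF 1 2 1)
  obtain ⟨k, hk⟩ := hF.comp a 1 (fun _ => i) (fun _ => i')
  rw [ha] at hk
  obtain ⟨L0, P0, rfl⟩ := exists_rep p
  -- good levels
  let S : Set ℕ := {l | l ∈ Λ ∧ L0 ≤ l ∧ n0 i 1 ≤ l ∧ n0 i' 1 ≤ l ∧ n0 k 1 ≤ l}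
  have hS : ∀ n, ∃ l ∈ S, n ≤ l := by
    intro n
    obtain ⟨l, h1, h2⟩ := hx.inf.exists_gt (n + L0 + n0 i 1 + n0 i' 1 + n0 k 1)
    exact ⟨l, ⟨h1, by omega, by omega, by omega, by omega⟩, by omega⟩
  let PP : ℕ → List ℕ → ℕ := fun l w => P0 (w.drop (l - L0))
  have hPP : ∀ l, L0 ≤ l → mk L0 P0 = mk l (PP l) := by
    intro l hl
    obtain ⟨j, rfl⟩ := Nat.exists_eq_add_of_le hl
    rw [← mk_up L0 j P0]
    simp only [PP, Nat.add_sub_cancel_left]
  let f : ℕ → List ℕ → Orc := fun l z => repS F t x i (PP l) z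
  have hrep : ∀ l ∈ S, ∀ u : List ℕ → ℕ,
      (mk l u ∈ C ↔ ∀ᶠ z in (UL l : Filter (List ℕ)), f l z (u z) = true) := by
    intro l hl u
    have hp' : RecC F t x i i' (mk l (PP l)) C := by rw [← hPP l hl.2.1]; exact hp
    exact rep_mem ht hx hp' hl.1 hl.2.2.1 u
  -- the class
  have key2 : ∀ l ∈ S, ∀ᶠ z in (UL l : Filter (List ℕ)), ∀ hs : ℕ × ℕ,
      (alive (F k (pr (tup [PP l z, hs.1]) hs.2) : Set Sp) (t z) (x z) ↔
        ∀ y, hs.2 ≤ y → f l z (pr hs.1 y) = f l z (pr hs.1 hs.2)) := by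
    intro l hl
    apply ev_forall_of_choice
    intro u
    have hp' : ∀ j < 1, RecC F t x i i' (mk l (PP l)) C := by
      intro j _
      rw [← hPP l hl.2.1]; exact hp
    have h1 := comp_model ht hx (thOf (.fm unifF 1 2 1)) 1 (fun _ => i) (fun _ => i')
      (fun _ => PP l) (fun _ => C) k l hk (by
        intro q T X Y' Y'' y hY hmem
        have h5 := (unif_th q T X Y' y).1 hmem
        apply (unif_th q T X Y'' y).2
        rw [← hY 0 Nat.one_pos]
        exact h5) hl.1 (fun _ _ => hl.2.2.1) (fun _ _ => hl.2.2.2.1) hp'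
      [fun z => (u z).1] (fun z => (u z).2)
    filter_upwards [h1, ht.path l] with z h2 h3
    have e1 : ((List.map (fun _ => PP l) (List.range 1) ++ [fun z => (u z).1]).map (fun a => a z)) =
        [PP l z, (u z).1] := rfl
    rw [e1] at h2
    rw [h2]
    have e2 : ∀ y : ℕ → ℕ, (t z, x z, (fun _ : ℕ => repS F t x i (PP l) z), y) ∈
        (((thOf (.fm unifF 1 2 1)) (pr (tup [PP l z, (u z).1]) (u z).2) :
          TopologicalSpace.Closeds (Tre × Orc × (ℕ → Orc) × (ℕ → ℕ))) :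
            Set (Tre × Orc × (ℕ → Orc) × (ℕ → ℕ))) ↔
        ∀ y, (u z).2 ≤ y → f l z (pr (u z).1 y) = f l z (pr (u z).1 (u z).2) := by
      intro y
      refine (unif_th _ _ _ _ _).trans ?_
      rw [prr_pr, prl_pr, cmp_tup _ _ (by simp)]
      rfl
    simp only [e2]
    constructor
    · rintro ⟨y, _, h4⟩
      exact h4
    · intro h4
      obtain ⟨y, hy⟩ := h3
      exact ⟨y, hy, h4⟩
  -- facts go up
  have key3 : ∀ l ∈ S, ∀ j, l + j ∈ S → ∀ᶠ z in (UL l : Filter (List ℕ)), ∀ h s,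
      (∀ y, s ≤ y → f l z (pr h y) = f l z (pr h s)) →
      ∀ᶠ w in (ext j z : Filter (List ℕ)), ∀ y, s ≤ y → f (l + j) w (pr h y) = f (l + j) w (pr h s) := by
    intro l hl j hlj
    have h1 := key2 (l + j) hlj
    rw [ev_UL_add] at h1
    filter_upwards [h1, key2 l hl, hx.refl_pt ht (i := k) hl.1 hl.2.2.2.2 j] with z a1 a2 a3 h s hhs
    have b1 := a3 _ ((a2 (h, s)).2 hhs)
    filter_upwards [a1, b1, ext_drop j z] with w c1 c2 c3
    have e : PP (l + j) w = PP l z := by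
      simp only [PP]
      have h5 : l + j - L0 = j + (l - L0) := by
        have := hl.2.1
        omega
      rw [h5, ← List.drop_drop, c3.1]
    have c4 := c1 (h, s)
    rw [e] at c4
    exact c4.1 c2
  -- eventually constant rows
  let EC : ℕ → List ℕ → ℕ → Prop := fun l z h =>
    ∃ s, ∀ y, s ≤ y → f l z (pr h y) = f l z (pr h s)
  obtain ⟨lb, hlb⟩ := exists_rep_ge b
  by_cases hcase : ∃ l ∈ S, ∃ b' : List ℕ → ℕ, b = mk l b' ∧
      ∀ᶠ z in (UL l : Filter (List ℕ)), ∀ h ≤ b' z, EC l z h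
  · -- case 1
    obtain ⟨l, hl, b', rfl, hEC⟩ := hcase
    have h1 : ∀ᶠ z in (UL l : Filter (List ℕ)), ∃ s, b' z < s ∧ ∀ h ≤ b' z, ∀ y, s ≤ y →
        f l z (pr h y) = f l z (pr h s) := by
      filter_upwards [hEC] with z hz
      choose! g hg using hz
      refine ⟨b' z + 1 + ∑ h ∈ Finset.range (b' z + 1), g h, by omega, ?_⟩
      intro h hh y hy
      have h2 : g h ≤ ∑ h ∈ Finset.range (b' z + 1), g h :=
        Finset.single_le_sum (fun _ _ => Nat.zero_le _) (Finset.mem_range.2 (Nat.lt_succ_of_le hh))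
      rw [hg h hh y (by omega), hg h hh (b' z + 1 + ∑ h ∈ Finset.range (b' z + 1), g h) (by omega)]
    obtain ⟨s, hs⟩ := ev_choice _ _ h1
    refine ⟨mk l s, ?_, ?_⟩
    · rw [mk_lt]
      filter_upwards [hs] with z hz
      exact hz.1
    · intro h hbh y hys
      obtain ⟨h', rfl⟩ := mk_end' l b' h hbh
      obtain ⟨ly, hly⟩ := exists_rep_ge y
      obtain ⟨l', hl'S, hl'⟩ := hS (l + ly)
      obtain ⟨j, rfl⟩ : ∃ j, l' = l + j := ⟨l' - l, by omega⟩
      obtain ⟨y', rfl⟩ := hly (l + j) (by omega)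
      have e1 : pr (mk l h') (mk (l + j) y') =
          mk (l + j) (fun w => pr (h' (w.drop j)) (y' w)) := by
        rw [← mk_up l j h', mk_pr]
      have e2 : pr (mk l h') (mk l s) =
          mk (l + j) (fun w => pr (h' (w.drop j)) (s (w.drop j))) := by
        rw [← mk_up l j h', ← mk_up l j s, mk_pr]
      rw [e1, e2, hrep _ hl'S, hrep _ hl'S]
      rw [← mk_up l j s, mk_lt, ← Ultrafilter.eventually_not] at hys
      rw [mk_lt, ← Ultrafilter.eventually_not] at hbh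
      have h2 : ∀ᶠ w in (UL (l + j) : Filter (List ℕ)),
          f (l + j) w (pr (h' (w.drop j)) (y' w)) = f (l + j) w (pr (h' (w.drop j)) (s (w.drop j))) := by
        rw [ev_UL_add] at hys ⊢
        filter_upwards [hys, hbh, hs, key3 l hl j hl'S] with z c1 c2 c3 c4
        have c5 := c4 (h' z) (s z) (c3.2 (h' z) (not_lt.1 c2))
        filter_upwards [c1, c5, ext_drop j z] with w d1 d2 d3
        rw [d3.1] at d1 ⊢
        exact d2 (y' w) (not_lt.1 d1)
      exact Filter.eventually_congr (h2.mono (fun w hw => by rw [hw]))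
  · -- case 2
    exfalso
    push Not at hcase
    obtain ⟨l0, hl0, hl0b⟩ := hS lb
    obtain ⟨b0, rfl⟩ := hlb l0 hl0b
    have h1 : ∀ j, l0 + j ∈ S → ∀ᶠ z in (UL l0 : Filter (List ℕ)),
        ∃ h, h ≤ b0 z ∧ ∀ᶠ w in (ext j z : Filter (List ℕ)), ¬ EC (l0 + j) w h := by
      intro j hj
      have h2 := hcase (l0 + j) hj (fun w => b0 (w.drop j)) (mk_up l0 j b0).symm
      rw [ev_UL_add] at h2
      filter_upwards [h2] with z hz
      have h3 : ∀ᶠ w in (ext j z : Filter (List ℕ)), ∃ h, h ≤ b0 z ∧ ¬ EC (l0 + j) w h := by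
        filter_upwards [hz, ext_drop j z] with w c1 c2
        rw [c2.1] at c1
        exact c1
      obtain ⟨g, hg⟩ := ev_choice _ _ h3
      obtain ⟨c, hc1, hc2⟩ := fin_choice (ext j z) g (b0 z + 1)
        (hg.mono (fun w hw => Nat.lt_succ_of_le hw.1))
      refine ⟨c, Nat.le_of_lt_succ hc1, ?_⟩
      filter_upwards [hg, hc2] with w c3 c4
      rw [← c4]
      exact c3.2
    -- the rows which are not eventually constant at a level are not eventually constant below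
    have h2 : ∀ j j', j ≤ j' → l0 + j ∈ S → l0 + j' ∈ S → ∀ᶠ z in (UL l0 : Filter (List ℕ)), ∀ h,
        (∀ᶠ w in (ext j' z : Filter (List ℕ)), ¬ EC (l0 + j') w h) →
        ∀ᶠ w in (ext j z : Filter (List ℕ)), ¬ EC (l0 + j) w h := by
      intro j j' hjj hj hj'
      obtain ⟨d, rfl⟩ := Nat.exists_eq_add_of_le hjj
      have h3 := key3 (l0 + j) hj d (by rw [add_assoc]; exact hj')
      rw [ev_UL_add] at h3
      filter_upwards [h3] with z hz h hh
      rw [Ultrafilter.eventually_not]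
      intro h4
      have h5 : ∀ᶠ w in (ext (j + d) z : Filter (List ℕ)), EC (l0 + (j + d)) w h := by
        rw [ev_ext_add]
        filter_upwards [hz, h4] with w c1 c2
        obtain ⟨s, hs⟩ := c2
        filter_upwards [c1 h s hs] with w' c3
        refine ⟨s, ?_⟩
        rw [← add_assoc]
        exact c3
      obtain ⟨w, hw1, hw2⟩ := (hh.and h5).exists
      exact hw1 hw2
    obtain ⟨h0, hh0⟩ := unif_sat l0 (fun n z h => h ≤ b0 z ∧ ∀ j ≤ n, l0 + j ∈ S →
        ∀ᶠ w in (ext j z : Filter (List ℕ)), ¬ EC (l0 + j) w h)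
      (fun n m z h hnm hQ => ⟨hQ.1, fun j hj => hQ.2 j (le_trans hj hnm)⟩) (by
        intro n
        have hex : ∃ j, j ≤ n ∧ l0 + j ∈ S ∧ ∀ j' ≤ n, l0 + j' ∈ S → j' ≤ j := by
          have h6 : l0 + Nat.findGreatest (fun j => l0 + j ∈ S) n ∈ S :=
            Nat.findGreatest_spec (P := fun j => l0 + j ∈ S) (Nat.zero_le n) (by simpa using hl0)
          exact ⟨Nat.findGreatest (fun j => l0 + j ∈ S) n, Nat.findGreatest_le n, h6,
            fun j' h7 h8 => Nat.le_findGreatest h7 h8⟩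
        obtain ⟨j, hjn, hjS, hj⟩ := hex
        have h3 : ∀ᶠ z in (UL l0 : Filter (List ℕ)), ∀ j' ∈ Finset.range (n + 1), l0 + j' ∈ S →
            ∀ h, (∀ᶠ w in (ext j z : Filter (List ℕ)), ¬ EC (l0 + j) w h) →
            ∀ᶠ w in (ext j' z : Filter (List ℕ)), ¬ EC (l0 + j') w h := by
          rw [Filter.eventually_all_finset]
          intro j' hj'
          by_cases hS' : l0 + j' ∈ S
          · have := h2 j' j (hj j' (Nat.le_of_lt_succ (Finset.mem_range.1 hj')) hS') hS' hjS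
            filter_upwards [this] with z hz _
            exact hz
          · exact Eventually.of_forall (fun z h => absurd h hS')
        filter_upwards [h1 j hjS, h3] with z c1 c2
        obtain ⟨h, hh1, hh2⟩ := c1
        exact ⟨h, hh1, fun j' hj' hS' => c2 j' (Finset.mem_range.2 (Nat.lt_succ_of_le hj')) hS' h hh2⟩)
    obtain ⟨s, hs⟩ := hst (mk l0 h0)
    obtain ⟨ls, hls⟩ := exists_rep_ge s
    obtain ⟨l', hl'S, hl'⟩ := hS (l0 + ls)
    obtain ⟨j, rfl⟩ : ∃ j, l' = l0 + j := ⟨l' - l0, by omega⟩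
    obtain ⟨s', rfl⟩ := hls (l0 + j) (by omega)
    have h3 : ∀ᶠ w in (UL (l0 + j) : Filter (List ℕ)), ¬ EC (l0 + j) w (h0 (w.drop j)) := by
      rw [ev_UL_add]
      filter_upwards [hh0 j] with z hz
      filter_upwards [hz.2 j le_rfl hl'S, ext_drop j z] with w c1 c2
      rw [c2.1]
      exact c1
    have h4 : ∀ᶠ w in (UL (l0 + j) : Filter (List ℕ)), ∃ y : ℕ × ℕ,
        (s' w < y.1 ∧ h0 (w.drop j) < y.1 ∧ f (l0 + j) w (pr (h0 (w.drop j)) y.1) = true) ∧
        (s' w < y.2 ∧ h0 (w.drop j) < y.2 ∧ f (l0 + j) w (pr (h0 (w.drop j)) y.2) = false) := by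
      filter_upwards [h3] with w hw
      have c : ∀ v : Bool, ∃ y, s' w < y ∧ h0 (w.drop j) < y ∧
          f (l0 + j) w (pr (h0 (w.drop j)) y) = v := by
        intro v
        by_contra hcon
        push Not at hcon
        apply hw
        refine ⟨s' w + h0 (w.drop j) + 1, ?_⟩
        intro y hy
        have d1 := hcon y (by omega) (by omega)
        have d2 := hcon (s' w + h0 (w.drop j) + 1) (by omega) (by omega)
        revert d1 d2
        cases f (l0 + j) w (pr (h0 (w.drop j)) y) <;>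
          cases f (l0 + j) w (pr (h0 (w.drop j)) (s' w + h0 (w.drop j) + 1)) <;>
          cases v <;> simp
      obtain ⟨y1, hy1⟩ := c true
      obtain ⟨y2, hy2⟩ := c false
      exact ⟨(y1, y2), hy1, hy2⟩
    obtain ⟨y, hy⟩ := ev_choice _ _ h4
    have e0 : mk l0 h0 = mk (l0 + j) (fun w => h0 (w.drop j)) := (mk_up l0 j h0).symm
    have h5 := hs (mk (l0 + j) (fun w => (y w).1)) (mk (l0 + j) (fun w => (y w).2))
      ((mk_lt _ _ _).2 (hy.mono (fun w hw => hw.1.1)))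
      ((mk_lt _ _ _).2 (hy.mono (fun w hw => hw.2.1)))
      (by rw [e0]; exact (mk_lt _ _ _).2 (hy.mono (fun w hw => hw.1.2.1)))
      (by rw [e0]; exact (mk_lt _ _ _).2 (hy.mono (fun w hw => hw.2.2.1)))
    rw [e0, mk_pr, mk_pr, hrep _ hl'S, hrep _ hl'S] at h5
    have h6 := h5.1 (hy.mono (fun w hw => hw.1.2.2))
    obtain ⟨w, hw1, hw2⟩ := (h6.and hy).exists
    rw [hw2.2.2.2] at hw1
    exact absurd hw1 (by simp)

end

end Pool.Agent.Lib.H37R
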